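import Pool.Agent.Run7.h176.NC.Cusp

/-!
# Neighbourhoods of geodesics given by an integral form
-/

set_option autoImplicit false

open UpperHalfPlane Matrix MeasureTheory Filter Topology
open scoped MatrixGroups ENNReal Modular

namespace Pool.Agent.Run7.h176.NC

theorem curve_off {S : Mat → Prop} {u v w x y t : ℤ} (hbez : x * u + y * v + t * w = 1)
    (hquot : ∀ m m' b b' : ℕ, Adm m → Adm m' → IsCoprime (qv u v w b) (m : ℤ) →
      IsCoprime (qv u v w b') (m' : ℤ) → ∀ γ γ₀ : SL(2, ℤ),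
      0 < ((γ.1.adjugate * TT m b).adjugate * (γ₀.1.adjugate * TT m' b')).det →
      S ((γ.1.adjugate * TT m b).adjugate * (γ₀.1.adjugate * TT m' b')) →
      ∃ x : SL(2, ℤ), γ₀.1.adjugate * TT m' b' = γ.1.adjugate * TT m b * x.1)
    {C₀ θ : ℝ} (hC₀ : 1 ≤ C₀) (hθ : θ ≤ 1 / 6)
    {L : Set ℍ} (hL : IsCompact L)
    (hfin : ∀ A : Mat, 0 < A.det → ¬ S A → {x | x ∈ L ∧ GM A • x ∈ L}.Finite)
    {ε : ℝ} (hε : 0 < ε) :
    ∃ δ : ℝ, 0 < δ ∧ ∀ (f : ℍ → ℂ) (l : ℕ → ℂ), HeckeForm f l →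
      (∀ p : ℕ, p.Prime → ‖l p‖ ≤ C₀ * (p : ℝ) ^ θ) → ∀ q : ℝ, 1 ≤ q → q ≤ 3 →
      ∫⁻ z in Metric.thickening δ L, ‖f z‖ₑ ^ q ≤
        ENNReal.ofReal ε * ∫⁻ z in 𝒟, ‖f z‖ₑ ^ q := by
  classical
  rcases L.eq_empty_or_nonempty with hem | hne
  · refine ⟨1, one_pos, fun f l _ _ q _ _ => ?_⟩
    rw [hem]; simp
  set K : Set ℍ := Metric.cthickening 1 L with hK
  have hKc : IsCompact K := hL.cthickening
  set n : ℕ := Nat.card {γ : SL(2, ℤ) // ∃ x ∈ K, γ • x ∈ K} with hn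
  set κ : ℝ := 12 * C₀ ^ (3 : ℝ) with hκ
  have hκ0 : 0 < κ := by
    have : (0 : ℝ) < C₀ ^ (3 : ℝ) := Real.rpow_pos_of_pos (by linarith) _
    positivity
  obtain ⟨P, hP, hX⟩ := exists_primes 4 1 isUnit_one (κ * n / ε)
  have hP' : ∀ p ∈ P, p.Prime ∧ 3 ≤ p := fun p hp => by
    obtain ⟨h1, h2⟩ := hP p hp
    refine ⟨h1, ?_⟩
    have h3 := h1.two_le
    by_contra hcon
    have h4 : p = 2 := by omega
    rw [h4] at h2
    exact absurd h2 (by decide)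
  set X₁ : ℕ := P.sup id + 1 with hX₁
  have hX₁1 : 1 ≤ X₁ := by omega
  have hXP : ∀ p ∈ P, p ≤ X₁ := fun p hp => by
    have := Finset.le_sup (f := id) hp
    simp only [id] at this
    omega
  set D : ℕ := X₁ ^ 4 with hD
  obtain ⟨N, hN⟩ := entries_bounded_compact hKc D
  set 𝒜 : Set Mat := {A | 0 < A.det ∧ A.det ≤ D ∧ (∃ x ∈ K, GM A • x ∈ K) ∧ ¬ S A} with h𝒜
  have h𝒜fin : 𝒜.Finite := by
    refine (finite_bounded N).subset ?_
    rintro A ⟨h1, h2, ⟨x, hx, hx'⟩, _⟩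
    exact hN A h1 h2 x hx hx'
  set Z : Set ℍ := ⋃ A ∈ 𝒜, {x | x ∈ L ∧ GM A • x ∈ L} with hZ
  have hZfin : Z.Finite := h𝒜fin.biUnion fun A hA => hfin A hA.1 hA.2.2.2
  have hZf := hZfin.to_subtype
  set k : ℕ := Nat.card Z with hk
  have hε' : 0 < ε / (2 * (k + 1)) := by positivity
  choose ρ hρ hρs using fun z : ℍ => point_small z hε'
  set U : Set ℍ := ⋃ z : Z, Metric.ball z.1 (ρ z.1) with hU
  have hUo : IsOpen U := isOpen_iUnion fun z => Metric.isOpen_ball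
  -- the gap
  have hgap : ∀ A ∈ 𝒜, ∃ m : ℝ, 0 < m ∧ ∀ x ∈ K \ U,
      m ≤ Metric.infDist x L + Metric.infDist (GM A • x) L := by
    intro A hA
    have hKU : IsCompact (K \ U) := hKc.diff hUo
    rcases (K \ U).eq_empty_or_nonempty with h0 | h0
    · exact ⟨1, one_pos, fun x hx => absurd hx (by rw [h0]; simp)⟩
    have hcont : Continuous fun x : ℍ => Metric.infDist x L + Metric.infDist (GM A • x) L :=
      (Metric.continuous_infDist_pt L).add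
        ((Metric.continuous_infDist_pt L).comp (continuous_const_smul (GM A)))
    obtain ⟨x₀, hx₀, hmin⟩ := hKU.exists_isMinOn h0 hcont.continuousOn
    refine ⟨_, ?_, fun x hx => hmin hx⟩
    have h1 : 0 ≤ Metric.infDist x₀ L := Metric.infDist_nonneg
    have h2 : 0 ≤ Metric.infDist (GM A • x₀) L := Metric.infDist_nonneg
    by_contra hcon
    push Not at hcon
    have h3 : Metric.infDist x₀ L = 0 := by linarith
    have h4 : Metric.infDist (GM A • x₀) L = 0 := by linarith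
    have h5 : x₀ ∈ L := (hL.isClosed.mem_iff_infDist_zero hne).2 h3
    have h6 : GM A • x₀ ∈ L := (hL.isClosed.mem_iff_infDist_zero hne).2 h4
    have h7 : x₀ ∈ Z := Set.mem_biUnion hA ⟨h5, h6⟩
    exact hx₀.2 (Set.mem_iUnion.2 ⟨⟨x₀, h7⟩, Metric.mem_ball_self (hρ x₀)⟩)
  have hev : ∀ᶠ δ : ℝ in 𝓝[>] 0, ∀ A ∈ 𝒜, ∀ x ∈ K \ U,
      2 * δ ≤ Metric.infDist x L + Metric.infDist (GM A • x) L := by
    rw [h𝒜fin.eventually_all]
    intro A hA
    obtain ⟨m, hm, hmx⟩ := hgap A hA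
    have : ∀ᶠ δ : ℝ in 𝓝 0, δ < m / 2 := eventually_lt_nhds (by positivity)
    refine (this.filter_mono nhdsWithin_le_nhds).mono fun δ hδ x hx => ?_
    linarith [hmx x hx]
  have hev1 : ∀ᶠ δ : ℝ in 𝓝[>] 0, δ < 1 :=
    (eventually_lt_nhds one_pos).filter_mono nhdsWithin_le_nhds
  obtain ⟨δ, ⟨hδ1, hδ2⟩, hδ0⟩ := ((hev.and hev1).and self_mem_nhdsWithin).exists
  have hδ0' : 0 < δ := hδ0
  refine ⟨δ, hδ0', fun f l H hl q hq hq3 => ?_⟩
  set E : Set ℍ := Metric.thickening δ L \ U with hE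
  have hEK : E ⊆ K := fun x hx =>
    Metric.thickening_subset_cthickening_of_le hδ2.le L hx.1
  have hEm : MeasurableSet E := Metric.isOpen_thickening.measurableSet.diff hUo.measurableSet
  have hdist : ∀ x ∈ E, Metric.infDist x L < δ := by
    intro x hx
    obtain ⟨y, hy, hxy⟩ := Metric.mem_thickening_iff.1 hx.1
    exact (Metric.infDist_le_dist_of_mem hy).trans_lt hxy
  have hES : ∀ A : Mat, 0 < A.det → A.det ≤ ((X₁ ^ 4 : ℕ) : ℤ) → (∃ x ∈ E, GM A • x ∈ E) → S A := by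
    intro A hA hAD hx
    by_contra hns
    obtain ⟨x, hx, hx'⟩ := hx
    have hAA : A ∈ 𝒜 := ⟨hA, hAD, ⟨x, hEK hx, hEK hx'⟩, hns⟩
    have h1 := hδ1 A hAA x ⟨hEK hx, hx.2⟩
    have h2 := hdist x hx
    have h3 := hdist _ hx'
    linarith
  have hmain := main_offS hKc hEK hEm hbez hquot hP' hX₁1 hXP hES H (s := 0) hC₀ hq hq3
    (by linarith) (by nlinarith) hl
  set J := ∫⁻ z in 𝒟, ‖f z‖ₑ ^ q with hJ
  -- the part outside the balls
  have hout : ∫⁻ z in E, ‖f z‖ₑ ^ q ≤ ENNReal.ofReal (ε / 2) * J := by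
    have hCq : C₀ ^ q ≤ C₀ ^ (3 : ℝ) := Real.rpow_le_rpow_of_exponent_le hC₀ hq3
    have hCq0 : 0 < C₀ ^ q := Real.rpow_pos_of_pos (by linarith) _
    have h2 : (1 / κ) * ∑ p ∈ P, 1 / (p : ℝ) ≤ ∑ p ∈ P, (p : ℝ) ^ ((0 : ℝ) - 1) / (12 * C₀ ^ q) := by
      rw [Finset.mul_sum]
      apply Finset.sum_le_sum
      intro p hp
      have hp0 : (0 : ℝ) < p := by exact_mod_cast (hP p hp).1.pos
      rw [show (0 : ℝ) - 1 = -1 by ring, Real.rpow_neg_one, one_div_mul_one_div, inv_eq_one_div,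
        div_div]
      apply one_div_le_one_div_of_le (by positivity)
      rw [hκ, mul_comm]
      exact mul_le_mul_of_nonneg_right (by linarith) hp0.le
    have h3 : (n : ℝ) / ε ≤ (1 / κ) * ∑ p ∈ P, 1 / (p : ℝ) := by
      have : (n : ℝ) / ε = (1 / κ) * (κ * n / ε) := by
        field_simp
      rw [this]
      exact mul_le_mul_of_nonneg_left hX (by positivity)
    have h4 : (n : ℝ) / ε ≤ 1 + ∑ p ∈ P, (p : ℝ) ^ ((0 : ℝ) - 1) / (12 * C₀ ^ q) := by linarith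
    have hn0 : (0 : ℝ) ≤ n := Nat.cast_nonneg n
    have h5 : (0 : ℝ) < 1 + ∑ p ∈ P, (p : ℝ) ^ ((0 : ℝ) - 1) / (12 * C₀ ^ q) := by
      have : 0 ≤ (1 / κ) * ∑ p ∈ P, 1 / (p : ℝ) := by positivity
      linarith
    refine cancel_ineq h5 (by positivity) ?_ hmain
    rw [div_le_iff₀ hε] at h4
    linarith
  have hin' : ∫⁻ z in U, ‖f z‖ₑ ^ q ≤ ENNReal.ofReal (ε / 2) * J := by
    calc ∫⁻ z in U, ‖f z‖ₑ ^ q ≤ ∑' z : Z, ∫⁻ x in Metric.ball z.1 (ρ z.1), ‖f x‖ₑ ^ q :=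
          lintegral_iUnion_le _ _
      _ ≤ ∑' z : Z, ENNReal.ofReal (ε / (2 * (k + 1))) * J :=
          ENNReal.tsum_le_tsum fun z => hρs z.1 f l H q hq hq3
      _ = (k : ℝ≥0∞) * (ENNReal.ofReal (ε / (2 * (k + 1))) * J) := by
          have : Fintype Z := Fintype.ofFinite _
          rw [tsum_fintype, Finset.sum_const, Finset.card_univ, hk, Nat.card_eq_fintype_card,
            nsmul_eq_mul]
      _ = ENNReal.ofReal (k * (ε / (2 * (k + 1)))) * J := by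
          rw [ENNReal.ofReal_mul (by positivity), ENNReal.ofReal_natCast, mul_assoc]
      _ ≤ ENNReal.ofReal (ε / 2) * J := by
          apply mul_le_mul_left
          apply ENNReal.ofReal_le_ofReal
          rw [← mul_div_assoc, div_le_div_iff₀ (by positivity) (by norm_num)]
          have : (0 : ℝ) ≤ k := Nat.cast_nonneg k
          nlinarith
  calc ∫⁻ z in Metric.thickening δ L, ‖f z‖ₑ ^ q ≤ ∫⁻ z in U ∪ E, ‖f z‖ₑ ^ q := by
        apply lintegral_mono_set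
        intro x hx
        by_cases hxU : x ∈ U
        · exact Or.inl hxU
        · exact Or.inr ⟨hx, hxU⟩
    _ ≤ (∫⁻ z in U, ‖f z‖ₑ ^ q) + ∫⁻ z in E, ‖f z‖ₑ ^ q := lintegral_union_le _ _ _
    _ ≤ ENNReal.ofReal (ε / 2) * J + ENNReal.ofReal (ε / 2) * J := add_le_add hin' hout
    _ = ENNReal.ofReal ε * J := by
        rw [← add_mul, ← ENNReal.ofReal_add (by positivity) (by positivity), add_halves]


lemma prim_form3 {α β γ : ℤ} (h0 : ¬ (α = 0 ∧ β = 0 ∧ γ = 0)) : ∃ g u v w x y t : ℤ, g ≠ 0 ∧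
    α = g * u ∧ β = g * v ∧ γ = g * w ∧ x * u + y * v + t * w = 1 := by
  set g1 : ℤ := (Int.gcd α β : ℤ) with hg1
  set g : ℤ := (Int.gcd g1 γ : ℤ) with hg
  have h1 : g1 = α * Int.gcdA α β + β * Int.gcdB α β := Int.gcd_eq_gcd_ab α β
  have h2 : g = g1 * Int.gcdA g1 γ + γ * Int.gcdB g1 γ := Int.gcd_eq_gcd_ab g1 γ
  have d1 : g ∣ g1 := Int.gcd_dvd_left _ _
  have d2 : g ∣ γ := Int.gcd_dvd_right _ _
  have d3 : g ∣ α := d1.trans (Int.gcd_dvd_left _ _)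
  have d4 : g ∣ β := d1.trans (Int.gcd_dvd_right _ _)
  obtain ⟨u, hu⟩ := d3
  obtain ⟨v, hv⟩ := d4
  obtain ⟨w, hw⟩ := d2
  have hg0 : g ≠ 0 := by
    intro h
    rw [h, zero_mul] at hu hv hw
    exact h0 ⟨hu, hv, hw⟩
  refine ⟨g, u, v, w, Int.gcdA α β * Int.gcdA g1 γ, Int.gcdB α β * Int.gcdA g1 γ,
    Int.gcdB g1 γ, hg0, hu, hv, hw, ?_⟩
  apply mul_left_cancel₀ hg0
  have h3 : g = (α * Int.gcdA α β + β * Int.gcdB α β) * Int.gcdA g1 γ +
      γ * Int.gcdB g1 γ := by rw [← h1]; exact h2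
  calc g * (Int.gcdA α β * Int.gcdA g1 γ * u + Int.gcdB α β * Int.gcdA g1 γ * v +
        Int.gcdB g1 γ * w)
      = ((g * u) * Int.gcdA α β + (g * v) * Int.gcdB α β) * Int.gcdA g1 γ +
          (g * w) * Int.gcdB g1 γ := by ring
    _ = g * 1 := by rw [← hu, ← hv, ← hw, ← h3]; ring

lemma SG_SGZ {α β γ : ℝ} (hΔ : 0 < β ^ 2 - 4 * α * γ) {u v w : ℤ} {s : ℝ} (hs : s ≠ 0)
    (e1 : α = s * u) (e2 : β = s * v) (e3 : γ = s * w) {A : Mat} (hA : 0 < A.det)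
    (hS : SG α β γ A) : SGZ u v w A := by
  obtain ⟨t, h1, h2, h3⟩ := hS
  set a : ℝ := (A 0 0 : ℝ) with ha
  set b : ℝ := (A 0 1 : ℝ) with hb
  set c : ℝ := (A 1 0 : ℝ) with hc
  set d : ℝ := (A 1 1 : ℝ) with hd
  have hdet : (A.det : ℝ) = a * d - b * c := by
    rw [Matrix.det_fin_two]; push_cast; rfl
  set D := a * d - b * c with hD
  have hdisc : (c₂ α β γ a b c d) ^ 2 - 4 * (c₁ α β γ a c) * (c₁ α β γ b d) =
      D ^ 2 * (β ^ 2 - 4 * α * γ) := by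
    unfold c₁ c₂; rw [hD]; ring
  rw [h1, h2, h3] at hdisc
  have htt : t ^ 2 = D ^ 2 := by
    have : t ^ 2 * (β ^ 2 - 4 * α * γ) = D ^ 2 * (β ^ 2 - 4 * α * γ) := by
      rw [← hdisc]; ring
    exact mul_right_cancel₀ hΔ.ne' this
  unfold c₁ at h1 h3
  unfold c₂ at h2
  rw [e1, e2, e3] at h1 h2 h3
  obtain ⟨τ, hτ, hτt⟩ : ∃ τ : ℤ, (τ = A.det ∨ τ = -A.det) ∧ (τ : ℝ) = t := by
    rcases sq_eq_sq_iff_eq_or_eq_neg.1 htt with h | h
    · exact ⟨A.det, Or.inl rfl, by rw [hdet, h]⟩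
    · exact ⟨-A.det, Or.inr rfl, by rw [Int.cast_neg, hdet, h]⟩
  refine ⟨τ, hτ, ?_, ?_, ?_⟩
  · have : (u : ℝ) * a ^ 2 + v * (a * c) + w * c ^ 2 = τ * u := by
      apply mul_left_cancel₀ hs
      rw [hτt]
      linear_combination h1
    rw [ha, hc] at this
    exact_mod_cast this
  · have : 2 * (u : ℝ) * (a * b) + v * (a * d + b * c) + 2 * w * (c * d) = τ * v := by
      apply mul_left_cancel₀ hs
      rw [hτt]
      linear_combination h2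
    rw [ha, hb, hc, hd] at this
    exact_mod_cast this
  · have : (u : ℝ) * b ^ 2 + v * (b * d) + w * d ^ 2 = τ * w := by
      apply mul_left_cancel₀ hs
      rw [hτt]
      linear_combination h3
    rw [hb, hd] at this
    exact_mod_cast this

/-- Geodesics given by an integral form. -/
theorem geod_off {α β γ : ℝ} (h0 : ¬ (α = 0 ∧ β = 0 ∧ γ = 0)) {u v w : ℤ} {s : ℝ}
    (e1 : α = s * u) (e2 : β = s * v) (e3 : γ = s * w)
    {C₀ θ : ℝ} (hC₀ : 1 ≤ C₀) (hθ : θ ≤ 1 / 6)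
    {L : Set ℍ} (hL : IsCompact L) (hLG : ∀ z ∈ L, OnG α β γ z) {ε : ℝ} (hε : 0 < ε) :
    ∃ δ : ℝ, 0 < δ ∧ ∀ (f : ℍ → ℂ) (l : ℕ → ℂ), HeckeForm f l →
      (∀ p : ℕ, p.Prime → ‖l p‖ ≤ C₀ * (p : ℝ) ^ θ) → ∀ q : ℝ, 1 ≤ q → q ≤ 3 →
      ∫⁻ z in Metric.thickening δ L, ‖f z‖ₑ ^ q ≤
        ENNReal.ofReal ε * ∫⁻ z in 𝒟, ‖f z‖ₑ ^ q := by
  rcases L.eq_empty_or_nonempty with hem | ⟨z₀, hz₀⟩
  · refine ⟨1, one_pos, fun f l _ _ q _ _ => ?_⟩
    rw [hem]; simp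
  have hΔ := disc_pos h0 (hLG z₀ hz₀)
  have hs : s ≠ 0 := by
    intro h
    apply h0
    rw [e1, e2, e3, h]
    simp
  have hz : ¬ (u = 0 ∧ v = 0 ∧ w = 0) := by
    rintro ⟨h1, h2, h3⟩
    apply h0
    rw [e1, e2, e3, h1, h2, h3]
    simp
  obtain ⟨g, u', v', w', x, y, t, hg, f1, f2, f3, hbez⟩ := prim_form3 hz
  have hg' : (g : ℝ) ≠ 0 := by exact_mod_cast hg
  have k1 : α = (s * g) * u' := by rw [e1, f1]; push_cast; ring
  have k2 : β = (s * g) * v' := by rw [e2, f2]; push_cast; ring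
  have k3 : γ = (s * g) * w' := by rw [e3, f3]; push_cast; ring
  exact curve_off (S := SGZ u' v' w') hbez
    (fun m m' b b' ha ha' hc hc' γ γ₀ _ hS => off_quot' ha ha' hc hc' γ γ₀ hS) hC₀ hθ hL
    (fun A hA hS => (subsingleton_inter h0 hLG hA
      (fun hSG => hS (SG_SGZ hΔ (mul_ne_zero hs hg') k1 k2 k3 hA hSG))).finite) hε

end Pool.Agent.Run7.h176.NC
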