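import Pool.Agent.Run7.h176.NC.Class
import Pool.Agent.Run7.h176.NC.CuspCurve

/-!
# All geodesics, products of several forms
-/

set_option autoImplicit false

open UpperHalfPlane MeasureTheory
open scoped MatrixGroups ENNReal Modular

namespace Pool.Agent.Run7.h176.NC

/-- the geodesic `α |z|² + β Re z + γ = 0` joins two cusps: its coefficients are proportional to integers
with a square discriminant -/
def JoinsCusps (α β γ : ℝ) : Prop :=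
  ∃ (u v w : ℤ) (s : ℝ), α = s * u ∧ β = s * v ∧ γ = s * w ∧ IsSquare (v ^ 2 - 4 * u * w)

theorem geod_all (α β γ : ℝ) (h0 : ¬ (α = 0 ∧ β = 0 ∧ γ = 0)) (C₀ : ℝ) (hC₀ : 1 ≤ C₀)
    (L : Set ℍ) (hL : IsCompact L)
    (hLG : ∀ z ∈ L, α * Complex.normSq (z : ℂ) + β * z.re + γ = 0)
    (ε : ℝ) (hε : 0 < ε) :
    ∃ δ : ℝ, 0 < δ ∧ ∀ (f : ℍ → ℂ) (l : ℕ → ℂ), HeckeForm f l →
      (JoinsCusps α β γ → ∀ p : ℕ, p.Prime → ‖l p‖ ≤ C₀ * (p : ℝ) ^ (1 / 6 : ℝ)) →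
      ∀ q : ℝ, 1 ≤ q → q ≤ 3 →
      ∫⁻ z in Metric.thickening δ L, ‖f z‖ₑ ^ q ≤
        ENNReal.ofReal ε * ∫⁻ z in 𝒟, ‖f z‖ₑ ^ q := by
  by_cases hj : JoinsCusps α β γ
  · obtain ⟨u, v, w, s, e1, e2, e3, _⟩ := id hj
    obtain ⟨δ, hδ, h⟩ := geod_off h0 e1 e2 e3 hC₀ le_rfl hL hLG hε
    exact ⟨δ, hδ, fun f l H hl => h f l H (hl hj)⟩
  rcases L.eq_empty_or_nonempty with hem | ⟨z₀, hz₀⟩
  · refine ⟨1, one_pos, fun f l _ _ q _ _ => ?_⟩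
    rw [hem]; simp
  have hΔ := disc_pos h0 (hLG z₀ hz₀)
  have hcusp : ∀ (u v w : ℤ) (s : ℝ), α = s * u → β = s * v → γ = s * w →
      ¬ IsSquare (v ^ 2 - 4 * u * w) := fun u v w s e1 e2 e3 hsq =>
    hj ⟨u, v, w, s, e1, e2, e3, hsq⟩
  obtain ⟨q₀, hq₀, a, ha, hin⟩ := geod_class h0 hΔ hcusp
  have : NeZero q₀ := ⟨hq₀⟩
  obtain ⟨δ, hδ, h⟩ := curve_small (SG_scaling α β γ) q₀ a ha hin hL
    (fun A hA hS => (subsingleton_inter h0 hLG hA hS).finite) hε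
  exact ⟨δ, hδ, fun f l H _ => h f l H⟩

lemma prod_rpow {ι : Type} (s : Finset ι) {c : ℝ≥0∞} (h0 : c ≠ 0) (ht : c ≠ ⊤) (x : ι → ℝ) :
    ∏ i ∈ s, c ^ x i = c ^ ∑ i ∈ s, x i := by
  classical
  induction s using Finset.induction_on with
  | empty => simp
  | insert i s hi ih => rw [Finset.prod_insert hi, Finset.sum_insert hi, ih, ENNReal.rpow_add _ _ h0 ht]

/-- Hölder's inequality for products of powers. -/
lemma joint_holder {ι : Type} [Fintype ι] {F : ι → ℍ → ℂ} (hF : ∀ i, Measurable (F i))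
    {a : ι → ℝ} (ha : ∀ i, 0 ≤ a i) {q : ℝ} (hq : 0 < q) (hsum : ∑ i, a i = q)
    {E : Set ℍ} {c : ℝ≥0∞} (h0 : c ≠ 0) (ht : c ≠ ⊤) {J : ι → ℝ≥0∞} (hE : ∀ i, ∫⁻ z in E, ‖F i z‖ₑ ^ q ≤ c * J i) :
    ∫⁻ z in E, ∏ i, ‖F i z‖ₑ ^ a i ≤ c * ∏ i, J i ^ (a i / q) := by
  have hs : ∑ i, a i / q = 1 := by
    rw [← Finset.sum_div, hsum, div_self hq.ne']
  have h1 := ENNReal.lintegral_prod_norm_pow_le (μ := (volume : Measure ℍ).restrict E)
    Finset.univ (f := fun i z => ‖F i z‖ₑ ^ q)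
    (fun i _ => ((hF i).enorm.pow_const q).aemeasurable) (p := fun i => a i / q) hs
    (fun i _ => div_nonneg (ha i) hq.le)
  have h2 : ∀ z, ∏ i, (‖F i z‖ₑ ^ q) ^ (a i / q) = ∏ i, ‖F i z‖ₑ ^ a i := by
    intro z
    apply Finset.prod_congr rfl
    intro i _
    rw [← ENNReal.rpow_mul, mul_div_cancel₀ _ hq.ne']
  simp only [h2] at h1
  refine h1.trans ?_
  calc ∏ i, (∫⁻ z in E, ‖F i z‖ₑ ^ q) ^ (a i / q) ≤ ∏ i, (c * J i) ^ (a i / q) := by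
        apply Finset.prod_le_prod'
        intro i _
        exact ENNReal.rpow_le_rpow (hE i) (div_nonneg (ha i) hq.le)
    _ = ∏ i, (c ^ (a i / q) * J i ^ (a i / q)) := by
        apply Finset.prod_congr rfl
        intro i _
        rw [ENNReal.mul_rpow_of_nonneg _ _ (div_nonneg (ha i) hq.le)]
    _ = c * ∏ i, J i ^ (a i / q) := by
        rw [Finset.prod_mul_distrib]
        rw [prod_rpow _ h0 ht, hs, ENNReal.rpow_one]

end Pool.Agent.Run7.h176.NC
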