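import Pool.Agent.Run7.h176.NC.Basic

/-!
# Inert primes: the arithmetic of the stabiliser of a point in the integer matrices
-/

set_option autoImplicit false

open UpperHalfPlane Matrix
open scoped MatrixGroups

namespace Pool.Agent.Run7.h176.NC

/-- `p` divides all entries of `A` -/
def Dv (p : ℤ) (A : Mat) : Prop := ∀ i j, p ∣ A i j

/-- primitive matrices -/
def Prim (A : Mat) : Prop := ∀ p : ℕ, p.Prime → ¬ Dv p A

/-- the prime `p` is inert for the matrices which fix `z₀` -/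
def Inert (z₀ : ℍ) (p : ℕ) : Prop :=
  ∀ A : Mat, 0 < A.det → GM A • z₀ = z₀ → (p : ℤ) ∣ A.det → Dv p A

lemma lin_zero (z₀ : ℍ) {u v : ℤ} (h : (u : ℂ) * z₀ + v = 0) : u = 0 ∧ v = 0 := by
  have h1 := congrArg Complex.im h
  have h2 : (u : ℝ) * z₀.im = 0 := by simpa using h1
  have hu : u = 0 := by
    rcases mul_eq_zero.1 h2 with h3 | h3
    · exact_mod_cast h3
    · exact absurd h3 z₀.im_pos.ne'
  refine ⟨hu, ?_⟩
  rw [hu] at h
  simpa using h

lemma jac_one (m : ℕ) (hm : 0 < m) : jacobiSym (m : ℤ) (4 * m - 1) = 1 := by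
  have hodd : Odd (4 * m - 1) := ⟨2 * m - 1, by omega⟩
  have hc : IsCoprime (2 : ℤ) ((4 * m - 1 : ℕ) : ℤ) := by
    rw [Int.isCoprime_iff_gcd_eq_one]
    have : Nat.Coprime 2 (4 * m - 1) := by
      exact Nat.coprime_two_left.2 hodd
    exact_mod_cast this
  have h1 : jacobiSym ((2 : ℤ) ^ 2) (4 * m - 1) = 1 := by
    apply jacobiSym.sq_one'
    exact_mod_cast (Int.isCoprime_iff_gcd_eq_one.1 hc)
  have h2 : jacobiSym (4 * (m : ℤ)) (4 * m - 1) = 1 := by
    have h3 : (4 * (m : ℤ)) % ((4 * m - 1 : ℕ) : ℤ) = 1 % ((4 * m - 1 : ℕ) : ℤ) := by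
      have : (4 * (m : ℤ)) = 1 + ((4 * m - 1 : ℕ) : ℤ) := by omega
      rw [this]; simp
    rw [jacobiSym.mod_left, h3, ← jacobiSym.mod_left, jacobiSym.one_left]
  rw [show (4 : ℤ) * m = 2 ^ 2 * m by ring, jacobiSym.mul_left, h1, one_mul] at h2
  exact h2

lemma not_square {m p : ℕ} (hm : 0 < m) (hp : p.Prime) (h : (4 * m) ∣ (p + 1)) :
    ¬ IsSquare (((-(m : ℤ) : ℤ)) : ZMod p) := by
  obtain ⟨k, hk⟩ := h
  have hk0 : 0 < k := by
    rcases Nat.eq_zero_or_pos k with h0 | h0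
    · rw [h0] at hk; omega
    · exact h0
  have hp3 : p % 4 = 3 := by
    have : p + 1 = 4 * (m * k) := by rw [hk]; ring
    omega
  have : Fact p.Prime := ⟨hp⟩
  have hp2 : p ≠ 2 := by intro h; rw [h] at hp3; norm_num at hp3
  have hodd : Odd p := hp.odd_of_ne_two hp2
  have hmod : p % (4 * m) = 4 * m - 1 := by
    have h1 : p = (4 * m - 1) + 4 * m * (k - 1) := by
      have : 4 * m * k = 4 * m * (k - 1) + 4 * m := by
        conv_lhs => rw [show k = (k - 1) + 1 by omega]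
        ring
      omega
    rw [h1, Nat.add_mul_mod_self_left, Nat.mod_eq_of_lt (by omega)]
  have h1 : jacobiSym (m : ℤ) p = 1 := by
    rw [jacobiSym.mod_right _ hodd]
    rw [Int.natAbs_natCast, hmod]
    exact jac_one m hm
  have h2 : jacobiSym (-1 : ℤ) p = -1 := by
    rw [jacobiSym.at_neg_one hodd]
    exact ZMod.χ₄_nat_three_mod_four hp3
  have h3 : jacobiSym (-(m : ℤ)) p = -1 := by
    rw [show (-(m : ℤ)) = (-1) * m by ring, jacobiSym.mul_left, h1, h2]; norm_num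
  rw [← jacobiSym.legendreSym.to_jacobiSym] at h3
  exact (legendreSym.eq_neg_one_iff p).1 h3

/-- For every point `z₀` the primes `≡ -1` modulo some `q₀` are inert. If no integer matrix which is not
scalar fixes `z₀`, all primes are. -/
theorem exists_modulus (z₀ : ℍ) : ∃ q₀ : ℕ, 0 < q₀ ∧
    ((∀ A : Mat, 0 < A.det → GM A • z₀ = z₀ → A 1 0 = 0) → q₀ = 1) ∧
    ∀ p : ℕ, p.Prime → q₀ ∣ p + 1 → Inert z₀ p := by
  by_cases hcm : ∀ A : Mat, 0 < A.det → GM A • z₀ = z₀ → A 1 0 = 0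
  · refine ⟨1, one_pos, fun _ => rfl, fun p hp _ A hA hfix hdvd => ?_⟩
    have hc := hcm A hA hfix
    rw [fix_iff hA, hc] at hfix
    have h1 : (((A 1 1 - A 0 0 : ℤ)) : ℂ) * z₀ + ((-(A 0 1) : ℤ) : ℂ) = 0 := by
      push_cast
      simp only [Int.cast_zero, zero_mul, zero_add] at hfix
      linear_combination hfix
    obtain ⟨h2, h3⟩ := lin_zero z₀ h1
    have hdet : A.det = A 0 0 * A 0 0 := by
      rw [Matrix.det_fin_two, hc, show A 1 1 = A 0 0 by omega]; ring
    rw [hdet] at hdvd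
    have hpp : Prime (p : ℤ) := Nat.prime_iff_prime_int.1 hp
    have h4 : (p : ℤ) ∣ A 0 0 := (hpp.dvd_mul.1 hdvd).elim id id
    intro i j
    fin_cases i <;> fin_cases j
    · exact h4
    · change (p : ℤ) ∣ A 0 1
      rw [show A 0 1 = 0 by omega]; exact dvd_zero _
    · change (p : ℤ) ∣ A 1 0
      rw [hc]; exact dvd_zero _
    · change (p : ℤ) ∣ A 1 1
      rw [show A 1 1 = A 0 0 by omega]; exact h4
  · push Not at hcm
    obtain ⟨A₀, hA₀, hfix₀, hc₀⟩ := hcm
    set c₀ := A₀ 1 0 with hc₀'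
    set s := A₀ 1 1 - A₀ 0 0 with hs
    set b₀ := A₀ 0 1 with hb₀
    have e0 : (c₀ : ℂ) * (z₀ : ℂ) ^ 2 + (s : ℂ) * z₀ - b₀ = 0 := by
      have := (fix_iff hA₀ z₀).1 hfix₀
      rw [hs]; push_cast; exact this
    -- the discriminant is negative
    have hdisc : 0 < -(s ^ 2 + 4 * b₀ * c₀) := by
      have h1 : ((2 * c₀ : ℂ) * z₀ + s) ^ 2 = ((s ^ 2 + 4 * b₀ * c₀ : ℤ) : ℂ) := by
        push_cast
        linear_combination (4 * (c₀ : ℂ)) * e0
      have him : ((2 * c₀ : ℂ) * z₀ + s).im = 2 * c₀ * z₀.im := by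
        simp
      have him0 : ((2 * c₀ : ℂ) * z₀ + s).im ≠ 0 := by
        rw [him]
        have : (c₀ : ℝ) ≠ 0 := by exact_mod_cast hc₀
        have := z₀.im_pos.ne'
        positivity
      set x := (2 * c₀ : ℂ) * z₀ + s with hx
      have h2 : (x ^ 2).im = 0 := by rw [h1]; exact Complex.intCast_im _
      have h3 : (x ^ 2).re = ((s ^ 2 + 4 * b₀ * c₀ : ℤ) : ℝ) := by rw [h1]; exact Complex.intCast_re _
      rw [sq, Complex.mul_im] at h2
      rw [sq, Complex.mul_re] at h3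
      have hre : x.re = 0 := by
        have : 2 * (x.re * x.im) = 0 := by linarith
        rcases mul_eq_zero.1 (mul_eq_zero.1 this |>.resolve_left two_ne_zero) with h | h
        · exact h
        · exact absurd h him0
      rw [hre] at h3
      have h4 : 0 < x.im * x.im := mul_self_pos.2 him0
      have h5 : ((s ^ 2 + 4 * b₀ * c₀ : ℤ) : ℝ) < 0 := by rw [← h3]; linarith
      have h6 : s ^ 2 + 4 * b₀ * c₀ < 0 := by exact_mod_cast h5
      linarith
    obtain ⟨m, hm⟩ : ∃ m : ℕ, (m : ℤ) = -(s ^ 2 + 4 * b₀ * c₀) :=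
      ⟨(-(s ^ 2 + 4 * b₀ * c₀)).toNat, Int.toNat_of_nonneg hdisc.le⟩
    have hm0 : 0 < m := by
      have : (0 : ℤ) < m := by rw [hm]; exact hdisc
      exact_mod_cast this
    refine ⟨4 * m * c₀.natAbs, by
      have := Int.natAbs_pos.2 hc₀; positivity, ?_, ?_⟩
    · intro hall
      exact absurd (hall A₀ hA₀ hfix₀) hc₀
    intro p hp hdiv A hA hfix hdvd
    have hpp : Prime (p : ℤ) := Nat.prime_iff_prime_int.1 hp
    have : Fact p.Prime := ⟨hp⟩
    have hdiv4 : 4 * m ∣ p + 1 := (Dvd.intro _ rfl).trans hdiv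
    have hodd2 : ¬ (p : ℤ) ∣ 2 := by
      intro h
      have h2 : p ∣ 2 := by exact_mod_cast h
      have h3 : p = 2 := (Nat.prime_dvd_prime_iff_eq hp Nat.prime_two).1 h2
      have h4 : 4 ∣ p + 1 := (Dvd.intro _ rfl).trans hdiv4
      rw [h3] at h4
      norm_num at h4
    have hcp : ¬ (p : ℤ) ∣ c₀ := by
      intro h
      have h1 : p ∣ c₀.natAbs := Int.natCast_dvd.1 h
      have h2 : p ∣ p + 1 := (h1.trans (Dvd.intro_left _ rfl)).trans hdiv
      have h3 : p ∣ 1 := (Nat.dvd_add_right (dvd_refl p)).1 h2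
      exact hp.one_lt.ne' (Nat.dvd_one.1 h3)
    set a := A 0 0 with ha
    set b := A 0 1 with hb
    set c := A 1 0 with hc
    set d := A 1 1 with hd
    have e1 : (c : ℂ) * (z₀ : ℂ) ^ 2 + ((d : ℂ) - a) * z₀ - b = 0 := (fix_iff hA z₀).1 hfix
    have e2 : (((c₀ * (d - a) - c * s : ℤ)) : ℂ) * z₀ + ((-(c₀ * b - c * b₀) : ℤ) : ℂ) = 0 := by
      push_cast
      linear_combination (c₀ : ℂ) * e1 - (c : ℂ) * e0
    obtain ⟨e3, e4⟩ := lin_zero z₀ e2
    have hdet : A.det = a * d - b * c := Matrix.det_fin_two A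
    have e5 : 4 * c₀ ^ 2 * A.det = (c₀ * (a + d)) ^ 2 + c ^ 2 * m := by
      rw [hdet, hm]
      have h1 : c₀ * (d - a) = c * s := by linarith
      have h2 : c₀ * b = c * b₀ := by linarith
      have : 4 * c₀ ^ 2 * (a * d - b * c) =
          (c₀ * (a + d)) ^ 2 - (c₀ * (d - a)) ^ 2 - 4 * c₀ * c * (c₀ * b) := by ring
      rw [this, h1, h2]; ring
    have hpc : (p : ℤ) ∣ c := by
      by_contra hnc
      apply not_square hm0 hp hdiv4
      have h1 : ((4 * c₀ ^ 2 * A.det : ℤ) : ZMod p) = 0 := by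
        rw [ZMod.intCast_zmod_eq_zero_iff_dvd]
        exact Dvd.dvd.mul_left hdvd _
      rw [e5] at h1
      have hc0 : (c : ZMod p) ≠ 0 := by
        rw [ne_eq, ZMod.intCast_zmod_eq_zero_iff_dvd]; exact hnc
      refine ⟨((c₀ * (a + d) : ℤ) : ZMod p) / (c : ZMod p), ?_⟩
      have h2 : (((c₀ * (a + d) : ℤ)) : ZMod p) * ((c₀ * (a + d) : ℤ) : ZMod p) =
          -(((c : ℤ) : ZMod p) * c * ((m : ℤ) : ZMod p)) := by
        push_cast at h1 ⊢
        linear_combination h1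
      rw [div_mul_div_comm, h2]
      field_simp
      push_cast
      ring
    have hpt : (p : ℤ) ∣ (a + d) := by
      have h1 : (p : ℤ) ∣ (c₀ * (a + d)) ^ 2 := by
        have h2 : (c₀ * (a + d)) ^ 2 = 4 * c₀ ^ 2 * A.det - c ^ 2 * m := by rw [e5]; ring
        rw [h2]
        exact dvd_sub (Dvd.dvd.mul_left hdvd _) (Dvd.dvd.mul_right (dvd_pow hpc two_ne_zero) _)
      have h2 := hpp.dvd_of_dvd_pow h1
      exact (hpp.dvd_mul.1 h2).resolve_left hcp
    have hpda : (p : ℤ) ∣ (d - a) := by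
      have h1 : (p : ℤ) ∣ c₀ * (d - a) := by
        rw [show c₀ * (d - a) = c * s by linarith]
        exact Dvd.dvd.mul_right hpc _
      exact (hpp.dvd_mul.1 h1).resolve_left hcp
    have hpb : (p : ℤ) ∣ b := by
      have h1 : (p : ℤ) ∣ c₀ * b := by
        rw [show c₀ * b = c * b₀ by linarith]
        exact Dvd.dvd.mul_right hpc _
      exact (hpp.dvd_mul.1 h1).resolve_left hcp
    have hpa : (p : ℤ) ∣ a := by
      have h1 : (p : ℤ) ∣ 2 * a := by
        rw [show 2 * a = (a + d) - (d - a) by ring]; exact dvd_sub hpt hpda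
      exact (hpp.dvd_mul.1 h1).resolve_left hodd2
    have hpd : (p : ℤ) ∣ d := by
      have h1 : (p : ℤ) ∣ 2 * d := by
        rw [show 2 * d = (a + d) + (d - a) by ring]; exact dvd_add hpt hpda
      exact (hpp.dvd_mul.1 h1).resolve_left hodd2
    intro i j
    fin_cases i <;> fin_cases j
    · exact hpa
    · exact hpb
    · exact hpc
    · exact hpd

end Pool.Agent.Run7.h176.NC
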