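import Mathlib

/-!
# Integer matrices of positive determinant acting on the upper half plane
-/

set_option autoImplicit false

open UpperHalfPlane Matrix
open scoped MatrixGroups

namespace Pool.Agent.Run7.h176.NC

abbrev Mat := Matrix (Fin 2) (Fin 2) ℤ

/-- The element of `GL₂(ℝ)` given by an integer matrix (`1` if the determinant is zero). -/
noncomputable def GM (M : Mat) : GL (Fin 2) ℝ :=
  if h : (M.map (Int.cast : ℤ → ℝ)).det ≠ 0 then GeneralLinearGroup.mkOfDetNeZero _ h else 1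

lemma det_map (M : Mat) : (M.map (Int.cast : ℤ → ℝ)).det = (M.det : ℝ) := by
  simp [Matrix.det_fin_two]

lemma GM_val {M : Mat} (h : M.det ≠ 0) : (GM M).val = M.map (Int.cast : ℤ → ℝ) := by
  have h' : (M.map (Int.cast : ℤ → ℝ)).det ≠ 0 := by rw [det_map]; exact_mod_cast h
  rw [GM, dif_pos h']
  rfl

lemma GM_det {M : Mat} (h : M.det ≠ 0) : (GM M).det.val = (M.det : ℝ) := by
  rw [Matrix.GeneralLinearGroup.val_det_apply, GM_val h, det_map]

lemma GM_mul {M N : Mat} (hM : M.det ≠ 0) (hN : N.det ≠ 0) : GM (M * N) = GM M * GM N := by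
  have h : (M * N).det ≠ 0 := by rw [Matrix.det_mul]; exact mul_ne_zero hM hN
  apply Units.ext
  rw [Units.val_mul, GM_val h, GM_val hM, GM_val hN]
  ext i j
  simp [Matrix.mul_apply]

lemma GM_one : GM 1 = 1 := by
  apply Units.ext
  rw [GM_val (by simp)]
  ext i j
  simp [Matrix.one_apply]

lemma coe_GM {M : Mat} (h : 0 < M.det) (z : ℍ) :
    ((GM M • z : ℍ) : ℂ) = ((M 0 0 : ℂ) * z + M 0 1) / ((M 1 0 : ℂ) * z + M 1 1) := by
  have h1 : 0 < (GM M).det.val := by rw [GM_det h.ne']; exact_mod_cast h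
  rw [coe_smul_of_det_pos h1, num, denom]
  have h2 : ∀ i j, (GM M) i j = (M i j : ℝ) := by
    intro i j
    change (GM M).val i j = _
    rw [GM_val h.ne']; rfl
  rw [h2, h2, h2, h2]
  push_cast
  rfl

lemma sl_smul (γ : SL(2, ℤ)) (z : ℍ) : γ • z = GM γ.1 • z := by
  ext
  rw [coe_GM (by rw [γ.2]; norm_num), coe_specialLinearGroup_apply]
  simp

lemma im_GM {M : Mat} (h : 0 < M.det) (z : ℍ) :
    (GM M • z).im = M.det * z.im / Complex.normSq ((M 1 0 : ℂ) * z + M 1 1) := by
  rw [im_smul_eq_div_normSq, GM_det h.ne', abs_of_pos (by exact_mod_cast h)]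
  congr 2
  rw [denom]
  have h2 : ∀ i j, (GM M) i j = (M i j : ℝ) := by
    intro i j
    change (GM M).val i j = _
    rw [GM_val h.ne']; rfl
  rw [h2, h2]
  push_cast
  rfl

lemma denom_ne {M : Mat} (h : 0 < M.det) (z : ℍ) : ((M 1 0 : ℂ) * z + M 1 1) ≠ 0 := by
  have h2 : ∀ i j, (GM M) i j = (M i j : ℝ) := by
    intro i j
    change (GM M).val i j = _
    rw [GM_val h.ne']; rfl
  have h3 := denom_ne_zero (GM M) z
  rw [denom, h2, h2] at h3
  push_cast at h3
  exact_mod_cast h3

/-- the fixed point equation -/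
lemma fix_iff {M : Mat} (h : 0 < M.det) (z : ℍ) :
    GM M • z = z ↔ (M 1 0 : ℂ) * z ^ 2 + (M 1 1 - M 0 0) * z - M 0 1 = 0 := by
  rw [UpperHalfPlane.ext_iff, coe_GM h, div_eq_iff (denom_ne h z)]
  constructor
  · intro h1; linear_combination -h1
  · intro h1; linear_combination -h1

/-- adjugate acts as the inverse -/
lemma adj_smul {M : Mat} (h : 0 < M.det) (z : ℍ) : GM M.adjugate • (GM M • z) = z := by
  have h1 : 0 < M.adjugate.det := by
    rw [Matrix.det_adjugate]; simpa using h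
  rw [smul_smul, ← GM_mul h1.ne' h.ne', Matrix.adjugate_mul]
  have h2 : 0 < (M.det • (1 : Mat)).det := by
    rw [Matrix.det_smul]; simp; positivity
  rw [fix_iff h2]
  simp

lemma smul_adj {M : Mat} (h : 0 < M.det) (z : ℍ) : GM M • (GM M.adjugate • z) = z := by
  have h1 : 0 < M.adjugate.det := by
    rw [Matrix.det_adjugate]; simpa using h
  rw [smul_smul, ← GM_mul h.ne' h1.ne', Matrix.mul_adjugate]
  have h2 : 0 < (M.det • (1 : Mat)).det := by
    rw [Matrix.det_smul]; simp; positivity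
  rw [fix_iff h2]
  simp

end Pool.Agent.Run7.h176.NC
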