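import Pool.Agent.Run7.h176.NC.Geod

/-!
# A class of primes which are inert for a geodesic that does not join two cusps
-/

set_option autoImplicit false

open UpperHalfPlane Matrix
open scoped MatrixGroups

namespace Pool.Agent.Run7.h176.NC

lemma comm_dv {α β γ : ℝ} (hα : α ≠ 0) {A₀ : Mat} (h₀ : Comm α β γ A₀) {p : ℕ}
    (hp : p.Prime) (hp2 : p ≠ 2) (hcp : ¬ (p : ℤ) ∣ A₀ 1 0)
    (hns : ¬ IsSquare ((((A₀ 1 1 - A₀ 0 0) ^ 2 + 4 * A₀ 0 1 * A₀ 1 0 : ℤ)) : ZMod p))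
    {A : Mat} (hA : Comm α β γ A) (hdvd : (p : ℤ) ∣ A.det) : Dv p A := by
  obtain ⟨u1, u2, _⟩ := h₀
  obtain ⟨v1, v2, _⟩ := hA
  set c₀ := A₀ 1 0 with hc₀'
  set s := A₀ 1 1 - A₀ 0 0 with hs
  set b₀ := A₀ 0 1 with hb₀
  have hpp : Prime (p : ℤ) := Nat.prime_iff_prime_int.1 hp
  have : Fact p.Prime := ⟨hp⟩
  have hodd2 : ¬ (p : ℤ) ∣ 2 := by
    intro h
    have h2 : p ∣ 2 := by exact_mod_cast h
    exact hp2 ((Nat.prime_dvd_prime_iff_eq hp Nat.prime_two).1 h2)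
  set a := A 0 0 with ha
  set b := A 0 1 with hb
  set c := A 1 0 with hc
  set d := A 1 1 with hd
  have hsr : ((A₀ 1 1 : ℝ) - A₀ 0 0) = (s : ℝ) := by rw [hs]; push_cast; ring
  rw [hsr] at u1
  have e3 : c₀ * (d - a) = c * s := by
    have h1 : α * ((c₀ : ℝ) * (d - a) - c * s) = 0 := by
      linear_combination (c : ℝ) * u1 - (c₀ : ℝ) * v1
    have h2 := (mul_eq_zero.1 h1).resolve_left hα
    have h3 : (c₀ : ℝ) * (d - a) = c * s := by linarith
    exact_mod_cast h3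
  have e4 : c₀ * b = c * b₀ := by
    have h1 : α * ((c₀ : ℝ) * b - c * b₀) = 0 := by
      linear_combination (c₀ : ℝ) * v2 - (c : ℝ) * u2
    have h2 := (mul_eq_zero.1 h1).resolve_left hα
    have h3 : (c₀ : ℝ) * b = c * b₀ := by linarith
    exact_mod_cast h3
  have hdet : A.det = a * d - b * c := Matrix.det_fin_two A
  set D := s ^ 2 + 4 * b₀ * c₀ with hD
  have e5 : 4 * c₀ ^ 2 * A.det = (c₀ * (a + d)) ^ 2 - c ^ 2 * D := by
    rw [hdet, hD]
    have : 4 * c₀ ^ 2 * (a * d - b * c) =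
        (c₀ * (a + d)) ^ 2 - (c₀ * (d - a)) ^ 2 - 4 * c₀ * c * (c₀ * b) := by ring
    rw [this, e3, e4]; ring
  have hpc : (p : ℤ) ∣ c := by
    by_contra hnc
    apply hns
    have h1 : ((4 * c₀ ^ 2 * A.det : ℤ) : ZMod p) = 0 := by
      rw [ZMod.intCast_zmod_eq_zero_iff_dvd]
      exact Dvd.dvd.mul_left hdvd _
    rw [e5] at h1
    have hc0 : (c : ZMod p) ≠ 0 := by
      rw [ne_eq, ZMod.intCast_zmod_eq_zero_iff_dvd]; exact hnc
    refine ⟨((c₀ * (a + d) : ℤ) : ZMod p) / (c : ZMod p), ?_⟩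
    have h2 : (((c₀ * (a + d) : ℤ)) : ZMod p) * ((c₀ * (a + d) : ℤ) : ZMod p) =
        ((c : ℤ) : ZMod p) * c * ((D : ℤ) : ZMod p) := by
      rw [Int.cast_sub, Int.cast_mul, Int.cast_pow, Int.cast_pow] at h1
      linear_combination h1
    rw [div_mul_div_comm, h2]
    field_simp
  have hpt : (p : ℤ) ∣ (a + d) := by
    have h1 : (p : ℤ) ∣ (c₀ * (a + d)) ^ 2 := by
      have h2 : (c₀ * (a + d)) ^ 2 = 4 * c₀ ^ 2 * A.det + c ^ 2 * D := by rw [e5]; ring
      rw [h2]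
      exact dvd_add (Dvd.dvd.mul_left hdvd _) (Dvd.dvd.mul_right (dvd_pow hpc two_ne_zero) _)
    have h2 := hpp.dvd_of_dvd_pow h1
    exact (hpp.dvd_mul.1 h2).resolve_left hcp
  have hpda : (p : ℤ) ∣ (d - a) := by
    have h1 : (p : ℤ) ∣ c₀ * (d - a) := by
      rw [e3]
      exact Dvd.dvd.mul_right hpc _
    exact (hpp.dvd_mul.1 h1).resolve_left hcp
  have hpb : (p : ℤ) ∣ b := by
    have h1 : (p : ℤ) ∣ c₀ * b := by
      rw [e4]
      exact Dvd.dvd.mul_right hpc _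
    exact (hpp.dvd_mul.1 h1).resolve_left hcp
  have hpa : (p : ℤ) ∣ a := by
    have h1 : (p : ℤ) ∣ 2 * a := by
      rw [show 2 * a = (a + d) - (d - a) by ring]; exact dvd_sub hpt hpda
    exact (hpp.dvd_mul.1 h1).resolve_left hodd2
  have hpd : (p : ℤ) ∣ d := by
    have h1 : (p : ℤ) ∣ 2 * d := by
      rw [show 2 * d = (a + d) + (d - a) by ring]; exact dvd_add hpt hpda
    exact (hpp.dvd_mul.1 h1).resolve_left hodd2
  intro i j
  fin_cases i <;> fin_cases j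
  · exact hpa
  · exact hpb
  · exact hpc
  · exact hpd

/-- A class of primes which are inert for the matrices which commute with the geodesic. -/
lemma comm_class {α β γ : ℝ} (h0 : ¬ (α = 0 ∧ β = 0 ∧ γ = 0)) (hΔ : 0 < β ^ 2 - 4 * α * γ)
    (hcusp : ∀ (u v w : ℤ) (s : ℝ), α = s * u → β = s * v → γ = s * w →
      ¬ IsSquare (v ^ 2 - 4 * u * w)) (e : ℕ) (he : e ≠ 0) :
    ∃ q₀ : ℕ, q₀ ≠ 0 ∧ e ∣ q₀ ∧ ∃ a : ZMod q₀, IsUnit a ∧ ∀ p : ℕ, p.Prime → (p : ZMod q₀) = a →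
      ∀ A : Mat, 0 < A.det → Comm α β γ A → (p : ℤ) ∣ A.det → Dv p A := by
  by_cases hsc : ∀ A : Mat, 0 < A.det → Comm α β γ A → A 1 0 = 0 ∧ A 0 1 = 0 ∧ A 1 1 = A 0 0
  · refine ⟨e, he, dvd_refl e, 1, isUnit_one, fun p hp _ A hA hC hdvd => ?_⟩
    obtain ⟨h1, h2, h3⟩ := hsc A hA hC
    have hdet : A.det = A 0 0 * A 0 0 := by
      rw [Matrix.det_fin_two, h1, h2, h3]; ring
    rw [hdet] at hdvd
    have hpp : Prime (p : ℤ) := Nat.prime_iff_prime_int.1 hp
    have h4 : (p : ℤ) ∣ A 0 0 := (hpp.dvd_mul.1 hdvd).elim id id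
    intro i j
    fin_cases i <;> fin_cases j
    · exact h4
    · change (p : ℤ) ∣ A 0 1
      rw [h2]; exact dvd_zero _
    · change (p : ℤ) ∣ A 1 0
      rw [h1]; exact dvd_zero _
    · change (p : ℤ) ∣ A 1 1
      rw [h3]; exact h4
  · push Not at hsc
    obtain ⟨A₀, hA₀, hC₀, hne⟩ := hsc
    obtain ⟨u1, u2, u3⟩ := hC₀
    have hsr : ((A₀ 1 1 : ℝ) - A₀ 0 0) = ((A₀ 1 1 - A₀ 0 0 : ℤ) : ℝ) := by push_cast; ring
    set s := A₀ 1 1 - A₀ 0 0 with hs
    have hc₀ : A₀ 1 0 ≠ 0 := by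
      intro hc
      rw [hc, hsr] at u1
      rw [hc] at u2
      simp only [Int.cast_zero, mul_zero] at u1 u2
      have hα : α = 0 := by
        by_contra hα
        have h1 : (s : ℝ) = 0 := (mul_eq_zero.1 u1.symm).resolve_left hα
        have h2 : (A₀ 0 1 : ℝ) = 0 := (mul_eq_zero.1 u2.symm).resolve_left (neg_ne_zero.2 hα)
        have h3 : s = 0 := by exact_mod_cast h1
        have h4 : A₀ 0 1 = 0 := by exact_mod_cast h2
        exact hne hc h4 (by omega)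
      have hβ : β ≠ 0 := by
        intro hβ
        rw [hα, hβ] at hΔ
        norm_num at hΔ
      rw [hsr] at u3
      have hs0 : s ≠ 0 := by
        intro h
        rw [h] at u3
        simp only [Int.cast_zero, mul_zero] at u3
        have h2 : (A₀ 0 1 : ℝ) = 0 := (mul_eq_zero.1 u3).resolve_left hβ
        have h4 : A₀ 0 1 = 0 := by exact_mod_cast h2
        exact hne hc h4 (by omega)
      have hs0' : (s : ℝ) ≠ 0 := by exact_mod_cast hs0
      refine hcusp 0 s (-(A₀ 0 1)) (β / s) (by simp [hα]) (by field_simp) ?_ ⟨s, by ring⟩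
      push_cast
      field_simp
      linarith
    have hcr : (A₀ 1 0 : ℝ) ≠ 0 := by exact_mod_cast hc₀
    have hα : α ≠ 0 := by
      intro hα
      rw [hα, zero_mul] at u1
      rw [hα, neg_zero, zero_mul] at u2
      exact h0 ⟨hα, (mul_eq_zero.1 u1).resolve_right hcr, (mul_eq_zero.1 u2).resolve_right hcr⟩
    set D := s ^ 2 + 4 * A₀ 0 1 * A₀ 1 0 with hD
    have hDsq : ¬ IsSquare D := by
      have := hcusp (A₀ 1 0) s (-(A₀ 0 1)) (α / A₀ 1 0) (by field_simp)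
        (by
          rw [hsr] at u1
          field_simp; linarith)
        (by push_cast; field_simp; linarith)
      rw [hD]
      convert this using 1
      ring
    have hD0 : D ≠ 0 := by
      intro h; exact hDsq ⟨0, by rw [h]; ring⟩
    obtain ⟨d, hdodd, hd⟩ := Pool.Agent.Helper919.exists_jacobi_neg_one D hDsq
    have hDn : D.natAbs ≠ 0 := Int.natAbs_ne_zero.2 hD0
    have h4D : 4 * D.natAbs ≠ 0 := by omega
    have : NeZero (4 * D.natAbs) := ⟨h4D⟩
    have hcop : Nat.Coprime d (4 * D.natAbs) := by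
      have h1 : Nat.Coprime d 4 := by
        rw [show (4 : ℕ) = 2 ^ 2 by norm_num]
        exact Nat.Coprime.pow_right 2 (Nat.coprime_two_right.2 hdodd)
      have h2 : Nat.Coprime d D.natAbs := by
        by_contra hcon
        have hd0 : d ≠ 0 := by
          rintro rfl; exact absurd hdodd (by decide)
        have : NeZero d := ⟨hd0⟩
        have h3 : jacobiSym D d = 0 := by
          rw [jacobiSym.eq_zero_iff]
          refine ⟨hd0, ?_⟩
          intro h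
          apply hcon
          rw [Nat.coprime_comm]
          exact h
        rw [h3] at hd
        norm_num at hd
      exact Nat.Coprime.mul_right h1 h2
    have hunit : IsUnit (d : ZMod (4 * D.natAbs)) := (ZMod.isUnit_iff_coprime d _).2 hcop
    set q₀ : ℕ := 4 * D.natAbs * (A₀ 1 0).natAbs * e with hq₀
    have hcn : (A₀ 1 0).natAbs ≠ 0 := Int.natAbs_ne_zero.2 hc₀
    have hq0 : q₀ ≠ 0 := by
      rw [hq₀]; exact mul_ne_zero (mul_ne_zero h4D hcn) he
    obtain ⟨p₁, hp₁gt, hp₁, hp₁m⟩ := Nat.forall_exists_prime_gt_and_eq_mod hunit q₀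
    have hcop₁ : Nat.Coprime p₁ q₀ := by
      rw [Nat.Prime.coprime_iff_not_dvd hp₁]
      intro h
      exact absurd (Nat.le_of_dvd (Nat.pos_of_ne_zero hq0) h) (by omega)
    refine ⟨q₀, hq0, Dvd.intro_left _ rfl, (p₁ : ZMod q₀), (ZMod.isUnit_iff_coprime p₁ _).2 hcop₁,
      fun p hp hpm A hA hC hdvd => ?_⟩
    have hcopp : Nat.Coprime p q₀ := by
      rw [← ZMod.isUnit_iff_coprime, hpm]
      exact (ZMod.isUnit_iff_coprime p₁ _).2 hcop₁
    have hmod : p ≡ p₁ [MOD q₀] := (ZMod.natCast_eq_natCast_iff _ _ _).1 hpm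
    have hmod1 : p ≡ d [MOD 4 * D.natAbs] := by
      have h1 : p ≡ p₁ [MOD 4 * D.natAbs] :=
        hmod.of_dvd (by rw [hq₀, mul_assoc]; exact Dvd.intro _ rfl)
      have h2 : p₁ ≡ d [MOD 4 * D.natAbs] := (ZMod.natCast_eq_natCast_iff _ _ _).1 hp₁m
      exact h1.trans h2
    have hp2 : p ≠ 2 := by
      intro h
      rw [h] at hcopp
      have h2 : 2 ∣ q₀ := by rw [hq₀]; exact ⟨2 * D.natAbs * (A₀ 1 0).natAbs * e, by ring⟩
      have := Nat.Coprime.eq_one_of_dvd hcopp h2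
      omega
    have hpodd : Odd p := hp.odd_of_ne_two hp2
    have hcp : ¬ (p : ℤ) ∣ A₀ 1 0 := by
      intro h
      have h1 : p ∣ (A₀ 1 0).natAbs := Int.natCast_dvd.1 h
      have h2 : p ∣ q₀ := by
        rw [hq₀]; exact (h1.trans (Dvd.intro_left _ rfl)).trans (Dvd.intro _ rfl)
      have := Nat.Coprime.eq_one_of_dvd hcopp h2
      exact hp.one_lt.ne' this
    have hJ : jacobiSym D p = -1 := by
      rw [jacobiSym.mod_right _ hpodd, hmod1, ← jacobiSym.mod_right _ hdodd]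
      exact hd
    have : Fact p.Prime := ⟨hp⟩
    rw [← jacobiSym.legendreSym.to_jacobiSym] at hJ
    have hns := (legendreSym.eq_neg_one_iff p).1 hJ
    exact comm_dv hα ⟨by rw [hsr] at u1 ⊢; exact u1, u2, by rw [hsr] at u3 ⊢; exact u3⟩ hp hp2 hcp hns hC hdvd

/-- **Inert primes of a geodesic that does not join two cusps.** -/
theorem geod_class {α β γ : ℝ} (h0 : ¬ (α = 0 ∧ β = 0 ∧ γ = 0)) (hΔ : 0 < β ^ 2 - 4 * α * γ)
    (hcusp : ∀ (u v w : ℤ) (s : ℝ), α = s * u → β = s * v → γ = s * w →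
      ¬ IsSquare (v ^ 2 - 4 * u * w)) :
    ∃ q₀ : ℕ, q₀ ≠ 0 ∧ ∃ a : ZMod q₀, IsUnit a ∧ ∀ p : ℕ, p.Prime → (p : ZMod q₀) = a →
      InertS (SG α β γ) p := by
  by_cases hsw : ∃ A₂ : Mat, 0 < A₂.det ∧ Swap α β γ A₂
  · obtain ⟨A₂, hA₂, hS₂⟩ := hsw
    have he : A₂.det.natAbs ≠ 0 := Int.natAbs_ne_zero.2 hA₂.ne'
    obtain ⟨q₀, hq0, hdvdq, a, ha, hin⟩ := comm_class h0 hΔ hcusp A₂.det.natAbs he
    refine ⟨q₀, hq0, a, ha, fun p hp hpm A hA hSG hdvd => ?_⟩
    rcases SG_cases hΔ h0 hA hSG with hC | hS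
    · exact hin p hp hpm A hA hC hdvd
    · have hB := swap_mul hS₂ hS
      have hdB : (A₂.adjugate * A).det = A₂.det * A.det := by
        rw [Matrix.det_mul, Matrix.det_adjugate]; simp
      have h1 := hin p hp hpm (A₂.adjugate * A) (by rw [hdB]; positivity) hB
        (by rw [hdB]; exact Dvd.dvd.mul_left hdvd _)
      have h2 : Dv p (A₂ * (A₂.adjugate * A)) := dv_mul_left _ h1
      rw [← Matrix.mul_assoc, Matrix.mul_adjugate, Matrix.smul_mul, Matrix.one_mul] at h2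
      have hcopp : Nat.Coprime p q₀ := by
        rw [← ZMod.isUnit_iff_coprime, hpm]; exact ha
      have hno : ¬ (p : ℤ) ∣ A₂.det := by
        intro h
        have h3 : p ∣ A₂.det.natAbs := Int.natCast_dvd.1 h
        have := Nat.Coprime.eq_one_of_dvd hcopp (h3.trans hdvdq)
        exact hp.one_lt.ne' this
      have hpp : Prime (p : ℤ) := Nat.prime_iff_prime_int.1 hp
      intro i j
      have := h2 i j
      simp only [Matrix.smul_apply, smul_eq_mul] at this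
      exact (hpp.dvd_mul.1 this).resolve_left hno
  · obtain ⟨q₀, hq0, _, a, ha, hin⟩ := comm_class h0 hΔ hcusp 1 one_ne_zero
    refine ⟨q₀, hq0, a, ha, fun p hp hpm A hA hSG hdvd => ?_⟩
    rcases SG_cases hΔ h0 hA hSG with hC | hS
    · exact hin p hp hpm A hA hC hdvd
    · exact absurd ⟨A, hA, hS⟩ hsw

end Pool.Agent.Run7.h176.NC
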