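import Mathlib

/-!
# Unfolding inequality for the modular group
-/

set_option autoImplicit false

open UpperHalfPlane Matrix MeasureTheory
open scoped MatrixGroups ENNReal Modular

namespace Pool.Agent.Run7.h176.NC

instance countable_sl : Countable SL(2, ℤ) := by
  have : Countable (Matrix (Fin 2) (Fin 2) ℤ) := inferInstanceAs (Countable (Fin 2 → Fin 2 → ℤ))
  exact Function.Injective.countable (f := fun g : SL(2, ℤ) => g.1) Subtype.val_injective

lemma mp_sl (γ : SL(2, ℤ)) :
    MeasurePreserving (fun z : ℍ => γ • z) (volume : Measure ℍ) volume := by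
  have := measurePreserving_smul (Matrix.SpecialLinearGroup.mapGL ℝ γ : GL (Fin 2) ℝ)
    (volume : Measure ℍ)
  exact this

lemma two_le (z : ℍ) :
    (2 : ℝ≥0∞) ≤ ∑' γ : SL(2, ℤ), (ModularGroup.fd).indicator (fun _ => (1 : ℝ≥0∞)) (γ • z) := by
  classical
  obtain ⟨g, hg⟩ := ModularGroup.exists_smul_mem_fd z
  have hne : g ≠ -g := by
    intro h
    have h1 : ∀ i j, g.1 i j = 0 := by
      intro i j
      have := congrArg (fun x : SL(2, ℤ) => x.1 i j) h
      simp only [Matrix.SpecialLinearGroup.coe_neg, Matrix.neg_apply] at this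
      omega
    have h2 := g.2
    rw [Matrix.det_fin_two, h1, h1, h1] at h2
    simp at h2
  calc (2 : ℝ≥0∞) = ∑ γ ∈ ({g, -g} : Finset SL(2, ℤ)),
        (ModularGroup.fd).indicator (fun _ => (1 : ℝ≥0∞)) (γ • z) := by
        rw [Finset.sum_pair hne, ModularGroup.SL_neg_smul, Set.indicator_of_mem hg]
        norm_num
    _ ≤ _ := ENNReal.sum_le_tsum _

lemma meas_fd : MeasurableSet (ModularGroup.fd) := by
  have h1 : Measurable fun z : ℍ => Complex.normSq z := by fun_prop
  have h2 : Measurable fun z : ℍ => |z.re| := by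
    have : Continuous fun z : ℍ => |z.re| := UpperHalfPlane.continuous_re.abs
    exact this.measurable
  exact (measurableSet_le measurable_const h1).inter (measurableSet_le h2 measurable_const)

theorem unfold {ι : Type} (R : Finset ι) (S : ι → Set ℍ) (hS : ∀ i ∈ R, MeasurableSet (S i))
    (h : ℍ → ℝ≥0∞) (hm : Measurable h) (hinv : ∀ (γ : SL(2, ℤ)) (z : ℍ), h (γ • z) = h z)
    (K : ℝ≥0∞)
    (hK : ∀ w : ℍ, ∑ i ∈ R, ∑' γ : SL(2, ℤ), (S i).indicator (fun _ => (1 : ℝ≥0∞)) (γ • w) ≤ K) :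
    2 * ∑ i ∈ R, ∫⁻ z in S i, h z ≤ K * ∫⁻ w in ModularGroup.fd, h w := by
  classical
  have hmeasS : ∀ i ∈ R, ∀ γ : SL(2, ℤ),
      Measurable fun w : ℍ => (S i).indicator (fun _ => (1 : ℝ≥0∞)) (γ • w) := by
    intro i hi γ
    exact (measurable_const.indicator (hS i hi)).comp (mp_sl γ).measurable
  have hmeasD : ∀ γ : SL(2, ℤ),
      Measurable fun w : ℍ => (ModularGroup.fd).indicator (fun _ => (1 : ℝ≥0∞)) (γ • w) := by
    intro γ
    exact (measurable_const.indicator meas_fd).comp (mp_sl γ).measurable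
  have key : ∀ i ∈ R, 2 * ∫⁻ z in S i, h z ≤
      ∫⁻ w in ModularGroup.fd,
        (∑' γ : SL(2, ℤ), (S i).indicator (fun _ => (1 : ℝ≥0∞)) (γ • w)) * h w := by
    intro i hi
    have e1 : ∫⁻ z in S i, h z = ∫⁻ z, (S i).indicator (fun _ => (1 : ℝ≥0∞)) z * h z := by
      rw [← lintegral_indicator (hS i hi)]
      congr 1; ext z
      by_cases hz : z ∈ S i <;> simp [hz]
    have e2 : 2 * ∫⁻ z, (S i).indicator (fun _ => (1 : ℝ≥0∞)) z * h z =
        ∫⁻ z, 2 * ((S i).indicator (fun _ => (1 : ℝ≥0∞)) z * h z) :=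
      (lintegral_const_mul 2 ((measurable_const.indicator (hS i hi)).mul hm)).symm
    rw [e1, e2]
    calc ∫⁻ z, 2 * ((S i).indicator (fun _ => (1 : ℝ≥0∞)) z * h z)
        ≤ ∫⁻ z, ∑' γ : SL(2, ℤ), (ModularGroup.fd).indicator (fun _ => (1 : ℝ≥0∞)) (γ • z) *
            ((S i).indicator (fun _ => (1 : ℝ≥0∞)) z * h z) := by
          apply lintegral_mono
          intro z
          dsimp only
          rw [ENNReal.tsum_mul_right]
          exact mul_le_mul_left (two_le z) _
      _ = ∑' γ : SL(2, ℤ), ∫⁻ z, (ModularGroup.fd).indicator (fun _ => (1 : ℝ≥0∞)) (γ • z) *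
            ((S i).indicator (fun _ => (1 : ℝ≥0∞)) z * h z) := by
          rw [lintegral_tsum]
          intro γ
          exact ((hmeasD γ).mul ((measurable_const.indicator (hS i hi)).mul hm)).aemeasurable
      _ = ∑' γ : SL(2, ℤ), ∫⁻ w, (ModularGroup.fd).indicator (fun _ => (1 : ℝ≥0∞)) w *
            ((S i).indicator (fun _ => (1 : ℝ≥0∞)) (γ⁻¹ • w) * h w) := by
          congr 1; ext γ
          have := (mp_sl γ).lintegral_comp
            (f := fun w => (ModularGroup.fd).indicator (fun _ => (1 : ℝ≥0∞)) w *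
              ((S i).indicator (fun _ => (1 : ℝ≥0∞)) (γ⁻¹ • w) * h w))
            ((measurable_const.indicator meas_fd).mul ((hmeasS i hi γ⁻¹).mul hm))
          rw [← this]
          congr 1; ext z
          rw [inv_smul_smul, hinv]
      _ = ∫⁻ w, ∑' γ : SL(2, ℤ), (ModularGroup.fd).indicator (fun _ => (1 : ℝ≥0∞)) w *
            ((S i).indicator (fun _ => (1 : ℝ≥0∞)) (γ⁻¹ • w) * h w) := by
          rw [lintegral_tsum]
          intro γ
          exact ((measurable_const.indicator meas_fd).mul ((hmeasS i hi γ⁻¹).mul hm)).aemeasurable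
      _ = ∫⁻ w in ModularGroup.fd,
        (∑' γ : SL(2, ℤ), (S i).indicator (fun _ => (1 : ℝ≥0∞)) (γ • w)) * h w := by
          rw [← lintegral_indicator meas_fd]
          congr 1; ext w
          have e3 : ∑' γ : SL(2, ℤ), (S i).indicator (fun _ => (1 : ℝ≥0∞)) (γ⁻¹ • w) =
              ∑' γ : SL(2, ℤ), (S i).indicator (fun _ => (1 : ℝ≥0∞)) (γ • w) :=
            (Equiv.inv SL(2, ℤ)).tsum_eq
              (fun γ => (S i).indicator (fun _ => (1 : ℝ≥0∞)) (γ • w))
          rw [ENNReal.tsum_mul_left, ENNReal.tsum_mul_right, e3]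
          by_cases hw : w ∈ ModularGroup.fd <;> simp [hw]
  calc 2 * ∑ i ∈ R, ∫⁻ z in S i, h z = ∑ i ∈ R, 2 * ∫⁻ z in S i, h z := by
        rw [Finset.mul_sum]
    _ ≤ ∑ i ∈ R, ∫⁻ w in ModularGroup.fd,
        (∑' γ : SL(2, ℤ), (S i).indicator (fun _ => (1 : ℝ≥0∞)) (γ • w)) * h w :=
        Finset.sum_le_sum key
    _ = ∫⁻ w in ModularGroup.fd, ∑ i ∈ R,
        (∑' γ : SL(2, ℤ), (S i).indicator (fun _ => (1 : ℝ≥0∞)) (γ • w)) * h w := by
        rw [lintegral_finsetSum' _ ?_]
        intro i hi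
        exact ((Measurable.tsum (fun γ => hmeasS i hi γ)).mul hm).aemeasurable
    _ ≤ ∫⁻ w in ModularGroup.fd, K * h w := by
        apply lintegral_mono
        intro w
        dsimp only
        rw [← Finset.sum_mul]
        exact mul_le_mul_left (hK w) _
    _ = K * ∫⁻ w in ModularGroup.fd, h w := lintegral_const_mul _ hm

end Pool.Agent.Run7.h176.NC
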