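import Pool.Agent.Run7.h176.NC.Discrete
import Pool.Agent.Run7.h176.NC.Arith
import Pool.Agent.Run7.h176.NC.Unfold

/-!
# Counting the Hecke translates of a small ball which meet one orbit
-/

set_option autoImplicit false

open UpperHalfPlane Matrix MeasureTheory
open scoped MatrixGroups ENNReal

namespace Pool.Agent.Run7.h176.NC

/-- Hermite normal form -/
def HN (M : Mat) : Prop := M 1 0 = 0 ∧ 0 < M 0 0 ∧ 0 ≤ M 0 1 ∧ M 0 1 < M 1 1

lemma HN.det_pos {M : Mat} (h : HN M) : 0 < M.det := by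
  obtain ⟨h1, h2, h3, h4⟩ := h
  rw [Matrix.det_fin_two, h1]
  have : 0 < M 1 1 := by omega
  nlinarith [mul_pos h2 this]

lemma hn_unique {M M' : Mat} (hM : HN M) (hM' : HN M') (γ : SL(2, ℤ)) (h : γ.1 * M = M') :
    M = M' ∧ γ = 1 := by
  obtain ⟨h1, h2, h3, h4⟩ := hM
  obtain ⟨h1', h2', h3', h4'⟩ := hM'
  have e00 : γ.1 0 0 * M 0 0 = M' 0 0 := by
    rw [← h, Matrix.mul_apply, Fin.sum_univ_two, h1]; ring
  have e10 : γ.1 1 0 * M 0 0 = 0 := by
    have : M' 1 0 = γ.1 1 0 * M 0 0 := by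
      rw [← h, Matrix.mul_apply, Fin.sum_univ_two, h1]; ring
    rw [← this, h1']
  have e01 : γ.1 0 0 * M 0 1 + γ.1 0 1 * M 1 1 = M' 0 1 := by
    rw [← h, Matrix.mul_apply, Fin.sum_univ_two]
  have e11 : γ.1 1 0 * M 0 1 + γ.1 1 1 * M 1 1 = M' 1 1 := by
    rw [← h, Matrix.mul_apply, Fin.sum_univ_two]
  have g10 : γ.1 1 0 = 0 := by
    rcases mul_eq_zero.1 e10 with h | h
    · exact h
    · omega
  have hdet : γ.1 0 0 * γ.1 1 1 = 1 := by
    have := γ.2
    rw [Matrix.det_fin_two, g10] at this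
    linarith
  have g00 : γ.1 0 0 = 1 := by
    have hpos : 0 < γ.1 0 0 := by
      by_contra hn
      push Not at hn
      nlinarith
    rcases Int.mul_eq_one_iff_eq_one_or_neg_one.1 hdet with h | h
    · exact h.1
    · omega
  have g11 : γ.1 1 1 = 1 := by rw [g00] at hdet; linarith
  rw [g00, one_mul] at e00
  rw [g10, g11, zero_mul, zero_add, one_mul] at e11
  rw [g00, one_mul] at e01
  have g01 : γ.1 0 1 = 0 := by
    by_contra hne
    rcases lt_or_gt_of_ne hne with h5 | h5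
    · nlinarith
    · nlinarith
  rw [g01, zero_mul, add_zero] at e01
  refine ⟨?_, ?_⟩
  · ext i j
    fin_cases i <;> fin_cases j
    · exact e00
    · exact e01
    · change M 1 0 = M' 1 0
      rw [h1, h1']
    · exact e11
  · ext i j
    fin_cases i <;> fin_cases j
    · exact g00
    · exact g01
    · exact g10
    · exact g11

lemma adj_adj (A : Mat) : A.adjugate.adjugate = A := by
  rw [Matrix.adjugate_fin_two, Matrix.adjugate_fin_two]
  ext i j
  fin_cases i <;> fin_cases j <;> simp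

lemma dv_adj {p : ℤ} {A : Mat} (h : Dv p A.adjugate) : Dv p A := by
  rw [Matrix.adjugate_fin_two] at h
  intro i j
  fin_cases i <;> fin_cases j
  · simpa using h 1 1
  · simpa using h 0 1
  · simpa using h 1 0
  · simpa using h 0 0

lemma dv_mul_left {p : ℤ} {A : Mat} (B : Mat) (h : Dv p A) : Dv p (B * A) := by
  intro i j
  rw [Matrix.mul_apply]
  exact Finset.dvd_sum fun k _ => Dvd.dvd.mul_left (h k j) _

lemma dv_mul_right {p : ℤ} {A : Mat} (B : Mat) (h : Dv p A) : Dv p (A * B) := by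
  intro i j
  rw [Matrix.mul_apply]
  exact Finset.dvd_sum fun k _ => Dvd.dvd.mul_right (h i k) _

lemma dv_exists {p : ℤ} {A : Mat} (h : Dv p A) : ∃ A' : Mat, A = p • A' := by
  choose f hf using h
  exact ⟨Matrix.of f, by ext i j; rw [Matrix.smul_apply, Matrix.of_apply, smul_eq_mul]; exact hf i j⟩

lemma scale_facts {z₀ : ℍ} {n : ℤ} (hn : 0 < n) {A' : Mat} (hA : 0 < (n • A').det)
    (hfix : GM (n • A') • z₀ = z₀) :
    0 < A'.det ∧ GM A' • z₀ = z₀ ∧ (n • A').det = n ^ 2 * A'.det := by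
  have h1 : (n • A').det = n ^ 2 * A'.det := by
    rw [Matrix.det_smul]; simp
  have h2 : 0 < A'.det := by
    rw [h1] at hA
    have h3 : 0 < n ^ 2 := by positivity
    exact (mul_pos_iff_of_pos_left h3).1 hA
  refine ⟨h2, ?_, h1⟩
  rw [fix_iff hA] at hfix
  rw [fix_iff h2]
  have hn' : (n : ℂ) ≠ 0 := by exact_mod_cast hn.ne'
  have h3 : (n : ℂ) * ((A' 1 0 : ℂ) * (z₀ : ℂ) ^ 2 + (A' 1 1 - A' 0 0) * z₀ - A' 0 1) = 0 := by
    have e : ∀ i j, (((n • A') i j : ℤ) : ℂ) = n * (A' i j : ℂ) := by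
      intro i j; simp
    rw [e, e, e, e] at hfix
    linear_combination hfix
  exact (mul_eq_zero.1 h3).resolve_left hn'

/-- if `adj N * N₀` is divisible by the common determinant then `N₀ = N v` -/
lemma of_scaled {z₀ : ℍ} {N N₀ : Mat} (hN : 0 < N.det) (hNN : N.det = N₀.det)
    (hfix : GM (N.adjugate * N₀) • z₀ = z₀) {V : Mat} (hV : N.adjugate * N₀ = N.det • V) :
    ∃ v : SL(2, ℤ), v • z₀ = z₀ ∧ N₀ = N * v.1 := by
  have hdA : (N.adjugate * N₀).det = N.det ^ 2 := by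
    rw [Matrix.det_mul, Matrix.det_adjugate, ← hNN]; simp; ring
  have hA : 0 < (N.det • V).det := by rw [← hV, hdA]; positivity
  rw [hV] at hfix
  obtain ⟨h1, h2, h3⟩ := scale_facts hN hA hfix
  have h4 : V.det = 1 := by
    have h5 : N.det ^ 2 * V.det = N.det ^ 2 * 1 := by rw [← h3, ← hV, hdA]; ring
    exact mul_left_cancel₀ (by positivity) h5
  refine ⟨(⟨V, h4⟩ : SL(2, ℤ)), ?_, ?_⟩
  · exact (sl_smul (⟨V, h4⟩ : SL(2, ℤ)) z₀).trans h2
  · have h5 : N * (N.adjugate * N₀) = N.det • N₀ := by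
      rw [← Matrix.mul_assoc, Matrix.mul_adjugate, Matrix.smul_mul, Matrix.one_mul]
    rw [hV, Matrix.mul_smul] at h5
    ext i j
    have h6 := congrFun (congrFun h5 i) j
    simp only [Matrix.smul_apply, smul_eq_mul] at h6
    exact (mul_left_cancel₀ hN.ne' h6).symm

/-- the determinant of `N` is `1`, `p` or `p ^ 2` -/
def Lev (p : ℕ) (N : Mat) : Prop := N.det = 1 ∨ N.det = p ∨ N.det = (p : ℤ) ^ 2

lemma not_dvd_side {z₀ : ℍ} {p : ℕ} (hp : p.Prime) (hin : Inert z₀ p) {N N₀ : Mat}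
    (hN : 0 < N.det) (hN₀ : 0 < N₀.det) (pN : Prim N) (pN₀ : Prim N₀)
    (hfix : GM (N.adjugate * N₀) • z₀ = z₀) : (p : ℤ) ∣ N.det ↔ (p : ℤ) ∣ N₀.det := by
  have hpp : Prime (p : ℤ) := Nat.prime_iff_prime_int.1 hp
  have hdA : (N.adjugate * N₀).det = N.det * N₀.det := by
    rw [Matrix.det_mul, Matrix.det_adjugate]; simp
  have hA : 0 < (N.adjugate * N₀).det := by rw [hdA]; positivity
  constructor
  · intro h
    by_contra hno
    have h1 : Dv p (N.adjugate * N₀) := hin _ hA hfix (by rw [hdA]; exact Dvd.dvd.mul_right h _)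
    have h2 : Dv p (N.adjugate * N₀ * N₀.adjugate) := dv_mul_right _ h1
    rw [Matrix.mul_assoc, Matrix.mul_adjugate, Matrix.mul_smul, Matrix.mul_one] at h2
    have h3 : Dv p N.adjugate := by
      intro i j
      have := h2 i j
      simp only [Matrix.smul_apply, smul_eq_mul] at this
      exact (hpp.dvd_mul.1 this).resolve_left hno
    exact pN p hp (dv_adj h3)
  · intro h
    by_contra hno
    have h1 : Dv p (N.adjugate * N₀) := hin _ hA hfix (by rw [hdA]; exact Dvd.dvd.mul_left h _)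
    have h2 : Dv p (N * (N.adjugate * N₀)) := dv_mul_left _ h1
    rw [← Matrix.mul_assoc, Matrix.mul_adjugate, Matrix.smul_mul, Matrix.one_mul] at h2
    have h3 : Dv p N₀ := by
      intro i j
      have := h2 i j
      simp only [Matrix.smul_apply, smul_eq_mul] at this
      exact (hpp.dvd_mul.1 this).resolve_left hno
    exact pN₀ p hp h3

theorem quot {z₀ : ℍ} {p q : ℕ} (hp : p.Prime) (hip : Inert z₀ p) (hq : q.Prime)
    (hiq : Inert z₀ q) {N N₀ : Mat} (hN : 0 < N.det) (hN₀ : 0 < N₀.det) (pN : Prim N)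
    (pN₀ : Prim N₀) (lN : Lev p N) (lN₀ : Lev q N₀)
    (hfix : GM (N.adjugate * N₀) • z₀ = z₀) : ∃ v : SL(2, ℤ), v • z₀ = z₀ ∧ N₀ = N * v.1 := by
  have hpp : Prime (p : ℤ) := Nat.prime_iff_prime_int.1 hp
  have hqq : Prime (q : ℤ) := Nat.prime_iff_prime_int.1 hq
  have hp1 : (1 : ℤ) < p := by exact_mod_cast hp.one_lt
  have hq1 : (1 : ℤ) < q := by exact_mod_cast hq.one_lt
  have sp := not_dvd_side hp hip hN hN₀ pN pN₀ hfix
  have sq' := not_dvd_side hq hiq hN hN₀ pN pN₀ hfix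
  have hdA : (N.adjugate * N₀).det = N.det * N₀.det := by
    rw [Matrix.det_mul, Matrix.det_adjugate]; simp
  have hA : 0 < (N.adjugate * N₀).det := by rw [hdA]; positivity
  by_cases h1 : N.det = 1
  · have h2 : ¬ (q : ℤ) ∣ N₀.det := by
      rw [← sq', h1]; exact hqq.not_dvd_one
    have h3 : N₀.det = 1 := by
      rcases lN₀ with h | h | h
      · exact h
      · exact absurd (by rw [h]) h2
      · exact absurd (by rw [h]; exact dvd_pow_self _ two_ne_zero) h2
    exact of_scaled hN (by rw [h1, h3]) hfix (V := N.adjugate * N₀) (by rw [h1, one_smul])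
  · have h2 : (p : ℤ) ∣ N.det := by
      rcases lN with h | h | h
      · exact absurd h h1
      · rw [h]
      · rw [h]; exact dvd_pow_self _ two_ne_zero
    have h3 : (p : ℤ) ∣ N₀.det := sp.1 h2
    have h4 : N₀.det ≠ 1 := by
      intro h; rw [h] at h3; exact hpp.not_dvd_one h3
    have hpq : (p : ℤ) = q := by
      have h5 : (p : ℤ) ∣ q := by
        rcases lN₀ with h | h | h
        · exact absurd h h4
        · rwa [h] at h3
        · rw [h] at h3; exact hpp.dvd_of_dvd_pow h3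
      have h6 : p ∣ q := by exact_mod_cast h5
      exact_mod_cast (Nat.prime_dvd_prime_iff_eq hp hq).1 h6
    have lN₀' : N₀.det = p ∨ N₀.det = (p : ℤ) ^ 2 := by
      rw [hpq]
      rcases lN₀ with h | h | h
      · exact absurd h h4
      · exact Or.inl h
      · exact Or.inr h
    have lN' : N.det = p ∨ N.det = (p : ℤ) ^ 2 := by
      rcases lN with h | h | h
      · exact absurd h h1
      · exact Or.inl h
      · exact Or.inr h
    have d1 : Dv p (N.adjugate * N₀) := hip _ hA hfix (by rw [hdA]; exact Dvd.dvd.mul_right h2 _)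
    obtain ⟨A', hA'⟩ := dv_exists d1
    have hA2 := hA
    have hfix2 := hfix
    rw [hA'] at hA2 hfix2
    obtain ⟨f1, f2, f3⟩ := scale_facts (by linarith : (0 : ℤ) < p) hA2 hfix2
    rw [← hA', hdA] at f3
    have hodd : ¬ ((N.det = p ∧ N₀.det = (p : ℤ) ^ 2) ∨ (N.det = (p : ℤ) ^ 2 ∧ N₀.det = p)) := by
      intro hcase
      have f4 : A'.det = p := by
        have : (p : ℤ) ^ 2 * A'.det = (p : ℤ) ^ 2 * p := by
          rw [← f3]
          rcases hcase with ⟨e1, e2⟩ | ⟨e1, e2⟩ <;> rw [e1, e2] <;> ring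
        exact mul_left_cancel₀ (by positivity) this
      have d2 : Dv p A' := hip _ f1 f2 (by rw [f4])
      obtain ⟨A'', hA''⟩ := dv_exists d2
      have f5 : A'.det = (p : ℤ) ^ 2 * A''.det := by
        rw [hA'', Matrix.det_smul]; simp
      have f6 : (p : ℤ) * ((p : ℤ) * A''.det) = (p : ℤ) * 1 := by
        rw [mul_one]; rw [f4] at f5; rw [← mul_assoc, ← sq, ← f5]
      have f7 := mul_left_cancel₀ (by linarith : (p : ℤ) ≠ 0) f6
      exact hpp.not_dvd_one ⟨_, f7.symm⟩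
    rcases lN' with a1 | a1 <;> rcases lN₀' with a2 | a2
    · exact of_scaled hN (by rw [a1, a2]) hfix (V := A') (by rw [hA', a1])
    · exact absurd (Or.inl ⟨a1, a2⟩) hodd
    · exact absurd (Or.inr ⟨a1, a2⟩) hodd
    · have f4 : A'.det = (p : ℤ) ^ 2 := by
        have : (p : ℤ) ^ 2 * A'.det = (p : ℤ) ^ 2 * (p : ℤ) ^ 2 := by
          rw [← f3, a1, a2]
        exact mul_left_cancel₀ (by positivity) this
      have d2 : Dv p A' := hip _ f1 f2 (by rw [f4]; exact dvd_pow_self _ two_ne_zero)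
      obtain ⟨A'', hA''⟩ := dv_exists d2
      exact of_scaled hN (by rw [a1, a2]) hfix (V := A'') (by
        rw [hA', hA'', smul_smul, a1, sq])

/-- The translates of a small ball: counting. -/
theorem count (z₀ : ℍ) (R : Finset Mat)
    (hR : ∀ M ∈ R, HN M ∧ Prim M ∧ ∃ p : ℕ, p.Prime ∧ Inert z₀ p ∧ Lev p M) :
    ∃ δ : ℝ, 0 < δ ∧ ∀ w : ℍ, ∑ M ∈ R, ∑' γ : SL(2, ℤ),
      ({x : ℍ | GM M.adjugate • x ∈ Metric.ball z₀ δ}).indicator (fun _ => (1 : ℝ≥0∞)) (γ • w) ≤
        (Nat.card {γ : SL(2, ℤ) // γ • z₀ = z₀} : ℝ≥0∞) := by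
  classical
  set D : ℕ := (∑ M ∈ R, M.det.natAbs) ^ 2 with hD
  obtain ⟨δ, hδ, hdis⟩ := discrete z₀ D
  refine ⟨δ, hδ, fun w => ?_⟩
  have hdet : ∀ M ∈ R, M.det ≤ ((∑ M ∈ R, M.det.natAbs : ℕ) : ℤ) := by
    intro M hM
    have h1 : M.det.natAbs ≤ ∑ M ∈ R, M.det.natAbs :=
      Finset.single_le_sum (f := fun M : Mat => M.det.natAbs) (fun _ _ => Nat.zero_le _) hM
    have h2 := (hR M hM).1.det_pos
    have h3 : ((M.det.natAbs : ℕ) : ℤ) = M.det := Int.natAbs_of_nonneg h2.le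
    rw [← h3]
    exact_mod_cast h1
  have hfin := stab_finite z₀
  -- the set of pairs
  set P : Set (R × SL(2, ℤ)) :=
    {x | GM x.1.1.adjugate • (x.2 • w) ∈ Metric.ball z₀ δ} with hP
  have hsum : ∑ M ∈ R, ∑' γ : SL(2, ℤ),
      ({x : ℍ | GM M.adjugate • x ∈ Metric.ball z₀ δ}).indicator (fun _ => (1 : ℝ≥0∞)) (γ • w) =
      ∑' _ : P, (1 : ℝ≥0∞) := by
    rw [← Finset.sum_coe_sort R, ← tsum_fintype (L := SummationFilter.unconditional _),
      ← ENNReal.tsum_prod, tsum_subtype P (fun _ => (1 : ℝ≥0∞))]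
    rfl
  rw [hsum]
  rcases P.eq_empty_or_nonempty with hemp | ⟨⟨⟨M₀, hM₀⟩, γ₀⟩, hx₀⟩
  · rw [hemp]; simp
  have hcard : (Nat.card {γ : SL(2, ℤ) // γ • z₀ = z₀} : ℝ≥0∞) =
      ∑' _ : {γ : SL(2, ℤ) // γ • z₀ = z₀}, (1 : ℝ≥0∞) := by
    have : Fintype {γ : SL(2, ℤ) // γ • z₀ = z₀} := Fintype.ofFinite _
    rw [tsum_fintype, Finset.sum_const, Finset.card_univ, Nat.card_eq_fintype_card]
    simp
  rw [hcard]
  -- the map to the stabiliser
  have hmap : ∀ x : P, ∃ v : {γ : SL(2, ℤ) // γ • z₀ = z₀},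
      γ₀.1.adjugate * M₀ = x.1.2.1.adjugate * x.1.1.1 * v.1.1 := by
    rintro ⟨⟨⟨M, hM⟩, γ⟩, hx⟩
    obtain ⟨hn, pr, p, hp, hip, lev⟩ := hR M hM
    obtain ⟨hn₀, pr₀, q, hq, hiq, lev₀⟩ := hR M₀ hM₀
    have hMd := hn.det_pos
    have hMd₀ := hn₀.det_pos
    have dg : ∀ g : SL(2, ℤ), g.1.adjugate.det = 1 := by
      intro g
      rw [Matrix.det_adjugate, g.2]; simp
    set N : Mat := γ.1.adjugate * M with hN
    set N₀ : Mat := γ₀.1.adjugate * M₀ with hN₀
    have dN : N.det = M.det := by rw [hN, Matrix.det_mul, dg, one_mul]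
    have dN₀ : N₀.det = M₀.det := by rw [hN₀, Matrix.det_mul, dg, one_mul]
    have primN : ∀ (g : SL(2, ℤ)) (B : Mat), Prim B → Prim (g.1.adjugate * B) := by
      intro g B hB r hr hdv
      apply hB r hr
      have : B = g.1 * (g.1.adjugate * B) := by
        rw [← Matrix.mul_assoc, Matrix.mul_adjugate, g.2, one_smul, Matrix.one_mul]
      rw [this]
      exact dv_mul_left _ hdv
    have adjN : N.adjugate = M.adjugate * γ.1 := by
      rw [hN, Matrix.adjugate_mul_distrib, adj_adj]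
    have adjN₀ : N₀.adjugate = M₀.adjugate * γ₀.1 := by
      rw [hN₀, Matrix.adjugate_mul_distrib, adj_adj]
    have dadj : ∀ {B : Mat}, 0 < B.det → 0 < B.adjugate.det := by
      intro B hB
      rw [Matrix.det_adjugate]; simpa using hB
    have act : ∀ (g : SL(2, ℤ)) (B : Mat), 0 < B.det →
        GM (B.adjugate * g.1) • w = GM B.adjugate • (g • w) := by
      intro g B hB
      rw [GM_mul (dadj hB).ne' (by rw [g.2]; norm_num), mul_smul, ← sl_smul]
    have hx' : GM N.adjugate • w ∈ Metric.ball z₀ δ := by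
      rw [adjN, act γ M hMd]; exact hx
    have hx₀' : GM N₀.adjugate • w ∈ Metric.ball z₀ δ := by
      rw [adjN₀, act γ₀ M₀ hMd₀]; exact hx₀
    have hNd : 0 < N.det := by rw [dN]; exact hMd
    have hNd₀ : 0 < N₀.det := by rw [dN₀]; exact hMd₀
    have hA : 0 < (N.adjugate * N₀).det := by
      rw [Matrix.det_mul]; exact mul_pos (dadj hNd) hNd₀
    have hAD : (N.adjugate * N₀).det ≤ D := by
      rw [Matrix.det_mul, Matrix.det_adjugate, dN, dN₀, hD]
      simp only [Fintype.card_fin, Nat.add_one_sub_one, pow_one]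
      push_cast
      rw [sq]
      have := hdet M hM
      have := hdet M₀ hM₀
      push_cast at *
      exact mul_le_mul (by assumption) (by assumption) hMd₀.le (by positivity)
    have hfix : GM (N.adjugate * N₀) • z₀ = z₀ := by
      apply hdis _ hA hAD (GM N₀.adjugate • w)
      · exact hx₀'
      · rw [GM_mul (dadj hNd).ne' hNd₀.ne', mul_smul, smul_adj hNd₀]
        exact hx'
    obtain ⟨v, hv1, hv2⟩ := quot hp hip hq hiq hNd hNd₀ (primN γ M pr) (primN γ₀ M₀ pr₀)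
      (by unfold Lev at lev ⊢; rw [dN]; exact lev) (by unfold Lev at lev₀ ⊢; rw [dN₀]; exact lev₀)
      hfix
    exact ⟨⟨v, hv1⟩, hv2⟩
  choose F hF using hmap
  have hinj : Function.Injective F := by
    intro x y hxy
    obtain ⟨⟨⟨M, hM⟩, γ⟩, hx⟩ := x
    obtain ⟨⟨⟨M', hM'⟩, γ'⟩, hy⟩ := y
    have h1 := hF ⟨⟨⟨M, hM⟩, γ⟩, hx⟩
    have h2 := hF ⟨⟨⟨M', hM'⟩, γ'⟩, hy⟩
    rw [hxy] at h1
    rw [h1] at h2
    simp only at h2
    set v := F ⟨⟨⟨M', hM'⟩, γ'⟩, hy⟩
    have h3 : γ.1.adjugate * M = γ'.1.adjugate * M' := by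
      have h4 := congrArg (fun B : Mat => B * v.1.1.adjugate) h2
      simp only [Matrix.mul_assoc, Matrix.mul_adjugate, v.1.2, one_smul, Matrix.mul_one] at h4
      exact h4
    have h5 : (γ' * γ⁻¹).1 * M = M' := by
      rw [Matrix.SpecialLinearGroup.coe_mul, Matrix.SpecialLinearGroup.coe_inv, Matrix.mul_assoc,
        h3, ← Matrix.mul_assoc, Matrix.mul_adjugate, γ'.2, one_smul, Matrix.one_mul]
    obtain ⟨h6, h7⟩ := hn_unique (hR M hM).1 (hR M' hM').1 _ h5
    have h8 : γ' = γ := by rw [mul_inv_eq_one] at h7; exact h7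
    subst h6
    subst h8
    rfl
  exact ENNReal.tsum_comp_le_tsum_of_injective hinj (fun _ => (1 : ℝ≥0∞))

end Pool.Agent.Run7.h176.NC
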