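import Pool.Agent.Run7.h176.NC.Main

/-!
# Moments of order at most three do not concentrate at a point
-/

set_option autoImplicit false

open UpperHalfPlane Matrix MeasureTheory
open scoped MatrixGroups ENNReal Modular

namespace Pool.Agent.Run7.h176.NC

lemma exists_primes (q₀ : ℕ) [NeZero q₀] (a : ZMod q₀) (ha : IsUnit a) (X : ℝ) :
    ∃ P : Finset ℕ, (∀ p ∈ P, p.Prime ∧ (p : ZMod q₀) = a) ∧ X ≤ ∑ p ∈ P, 1 / (p : ℝ) := by
  classical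
  by_contra hcon
  push Not at hcon
  apply Pool.Agent.H98R3.OM.not_summable_class ha
  refine summable_of_sum_le (c := X) ?_ ?_
  · intro n
    change 0 ≤ if n.Prime ∧ (n : ZMod q₀) = a then (1 : ℝ) / n else 0
    split_ifs <;> positivity
  · intro s
    rw [← Finset.sum_filter]
    exact (hcon (s.filter fun n => n.Prime ∧ (n : ZMod q₀) = a)
      (fun p hp => (Finset.mem_filter.1 hp).2)).le

lemma cancel_ineq {c ε : ℝ} (hc : 0 < c) (_hε : 0 < ε) {K : ℕ} (hK : (K : ℝ) ≤ 2 * c * ε)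
    {I J : ℝ≥0∞} (h : 2 * (ENNReal.ofReal c * I) ≤ (K : ℝ≥0∞) * J) : I ≤ ENNReal.ofReal ε * J := by
  have h1 : (K : ℝ≥0∞) ≤ ENNReal.ofReal (2 * c * ε) := by
    rw [← ENNReal.ofReal_natCast]
    exact ENNReal.ofReal_le_ofReal hK
  have h2 : ENNReal.ofReal (2 * c * ε) * J = ENNReal.ofReal (2 * c) * (ENNReal.ofReal ε * J) := by
    rw [ENNReal.ofReal_mul (by positivity), mul_assoc]
  have h3 : 2 * (ENNReal.ofReal c * I) = ENNReal.ofReal (2 * c) * I := by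
    rw [ENNReal.ofReal_mul (by norm_num), ← mul_assoc]
    norm_num
  have h4 : ENNReal.ofReal (2 * c) * I ≤ ENNReal.ofReal (2 * c) * (ENNReal.ofReal ε * J) := by
    rw [← h3, ← h2]
    exact h.trans (mul_le_mul_left h1 _)
  have h5 : ENNReal.ofReal (2 * c) ≠ 0 := by
    rw [ne_eq, ENNReal.ofReal_eq_zero, not_le]; positivity
  exact (ENNReal.mul_le_mul_iff_right h5 ENNReal.ofReal_ne_top).1 h4

lemma sum_weights {P : Finset ℕ} (hP : ∀ p ∈ P, p.Prime) (l : ℕ → ℂ) {q : ℝ} (hq : 1 ≤ q)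
    (hq3 : q ≤ 3) :
    (1 / 18) * ∑ p ∈ P, 1 / (p : ℝ) ≤ ∑ p ∈ P, (wt₁ q p (l p) + wt₂ q p (l p)) := by
  rw [Finset.mul_sum]
  apply Finset.sum_le_sum
  intro p hp
  have := weight_ge (hP p hp) (l p) hq hq3
  rw [one_div_mul_one_div]
  exact this

/-- At one point. -/
theorem point_small (z₀ : ℍ) {ε : ℝ} (hε : 0 < ε) :
    ∃ δ : ℝ, 0 < δ ∧ ∀ (f : ℍ → ℂ) (l : ℕ → ℂ), HeckeForm f l → ∀ q : ℝ, 1 ≤ q → q ≤ 3 →
      ∫⁻ z in Metric.ball z₀ δ, ‖f z‖ₑ ^ q ≤ ENNReal.ofReal ε * ∫⁻ z in 𝒟, ‖f z‖ₑ ^ q := by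
  obtain ⟨q₀, hq₀, -, hinert⟩ := exists_modulus z₀
  have : NeZero q₀ := ⟨hq₀.ne'⟩
  set K := Nat.card {γ : SL(2, ℤ) // γ • z₀ = z₀} with hK
  obtain ⟨P, hP, hX⟩ := exists_primes q₀ (-1) isUnit_one.neg (9 * K / ε)
  have hP' : ∀ p ∈ P, p.Prime ∧ Inert z₀ p := by
    intro p hp
    refine ⟨(hP p hp).1, hinert p (hP p hp).1 ?_⟩
    rw [← ZMod.natCast_eq_zero_iff]
    push_cast
    rw [(hP p hp).2]; ring
  obtain ⟨δ, hδ, hmain⟩ := main_ineq z₀ P hP'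
  refine ⟨δ, hδ, fun f l H q hq hq3 => ?_⟩
  have h1 := hmain f l H q hq
  have h2 := sum_weights (fun p hp => (hP p hp).1) l hq hq3
  have h3 : (K : ℝ) / (2 * ε) ≤ (1 / 18) * ∑ p ∈ P, 1 / (p : ℝ) := by
    have : (K : ℝ) / (2 * ε) = (1 / 18) * (9 * K / ε) := by
      field_simp; ring
    rw [this]
    exact mul_le_mul_of_nonneg_left hX (by norm_num)
  have h4 : (K : ℝ) / (2 * ε) ≤ 1 + ∑ p ∈ P, (wt₁ q p (l p) + wt₂ q p (l p)) := by linarith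
  have hK0 : (0 : ℝ) ≤ K := Nat.cast_nonneg K
  have h5 : (0 : ℝ) < 1 + ∑ p ∈ P, (wt₁ q p (l p) + wt₂ q p (l p)) := by
    have : 0 ≤ (1 / 18) * ∑ p ∈ P, 1 / (p : ℝ) := by positivity
    linarith
  refine cancel_ineq h5 hε ?_ h1
  rw [div_le_iff₀ (by positivity)] at h4
  linarith

end Pool.Agent.Run7.h176.NC
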