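import Pool.Agent.Run7.h176.NC.Gen
import Pool.Agent.Run7.h176.NC.Point

/-!
# Small neighbourhoods of compact sets whose Hecke translates meet them in finite sets
-/

set_option autoImplicit false

open UpperHalfPlane Matrix MeasureTheory Filter Topology
open scoped MatrixGroups ENNReal Modular

namespace Pool.Agent.Run7.h176.NC

theorem curve_small {S : Mat → Prop} (hS : Scaling S) (q₀ : ℕ) [NeZero q₀] (a : ZMod q₀)
    (ha : IsUnit a) (hin : ∀ p : ℕ, p.Prime → (p : ZMod q₀) = a → InertS S p)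
    {L : Set ℍ} (hL : IsCompact L)
    (hfin : ∀ A : Mat, 0 < A.det → ¬ S A → {x | x ∈ L ∧ GM A • x ∈ L}.Finite)
    {ε : ℝ} (hε : 0 < ε) :
    ∃ δ : ℝ, 0 < δ ∧ ∀ (f : ℍ → ℂ) (l : ℕ → ℂ), HeckeForm f l → ∀ q : ℝ, 1 ≤ q → q ≤ 3 →
      ∫⁻ z in Metric.thickening δ L, ‖f z‖ₑ ^ q ≤
        ENNReal.ofReal ε * ∫⁻ z in 𝒟, ‖f z‖ₑ ^ q := by
  classical
  rcases L.eq_empty_or_nonempty with hem | hne
  · refine ⟨1, one_pos, fun f l _ q _ _ => ?_⟩
    rw [hem]; simp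
  set K : Set ℍ := Metric.cthickening 1 L with hK
  have hKc : IsCompact K := hL.cthickening
  set n : ℕ := Nat.card {γ : SL(2, ℤ) // ∃ x ∈ K, γ • x ∈ K} with hn
  obtain ⟨P, hP, hX⟩ := exists_primes q₀ a ha (18 * n / ε)
  have hP' : ∀ p ∈ P, p.Prime ∧ InertS S p := fun p hp =>
    ⟨(hP p hp).1, hin p (hP p hp).1 (hP p hp).2⟩
  have hex : ∃ p : ℕ, p.Prime ∧ InertS S p := by
    obtain ⟨p, _, hp, hpm⟩ := Nat.forall_exists_prime_gt_and_eq_mod ha 0
    exact ⟨p, hp, hin p hp hpm⟩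
  set D := DD (RR P) with hD
  obtain ⟨N, hN⟩ := entries_bounded_compact hKc D
  set 𝒜 : Set Mat := {A | 0 < A.det ∧ A.det ≤ D ∧ (∃ x ∈ K, GM A • x ∈ K) ∧ ¬ S A} with h𝒜
  have h𝒜fin : 𝒜.Finite := by
    refine (finite_bounded N).subset ?_
    rintro A ⟨h1, h2, ⟨x, hx, hx'⟩, _⟩
    exact hN A h1 h2 x hx hx'
  set Z : Set ℍ := ⋃ A ∈ 𝒜, {x | x ∈ L ∧ GM A • x ∈ L} with hZ
  have hZfin : Z.Finite := h𝒜fin.biUnion fun A hA => hfin A hA.1 hA.2.2.2
  have hZf := hZfin.to_subtype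
  set k : ℕ := Nat.card Z with hk
  have hε' : 0 < ε / (2 * (k + 1)) := by positivity
  choose ρ hρ hρs using fun z : ℍ => point_small z hε'
  set U : Set ℍ := ⋃ z : Z, Metric.ball z.1 (ρ z.1) with hU
  have hUo : IsOpen U := isOpen_iUnion fun z => Metric.isOpen_ball
  -- the gap
  have hgap : ∀ A ∈ 𝒜, ∃ m : ℝ, 0 < m ∧ ∀ x ∈ K \ U,
      m ≤ Metric.infDist x L + Metric.infDist (GM A • x) L := by
    intro A hA
    have hKU : IsCompact (K \ U) := hKc.diff hUo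
    rcases (K \ U).eq_empty_or_nonempty with h0 | h0
    · exact ⟨1, one_pos, fun x hx => absurd hx (by rw [h0]; simp)⟩
    have hcont : Continuous fun x : ℍ => Metric.infDist x L + Metric.infDist (GM A • x) L :=
      (Metric.continuous_infDist_pt L).add
        ((Metric.continuous_infDist_pt L).comp (continuous_const_smul (GM A)))
    obtain ⟨x₀, hx₀, hmin⟩ := hKU.exists_isMinOn h0 hcont.continuousOn
    refine ⟨_, ?_, fun x hx => hmin hx⟩
    have h1 : 0 ≤ Metric.infDist x₀ L := Metric.infDist_nonneg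
    have h2 : 0 ≤ Metric.infDist (GM A • x₀) L := Metric.infDist_nonneg
    by_contra hcon
    push Not at hcon
    have h3 : Metric.infDist x₀ L = 0 := by linarith
    have h4 : Metric.infDist (GM A • x₀) L = 0 := by linarith
    have h5 : x₀ ∈ L := (hL.isClosed.mem_iff_infDist_zero hne).2 h3
    have h6 : GM A • x₀ ∈ L := (hL.isClosed.mem_iff_infDist_zero hne).2 h4
    have h7 : x₀ ∈ Z := Set.mem_biUnion hA ⟨h5, h6⟩
    exact hx₀.2 (Set.mem_iUnion.2 ⟨⟨x₀, h7⟩, Metric.mem_ball_self (hρ x₀)⟩)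
  have hev : ∀ᶠ δ : ℝ in 𝓝[>] 0, ∀ A ∈ 𝒜, ∀ x ∈ K \ U,
      2 * δ ≤ Metric.infDist x L + Metric.infDist (GM A • x) L := by
    rw [h𝒜fin.eventually_all]
    intro A hA
    obtain ⟨m, hm, hmx⟩ := hgap A hA
    have : ∀ᶠ δ : ℝ in 𝓝 0, δ < m / 2 := eventually_lt_nhds (by positivity)
    refine (this.filter_mono nhdsWithin_le_nhds).mono fun δ hδ x hx => ?_
    linarith [hmx x hx]
  have hev1 : ∀ᶠ δ : ℝ in 𝓝[>] 0, δ < 1 :=
    (eventually_lt_nhds one_pos).filter_mono nhdsWithin_le_nhds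
  obtain ⟨δ, ⟨hδ1, hδ2⟩, hδ0⟩ := ((hev.and hev1).and self_mem_nhdsWithin).exists
  have hδ0' : 0 < δ := hδ0
  refine ⟨δ, hδ0', fun f l H q hq hq3 => ?_⟩
  set E : Set ℍ := Metric.thickening δ L \ U with hE
  have hEK : E ⊆ K := fun x hx =>
    Metric.thickening_subset_cthickening_of_le hδ2.le L hx.1
  have hEm : MeasurableSet E := Metric.isOpen_thickening.measurableSet.diff hUo.measurableSet
  have hdist : ∀ x ∈ E, Metric.infDist x L < δ := by
    intro x hx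
    obtain ⟨y, hy, hxy⟩ := Metric.mem_thickening_iff.1 hx.1
    exact (Metric.infDist_le_dist_of_mem hy).trans_lt hxy
  have hES : ∀ A : Mat, 0 < A.det → A.det ≤ DD (RR P) → (∃ x ∈ E, GM A • x ∈ E) → S A := by
    intro A hA hAD hx
    by_contra hns
    obtain ⟨x, hx, hx'⟩ := hx
    have hAA : A ∈ 𝒜 := ⟨hA, hAD, ⟨x, hEK hx, hEK hx'⟩, hns⟩
    have h1 := hδ1 A hAA x ⟨hEK hx, hx.2⟩
    have h2 := hdist x hx
    have h3 := hdist _ hx'
    linarith
  have hmain := main_ineqS hS P hP' hex hKc hEK hEm hES H hq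
  set J := ∫⁻ z in 𝒟, ‖f z‖ₑ ^ q with hJ
  -- the part outside the balls
  have hout : ∫⁻ z in E, ‖f z‖ₑ ^ q ≤ ENNReal.ofReal (ε / 2) * J := by
    have h2 := sum_weights (fun p hp => (hP p hp).1) l hq hq3
    have h3 : (n : ℝ) / ε ≤ (1 / 18) * ∑ p ∈ P, 1 / (p : ℝ) := by
      have : (n : ℝ) / ε = (1 / 18) * (18 * n / ε) := by
        field_simp
      rw [this]
      exact mul_le_mul_of_nonneg_left hX (by norm_num)
    have h4 : (n : ℝ) / ε ≤ 1 + ∑ p ∈ P, (wt₁ q p (l p) + wt₂ q p (l p)) := by linarith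
    have hn0 : (0 : ℝ) ≤ n := Nat.cast_nonneg n
    have h5 : (0 : ℝ) < 1 + ∑ p ∈ P, (wt₁ q p (l p) + wt₂ q p (l p)) := by
      have : 0 ≤ (1 / 18) * ∑ p ∈ P, 1 / (p : ℝ) := by positivity
      linarith
    refine cancel_ineq h5 (by positivity) ?_ hmain
    rw [div_le_iff₀ hε] at h4
    linarith
  have hin' : ∫⁻ z in U, ‖f z‖ₑ ^ q ≤ ENNReal.ofReal (ε / 2) * J := by
    calc ∫⁻ z in U, ‖f z‖ₑ ^ q ≤ ∑' z : Z, ∫⁻ x in Metric.ball z.1 (ρ z.1), ‖f x‖ₑ ^ q :=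
          lintegral_iUnion_le _ _
      _ ≤ ∑' z : Z, ENNReal.ofReal (ε / (2 * (k + 1))) * J :=
          ENNReal.tsum_le_tsum fun z => hρs z.1 f l H q hq hq3
      _ = (k : ℝ≥0∞) * (ENNReal.ofReal (ε / (2 * (k + 1))) * J) := by
          have : Fintype Z := Fintype.ofFinite _
          rw [tsum_fintype, Finset.sum_const, Finset.card_univ, hk, Nat.card_eq_fintype_card,
            nsmul_eq_mul]
      _ = ENNReal.ofReal (k * (ε / (2 * (k + 1)))) * J := by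
          rw [ENNReal.ofReal_mul (by positivity), ENNReal.ofReal_natCast, mul_assoc]
      _ ≤ ENNReal.ofReal (ε / 2) * J := by
          apply mul_le_mul_left
          apply ENNReal.ofReal_le_ofReal
          rw [← mul_div_assoc, div_le_div_iff₀ (by positivity) (by norm_num)]
          have : (0 : ℝ) ≤ k := Nat.cast_nonneg k
          nlinarith
  calc ∫⁻ z in Metric.thickening δ L, ‖f z‖ₑ ^ q ≤ ∫⁻ z in U ∪ E, ‖f z‖ₑ ^ q := by
        apply lintegral_mono_set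
        intro x hx
        by_cases hxU : x ∈ U
        · exact Or.inl hxU
        · exact Or.inr ⟨hx, hxU⟩
    _ ≤ (∫⁻ z in U, ‖f z‖ₑ ^ q) + ∫⁻ z in E, ‖f z‖ₑ ^ q := lintegral_union_le _ _ _
    _ ≤ ENNReal.ofReal (ε / 2) * J + ENNReal.ofReal (ε / 2) * J := add_le_add hin' hout
    _ = ENNReal.ofReal ε * J := by
        rw [← add_mul, ← ENNReal.ofReal_add (by positivity) (by positivity), add_halves]

end Pool.Agent.Run7.h176.NC
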