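import Pool.Agent.Run7.h176.NC.Gen
import Pool.Agent.Helper919.NonRes

/-!
# Integer matrices and geodesics
-/

set_option autoImplicit false

open UpperHalfPlane Matrix
open scoped MatrixGroups

namespace Pool.Agent.Run7.h176.NC

/-- the points of the geodesic `α |z|² + β Re z + γ = 0` -/
def OnG (α β γ : ℝ) (z : ℍ) : Prop := α * Complex.normSq z + β * z.re + γ = 0

/-- the coefficients of the image of a geodesic -/
def c₁ (α β γ a c : ℝ) : ℝ := α * a ^ 2 + β * (a * c) + γ * c ^ 2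
def c₂ (α β γ a b c d : ℝ) : ℝ := 2 * α * (a * b) + β * (a * d + b * c) + 2 * γ * (c * d)

/-- `A` preserves the geodesic -/
def SG (α β γ : ℝ) (A : Mat) : Prop :=
  ∃ t : ℝ, c₁ α β γ (A 0 0) (A 1 0) = t * α ∧
    c₂ α β γ (A 0 0) (A 0 1) (A 1 0) (A 1 1) = t * β ∧ c₁ α β γ (A 0 1) (A 1 1) = t * γ

lemma SG_scaling (α β γ : ℝ) : Scaling (SG α β γ) := by
  intro n A hn _ h
  obtain ⟨t, h1, h2, h3⟩ := h
  have hn' : (n : ℝ) ≠ 0 := by exact_mod_cast hn.ne'
  have e : ∀ i j, (((n • A) i j : ℤ) : ℝ) = n * (A i j : ℝ) := by intro i j; simp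
  rw [e, e] at h1
  rw [e, e, e, e] at h2
  rw [e, e] at h3
  refine ⟨t / n ^ 2, ?_, ?_, ?_⟩
  · unfold c₁ at h1 ⊢
    field_simp
    linear_combination h1
  · unfold c₂ at h2 ⊢
    field_simp
    linear_combination h2
  · unfold c₁ at h3 ⊢
    field_simp
    linear_combination h3

lemma pull {α β γ : ℝ} {A : Mat} (hA : 0 < A.det) (z : ℍ) (h : OnG α β γ (GM A • z)) :
    OnG (c₁ α β γ (A 0 0) (A 1 0)) (c₂ α β γ (A 0 0) (A 0 1) (A 1 0) (A 1 1))
      (c₁ α β γ (A 0 1) (A 1 1)) z := by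
  unfold OnG at h ⊢
  set X := z.re with hX
  set Y := z.im with hY
  have hz : (z : ℂ) = X + Y * Complex.I := by
    apply Complex.ext <;> simp [hX, hY]
  set a : ℝ := (A 0 0 : ℝ) with ha
  set b : ℝ := (A 0 1 : ℝ) with hb
  set c : ℝ := (A 1 0 : ℝ) with hc
  set d : ℝ := (A 1 1 : ℝ) with hd
  have hdn := denom_ne hA z
  have hn : Complex.normSq ((A 1 0 : ℂ) * z + A 1 1) ≠ 0 := by simpa using hdn
  have hns : Complex.normSq ((A 1 0 : ℂ) * z + A 1 1) = (c * X + d) ^ 2 + (c * Y) ^ 2 := by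
    rw [Complex.normSq_apply]
    simp [← hX, ← hY, ← hc, ← hd]; ring
  have hns2 : Complex.normSq ((A 0 0 : ℂ) * z + A 0 1) = (a * X + b) ^ 2 + (a * Y) ^ 2 := by
    rw [Complex.normSq_apply]
    simp [← hX, ← hY, ← ha, ← hb]; ring
  have hre : (GM A • z).re = ((a * X + b) * (c * X + d) + (a * Y) * (c * Y)) /
      ((c * X + d) ^ 2 + (c * Y) ^ 2) := by
    have h1 : (GM A • z).re = (((A 0 0 : ℂ) * z + A 0 1) / ((A 1 0 : ℂ) * z + A 1 1)).re := by
      rw [← coe_GM hA]; rfl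
    rw [h1, Complex.div_re, hns]
    simp [← hX, ← hY, ← ha, ← hb, ← hc, ← hd]
    ring
  have hnn : Complex.normSq ((GM A • z : ℍ) : ℂ) = ((a * X + b) ^ 2 + (a * Y) ^ 2) /
      ((c * X + d) ^ 2 + (c * Y) ^ 2) := by
    rw [coe_GM hA, map_div₀, hns, hns2]
  have hzz : Complex.normSq (z : ℂ) = X ^ 2 + Y ^ 2 := by
    rw [Complex.normSq_apply]
    simp [← hX, ← hY]; ring
  rw [hns] at hn
  rw [hre, hnn] at h
  rw [hzz]
  have h5 : (α * (((a * X + b) ^ 2 + (a * Y) ^ 2) / ((c * X + d) ^ 2 + (c * Y) ^ 2)) +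
      β * (((a * X + b) * (c * X + d) + (a * Y) * (c * Y)) / ((c * X + d) ^ 2 + (c * Y) ^ 2)) +
      γ) * ((c * X + d) ^ 2 + (c * Y) ^ 2) = 0 := by rw [h, zero_mul]
  rw [add_mul, add_mul, mul_assoc, mul_assoc, div_mul_cancel₀ _ hn, div_mul_cancel₀ _ hn] at h5
  unfold c₁ c₂
  linear_combination h5

lemma ext_of {z w : ℍ} (h1 : Complex.normSq z = Complex.normSq w) (h2 : z.re = w.re) : z = w := by
  have e1 : Complex.normSq (z : ℂ) = z.re ^ 2 + z.im ^ 2 := by
    rw [Complex.normSq_apply]; simp; ring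
  have e2 : Complex.normSq (w : ℂ) = w.re ^ 2 + w.im ^ 2 := by
    rw [Complex.normSq_apply]; simp; ring
  have h3 : z.im ^ 2 = w.im ^ 2 := by rw [e1, e2, h2] at h1; linarith
  have h4 : z.im = w.im := by
    have := z.im_pos
    have := w.im_pos
    nlinarith
  exact UpperHalfPlane.ext (Complex.ext h2 h4)

lemma subsingleton_inter {α β γ : ℝ} (h0 : ¬ (α = 0 ∧ β = 0 ∧ γ = 0)) {L : Set ℍ}
    (hL : ∀ z ∈ L, OnG α β γ z) {A : Mat} (hA : 0 < A.det) (hS : ¬ SG α β γ A) :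
    {x | x ∈ L ∧ GM A • x ∈ L}.Subsingleton := by
  rintro x ⟨hx, hx'⟩ y ⟨hy, hy'⟩
  by_contra hne
  apply hS
  have e1 := hL x hx
  have e2 := hL y hy
  have e3 := pull hA x (hL _ hx')
  have e4 := pull hA y (hL _ hy')
  unfold SG
  set α' := c₁ α β γ (A 0 0) (A 1 0)
  set β' := c₂ α β γ (A 0 0) (A 0 1) (A 1 0) (A 1 1)
  set γ' := c₁ α β γ (A 0 1) (A 1 1)
  unfold OnG at e1 e2 e3 e4
  set u := Complex.normSq x - Complex.normSq y with hu
  set v := x.re - y.re with hv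
  have huv : ¬ (u = 0 ∧ v = 0) := by
    rintro ⟨h1, h2⟩
    exact hne (ext_of (sub_eq_zero.1 h1) (sub_eq_zero.1 h2))
  have f1 : α * u + β * v = 0 := by rw [hu, hv]; linarith
  have f2 : α' * u + β' * v = 0 := by rw [hu, hv]; linarith
  by_cases hα : α = 0
  · have hβ : β ≠ 0 := by
      intro hβ
      rw [hα, hβ] at e1
      exact h0 ⟨hα, hβ, by linarith⟩
    have hv0 : v = 0 := by
      rw [hα, zero_mul, zero_add] at f1
      exact (mul_eq_zero.1 f1).resolve_left hβ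
    have hu0 : u ≠ 0 := fun h => huv ⟨h, hv0⟩
    have hα' : α' = 0 := by
      rw [hv0, mul_zero, add_zero] at f2
      exact (mul_eq_zero.1 f2).resolve_right hu0
    refine ⟨β' / β, by rw [hα, hα']; ring, by field_simp, ?_⟩
    rw [hα] at e1
    rw [hα'] at e3
    have g1 : γ = -β * x.re := by linarith
    have g2 : γ' = -β' * x.re := by linarith
    rw [g1, g2]; field_simp
  · have hv0 : v ≠ 0 := by
      intro h
      rw [h, mul_zero, add_zero] at f1
      exact huv ⟨(mul_eq_zero.1 f1).resolve_left hα, h⟩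
    have g1 : β = -α * u / v := by field_simp; linarith
    have g2 : β' = -α' * u / v := by field_simp; linarith
    have g3 : β' = α' / α * β := by rw [g1, g2]; field_simp
    refine ⟨α' / α, by field_simp, g3, ?_⟩
    have g4 : γ = -(α * Complex.normSq x + β * x.re) := by linarith
    have g5 : γ' = -(α' * Complex.normSq x + β' * x.re) := by linarith
    rw [g4, g5, g3]; field_simp

/-- the triple of `A` is proportional to `(α, β, γ)` -/
def Comm (α β γ : ℝ) (A : Mat) : Prop :=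
  β * (A 1 0 : ℝ) = α * ((A 1 1 : ℝ) - A 0 0) ∧ γ * (A 1 0 : ℝ) = -α * (A 0 1 : ℝ) ∧
    β * (A 0 1 : ℝ) = -γ * ((A 1 1 : ℝ) - A 0 0)

def Swap (α β γ : ℝ) (A : Mat) : Prop :=
  (A 0 0 : ℝ) + A 1 1 = 0 ∧ (A 0 0 : ℝ) * β - α * (A 0 1 : ℝ) + γ * (A 1 0 : ℝ) = 0

lemma disc_pos {α β γ : ℝ} (h0 : ¬ (α = 0 ∧ β = 0 ∧ γ = 0)) {z : ℍ} (hz : OnG α β γ z) :
    0 < β ^ 2 - 4 * α * γ := by
  unfold OnG at hz
  have e1 : Complex.normSq (z : ℂ) = z.re ^ 2 + z.im ^ 2 := by
    rw [Complex.normSq_apply]; simp; ring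
  rw [e1] at hz
  by_cases hα : α = 0
  · have hβ : β ≠ 0 := by
      intro hβ
      rw [hα, hβ] at hz
      exact h0 ⟨hα, hβ, by linarith⟩
    rw [hα]
    have : 0 < β ^ 2 := by positivity
    linarith
  · have h1 : β ^ 2 - 4 * α * γ = (2 * α * z.re + β) ^ 2 + 4 * α ^ 2 * z.im ^ 2 := by
      linear_combination (-4 * α) * hz
    rw [h1]
    have := z.im_pos
    have : 0 < 4 * α ^ 2 * z.im ^ 2 := by positivity
    positivity

lemma SG_cases {α β γ : ℝ} (hΔ : 0 < β ^ 2 - 4 * α * γ) (h0 : ¬ (α = 0 ∧ β = 0 ∧ γ = 0))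
    {A : Mat} (hA : 0 < A.det) (hS : SG α β γ A) : Comm α β γ A ∨ Swap α β γ A := by
  obtain ⟨t, h1, h2, h3⟩ := hS
  set a : ℝ := (A 0 0 : ℝ) with ha
  set b : ℝ := (A 0 1 : ℝ) with hb
  set c : ℝ := (A 1 0 : ℝ) with hc
  set d : ℝ := (A 1 1 : ℝ) with hd
  have hdet : (A.det : ℝ) = a * d - b * c := by
    rw [Matrix.det_fin_two]; push_cast; rfl
  set D := a * d - b * c with hD
  have hD0 : 0 < D := by rw [← hdet]; exact_mod_cast hA
  have hdisc : (c₂ α β γ a b c d) ^ 2 - 4 * (c₁ α β γ a c) * (c₁ α β γ b d) =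
      D ^ 2 * (β ^ 2 - 4 * α * γ) := by
    unfold c₁ c₂; rw [hD]; ring
  rw [h1, h2, h3] at hdisc
  have htt : t ^ 2 = D ^ 2 := by
    have : t ^ 2 * (β ^ 2 - 4 * α * γ) = D ^ 2 * (β ^ 2 - 4 * α * γ) := by
      rw [← hdisc]; ring
    exact mul_right_cancel₀ hΔ.ne' this
  unfold c₁ at h1 h3
  unfold c₂ at h2
  rcases sq_eq_sq_iff_eq_or_eq_neg.1 htt with ht | ht
  · left
    rw [ht] at h1 h2 h3
    set u := β * c - α * (d - a) with hu
    set v := γ * c + α * b with hv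
    set w := β * b + γ * (d - a) with hw
    have k1 : a * u + c * v = 0 := by rw [hu, hv]; rw [hD] at h1; linear_combination h1
    have k2 : b * u + d * v = 0 := by
      rw [hu, hv]; rw [hD] at h2; linear_combination (1 / 2) * h2
    have k3 : a * v + c * w = 0 := by
      rw [hw, hv]; rw [hD] at h2; linear_combination (1 / 2) * h2
    have k4 : b * v + d * w = 0 := by rw [hw, hv]; rw [hD] at h3; linear_combination h3
    have u0 : u = 0 := by
      have : D * u = 0 := by rw [hD]; linear_combination d * k1 - c * k2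
      exact (mul_eq_zero.1 this).resolve_left hD0.ne'
    have v0 : v = 0 := by
      have : D * v = 0 := by rw [hD]; linear_combination a * k2 - b * k1
      exact (mul_eq_zero.1 this).resolve_left hD0.ne'
    have w0 : w = 0 := by
      have : D * w = 0 := by rw [hD]; linear_combination a * k4 - b * k3
      exact (mul_eq_zero.1 this).resolve_left hD0.ne'
    refine ⟨?_, ?_, ?_⟩
    · change β * c = α * (d - a); rw [hu] at u0; linarith
    · change γ * c = -α * b; rw [hv] at v0; linarith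
    · change β * b = -γ * (d - a); rw [hw] at w0; linarith
  · right
    rw [ht] at h1 h2 h3
    set s := a + d with hs
    set r := a * β - α * b + γ * c with hr
    have k1 : α * a * s + c * r = 0 := by rw [hs, hr]; rw [hD] at h1; linear_combination h1
    have k2 : α * b * s + d * r = 0 := by
      rw [hs, hr]; rw [hD] at h2; linear_combination (1 / 2) * h2
    have k3 : a * (β * s - r) + γ * c * s = 0 := by
      rw [hs, hr]; rw [hD] at h2; linear_combination (1 / 2) * h2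
    have k4 : γ * d * s + b * (β * s - r) = 0 := by
      rw [hs, hr]; rw [hD] at h3; linear_combination h3
    have r0 : r = 0 := by
      have : D * r = 0 := by rw [hD]; linear_combination a * k2 - b * k1
      exact (mul_eq_zero.1 this).resolve_left hD0.ne'
    have s1 : α * s = 0 := by
      have : D * (α * s) = 0 := by rw [hD]; linear_combination d * k1 - c * k2
      exact (mul_eq_zero.1 this).resolve_left hD0.ne'
    rw [r0, sub_zero] at k3 k4
    have s2 : β * s = 0 := by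
      have : D * (β * s) = 0 := by rw [hD]; linear_combination d * k3 - c * k4
      exact (mul_eq_zero.1 this).resolve_left hD0.ne'
    have s3 : γ * s = 0 := by
      have : D * (γ * s) = 0 := by rw [hD]; linear_combination a * k4 - b * k3
      exact (mul_eq_zero.1 this).resolve_left hD0.ne'
    have s0 : s = 0 := by
      by_contra hs0
      exact h0 ⟨(mul_eq_zero.1 s1).resolve_right hs0, (mul_eq_zero.1 s2).resolve_right hs0,
        (mul_eq_zero.1 s3).resolve_right hs0⟩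
    exact ⟨s0, r0⟩

lemma swap_mul {α β γ : ℝ} {A B : Mat} (hA : Swap α β γ A) (hB : Swap α β γ B) :
    Comm α β γ (A.adjugate * B) := by
  obtain ⟨a1, a2⟩ := hA
  obtain ⟨b1, b2⟩ := hB
  have hadj : A.adjugate = !![A 1 1, -(A 0 1); -(A 1 0), A 0 0] := Matrix.adjugate_fin_two A
  have e00 : (((A.adjugate * B) 0 0 : ℤ) : ℝ) = A 1 1 * B 0 0 - A 0 1 * B 1 0 := by
    rw [hadj]; simp [Matrix.mul_apply, Fin.sum_univ_two]; ring
  have e01 : (((A.adjugate * B) 0 1 : ℤ) : ℝ) = A 1 1 * B 0 1 - A 0 1 * B 1 1 := by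
    rw [hadj]; simp [Matrix.mul_apply, Fin.sum_univ_two]; ring
  have e10 : (((A.adjugate * B) 1 0 : ℤ) : ℝ) = -A 1 0 * B 0 0 + A 0 0 * B 1 0 := by
    rw [hadj]; simp [Matrix.mul_apply, Fin.sum_univ_two]
  have e11 : (((A.adjugate * B) 1 1 : ℤ) : ℝ) = -A 1 0 * B 0 1 + A 0 0 * B 1 1 := by
    rw [hadj]; simp [Matrix.mul_apply, Fin.sum_univ_two]
  unfold Comm
  rw [e00, e01, e10, e11]
  have a3 : (A 1 1 : ℝ) = -A 0 0 := by linarith
  have b3 : (B 1 1 : ℝ) = -B 0 0 := by linarith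
  rw [a3, b3]
  refine ⟨?_, ?_, ?_⟩
  · linear_combination (B 1 0 : ℝ) * a2 - (A 1 0 : ℝ) * b2
  · linear_combination (-(B 0 0 : ℝ)) * a2 + (A 0 0 : ℝ) * b2
  · linear_combination (-(B 0 1 : ℝ)) * a2 + (A 0 1 : ℝ) * b2

end Pool.Agent.Run7.h176.NC
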