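import Pool.Agent.Run7.h176.NC.OffCount
import Pool.Agent.Run7.h176.NC.Curve
import Pool.Agent.Run7.h176.NC.Geod

/-!
# Geodesics given by an integral quadratic form, through translates away from it
-/

set_option autoImplicit false

open UpperHalfPlane Matrix MeasureTheory Filter Topology
open scoped MatrixGroups ENNReal Modular

namespace Pool.Agent.Run7.h176.NC

lemma off_key' {u v w : ℤ} {m m' b b' : ℕ} (hm : Adm m) (hm' : Adm m')
    (hc : IsCoprime (qv u v w b) (m : ℤ)) (hc' : IsCoprime (qv u v w b') (m' : ℤ))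
    {g1 g2 g3 g4 : ℤ} (hg : g1 * g4 - g2 * g3 = 1) {t a00 a01 a10 a11 : ℤ}
    (e00 : a00 = m * g1 - b * g3) (e10 : a10 = g3)
    (e11 : a11 = g3 * b' + g4 * m')
    (e01 : a01 = (m * g1 - b * g3) * b' + (m * g2 - b * g4) * m')
    (ht : t = m * m' ∨ t = -((m : ℤ) * m'))
    (h1 : u * a00 ^ 2 + v * (a00 * a10) + w * a10 ^ 2 = t * u)
    (h2 : 2 * u * (a00 * a01) + v * (a00 * a11 + a01 * a10) + 2 * w * (a10 * a11) = t * v)
    (h3 : u * a01 ^ 2 + v * (a01 * a11) + w * a11 ^ 2 = t * w) :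
    m = m' ∧ (m : ℤ) ∣ g3 := by
  unfold qv at hc hc'
  have hm0 : (m : ℤ) ≠ 0 := by exact_mod_cast hm.pos.ne'
  have hm0' : (m' : ℤ) ≠ 0 := by exact_mod_cast hm'.pos.ne'
  have hdet : a00 * a11 - a01 * a10 = m * m' := by
    rw [e00, e10, e11, e01]
    linear_combination (m * m' : ℤ) * hg
  have htt : t * t = (m * m') * (m * m' : ℤ) := by
    rcases ht with h | h <;> rw [h] <;> ring
  have ht0 : t ≠ 0 := by
    rcases ht with h | h <;> rw [h]
    · positivity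
    · exact neg_ne_zero.2 (mul_ne_zero hm0 hm0')
  have k3 : (m' : ℤ) * (m' * (u * (m * g2 - b * g4) ^ 2 + v * (m * g2 - b * g4) * g4 + w * g4 ^ 2)) =
      t * (u * b' ^ 2 - v * b' + w) := by
    have r1 : a01 - b' * a00 = m' * (m * g2 - b * g4) := by rw [e01, e00]; ring
    have r2 : a11 - b' * a10 = m' * g4 := by rw [e11, e10]; ring
    have : (m' : ℤ) * (m' * (u * (m * g2 - b * g4) ^ 2 + v * (m * g2 - b * g4) * g4 + w * g4 ^ 2)) =
        u * (m' * (m * g2 - b * g4)) ^ 2 + v * (m' * (m * g2 - b * g4)) * (m' * g4) +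
          w * (m' * g4) ^ 2 := by ring
    rw [this, ← r1, ← r2]
    linear_combination (b' ^ 2 : ℤ) * h1 - (b' : ℤ) * h2 + h3
  have d1 : (m' : ℤ) ∣ m := by
    have : (m' : ℤ) ∣ m * (u * b' ^ 2 - v * b' + w) := by
      rcases ht with h | h
      · refine ⟨u * (m * g2 - b * g4) ^ 2 + v * (m * g2 - b * g4) * g4 + w * g4 ^ 2, ?_⟩
        apply mul_left_cancel₀ hm0'
        rw [k3, h]; ring
      · refine ⟨-(u * (m * g2 - b * g4) ^ 2 + v * (m * g2 - b * g4) * g4 + w * g4 ^ 2), ?_⟩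
        apply mul_left_cancel₀ hm0'
        rw [h] at k3
        linear_combination k3
    exact hc'.symm.dvd_of_dvd_mul_right this
  -- the adjugate
  have q1 : u * a11 ^ 2 - v * (a11 * a10) + w * a10 ^ 2 = t * u := by
    apply mul_left_cancel₀ ht0
    have : t * (u * a11 ^ 2 - v * (a11 * a10) + w * a10 ^ 2) =
        (a00 * a11 - a01 * a10) ^ 2 * u := by
      linear_combination -(a11 ^ 2) * h1 + a11 * a10 * h2 - a10 ^ 2 * h3
    rw [this, hdet, ← mul_assoc, htt]; ring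
  have q2 : -(2 * u * (a11 * a01)) + v * (a00 * a11 + a01 * a10) - 2 * w * (a10 * a00) = t * v := by
    apply mul_left_cancel₀ ht0
    have : t * (-(2 * u * (a11 * a01)) + v * (a00 * a11 + a01 * a10) - 2 * w * (a10 * a00)) =
        (a00 * a11 - a01 * a10) ^ 2 * v := by
      linear_combination (2 * a11 * a01) * h1 - (a00 * a11 + a01 * a10) * h2 + 2 * a10 * a00 * h3
    rw [this, hdet, ← mul_assoc, htt]; ring
  have q3 : u * a01 ^ 2 - v * (a01 * a00) + w * a00 ^ 2 = t * w := by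
    apply mul_left_cancel₀ ht0
    have : t * (u * a01 ^ 2 - v * (a01 * a00) + w * a00 ^ 2) =
        (a00 * a11 - a01 * a10) ^ 2 * w := by
      linear_combination -(a01 ^ 2) * h1 + a01 * a00 * h2 - a00 ^ 2 * h3
    rw [this, hdet, ← mul_assoc, htt]; ring
  have k6 : (m : ℤ) * (m * (u * (-(m' * g2) - b' * g1) ^ 2 + v * (-(m' * g2) - b' * g1) * g1 +
      w * g1 ^ 2)) = t * (u * b ^ 2 - v * b + w) := by
    have r1 : -(b * a11) - a01 = m * (-(m' * g2) - b' * g1) := by rw [e11, e01]; ring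
    have r2 : b * a10 + a00 = m * g1 := by rw [e10, e00]; ring
    have : (m : ℤ) * (m * (u * (-(m' * g2) - b' * g1) ^ 2 + v * (-(m' * g2) - b' * g1) * g1 +
        w * g1 ^ 2)) = u * (m * (-(m' * g2) - b' * g1)) ^ 2 +
          v * (m * (-(m' * g2) - b' * g1)) * (m * g1) + w * (m * g1) ^ 2 := by ring
    rw [this, ← r1, ← r2]
    linear_combination (b ^ 2 : ℤ) * q1 - (b : ℤ) * q2 + q3
  have d2 : (m : ℤ) ∣ m' := by
    have : (m : ℤ) ∣ m' * (u * b ^ 2 - v * b + w) := by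
      rcases ht with h | h
      · refine ⟨u * (-(m' * g2) - b' * g1) ^ 2 + v * (-(m' * g2) - b' * g1) * g1 + w * g1 ^ 2, ?_⟩
        apply mul_left_cancel₀ hm0
        rw [k6, h]; ring
      · refine ⟨-(u * (-(m' * g2) - b' * g1) ^ 2 + v * (-(m' * g2) - b' * g1) * g1 +
          w * g1 ^ 2), ?_⟩
        apply mul_left_cancel₀ hm0
        rw [h] at k6
        linear_combination k6
    exact hc.symm.dvd_of_dvd_mul_right this
  have hmm : m = m' := Nat.dvd_antisymm (Int.natCast_dvd_natCast.1 d2) (Int.natCast_dvd_natCast.1 d1)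
  refine ⟨hmm, ?_⟩
  obtain ⟨e, he, het⟩ : ∃ e : ℤ, t = m * e ∧ (e = m ∨ e = -m) := by
    rcases ht with h | h
    · exact ⟨m, by rw [h, hmm], Or.inl rfl⟩
    · exact ⟨-m, by rw [h, hmm]; ring, Or.inr rfl⟩
  have k7 : g3 ^ 2 * (u * b ^ 2 - v * b + w) =
      m * (u * e - g1 * (u * m * g1 + (v - 2 * u * b) * g3)) := by
    rw [e00, e10, he] at h1
    linear_combination h1
  rcases hm with hh | ⟨p, hp, hh | hh⟩
  · rw [hh]; simp
  · have hpp : Prime (p : ℤ) := Nat.prime_iff_prime_int.1 hp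
    rw [hh] at hc k7 ⊢
    have : (p : ℤ) ∣ g3 ^ 2 * (u * b ^ 2 - v * b + w) := by rw [k7]; exact Dvd.intro _ rfl
    exact hpp.dvd_of_dvd_pow (hc.symm.dvd_of_dvd_mul_right this)
  · have hpp : Prime (p : ℤ) := Nat.prime_iff_prime_int.1 hp
    have hcp : IsCoprime (u * b ^ 2 - v * b + w) (p : ℤ) := by
      rw [hh] at hc
      push_cast at hc
      exact (IsCoprime.pow_right_iff (by norm_num)).1 hc
    obtain ⟨e', he'⟩ : ∃ e' : ℤ, e = p * e' ∧ (p : ℤ) ∣ e' := by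
      rcases het with h | h
      · exact ⟨p, by rw [h, hh]; push_cast; ring, dvd_refl _⟩
      · exact ⟨-p, by rw [h, hh]; push_cast; ring, (dvd_neg.2 (dvd_refl _))⟩
    rw [hh, he'.1] at k7
    rw [hh]
    push_cast at k7 ⊢
    have h2' : (p : ℤ) ∣ g3 ^ 2 * (u * b ^ 2 - v * b + w) := by
      rw [k7, sq, mul_assoc]; exact Dvd.intro _ rfl
    obtain ⟨k, hk⟩ := hpp.dvd_of_dvd_pow (hcp.symm.dvd_of_dvd_mul_right h2')
    rw [hk] at k7 ⊢
    have hp0 : (p : ℤ) ^ 2 ≠ 0 := pow_ne_zero 2 hpp.ne_zero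
    have k8 : k ^ 2 * (u * b ^ 2 - v * b + w) =
        p * (u * e' - g1 * (u * p * g1 + (v - 2 * u * b) * k)) := by
      apply mul_left_cancel₀ hp0
      linear_combination k7
    have h3' : (p : ℤ) ∣ k ^ 2 * (u * b ^ 2 - v * b + w) := by rw [k8]; exact Dvd.intro _ rfl
    have h4 := hpp.dvd_of_dvd_pow (hcp.symm.dvd_of_dvd_mul_right h3')
    rw [sq]
    exact mul_dvd_mul_left _ h4

/-- `A` preserves the integral form `(u, v, w)` up to the factor `det A` or `-det A` -/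
def SGZ (u v w : ℤ) (A : Mat) : Prop :=
  ∃ t : ℤ, (t = A.det ∨ t = -A.det) ∧
    u * (A 0 0) ^ 2 + v * (A 0 0 * A 1 0) + w * (A 1 0) ^ 2 = t * u ∧
    2 * u * (A 0 0 * A 0 1) + v * (A 0 0 * A 1 1 + A 0 1 * A 1 0) + 2 * w * (A 1 0 * A 1 1) =
      t * v ∧
    u * (A 0 1) ^ 2 + v * (A 0 1 * A 1 1) + w * (A 1 1) ^ 2 = t * w

theorem off_quot' {u v w : ℤ} {m m' b b' : ℕ} (hm : Adm m) (hm' : Adm m')
    (hc : IsCoprime (qv u v w b) (m : ℤ)) (hc' : IsCoprime (qv u v w b') (m' : ℤ))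
    (γ γ₀ : SL(2, ℤ))
    (hA : SGZ u v w ((γ.1.adjugate * TT m b).adjugate * (γ₀.1.adjugate * TT m' b'))) :
    ∃ x : SL(2, ℤ), γ₀.1.adjugate * TT m' b' = γ.1.adjugate * TT m b * x.1 := by
  obtain ⟨t, ht, h1, h2, h3⟩ := hA
  have hdT : ∀ m c : ℕ, (TT m c).det = m := by
    intro m c; unfold TT; rw [Matrix.det_fin_two]; simp
  have hdet : ((γ.1.adjugate * TT m b).adjugate * (γ₀.1.adjugate * TT m' b')).det =
      (m : ℤ) * m' := by
    rw [Matrix.det_mul, Matrix.det_adjugate, Matrix.det_mul, Matrix.det_mul,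
      Matrix.det_adjugate, Matrix.det_adjugate, γ.2, γ₀.2, TT_det, TT_det]
    simp
  rw [hdet] at ht
  set G : Mat := γ.1 * γ₀.1.adjugate with hG
  have hGdet : G.det = 1 := by
    rw [hG, Matrix.det_mul, Matrix.det_adjugate, γ.2, γ₀.2]; simp
  have hAe : (γ.1.adjugate * TT m b).adjugate * (γ₀.1.adjugate * TT m' b') =
      (TT m b).adjugate * G * TT m' b' := by
    rw [Matrix.adjugate_mul_distrib, adj_adj, hG]
    simp only [Matrix.mul_assoc]
  rw [hAe] at h1 h2 h3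
  have E : (TT m b).adjugate * G * TT m' b' =
      !![(m : ℤ) * G 0 0 - b * G 1 0, (m * G 0 0 - b * G 1 0) * b' + (m * G 0 1 - b * G 1 1) * m';
        G 1 0, G 1 0 * b' + G 1 1 * m'] := by
    have := tt_mul m b m' b' (G 0 0) (G 0 1) (G 1 0) (G 1 1)
    rwa [← Matrix.eta_fin_two G] at this
  rw [E] at h1 h2 h3
  simp only [Matrix.of_apply, Matrix.cons_val', Matrix.cons_val_zero, Matrix.cons_val_one,
    Matrix.cons_val_fin_one] at h1 h2 h3
  have hg : G 0 0 * G 1 1 - G 0 1 * G 1 0 = 1 := by rw [← Matrix.det_fin_two]; exact hGdet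
  obtain ⟨hmm, hdv⟩ := off_key' hm hm' hc hc' hg rfl rfl rfl rfl ht h1 h2 h3
  obtain ⟨k, hk⟩ := hdv
  subst hmm
  set V : Mat := !![G 0 0 - b * k, (G 0 0 - b * k) * b' + (m * G 0 1 - b * G 1 1);
    k, k * b' + G 1 1] with hV
  have hd1 : (γ.1.adjugate * TT m b).det = m := by
    rw [Matrix.det_mul, Matrix.det_adjugate, γ.2, hdT]; simp
  have hd2 : (γ₀.1.adjugate * TT m b').det = m := by
    rw [Matrix.det_mul, Matrix.det_adjugate, γ₀.2, hdT]; simp
  refine of_scaledS (V := V) (by rw [hd1]; exact_mod_cast hm.pos) (by rw [hd1, hd2]) ?_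
  rw [hAe, hd1, E, hV, hk]
  ext i j
  fin_cases i <;> fin_cases j <;> simp <;> ring

/-- **Main inequality away from a form, for a class of matrices.** -/
theorem main_offS {S : Mat → Prop} {K E : Set ℍ} (hK : IsCompact K) (hEK : E ⊆ K) (hEm : MeasurableSet E)
    {u v w x y t : ℤ} (hbez : x * u + y * v + t * w = 1)
    (hquot : ∀ m m' b b' : ℕ, Adm m → Adm m' → IsCoprime (qv u v w b) (m : ℤ) →
      IsCoprime (qv u v w b') (m' : ℤ) → ∀ γ γ₀ : SL(2, ℤ),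
      0 < ((γ.1.adjugate * TT m b).adjugate * (γ₀.1.adjugate * TT m' b')).det →
      S ((γ.1.adjugate * TT m b).adjugate * (γ₀.1.adjugate * TT m' b')) →
      ∃ x : SL(2, ℤ), γ₀.1.adjugate * TT m' b' = γ.1.adjugate * TT m b * x.1)
    {P : Finset ℕ}
    (hP : ∀ p ∈ P, p.Prime ∧ 3 ≤ p) {X : ℕ} (hX1 : 1 ≤ X) (hX : ∀ p ∈ P, p ≤ X)
    (hE : ∀ A : Mat, 0 < A.det → A.det ≤ ((X ^ 4 : ℕ) : ℤ) → (∃ x ∈ E, GM A • x ∈ E) →
      S A)
    {f : ℍ → ℂ} {l : ℕ → ℂ} (H : HeckeForm f l) {C₀ θ s q : ℝ} (hC₀ : 1 ≤ C₀) (hq : 1 ≤ q)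
    (hq3 : q ≤ 3) (hs1 : s ≤ 3 - q) (hs2 : s ≤ 2 - (1 / 2 + θ) * q)
    (hl : ∀ p : ℕ, p.Prime → ‖l p‖ ≤ C₀ * (p : ℝ) ^ θ) :
    2 * (ENNReal.ofReal (1 + ∑ p ∈ P, (p : ℝ) ^ (s - 1) / (12 * C₀ ^ q)) *
        ∫⁻ z in E, ‖f z‖ₑ ^ q) ≤
      (Nat.card {γ : SL(2, ℤ) // ∃ x ∈ K, γ • x ∈ K} : ℝ≥0∞) * ∫⁻ z in 𝒟, ‖f z‖ₑ ^ q := by
  classical
  have hPp : ∀ p ∈ P, p.Prime := fun p hp => (hP p hp).1
  have hRmem : ∀ M ∈ RO u v w P, ∃ m b : ℕ, M = TT m b ∧ Adm m ∧ m ≤ X ^ 2 ∧ b < m ∧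
      IsCoprime (qv u v w b) (m : ℤ) := by
    intro M hM
    unfold RO at hM
    obtain ⟨⟨m, b⟩, hmb, rfl⟩ := Finset.mem_image.1 hM
    obtain ⟨h1, h2⟩ := Finset.mem_sigma.1 hmb
    obtain ⟨h3, h4⟩ := mem_Bp.1 h2
    exact ⟨m, b, rfl, Lv_adm hPp h1, Lv_le hX1 hX h1, h3, h4⟩
  have hRhn : ∀ M ∈ RO u v w P, HN M := by
    intro M hM
    obtain ⟨m, b, rfl, _, _, h3, _⟩ := hRmem M hM
    refine ⟨by simp [TT], by simp [TT], by simp [TT], ?_⟩
    simp only [TT, Matrix.of_apply, Matrix.cons_val', Matrix.cons_val_zero, Matrix.cons_val_one,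
      Matrix.cons_val_fin_one]
    exact_mod_cast h3
  have hRq : ∀ M ∈ RO u v w P, ∀ M₀ ∈ RO u v w P, ∀ γ γ₀ : SL(2, ℤ),
      (∃ x ∈ E, GM ((γ.1.adjugate * M).adjugate * (γ₀.1.adjugate * M₀)) • x ∈ E) →
        ∃ v : SL(2, ℤ), γ₀.1.adjugate * M₀ = γ.1.adjugate * M * v.1 := by
    intro M hM M₀ hM₀ γ γ₀ hx
    obtain ⟨m, b, rfl, ha, hle, _, hc⟩ := hRmem M hM
    obtain ⟨m', b', rfl, ha', hle', _, hc'⟩ := hRmem M₀ hM₀
    have hdet : ((γ.1.adjugate * TT m b).adjugate * (γ₀.1.adjugate * TT m' b')).det =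
        (m : ℤ) * m' := by
      rw [Matrix.det_mul, Matrix.det_adjugate, Matrix.det_mul, Matrix.det_mul,
        Matrix.det_adjugate, Matrix.det_adjugate, γ.2, γ₀.2, TT_det, TT_det]
      simp
    have hdet0 : 0 < ((γ.1.adjugate * TT m b).adjugate * (γ₀.1.adjugate * TT m' b')).det := by
      rw [hdet]
      have := ha.pos
      have := ha'.pos
      positivity
    apply hquot m m' b b' ha ha' hc hc' γ γ₀ hdet0
    apply hE _ hdet0 _ hx
    · rw [hdet]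
      have : m * m' ≤ X ^ 4 := by
        calc m * m' ≤ X ^ 2 * X ^ 2 := Nat.mul_le_mul hle hle'
          _ = X ^ 4 := by ring
      exact_mod_cast this
  have hcount := countQ (RO u v w P) hRhn hK hEK hRq
  set h : ℍ → ℝ≥0∞ := fun z => ‖f z‖ₑ ^ q with hh
  have hmeas : Measurable h := H.measurable.enorm.pow_const q
  have hinv : ∀ (γ : SL(2, ℤ)) (z : ℍ), h (γ • z) = h z := by
    intro γ z; simp only [hh, H.invariant]
  have hreal : ∀ z, h z = ENNReal.ofReal (‖f z‖ ^ q) := by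
    intro z
    change ‖f z‖ₑ ^ q = _
    rw [← ofReal_norm, ENNReal.ofReal_rpow_of_nonneg (norm_nonneg _) (by linarith)]
  have hC0 : (0 : ℝ) < C₀ ^ q := Real.rpow_pos_of_pos (by linarith) _
  have hpt : ∀ z : ℍ, ENNReal.ofReal (1 + ∑ p ∈ P, (p : ℝ) ^ (s - 1) / (12 * C₀ ^ q)) * h z ≤
      ∑ M ∈ RO u v w P, h (GM M • z) := by
    intro z
    rw [hreal z, ← ENNReal.ofReal_mul' (by positivity),
      Finset.sum_congr rfl (fun M _ => hreal (GM M • z)),
      ← ENNReal.ofReal_sum_of_nonneg (fun M _ => by positivity)]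
    apply ENNReal.ofReal_le_ofReal
    rw [sum_RO hPp, add_mul, one_mul, GM_one, one_smul, Finset.sum_mul]
    apply add_le_add_right
    apply Finset.sum_le_sum
    intro p hp
    exact off_point H hC₀ hq hq3 hs1 hs2 (hP p hp).1 (hP p hp).2 (hl p (hP p hp).1) hbez z
  have hSm : ∀ M ∈ RO u v w P, MeasurableSet {x : ℍ | GM M.adjugate • x ∈ E} := by
    intro M _
    exact (measurePreserving_smul (GM M.adjugate) (volume : Measure ℍ)).measurable hEm
  have hchange : ∀ M ∈ RO u v w P, ∫⁻ z in E, h (GM M • z) =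
      ∫⁻ z in {x : ℍ | GM M.adjugate • x ∈ E}, h z := by
    intro M hM
    have hd : 0 < M.det := (hRhn M hM).det_pos
    rw [← (measurePreserving_smul (GM M) (volume : Measure ℍ)).setLIntegral_comp_preimage
      (hSm M hM) hmeas]
    congr 2
    ext z
    simp only [Set.mem_preimage, Set.mem_ofPred_eq, adj_smul hd]
  have hstep : ENNReal.ofReal (1 + ∑ p ∈ P, (p : ℝ) ^ (s - 1) / (12 * C₀ ^ q)) *
      ∫⁻ z in E, h z ≤
      ∑ M ∈ RO u v w P, ∫⁻ z in {x : ℍ | GM M.adjugate • x ∈ E}, h z := by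
    have hs : ∫⁻ z in E, ∑ M ∈ RO u v w P, h (GM M • z) =
        ∑ M ∈ RO u v w P, ∫⁻ z in E, h (GM M • z) := by
      apply lintegral_finsetSum'
      intro M _
      exact (hmeas.comp
        (measurePreserving_smul (GM M) (volume : Measure ℍ)).measurable).aemeasurable
    rw [← lintegral_const_mul _ hmeas, ← Finset.sum_congr rfl hchange, ← hs]
    exact lintegral_mono hpt
  calc 2 * (ENNReal.ofReal (1 + ∑ p ∈ P, (p : ℝ) ^ (s - 1) / (12 * C₀ ^ q)) *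
        ∫⁻ z in E, h z)
      ≤ 2 * ∑ M ∈ RO u v w P, ∫⁻ z in {x : ℍ | GM M.adjugate • x ∈ E}, h z :=
        mul_le_mul_right hstep 2
    _ ≤ _ := unfold (RO u v w P) _ hSm h hmeas hinv _ hcount

end Pool.Agent.Run7.h176.NC
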