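import Mathlib

/-!
# A lower bound for sums of powers of primes
-/

set_option autoImplicit false

open Finset

namespace Pool.Agent.Run7.h176.NC

/-- the primes `3 ≤ p ≤ X` -/
def PX (X : ℕ) : Finset ℕ := (Finset.range (X + 1)).filter fun p => p.Prime ∧ 3 ≤ p

lemma mem_PX {X p : ℕ} : p ∈ PX X ↔ p ≤ X ∧ p.Prime ∧ 3 ≤ p := by
  unfold PX; rw [Finset.mem_filter, Finset.mem_range, Nat.lt_succ_iff]

lemma card_PX (X : ℕ) : Nat.primeCounting X ≤ (PX X).card + 1 := by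
  have h1 : Nat.primeCounting X = ((Finset.range (X + 1)).filter Nat.Prime).card := by
    unfold Nat.primeCounting Nat.primeCounting'
    rw [Nat.count_eq_card_filter_range]
  have h2 : (Finset.range (X + 1)).filter Nat.Prime ⊆ insert 2 (PX X) := by
    intro p hp
    rw [Finset.mem_filter, Finset.mem_range] at hp
    rw [Finset.mem_insert, mem_PX]
    have := hp.2.two_le
    rcases Nat.eq_or_lt_of_le this with h | h
    · left; exact h.symm
    · right; exact ⟨by omega, hp.2, by omega⟩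
  rw [h1]
  exact (Finset.card_le_card h2).trans (Finset.card_insert_le _ _)

lemma pi_lower {ε : ℝ} (hε : 0 < ε) (hε1 : ε ≤ 1) :
    ∃ X₀ : ℕ, ∀ X : ℕ, X₀ ≤ X → (X : ℝ) ^ (1 - ε) + 1 ≤ (Nat.primeCounting X : ℝ) := by
  have ht := (tendsto_rpow_atTop (by positivity : 0 < ε / 2)).comp
    (tendsto_natCast_atTop_atTop (R := ℝ))
  have hev := ht.eventually_ge_atTop (8 / (ε * Real.log 2))
  obtain ⟨X₁, hX₁⟩ := Filter.eventually_atTop.1 hev
  refine ⟨max X₁ 2, fun X hX => ?_⟩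
  have hX2 : 2 ≤ X := (le_max_right _ _).trans hX
  have hbig : 8 / (ε * Real.log 2) ≤ (X : ℝ) ^ (ε / 2) := hX₁ X ((le_max_left _ _).trans hX)
  have hXr : (2 : ℝ) ≤ X := by exact_mod_cast hX2
  have hX0 : (0 : ℝ) < X := by linarith
  have hX1 : (1 : ℝ) ≤ X := by linarith
  have hlog2 : 0 < Real.log 2 := Real.log_pos (by norm_num)
  have hlogX : 0 < Real.log X := Real.log_pos (by linarith)
  have hpi := Chebyshev.pi_ge X
  refine le_trans ?_ hpi
  rw [le_div_iff₀ hlogX]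
  set r : ℝ := (X : ℝ) ^ (ε / 2) with hr
  have hr0 : 0 < r := Real.rpow_pos_of_pos hX0 _
  have hr1 : 1 ≤ r := Real.one_le_rpow hX1 (by positivity)
  have h1 : Real.log X ≤ 2 / ε * r := by
    have := Real.log_le_rpow_div hX0.le (by positivity : 0 < ε / 2)
    calc Real.log X ≤ (X : ℝ) ^ (ε / 2) / (ε / 2) := this
      _ = 2 / ε * r := by rw [hr]; field_simp
  have h2 : Real.log (X + 1) ≤ 2 * (2 / ε * r) := by
    have h3 : Real.log (X + 1) ≤ Real.log ((X : ℝ) ^ 2) := by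
      apply Real.log_le_log (by linarith)
      nlinarith
    rw [Real.log_pow] at h3
    push_cast at h3
    linarith
  set g : ℝ := (X : ℝ) ^ (1 - ε) with hg
  have hg1 : 1 ≤ g := Real.one_le_rpow hX1 (by linarith)
  have hgr : g * r * r = X := by
    rw [hg, hr, ← Real.rpow_add hX0, ← Real.rpow_add hX0]
    rw [show 1 - ε + ε / 2 + ε / 2 = 1 by ring, Real.rpow_one]
  have h4 : 8 / ε * (g * r) ≤ X * Real.log 2 := by
    have h5 : 8 ≤ r * (ε * Real.log 2) := by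
      rw [div_le_iff₀ (by positivity)] at hbig
      exact hbig
    have h6 : 8 / ε ≤ r * Real.log 2 := by
      rw [div_le_iff₀ hε]; linarith
    calc 8 / ε * (g * r) ≤ r * Real.log 2 * (g * r) :=
          mul_le_mul_of_nonneg_right h6 (by positivity)
      _ = X * Real.log 2 := by rw [← hgr]; ring
  have hc : 0 < 2 / ε := by positivity
  have h7 : (g + 1) * Real.log X ≤ 2 * g * (2 / ε * r) := by
    apply mul_le_mul (by linarith) h1 hlogX.le (by positivity)
  have h8 : 2 * (2 / ε * r) ≤ 2 * g * (2 / ε * r) := by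
    have : 0 < 2 / ε * r := by positivity
    nlinarith
  have h9 : 2 * g * (2 / ε * r) + 2 * g * (2 / ε * r) = 8 / ε * (g * r) := by ring
  linarith

lemma sum_lower {s ε κ : ℝ} (hs1 : s ≤ 1) (hε : 0 < ε) (hε1 : ε ≤ 1) (hκ : 0 < κ)
    (hse : 0 ≤ s - ε) :
    ∃ c : ℝ, 0 < c ∧ ∀ X : ℕ, 1 ≤ X →
      c * (X : ℝ) ^ (s - ε) ≤ 1 + ∑ p ∈ PX X, (p : ℝ) ^ (s - 1) / κ := by
  obtain ⟨X₀, hX₀⟩ := pi_lower hε hε1
  set Y : ℝ := ((max X₀ 1 : ℕ) : ℝ) with hY
  have hY1 : 1 ≤ Y := by rw [hY]; exact_mod_cast le_max_right _ _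
  have hY0 : 0 < Y ^ (s - ε) := Real.rpow_pos_of_pos (by linarith) _
  refine ⟨min (1 / κ) (1 / Y ^ (s - ε)), lt_min (by positivity) (by positivity), fun X hX => ?_⟩
  have hXr : (1 : ℝ) ≤ X := by exact_mod_cast hX
  have hX0 : (0 : ℝ) < X := by linarith
  have hsum0 : 0 ≤ ∑ p ∈ PX X, (p : ℝ) ^ (s - 1) / κ :=
    Finset.sum_nonneg fun p _ => by positivity
  by_cases h : X₀ ≤ X
  · have h1 := hX₀ X h
    have h2 : (Nat.primeCounting X : ℝ) ≤ (PX X).card + 1 := by exact_mod_cast card_PX X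
    have h3 : (X : ℝ) ^ (1 - ε) ≤ (PX X).card := by linarith
    have h4 : ((PX X).card : ℝ) * ((X : ℝ) ^ (s - 1) / κ) ≤ ∑ p ∈ PX X, (p : ℝ) ^ (s - 1) / κ := by
      rw [← nsmul_eq_mul, ← Finset.sum_const]
      apply Finset.sum_le_sum
      intro p hp
      obtain ⟨hp1, hp2, _⟩ := mem_PX.1 hp
      have hp0 : (0 : ℝ) < p := by exact_mod_cast hp2.pos
      have hpX : (p : ℝ) ≤ X := by exact_mod_cast hp1
      apply div_le_div_of_nonneg_right _ hκ.le
      exact Real.rpow_le_rpow_of_nonpos hp0 hpX (by linarith)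
    calc min (1 / κ) (1 / Y ^ (s - ε)) * (X : ℝ) ^ (s - ε) ≤ 1 / κ * (X : ℝ) ^ (s - ε) :=
          mul_le_mul_of_nonneg_right (min_le_left _ _) (by positivity)
      _ = (X : ℝ) ^ (1 - ε) * ((X : ℝ) ^ (s - 1) / κ) := by
          rw [mul_div_assoc', ← Real.rpow_add hX0]
          rw [show 1 - ε + (s - 1) = s - ε by ring]; ring
      _ ≤ ((PX X).card : ℝ) * ((X : ℝ) ^ (s - 1) / κ) :=
          mul_le_mul_of_nonneg_right h3 (by positivity)
      _ ≤ 1 + ∑ p ∈ PX X, (p : ℝ) ^ (s - 1) / κ := by linarith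
  · push Not at h
    have hXY : (X : ℝ) ≤ Y := by
      rw [hY]; exact_mod_cast h.le.trans (le_max_left _ _)
    have h5 : (X : ℝ) ^ (s - ε) ≤ Y ^ (s - ε) := Real.rpow_le_rpow hX0.le hXY hse
    calc min (1 / κ) (1 / Y ^ (s - ε)) * (X : ℝ) ^ (s - ε) ≤ 1 / Y ^ (s - ε) * Y ^ (s - ε) :=
          mul_le_mul (min_le_right _ _) h5 (by positivity) (by positivity)
      _ = 1 := by field_simp
      _ ≤ _ := by linarith

end Pool.Agent.Run7.h176.NC
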