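import Pool.Agent.Run7.h176.NC.OffCount
import Pool.Agent.Run7.h176.NC.PrimeSum
import Pool.Agent.Run7.h176.NC.Point

/-!
# Uniform power saving on balls
-/

set_option autoImplicit false

open UpperHalfPlane Matrix MeasureTheory
open scoped MatrixGroups ENNReal Modular

namespace Pool.Agent.Run7.h176.NC

theorem triv_bound {K E : Set ℍ} (hK : IsCompact K) (hEK : E ⊆ K) (hEm : MeasurableSet E)
    {f : ℍ → ℂ} {l : ℕ → ℂ} (H : HeckeForm f l) (q : ℝ) :
    2 * ∫⁻ z in E, ‖f z‖ₑ ^ q ≤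
      (Nat.card {γ : SL(2, ℤ) // ∃ x ∈ K, γ • x ∈ K} : ℝ≥0∞) * ∫⁻ z in 𝒟, ‖f z‖ₑ ^ q := by
  classical
  set h : ℍ → ℝ≥0∞ := fun z => ‖f z‖ₑ ^ q with hh
  have hmeas : Measurable h := H.measurable.enorm.pow_const q
  have hinv : ∀ (γ : SL(2, ℤ)) (z : ℍ), h (γ • z) = h z := by
    intro γ z; simp only [hh, H.invariant]
  have hcount := countQ ({1} : Finset Mat) (by
      intro M hM
      rw [Finset.mem_singleton] at hM
      rw [hM]
      exact ⟨by simp, by simp, by simp, by simp⟩) hK hEK (by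
      intro M hM M₀ hM₀ γ γ₀ _
      rw [Finset.mem_singleton] at hM hM₀
      rw [hM, hM₀]
      refine ⟨γ * γ₀⁻¹, ?_⟩
      rw [Matrix.mul_one, Matrix.mul_one, Matrix.SpecialLinearGroup.coe_mul,
        Matrix.SpecialLinearGroup.coe_inv, ← Matrix.mul_assoc, Matrix.adjugate_mul, γ.2, one_smul,
        Matrix.one_mul])
  have hu := unfold ({1} : Finset Mat) (fun M => {x : ℍ | GM M.adjugate • x ∈ E}) (by
      intro M _
      exact (measurePreserving_smul (GM M.adjugate) (volume : Measure ℍ)).measurable hEm)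
    h hmeas hinv _ hcount
  rw [Finset.sum_singleton] at hu
  have hset : {x : ℍ | GM (1 : Mat).adjugate • x ∈ E} = E := by
    rw [Matrix.adjugate_one, GM_one]
    ext x; simp
  rw [hset] at hu
  exact hu

theorem ball_bound {K : Set ℍ} (hK : IsCompact K) {C₀ θ q η : ℝ} (hC₀ : 1 ≤ C₀) (hq : 1 ≤ q)
    (hη : 0 < η) (h1 : 4 * η < 1) (h2 : 4 * η < 3 - q) (h3 : 4 * η < 2 - (1 / 2 + θ) * q) :
    ∃ C : ℝ, 0 < C ∧ ∀ (f : ℍ → ℂ) (l : ℕ → ℂ), HeckeForm f l →
      (∀ p : ℕ, p.Prime → ‖l p‖ ≤ C₀ * (p : ℝ) ^ θ) →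
      ∀ z₀ ∈ K, ∀ δ : ℝ, 0 < δ → δ ≤ 1 →
      ∫⁻ z in Metric.ball z₀ δ, ‖f z‖ₑ ^ q ≤
        ENNReal.ofReal (C * δ ^ η) * ∫⁻ z in 𝒟, ‖f z‖ₑ ^ q := by
  classical
  set K' : Set ℍ := Metric.cthickening 1 K with hK'
  have hK'c : IsCompact K' := hK.cthickening
  set n : ℕ := Nat.card {γ : SL(2, ℤ) // ∃ x ∈ K', γ • x ∈ K'} with hn
  obtain ⟨c, hc, hnear⟩ := near hK
  set s : ℝ := min 1 (min (3 - q) (2 - (1 / 2 + θ) * q)) with hs
  have hs1 : s ≤ 1 := min_le_left _ _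
  have hs2 : s ≤ 3 - q := (min_le_right _ _).trans (min_le_left _ _)
  have hs3 : s ≤ 2 - (1 / 2 + θ) * q := (min_le_right _ _).trans (min_le_right _ _)
  have hs4 : 4 * η < s := lt_min h1 (lt_min h2 h3)
  set κ : ℝ := 12 * C₀ ^ q with hκ
  have hκ0 : 0 < κ := by
    have : (0 : ℝ) < C₀ ^ q := Real.rpow_pos_of_pos (by linarith) _
    positivity
  obtain ⟨c₁, hc₁, hsum⟩ := sum_lower (s := s) (ε := s - 4 * η) (κ := κ) hs1 (by linarith)
    (by linarith) hκ0 (by linarith)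
  have hse : s - (s - 4 * η) = 4 * η := by ring
  rw [hse] at hsum
  set c₂ : ℝ := c₁ * (c ^ η / 2 ^ (4 * η)) with hc₂
  have hc20 : 0 < c₂ := by positivity
  have hcη : 0 < c ^ η := Real.rpow_pos_of_pos hc _
  set C : ℝ := (n + 1) / (2 * c₂) + (n + 1) / (2 * c ^ η) with hC
  have hC0 : 0 < C := by positivity
  refine ⟨C, hC0, fun f l H hl z₀ hz₀ δ hδ hδ1 => ?_⟩
  have hEK : Metric.ball z₀ δ ⊆ K' := by
    intro x hx
    refine Metric.mem_cthickening_of_dist_le x z₀ 1 K hz₀ ?_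
    exact (Metric.mem_ball.1 hx).le.trans hδ1
  have hEm : MeasurableSet (Metric.ball z₀ δ) := Metric.isOpen_ball.measurableSet
  have hδη : 0 < δ ^ η := Real.rpow_pos_of_pos hδ _
  by_cases hδc : δ ≤ c
  · set r : ℝ := (c / δ) ^ (1 / 4 : ℝ) with hr
    have hcd : 1 ≤ c / δ := by rw [le_div_iff₀ hδ]; linarith
    have hr1 : 1 ≤ r := Real.one_le_rpow hcd (by norm_num)
    set X : ℕ := ⌊r⌋₊ with hX
    have hX1 : 1 ≤ X := by rw [hX, Nat.one_le_floor_iff]; exact hr1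
    have hXr : (X : ℝ) ≤ r := Nat.floor_le (by linarith)
    have hX2 : r ≤ 2 * X := by
      have h5 := Nat.lt_floor_add_one r
      have h6 : (1 : ℝ) ≤ X := by exact_mod_cast hX1
      rw [← hX] at h5
      linarith
    have hX4 : (X : ℝ) ^ 4 ≤ c / δ := by
      calc (X : ℝ) ^ 4 ≤ r ^ 4 := pow_le_pow_left₀ (by positivity) hXr 4
        _ = c / δ := by
          rw [hr, ← Real.rpow_natCast, ← Real.rpow_mul (by positivity)]
          norm_num
    obtain ⟨u, v, w, x, y, t, hbez, hE⟩ := hnear z₀ hz₀ δ hδ hδ1 (X ^ 4)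
      (Nat.one_le_pow _ _ hX1) (by
        push_cast
        rw [← le_div_iff₀ hδ]; exact hX4)
    have hmain := main_off hK'c hEK hEm hbez (P := PX X) (X := X)
      (fun p hp => ⟨(mem_PX.1 hp).2.1, (mem_PX.1 hp).2.2⟩) hX1 (fun p hp => (mem_PX.1 hp).1)
      hE H hC₀ hq (by linarith) hs2 hs3 hl
    rw [← hκ] at hmain
    have hlow := hsum X hX1
    set W : ℝ := 1 + ∑ p ∈ PX X, (p : ℝ) ^ (s - 1) / κ with hW
    have hXpow : c ^ η / 2 ^ (4 * η) * (1 / δ ^ η) ≤ (X : ℝ) ^ (4 * η) := by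
      have h5 : r ^ (4 * η) ≤ (2 * X) ^ (4 * η) :=
        Real.rpow_le_rpow (by linarith) hX2 (by linarith)
      have h6 : r ^ (4 * η) = c ^ η / δ ^ η := by
        rw [hr, ← Real.rpow_mul (by positivity), Real.div_rpow hc.le hδ.le]
        rw [show (1 / 4 : ℝ) * (4 * η) = η by ring]
      rw [h6, Real.mul_rpow (by norm_num) (by positivity)] at h5
      have h7 : (0 : ℝ) < 2 ^ (4 * η) := Real.rpow_pos_of_pos (by norm_num) _
      calc c ^ η / 2 ^ (4 * η) * (1 / δ ^ η) = (c ^ η / δ ^ η) / 2 ^ (4 * η) := by ring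
        _ ≤ 2 ^ (4 * η) * (X : ℝ) ^ (4 * η) / 2 ^ (4 * η) := div_le_div_of_nonneg_right h5 h7.le
        _ = (X : ℝ) ^ (4 * η) := by field_simp
    have hWlow : c₂ ≤ W * δ ^ η := by
      have h5 : c₁ * (c ^ η / 2 ^ (4 * η) * (1 / δ ^ η)) ≤ W :=
        (mul_le_mul_of_nonneg_left hXpow hc₁.le).trans hlow
      calc c₂ = c₁ * (c ^ η / 2 ^ (4 * η) * (1 / δ ^ η)) * δ ^ η := by
            rw [hc₂]; field_simp
        _ ≤ W * δ ^ η := mul_le_mul_of_nonneg_right h5 hδη.le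
    have hW0 : 0 < W := by
      by_contra hcon
      push Not at hcon
      have : W * δ ^ η ≤ 0 := mul_nonpos_of_nonpos_of_nonneg hcon hδη.le
      linarith
    refine cancel_ineq hW0 (by positivity) ?_ hmain
    have hn0 : (0 : ℝ) ≤ n := Nat.cast_nonneg n
    calc (n : ℝ) ≤ n + 1 := by linarith
      _ = 2 * c₂ * ((n + 1) / (2 * c₂)) := by field_simp
      _ ≤ 2 * (W * δ ^ η) * C := by
          apply mul_le_mul (by linarith) _ (by positivity) (by positivity)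
          rw [hC]
          have : 0 ≤ ((n : ℝ) + 1) / (2 * c ^ η) := by positivity
          linarith
      _ = 2 * W * (C * δ ^ η) := by ring
  · push Not at hδc
    have htriv := triv_bound hK'c hEK hEm H q
    have hcd : c ^ η ≤ δ ^ η := Real.rpow_le_rpow hc.le hδc.le hη.le
    refine cancel_ineq one_pos (by positivity) ?_ (by rw [ENNReal.ofReal_one, one_mul]; exact htriv)
    have hn0 : (0 : ℝ) ≤ n := Nat.cast_nonneg n
    calc (n : ℝ) ≤ n + 1 := by linarith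
      _ = 2 * ((n + 1) / (2 * c ^ η)) * c ^ η := by field_simp
      _ ≤ 2 * C * δ ^ η := by
          apply mul_le_mul _ hcd hcη.le (by positivity)
          apply mul_le_mul_of_nonneg_left _ (by norm_num)
          rw [hC]
          have : 0 ≤ ((n : ℝ) + 1) / (2 * c₂) := by positivity
          linarith
      _ = 2 * 1 * (C * δ ^ η) := by ring

end Pool.Agent.Run7.h176.NC
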