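import Pool.Agent.Run7.h176.NC.Basic

/-!
# Integer matrices of bounded determinant that almost fix a point
-/

set_option autoImplicit false

open UpperHalfPlane Matrix Filter Topology
open scoped MatrixGroups

namespace Pool.Agent.Run7.h176.NC

lemma close_coe (z₀ : ℍ) {η : ℝ} (hη : 0 < η) :
    ∃ δ : ℝ, 0 < δ ∧ ∀ z : ℍ, dist z z₀ < δ → ‖(z : ℂ) - z₀‖ < η := by
  have h := UpperHalfPlane.continuous_coe.continuousAt (x := z₀)
  obtain ⟨δ, hδ, h1⟩ := Metric.continuousAt_iff.1 h η hη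
  refine ⟨δ, hδ, fun z hz => ?_⟩
  have := h1 hz
  rwa [dist_eq_norm] at this

/-- the entries of a matrix of determinant at most `D` which moves a point near `z₀` to a point near `z₀`
are bounded -/
lemma entries_bounded (z₀ : ℍ) (D : ℕ) : ∃ N : ℕ, ∀ (A : Mat), 0 < A.det → A.det ≤ D → ∀ z : ℍ,
    ‖(z : ℂ) - z₀‖ < z₀.im / 2 → ‖((GM A • z : ℍ) : ℂ) - z₀‖ < z₀.im / 2 →
    (∀ i j, |A i j| ≤ (N : ℤ)) ∧ ‖(A 1 0 : ℂ) * z + A 1 1‖ ≤ (N : ℝ) := by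
  set y := z₀.im with hy
  have hy0 : 0 < y := z₀.im_pos
  set Q : ℝ := 3 * D + 1 with hQ
  set Rr : ℝ := ‖(z₀ : ℂ)‖ + y with hR
  have hQ1 : 1 ≤ Q := by have : (0 : ℝ) ≤ D := Nat.cast_nonneg D; linarith
  have hR0 : 0 ≤ Rr := by positivity
  set c1 : ℝ := 2 * Q / y
  set d1 : ℝ := Q + c1 * Rr
  set a1 : ℝ := 2 * (Rr * Q) / y
  set b1 : ℝ := Rr * Q + a1 * Rr
  have hc1 : 0 ≤ c1 := by positivity
  have hd1 : 0 ≤ d1 := by positivity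
  have ha1 : 0 ≤ a1 := by positivity
  have hb1 : 0 ≤ b1 := by positivity
  obtain ⟨N, hN⟩ := exists_nat_ge (a1 + b1 + c1 + d1 + Q)
  refine ⟨N, fun A hA hAD z hz hw => ?_⟩
  set w : ℍ := GM A • z with hwdef
  have him : ∀ x : ℍ, ‖(x : ℂ) - z₀‖ < y / 2 → y / 2 ≤ x.im ∧ x.im ≤ 3 * y / 2 ∧ ‖(x : ℂ)‖ ≤ Rr := by
    intro x hx
    have h1 : |((x : ℂ) - z₀).im| < y / 2 := (Complex.abs_im_le_norm _).trans_lt hx
    rw [Complex.sub_im, UpperHalfPlane.coe_im, UpperHalfPlane.coe_im, ← hy, abs_lt] at h1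
    refine ⟨by linarith [h1.1], by linarith [h1.2], ?_⟩
    have h2 : ‖(x : ℂ)‖ ≤ ‖(x : ℂ) - z₀‖ + ‖(z₀ : ℂ)‖ := by
      calc ‖(x : ℂ)‖ = ‖((x : ℂ) - z₀) + z₀‖ := by ring_nf
        _ ≤ _ := norm_add_le _ _
    linarith
  obtain ⟨hz1, hz2, hz3⟩ := him z hz
  obtain ⟨hw1, hw2, hw3⟩ := him w hw
  have hdet : (A.det : ℝ) ≤ D := by exact_mod_cast hAD
  have hdet0 : (0 : ℝ) < A.det := by exact_mod_cast hA
  set dn : ℂ := (A 1 0 : ℂ) * z + A 1 1 with hdn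
  have hdn0 : dn ≠ 0 := denom_ne hA z
  have hns : Complex.normSq dn = A.det * z.im / w.im := by
    have h1 : w.im = A.det * z.im / Complex.normSq dn := im_GM hA z
    have h2 : Complex.normSq dn ≠ 0 := by simpa using hdn0
    have h3 : w.im ≠ 0 := w.im_pos.ne'
    field_simp
    rw [h1]
    field_simp
  have hns2 : ‖dn‖ ^ 2 ≤ 3 * D := by
    rw [← Complex.normSq_eq_norm_sq, hns, div_le_iff₀ w.im_pos]
    calc (A.det : ℝ) * z.im ≤ D * (3 * y / 2) :=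
          mul_le_mul hdet hz2 z.im_pos.le (Nat.cast_nonneg D)
      _ = 3 * D * (y / 2) := by ring
      _ ≤ 3 * D * w.im := by
          apply mul_le_mul_of_nonneg_left hw1
          positivity
  have hdnQ : ‖dn‖ ≤ Q := by
    by_contra hcon
    push Not at hcon
    have : Q * 1 < ‖dn‖ * ‖dn‖ := by nlinarith
    rw [← sq] at this
    linarith
  have hc : |(A 1 0 : ℝ)| ≤ c1 := by
    have h1 : dn.im = (A 1 0 : ℝ) * z.im := by
      simp [hdn]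
    have h2 : |(A 1 0 : ℝ)| * z.im ≤ Q := by
      have e : |(A 1 0 : ℝ)| * z.im = |dn.im| := by rw [h1, abs_mul, abs_of_pos z.im_pos]
      rw [e]
      exact (Complex.abs_im_le_norm _).trans hdnQ
    rw [show c1 = 2 * Q / y from rfl, le_div_iff₀ hy0]
    nlinarith [abs_nonneg (A 1 0 : ℝ)]
  have hd : |(A 1 1 : ℝ)| ≤ d1 := by
    have h1 : ((A 1 1 : ℤ) : ℂ) = dn - (A 1 0 : ℂ) * z := by rw [hdn]; ring
    have h2 : |(A 1 1 : ℝ)| = ‖((A 1 1 : ℤ) : ℂ)‖ := by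
      rw [Complex.norm_intCast]
    rw [h2, h1]
    calc ‖dn - (A 1 0 : ℂ) * z‖ ≤ ‖dn‖ + ‖(A 1 0 : ℂ) * z‖ := norm_sub_le _ _
      _ = ‖dn‖ + |(A 1 0 : ℝ)| * ‖(z : ℂ)‖ := by rw [norm_mul, Complex.norm_intCast]
      _ ≤ Q + c1 * Rr := add_le_add hdnQ (mul_le_mul hc hz3 (norm_nonneg _) hc1)
  have hnum : (A 0 0 : ℂ) * z + A 0 1 = w * dn := by
    rw [hwdef, coe_GM hA, div_mul_cancel₀ _ hdn0]
  have hnumQ : ‖(A 0 0 : ℂ) * z + A 0 1‖ ≤ Rr * Q := by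
    rw [hnum, norm_mul]
    exact mul_le_mul hw3 hdnQ (norm_nonneg _) hR0
  have ha : |(A 0 0 : ℝ)| ≤ a1 := by
    have h1 : ((A 0 0 : ℂ) * z + A 0 1).im = (A 0 0 : ℝ) * z.im := by
      simp
    have h2 : |(A 0 0 : ℝ)| * z.im ≤ Rr * Q := by
      have e : |(A 0 0 : ℝ)| * z.im = |((A 0 0 : ℂ) * z + A 0 1).im| := by
        rw [h1, abs_mul, abs_of_pos z.im_pos]
      rw [e]
      exact (Complex.abs_im_le_norm _).trans hnumQ
    rw [show a1 = 2 * (Rr * Q) / y from rfl, le_div_iff₀ hy0]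
    nlinarith [abs_nonneg (A 0 0 : ℝ)]
  have hb : |(A 0 1 : ℝ)| ≤ b1 := by
    have h1 : ((A 0 1 : ℤ) : ℂ) = ((A 0 0 : ℂ) * z + A 0 1) - (A 0 0 : ℂ) * z := by ring
    have h2 : |(A 0 1 : ℝ)| = ‖((A 0 1 : ℤ) : ℂ)‖ := by
      rw [Complex.norm_intCast]
    rw [h2, h1]
    calc ‖((A 0 0 : ℂ) * z + A 0 1) - (A 0 0 : ℂ) * z‖ 
        ≤ ‖(A 0 0 : ℂ) * z + A 0 1‖ + ‖(A 0 0 : ℂ) * z‖ := norm_sub_le _ _
      _ = ‖(A 0 0 : ℂ) * z + A 0 1‖ + |(A 0 0 : ℝ)| * ‖(z : ℂ)‖ := by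
          rw [norm_mul (A 0 0 : ℂ), Complex.norm_intCast]
      _ ≤ Rr * Q + a1 * Rr := add_le_add hnumQ (mul_le_mul ha hz3 (norm_nonneg _) ha1)
  refine ⟨?_, by linarith⟩
  have hfin : ∀ x : ℤ, |(x : ℝ)| ≤ N → |x| ≤ (N : ℤ) := by
    intro x hx
    exact_mod_cast hx
  intro i j
  fin_cases i <;> fin_cases j
  · exact hfin _ (by change |(A 0 0 : ℝ)| ≤ _; linarith)
  · exact hfin _ (by change |(A 0 1 : ℝ)| ≤ _; linarith)
  · exact hfin _ (by change |(A 1 0 : ℝ)| ≤ _; linarith)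
  · exact hfin _ (by change |(A 1 1 : ℝ)| ≤ _; linarith)

lemma finite_bounded (N : ℕ) : {A : Mat | ∀ i j, |A i j| ≤ (N : ℤ)}.Finite := by
  have h := Set.finite_Icc (fun _ _ => -(N : ℤ) : Fin 2 → Fin 2 → ℤ) (fun _ _ => (N : ℤ))
  refine h.subset ?_
  intro A hA
  refine ⟨fun i j => ?_, fun i j => ?_⟩
  · exact (abs_le.1 (hA i j)).1
  · exact (abs_le.1 (hA i j)).2

theorem discrete (z₀ : ℍ) (D : ℕ) : ∃ δ : ℝ, 0 < δ ∧ ∀ A : Mat, 0 < A.det → A.det ≤ D →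
    ∀ z : ℍ, dist z z₀ < δ → dist (GM A • z) z₀ < δ → GM A • z₀ = z₀ := by
  obtain ⟨N, hN⟩ := entries_bounded z₀ D
  set φ : Mat → ℝ := fun A => ‖(A 1 0 : ℂ) * (z₀ : ℂ) ^ 2 + (A 1 1 - A 0 0) * z₀ - A 0 1‖ with hφ
  have hev : ∀ᶠ m : ℝ in 𝓝[>] 0, ∀ A ∈ {A : Mat | ∀ i j, |A i j| ≤ (N : ℤ)}, φ A ≠ 0 → m < φ A := by
    rw [(finite_bounded N).eventually_all]
    intro A _
    by_cases h : φ A = 0
    · exact Eventually.of_forall fun m hm => absurd h hm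
    · have hpos : 0 < φ A := lt_of_le_of_ne (norm_nonneg _) (Ne.symm h)
      have : ∀ᶠ m : ℝ in 𝓝 0, m < φ A := eventually_lt_nhds hpos
      exact (this.filter_mono nhdsWithin_le_nhds).mono fun m hm _ => hm
  obtain ⟨m, hm1, hm2⟩ := (hev.and self_mem_nhdsWithin).exists
  have hm0 : 0 < m := hm2
  set C : ℝ := N + ‖(z₀ : ℂ)‖ * N + N + 1 with hC
  have hC0 : 0 < C := by positivity
  set η : ℝ := min (z₀.im / 2) (m / C) with hη
  have hη0 : 0 < η := lt_min (by have := z₀.im_pos; linarith) (by positivity)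
  obtain ⟨δ, hδ, hδ1⟩ := close_coe z₀ hη0
  refine ⟨δ, hδ, fun A hA hAD z hz hw => ?_⟩
  have h1 := hδ1 z hz
  have h2 := hδ1 _ hw
  obtain ⟨h3, h4⟩ := hN A hA hAD z (h1.trans_le (min_le_left _ _)) (h2.trans_le (min_le_left _ _))
  have h5 := hm1 A h3
  rw [fix_iff hA]
  by_contra hne
  have h6 : φ A ≠ 0 := by rwa [hφ, ne_eq, norm_eq_zero]
  have h7 := h5 h6
  set w : ℍ := GM A • z with hwdef
  have hdn0 : ((A 1 0 : ℂ) * z + A 1 1) ≠ 0 := denom_ne hA z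
  have hnum : (A 0 0 : ℂ) * z + A 0 1 = w * ((A 1 0 : ℂ) * z + A 1 1) := by
    rw [hwdef, coe_GM hA, div_mul_cancel₀ _ hdn0]
  have h8 : (A 1 0 : ℂ) * (z₀ : ℂ) ^ 2 + (A 1 1 - A 0 0) * z₀ - A 0 1 =
      -(((w : ℂ) - z₀) * ((A 1 0 : ℂ) * z + A 1 1)) - z₀ * (A 1 0 : ℂ) * ((z : ℂ) - z₀)
        + (A 0 0 : ℂ) * ((z : ℂ) - z₀) := by
    linear_combination -hnum
  have hb : ∀ i j, ‖((A i j : ℤ) : ℂ)‖ ≤ N := by
    intro i j
    rw [Complex.norm_intCast]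
    exact_mod_cast h3 i j
  have h9 : φ A ≤ η * C := by
    have e1 : φ A ≤ ‖((w : ℂ) - z₀)‖ * ‖((A 1 0 : ℂ) * z + A 1 1)‖ +
        ‖(z₀ : ℂ)‖ * ‖(A 1 0 : ℂ)‖ * ‖(z : ℂ) - z₀‖ + ‖(A 0 0 : ℂ)‖ * ‖(z : ℂ) - z₀‖ := by
      simp only [hφ]
      rw [h8]
      refine (norm_add_le _ _).trans ?_
      refine add_le_add ((norm_sub_le _ _).trans (add_le_add ?_ ?_)) ?_
      · rw [norm_neg, norm_mul]
      · rw [norm_mul, norm_mul]
      · rw [norm_mul]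
    have hN0 : (0 : ℝ) ≤ N := Nat.cast_nonneg N
    have e2 : ‖((w : ℂ) - z₀)‖ * ‖((A 1 0 : ℂ) * z + A 1 1)‖ ≤ η * N :=
      mul_le_mul h2.le h4 (norm_nonneg _) hη0.le
    have e3 : ‖(z₀ : ℂ)‖ * ‖(A 1 0 : ℂ)‖ * ‖(z : ℂ) - z₀‖ ≤ ‖(z₀ : ℂ)‖ * N * η :=
      mul_le_mul (mul_le_mul_of_nonneg_left (hb 1 0) (norm_nonneg _)) h1.le (norm_nonneg _)
        (by positivity)
    have e4 : ‖(A 0 0 : ℂ)‖ * ‖(z : ℂ) - z₀‖ ≤ N * η :=
      mul_le_mul (hb 0 0) h1.le (norm_nonneg _) hN0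
    rw [hC]
    nlinarith
  have h10 : η * C ≤ m := by
    calc η * C ≤ (m / C) * C := mul_le_mul_of_nonneg_right (min_le_right _ _) hC0.le
      _ = m := div_mul_cancel₀ _ hC0.ne'
  linarith

/-- The stabiliser of a point in `SL₂(ℤ)` is finite. -/
theorem stab_finite (z₀ : ℍ) : Finite {γ : SL(2, ℤ) // γ • z₀ = z₀} := by
  obtain ⟨N, hN⟩ := entries_bounded z₀ 1
  have hfin := (finite_bounded N).to_subtype
  let F : {γ : SL(2, ℤ) // γ • z₀ = z₀} → {A : Mat | ∀ i j, |A i j| ≤ (N : ℤ)} := fun γ =>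
    ⟨γ.1.1, by
      have hd : γ.1.1.det = 1 := γ.1.2
      have h := (hN γ.1.1 (by rw [hd]; norm_num) (by rw [hd]; norm_num) z₀
        (by have := z₀.im_pos; simpa using this) (by
          rw [← sl_smul, γ.2]
          have := z₀.im_pos; simpa using this)).1
      exact h⟩
  refine Finite.of_injective F ?_
  intro γ γ' h
  have h1 : γ.1.1 = γ'.1.1 := congrArg (fun x => x.1) h
  apply Subtype.ext
  ext i j
  exact congrFun (congrFun h1 i) j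

end Pool.Agent.Run7.h176.NC
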