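import Pool.Agent.Run7.h176.NC.Main

/-!
# The main inequality for sets whose Hecke translates meet them only through a class of matrices
-/

set_option autoImplicit false

open UpperHalfPlane Matrix MeasureTheory
open scoped MatrixGroups ENNReal Modular

namespace Pool.Agent.Run7.h176.NC

/-- entries of matrices which move a point of a compact set to a point of the compact set -/
lemma entries_bounded_compact {K : Set ℍ} (hK : IsCompact K) (D : ℕ) :
    ∃ N : ℕ, ∀ (A : Mat), 0 < A.det → A.det ≤ D → ∀ z ∈ K, GM A • z ∈ K →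
      ∀ i j, |A i j| ≤ (N : ℤ) := by
  rcases K.eq_empty_or_nonempty with hem | hne
  · exact ⟨0, fun A _ _ z hz => absurd hz (by rw [hem]; simp)⟩
  obtain ⟨x₁, hx₁, hmin⟩ := hK.exists_isMinOn hne UpperHalfPlane.continuous_im.continuousOn
  obtain ⟨x₂, hx₂, hmax⟩ := hK.exists_isMaxOn hne UpperHalfPlane.continuous_im.continuousOn
  obtain ⟨x₃, hx₃, hmax3⟩ := hK.exists_isMaxOn hne
    (f := fun z : ℍ => ‖(z : ℂ)‖) (UpperHalfPlane.continuous_coe.norm).continuousOn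
  set y := x₁.im with hy
  set y' := x₂.im with hy'
  set Rr : ℝ := ‖(x₃ : ℂ)‖ with hR
  have hy0 : 0 < y := x₁.im_pos
  have hy0' : 0 < y' := x₂.im_pos
  set Q : ℝ := D * (y' / y) + 1 with hQ
  have hQ1 : 1 ≤ Q := by
    have h1 : (0 : ℝ) ≤ D := Nat.cast_nonneg D
    have : 0 ≤ (D : ℝ) * (y' / y) := by positivity
    linarith
  have hR0 : 0 ≤ Rr := norm_nonneg _
  set c1 : ℝ := Q / y
  set d1 : ℝ := Q + c1 * Rr
  set a1 : ℝ := (Rr * Q) / y
  set b1 : ℝ := Rr * Q + a1 * Rr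
  have hc1 : 0 ≤ c1 := by positivity
  have hd1 : 0 ≤ d1 := by positivity
  have ha1 : 0 ≤ a1 := by positivity
  have hb1 : 0 ≤ b1 := by positivity
  obtain ⟨N, hN⟩ := exists_nat_ge (a1 + b1 + c1 + d1 + Q)
  refine ⟨N, fun A hA hAD z hz hw => ?_⟩
  set w : ℍ := GM A • z with hwdef
  have him : ∀ x : ℍ, x ∈ K → y ≤ x.im ∧ x.im ≤ y' ∧ ‖(x : ℂ)‖ ≤ Rr := fun x hx =>
    ⟨hmin hx, hmax hx, hmax3 hx⟩
  obtain ⟨hz1, hz2, hz3⟩ := him z hz
  obtain ⟨hw1, hw2, hw3⟩ := him w hw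
  have hdet : (A.det : ℝ) ≤ D := by exact_mod_cast hAD
  have hdet0 : (0 : ℝ) < A.det := by exact_mod_cast hA
  set dn : ℂ := (A 1 0 : ℂ) * z + A 1 1 with hdn
  have hdn0 : dn ≠ 0 := denom_ne hA z
  have hns : Complex.normSq dn = A.det * z.im / w.im := by
    have h1 : w.im = A.det * z.im / Complex.normSq dn := im_GM hA z
    have h2 : Complex.normSq dn ≠ 0 := by simpa using hdn0
    have h3 : w.im ≠ 0 := w.im_pos.ne'
    field_simp
    rw [h1]
    field_simp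
  have hns2 : ‖dn‖ ^ 2 ≤ D * (y' / y) := by
    rw [← Complex.normSq_eq_norm_sq, hns, div_le_iff₀ w.im_pos]
    calc (A.det : ℝ) * z.im ≤ D * y' :=
          mul_le_mul hdet hz2 z.im_pos.le (Nat.cast_nonneg D)
      _ = D * (y' / y) * y := by field_simp
      _ ≤ D * (y' / y) * w.im := by
          apply mul_le_mul_of_nonneg_left hw1
          positivity
  have hdnQ : ‖dn‖ ≤ Q := by
    by_contra hcon
    push Not at hcon
    have : Q * 1 < ‖dn‖ * ‖dn‖ := by nlinarith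
    rw [← sq] at this
    linarith
  have hc : |(A 1 0 : ℝ)| ≤ c1 := by
    have h1 : dn.im = (A 1 0 : ℝ) * z.im := by
      simp [hdn]
    have h2 : |(A 1 0 : ℝ)| * z.im ≤ Q := by
      have e : |(A 1 0 : ℝ)| * z.im = |dn.im| := by rw [h1, abs_mul, abs_of_pos z.im_pos]
      rw [e]
      exact (Complex.abs_im_le_norm _).trans hdnQ
    rw [show c1 = Q / y from rfl, le_div_iff₀ hy0]
    nlinarith [abs_nonneg (A 1 0 : ℝ)]
  have hd : |(A 1 1 : ℝ)| ≤ d1 := by
    have h1 : ((A 1 1 : ℤ) : ℂ) = dn - (A 1 0 : ℂ) * z := by rw [hdn]; ring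
    have h2 : |(A 1 1 : ℝ)| = ‖((A 1 1 : ℤ) : ℂ)‖ := by
      rw [Complex.norm_intCast]
    rw [h2, h1]
    calc ‖dn - (A 1 0 : ℂ) * z‖ ≤ ‖dn‖ + ‖(A 1 0 : ℂ) * z‖ := norm_sub_le _ _
      _ = ‖dn‖ + |(A 1 0 : ℝ)| * ‖(z : ℂ)‖ := by rw [norm_mul, Complex.norm_intCast]
      _ ≤ Q + c1 * Rr := add_le_add hdnQ (mul_le_mul hc hz3 (norm_nonneg _) hc1)
  have hnum : (A 0 0 : ℂ) * z + A 0 1 = w * dn := by
    rw [hwdef, coe_GM hA, div_mul_cancel₀ _ hdn0]
  have hnumQ : ‖(A 0 0 : ℂ) * z + A 0 1‖ ≤ Rr * Q := by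
    rw [hnum, norm_mul]
    exact mul_le_mul hw3 hdnQ (norm_nonneg _) hR0
  have ha : |(A 0 0 : ℝ)| ≤ a1 := by
    have h1 : ((A 0 0 : ℂ) * z + A 0 1).im = (A 0 0 : ℝ) * z.im := by
      simp
    have h2 : |(A 0 0 : ℝ)| * z.im ≤ Rr * Q := by
      have e : |(A 0 0 : ℝ)| * z.im = |((A 0 0 : ℂ) * z + A 0 1).im| := by
        rw [h1, abs_mul, abs_of_pos z.im_pos]
      rw [e]
      exact (Complex.abs_im_le_norm _).trans hnumQ
    rw [show a1 = (Rr * Q) / y from rfl, le_div_iff₀ hy0]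
    nlinarith [abs_nonneg (A 0 0 : ℝ)]
  have hb : |(A 0 1 : ℝ)| ≤ b1 := by
    have h1 : ((A 0 1 : ℤ) : ℂ) = ((A 0 0 : ℂ) * z + A 0 1) - (A 0 0 : ℂ) * z := by ring
    have h2 : |(A 0 1 : ℝ)| = ‖((A 0 1 : ℤ) : ℂ)‖ := by
      rw [Complex.norm_intCast]
    rw [h2, h1]
    calc ‖((A 0 0 : ℂ) * z + A 0 1) - (A 0 0 : ℂ) * z‖
        ≤ ‖(A 0 0 : ℂ) * z + A 0 1‖ + ‖(A 0 0 : ℂ) * z‖ := norm_sub_le _ _
      _ = ‖(A 0 0 : ℂ) * z + A 0 1‖ + |(A 0 0 : ℝ)| * ‖(z : ℂ)‖ := by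
          rw [norm_mul (A 0 0 : ℂ), Complex.norm_intCast]
      _ ≤ Rr * Q + a1 * Rr := add_le_add hnumQ (mul_le_mul ha hz3 (norm_nonneg _) ha1)
  have hfin : ∀ x : ℤ, |(x : ℝ)| ≤ N → |x| ≤ (N : ℤ) := by
    intro x hx
    exact_mod_cast hx
  intro i j
  fin_cases i <;> fin_cases j
  · exact hfin _ (by change |(A 0 0 : ℝ)| ≤ _; linarith)
  · exact hfin _ (by change |(A 0 1 : ℝ)| ≤ _; linarith)
  · exact hfin _ (by change |(A 1 0 : ℝ)| ≤ _; linarith)
  · exact hfin _ (by change |(A 1 1 : ℝ)| ≤ _; linarith)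

theorem finite_return {K : Set ℍ} (hK : IsCompact K) :
    Finite {γ : SL(2, ℤ) // ∃ x ∈ K, γ • x ∈ K} := by
  obtain ⟨N, hN⟩ := entries_bounded_compact hK 1
  have hfin := (finite_bounded N).to_subtype
  let F : {γ : SL(2, ℤ) // ∃ x ∈ K, γ • x ∈ K} → {A : Mat | ∀ i j, |A i j| ≤ (N : ℤ)} := fun γ =>
    ⟨γ.1.1, by
      have hd : γ.1.1.det = 1 := γ.1.2
      obtain ⟨x, hx, hx'⟩ := γ.2
      exact hN γ.1.1 (by rw [hd]; norm_num) (by rw [hd]; norm_num) x hx
        (by rw [← sl_smul]; exact hx')⟩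
  refine Finite.of_injective F ?_
  intro γ γ' h
  have h1 : γ.1.1 = γ'.1.1 := congrArg (fun x => x.1) h
  apply Subtype.ext
  ext i j
  exact congrFun (congrFun h1 i) j

/-- the predicate `S` does not see integer factors -/
def Scaling (S : Mat → Prop) : Prop :=
  ∀ (n : ℤ) (A : Mat), 0 < n → 0 < (n • A).det → S (n • A) → S A

def InertS (S : Mat → Prop) (p : ℕ) : Prop :=
  ∀ A : Mat, 0 < A.det → S A → (p : ℤ) ∣ A.det → Dv p A

lemma det_smul_int (n : ℤ) (A : Mat) : (n • A).det = n ^ 2 * A.det := by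
  rw [Matrix.det_smul]; simp

lemma scale_factsS {S : Mat → Prop} (hS : Scaling S) {n : ℤ} (hn : 0 < n) {A' : Mat}
    (hA : 0 < (n • A').det) (hfix : S (n • A')) :
    0 < A'.det ∧ S A' ∧ (n • A').det = n ^ 2 * A'.det := by
  have h1 := det_smul_int n A'
  have h2 : 0 < A'.det := by
    rw [h1] at hA
    have h3 : 0 < n ^ 2 := by positivity
    exact (mul_pos_iff_of_pos_left h3).1 hA
  exact ⟨h2, hS n A' hn hA hfix, h1⟩

lemma of_scaledS {N N₀ : Mat} (hN : 0 < N.det) (hNN : N.det = N₀.det)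
    {V : Mat} (hV : N.adjugate * N₀ = N.det • V) :
    ∃ v : SL(2, ℤ), N₀ = N * v.1 := by
  have hdA : (N.adjugate * N₀).det = N.det ^ 2 := by
    rw [Matrix.det_mul, Matrix.det_adjugate, ← hNN]; simp; ring
  have h3 := det_smul_int N.det V
  have h4 : V.det = 1 := by
    have h5 : N.det ^ 2 * V.det = N.det ^ 2 * 1 := by rw [← h3, ← hV, hdA]; ring
    exact mul_left_cancel₀ (by positivity) h5
  refine ⟨(⟨V, h4⟩ : SL(2, ℤ)), ?_⟩
  have h5 : N * (N.adjugate * N₀) = N.det • N₀ := by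
    rw [← Matrix.mul_assoc, Matrix.mul_adjugate, Matrix.smul_mul, Matrix.one_mul]
  rw [hV, Matrix.mul_smul] at h5
  ext i j
  have h6 := congrFun (congrFun h5 i) j
  simp only [Matrix.smul_apply, smul_eq_mul] at h6
  exact (mul_left_cancel₀ hN.ne' h6).symm

lemma not_dvd_sideS {S : Mat → Prop} {p : ℕ} (hp : p.Prime) (hin : InertS S p) {N N₀ : Mat}
    (hN : 0 < N.det) (hN₀ : 0 < N₀.det) (pN : Prim N) (pN₀ : Prim N₀)
    (hfix : S (N.adjugate * N₀)) : (p : ℤ) ∣ N.det ↔ (p : ℤ) ∣ N₀.det := by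
  have hpp : Prime (p : ℤ) := Nat.prime_iff_prime_int.1 hp
  have hdA : (N.adjugate * N₀).det = N.det * N₀.det := by
    rw [Matrix.det_mul, Matrix.det_adjugate]; simp
  have hA : 0 < (N.adjugate * N₀).det := by rw [hdA]; positivity
  constructor
  · intro h
    by_contra hno
    have h1 : Dv p (N.adjugate * N₀) := hin _ hA hfix (by rw [hdA]; exact Dvd.dvd.mul_right h _)
    have h2 : Dv p (N.adjugate * N₀ * N₀.adjugate) := dv_mul_right _ h1
    rw [Matrix.mul_assoc, Matrix.mul_adjugate, Matrix.mul_smul, Matrix.mul_one] at h2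
    have h3 : Dv p N.adjugate := by
      intro i j
      have := h2 i j
      simp only [Matrix.smul_apply, smul_eq_mul] at this
      exact (hpp.dvd_mul.1 this).resolve_left hno
    exact pN p hp (dv_adj h3)
  · intro h
    by_contra hno
    have h1 : Dv p (N.adjugate * N₀) := hin _ hA hfix (by rw [hdA]; exact Dvd.dvd.mul_left h _)
    have h2 : Dv p (N * (N.adjugate * N₀)) := dv_mul_left _ h1
    rw [← Matrix.mul_assoc, Matrix.mul_adjugate, Matrix.smul_mul, Matrix.one_mul] at h2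
    have h3 : Dv p N₀ := by
      intro i j
      have := h2 i j
      simp only [Matrix.smul_apply, smul_eq_mul] at this
      exact (hpp.dvd_mul.1 this).resolve_left hno
    exact pN₀ p hp h3

theorem quotS {S : Mat → Prop} (hS : Scaling S) {p q : ℕ} (hp : p.Prime) (hip : InertS S p)
    (hq : q.Prime) (hiq : InertS S q) {N N₀ : Mat} (hN : 0 < N.det) (hN₀ : 0 < N₀.det)
    (pN : Prim N) (pN₀ : Prim N₀) (lN : Lev p N) (lN₀ : Lev q N₀)
    (hfix : S (N.adjugate * N₀)) : ∃ v : SL(2, ℤ), N₀ = N * v.1 := by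
  have hpp : Prime (p : ℤ) := Nat.prime_iff_prime_int.1 hp
  have hqq : Prime (q : ℤ) := Nat.prime_iff_prime_int.1 hq
  have hp1 : (1 : ℤ) < p := by exact_mod_cast hp.one_lt
  have hq1 : (1 : ℤ) < q := by exact_mod_cast hq.one_lt
  have sp := not_dvd_sideS hp hip hN hN₀ pN pN₀ hfix
  have sq' := not_dvd_sideS hq hiq hN hN₀ pN pN₀ hfix
  have hdA : (N.adjugate * N₀).det = N.det * N₀.det := by
    rw [Matrix.det_mul, Matrix.det_adjugate]; simp
  have hA : 0 < (N.adjugate * N₀).det := by rw [hdA]; positivity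
  by_cases h1 : N.det = 1
  · have h2 : ¬ (q : ℤ) ∣ N₀.det := by
      rw [← sq', h1]; exact hqq.not_dvd_one
    have h3 : N₀.det = 1 := by
      rcases lN₀ with h | h | h
      · exact h
      · exact absurd (by rw [h]) h2
      · exact absurd (by rw [h]; exact dvd_pow_self _ two_ne_zero) h2
    exact of_scaledS hN (by rw [h1, h3]) (V := N.adjugate * N₀) (by rw [h1, one_smul])
  · have h2 : (p : ℤ) ∣ N.det := by
      rcases lN with h | h | h
      · exact absurd h h1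
      · rw [h]
      · rw [h]; exact dvd_pow_self _ two_ne_zero
    have h3 : (p : ℤ) ∣ N₀.det := sp.1 h2
    have h4 : N₀.det ≠ 1 := by
      intro h; rw [h] at h3; exact hpp.not_dvd_one h3
    have hpq : (p : ℤ) = q := by
      have h5 : (p : ℤ) ∣ q := by
        rcases lN₀ with h | h | h
        · exact absurd h h4
        · rwa [h] at h3
        · rw [h] at h3; exact hpp.dvd_of_dvd_pow h3
      have h6 : p ∣ q := by exact_mod_cast h5
      exact_mod_cast (Nat.prime_dvd_prime_iff_eq hp hq).1 h6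
    have lN₀' : N₀.det = p ∨ N₀.det = (p : ℤ) ^ 2 := by
      rw [hpq]
      rcases lN₀ with h | h | h
      · exact absurd h h4
      · exact Or.inl h
      · exact Or.inr h
    have lN' : N.det = p ∨ N.det = (p : ℤ) ^ 2 := by
      rcases lN with h | h | h
      · exact absurd h h1
      · exact Or.inl h
      · exact Or.inr h
    have d1 : Dv p (N.adjugate * N₀) := hip _ hA hfix (by rw [hdA]; exact Dvd.dvd.mul_right h2 _)
    obtain ⟨A', hA'⟩ := dv_exists d1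
    have hA2 := hA
    have hfix2 := hfix
    rw [hA'] at hA2 hfix2
    obtain ⟨f1, f2, f3⟩ := scale_factsS hS (by linarith : (0 : ℤ) < p) hA2 hfix2
    rw [← hA', hdA] at f3
    have hodd : ¬ ((N.det = p ∧ N₀.det = (p : ℤ) ^ 2) ∨ (N.det = (p : ℤ) ^ 2 ∧ N₀.det = p)) := by
      intro hcase
      have f4 : A'.det = p := by
        have : (p : ℤ) ^ 2 * A'.det = (p : ℤ) ^ 2 * p := by
          rw [← f3]
          rcases hcase with ⟨e1, e2⟩ | ⟨e1, e2⟩ <;> rw [e1, e2] <;> ring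
        exact mul_left_cancel₀ (by positivity) this
      have d2 : Dv p A' := hip _ f1 f2 (by rw [f4])
      obtain ⟨A'', hA''⟩ := dv_exists d2
      have f5 : A'.det = (p : ℤ) ^ 2 * A''.det := by
        rw [hA'', det_smul_int]
      have f6 : (p : ℤ) * ((p : ℤ) * A''.det) = (p : ℤ) * 1 := by
        rw [mul_one]; rw [f4] at f5; rw [← mul_assoc, ← sq, ← f5]
      have f7 := mul_left_cancel₀ (by linarith : (p : ℤ) ≠ 0) f6
      exact hpp.not_dvd_one ⟨_, f7.symm⟩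
    rcases lN' with a1 | a1 <;> rcases lN₀' with a2 | a2
    · exact of_scaledS hN (by rw [a1, a2]) (V := A') (by rw [hA', a1])
    · exact absurd (Or.inl ⟨a1, a2⟩) hodd
    · exact absurd (Or.inr ⟨a1, a2⟩) hodd
    · have f4 : A'.det = (p : ℤ) ^ 2 := by
        have : (p : ℤ) ^ 2 * A'.det = (p : ℤ) ^ 2 * (p : ℤ) ^ 2 := by
          rw [← f3, a1, a2]
        exact mul_left_cancel₀ (by positivity) this
      have d2 : Dv p A' := hip _ f1 f2 (by rw [f4]; exact dvd_pow_self _ two_ne_zero)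
      obtain ⟨A'', hA''⟩ := dv_exists d2
      exact of_scaledS hN (by rw [a1, a2]) (V := A'') (by
        rw [hA', hA'', smul_smul, a1, sq])

/-- the bound for the determinants -/
noncomputable def DD (R : Finset Mat) : ℕ := (∑ M ∈ R, M.det.natAbs) ^ 2

theorem countS {S : Mat → Prop} (hS : Scaling S) (R : Finset Mat)
    (hR : ∀ M ∈ R, HN M ∧ Prim M ∧ ∃ p : ℕ, p.Prime ∧ InertS S p ∧ Lev p M)
    {K E : Set ℍ} (hK : IsCompact K) (hEK : E ⊆ K)
    (hE : ∀ A : Mat, 0 < A.det → A.det ≤ DD R → (∃ x ∈ E, GM A • x ∈ E) → S A) (w : ℍ) :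
    ∑ M ∈ R, ∑' γ : SL(2, ℤ),
      ({x : ℍ | GM M.adjugate • x ∈ E}).indicator (fun _ => (1 : ℝ≥0∞)) (γ • w) ≤
        (Nat.card {γ : SL(2, ℤ) // ∃ x ∈ K, γ • x ∈ K} : ℝ≥0∞) := by
  classical
  have hdet : ∀ M ∈ R, M.det ≤ ((∑ M ∈ R, M.det.natAbs : ℕ) : ℤ) := by
    intro M hM
    have h1 : M.det.natAbs ≤ ∑ M ∈ R, M.det.natAbs :=
      Finset.single_le_sum (f := fun M : Mat => M.det.natAbs) (fun _ _ => Nat.zero_le _) hM
    have h2 := (hR M hM).1.det_pos
    have h3 : ((M.det.natAbs : ℕ) : ℤ) = M.det := Int.natAbs_of_nonneg h2.le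
    rw [← h3]
    exact_mod_cast h1
  have hfin := finite_return hK
  set P : Set (R × SL(2, ℤ)) :=
    {x | GM x.1.1.adjugate • (x.2 • w) ∈ E} with hP
  have hsum : ∑ M ∈ R, ∑' γ : SL(2, ℤ),
      ({x : ℍ | GM M.adjugate • x ∈ E}).indicator (fun _ => (1 : ℝ≥0∞)) (γ • w) =
      ∑' _ : P, (1 : ℝ≥0∞) := by
    rw [← Finset.sum_coe_sort R, ← tsum_fintype (L := SummationFilter.unconditional _),
      ← ENNReal.tsum_prod, tsum_subtype P (fun _ => (1 : ℝ≥0∞))]
    rfl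
  rw [hsum]
  rcases P.eq_empty_or_nonempty with hemp | ⟨⟨⟨M₀, hM₀⟩, γ₀⟩, hx₀⟩
  · rw [hemp]; simp
  have hcard : (Nat.card {γ : SL(2, ℤ) // ∃ x ∈ K, γ • x ∈ K} : ℝ≥0∞) =
      ∑' _ : {γ : SL(2, ℤ) // ∃ x ∈ K, γ • x ∈ K}, (1 : ℝ≥0∞) := by
    have : Fintype {γ : SL(2, ℤ) // ∃ x ∈ K, γ • x ∈ K} := Fintype.ofFinite _
    rw [tsum_fintype, Finset.sum_const, Finset.card_univ, Nat.card_eq_fintype_card]
    simp
  rw [hcard]
  have hmap : ∀ x : P, ∃ v : {γ : SL(2, ℤ) // ∃ x ∈ K, γ • x ∈ K},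
      γ₀.1.adjugate * M₀ = x.1.2.1.adjugate * x.1.1.1 * v.1.1 := by
    rintro ⟨⟨⟨M, hM⟩, γ⟩, hx⟩
    obtain ⟨hn, pr, p, hp, hip, lev⟩ := hR M hM
    obtain ⟨hn₀, pr₀, q, hq, hiq, lev₀⟩ := hR M₀ hM₀
    have hMd := hn.det_pos
    have hMd₀ := hn₀.det_pos
    have dg : ∀ g : SL(2, ℤ), g.1.adjugate.det = 1 := by
      intro g
      rw [Matrix.det_adjugate, g.2]; simp
    set N : Mat := γ.1.adjugate * M with hN
    set N₀ : Mat := γ₀.1.adjugate * M₀ with hN₀
    have dN : N.det = M.det := by rw [hN, Matrix.det_mul, dg, one_mul]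
    have dN₀ : N₀.det = M₀.det := by rw [hN₀, Matrix.det_mul, dg, one_mul]
    have primN : ∀ (g : SL(2, ℤ)) (B : Mat), Prim B → Prim (g.1.adjugate * B) := by
      intro g B hB r hr hdv
      apply hB r hr
      have : B = g.1 * (g.1.adjugate * B) := by
        rw [← Matrix.mul_assoc, Matrix.mul_adjugate, g.2, one_smul, Matrix.one_mul]
      rw [this]
      exact dv_mul_left _ hdv
    have adjN : N.adjugate = M.adjugate * γ.1 := by
      rw [hN, Matrix.adjugate_mul_distrib, adj_adj]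
    have adjN₀ : N₀.adjugate = M₀.adjugate * γ₀.1 := by
      rw [hN₀, Matrix.adjugate_mul_distrib, adj_adj]
    have dadj : ∀ {B : Mat}, 0 < B.det → 0 < B.adjugate.det := by
      intro B hB
      rw [Matrix.det_adjugate]; simpa using hB
    have act : ∀ (g : SL(2, ℤ)) (B : Mat), 0 < B.det →
        GM (B.adjugate * g.1) • w = GM B.adjugate • (g • w) := by
      intro g B hB
      rw [GM_mul (dadj hB).ne' (by rw [g.2]; norm_num), mul_smul, ← sl_smul]
    have hx' : GM N.adjugate • w ∈ E := by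
      rw [adjN, act γ M hMd]; exact hx
    have hx₀' : GM N₀.adjugate • w ∈ E := by
      rw [adjN₀, act γ₀ M₀ hMd₀]; exact hx₀
    have hNd : 0 < N.det := by rw [dN]; exact hMd
    have hNd₀ : 0 < N₀.det := by rw [dN₀]; exact hMd₀
    have hA : 0 < (N.adjugate * N₀).det := by
      rw [Matrix.det_mul]; exact mul_pos (dadj hNd) hNd₀
    have hAD : (N.adjugate * N₀).det ≤ DD R := by
      rw [Matrix.det_mul, Matrix.det_adjugate, dN, dN₀, DD]
      simp only [Fintype.card_fin, Nat.add_one_sub_one, pow_one]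
      push_cast
      rw [sq]
      have := hdet M hM
      have := hdet M₀ hM₀
      push_cast at *
      exact mul_le_mul (by assumption) (by assumption) hMd₀.le (by positivity)
    have hfix : S (N.adjugate * N₀) := by
      apply hE _ hA hAD
      refine ⟨GM N₀.adjugate • w, hx₀', ?_⟩
      rw [GM_mul (dadj hNd).ne' hNd₀.ne', mul_smul, smul_adj hNd₀]
      exact hx'
    obtain ⟨v, hv2⟩ := quotS hS hp hip hq hiq hNd hNd₀ (primN γ M pr) (primN γ₀ M₀ pr₀)
      (by unfold Lev at lev ⊢; rw [dN]; exact lev) (by unfold Lev at lev₀ ⊢; rw [dN₀]; exact lev₀)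
      hfix
    refine ⟨⟨v, GM N₀.adjugate • w, hEK hx₀', ?_⟩, hv2⟩
    have hv3 : v • (GM N₀.adjugate • w) = GM N.adjugate • w := by
      have e1 : v.1 * N₀.adjugate = N.adjugate := by
        rw [hv2, Matrix.adjugate_mul_distrib, ← Matrix.mul_assoc, Matrix.mul_adjugate, v.2,
          one_smul, Matrix.one_mul]
      rw [sl_smul, ← mul_smul, ← GM_mul (by rw [v.2]; norm_num) (dadj hNd₀).ne', e1]
    rw [hv3]
    exact hEK hx'
  choose F hF using hmap
  have hinj : Function.Injective F := by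
    intro x y hxy
    obtain ⟨⟨⟨M, hM⟩, γ⟩, hx⟩ := x
    obtain ⟨⟨⟨M', hM'⟩, γ'⟩, hy⟩ := y
    have h1 := hF ⟨⟨⟨M, hM⟩, γ⟩, hx⟩
    have h2 := hF ⟨⟨⟨M', hM'⟩, γ'⟩, hy⟩
    rw [hxy] at h1
    rw [h1] at h2
    simp only at h2
    set v := F ⟨⟨⟨M', hM'⟩, γ'⟩, hy⟩
    have h3 : γ.1.adjugate * M = γ'.1.adjugate * M' := by
      have h4 := congrArg (fun B : Mat => B * v.1.1.adjugate) h2
      simp only [Matrix.mul_assoc, Matrix.mul_adjugate, v.1.2, one_smul, Matrix.mul_one] at h4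
      exact h4
    have h5 : (γ' * γ⁻¹).1 * M = M' := by
      rw [Matrix.SpecialLinearGroup.coe_mul, Matrix.SpecialLinearGroup.coe_inv, Matrix.mul_assoc,
        h3, ← Matrix.mul_assoc, Matrix.mul_adjugate, γ'.2, one_smul, Matrix.one_mul]
    obtain ⟨h6, h7⟩ := hn_unique (hR M hM).1 (hR M' hM').1 _ h5
    have h8 : γ' = γ := by rw [mul_inv_eq_one] at h7; exact h7
    subst h6
    subst h8
    rfl
  exact ENNReal.tsum_comp_le_tsum_of_injective hinj (fun _ => (1 : ℝ≥0∞))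

lemma RR_factsS {S : Mat → Prop} {P : Finset ℕ} (hP : ∀ p ∈ P, p.Prime ∧ InertS S p)
    (hex : ∃ p : ℕ, p.Prime ∧ InertS S p) {M : Mat} (h : M ∈ RR P) :
    HN M ∧ Prim M ∧ ∃ p : ℕ, p.Prime ∧ InertS S p ∧ Lev p M := by
  classical
  unfold RR at h
  rcases Finset.mem_insert.1 h with h | h
  · subst h
    obtain ⟨p, hp, hi⟩ := hex
    refine ⟨⟨by simp, by simp, by simp, by simp⟩, ?_, p, hp, hi, Or.inl (by simp)⟩
    intro r hr hd
    have h1 : (r : ℤ) ∣ 1 := by simpa using hd 0 0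
    exact (Nat.prime_iff_prime_int.1 hr).not_dvd_one h1
  · obtain ⟨p, hp, h1⟩ := Finset.mem_biUnion.1 h
    obtain ⟨hp1, hp2⟩ := hP p hp
    rcases Finset.mem_union.1 h1 with h2 | h2
    · obtain ⟨a, b, c⟩ := S1_facts hp1 h2
      exact ⟨a, b, p, hp1, hp2, Or.inr (Or.inl c)⟩
    · obtain ⟨a, b, c⟩ := S2_facts hp1 h2
      exact ⟨a, b, p, hp1, hp2, Or.inr (Or.inr c)⟩

/-- **Main inequality, general form.** -/
theorem main_ineqS {S : Mat → Prop} (hS : Scaling S) (P : Finset ℕ)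
    (hP : ∀ p ∈ P, p.Prime ∧ InertS S p) (hex : ∃ p : ℕ, p.Prime ∧ InertS S p)
    {K E : Set ℍ} (hK : IsCompact K) (hEK : E ⊆ K) (hEm : MeasurableSet E)
    (hE : ∀ A : Mat, 0 < A.det → A.det ≤ DD (RR P) → (∃ x ∈ E, GM A • x ∈ E) → S A)
    {f : ℍ → ℂ} {l : ℕ → ℂ} (H : HeckeForm f l) {q : ℝ} (hq : 1 ≤ q) :
    2 * (ENNReal.ofReal (1 + ∑ p ∈ P, (wt₁ q p (l p) + wt₂ q p (l p))) *
        ∫⁻ z in E, ‖f z‖ₑ ^ q) ≤
      (Nat.card {γ : SL(2, ℤ) // ∃ x ∈ K, γ • x ∈ K} : ℝ≥0∞) * ∫⁻ z in 𝒟, ‖f z‖ₑ ^ q := by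
  classical
  have hcount := countS hS (RR P) (fun M hM => RR_factsS hP hex hM) hK hEK hE
  have hPp : ∀ p ∈ P, p.Prime := fun p hp => (hP p hp).1
  set h : ℍ → ℝ≥0∞ := fun z => ‖f z‖ₑ ^ q with hh
  have hmeas : Measurable h := H.measurable.enorm.pow_const q
  have hinv : ∀ (γ : SL(2, ℤ)) (z : ℍ), h (γ • z) = h z := by
    intro γ z; simp only [hh, H.invariant]
  have hreal : ∀ z, h z = ENNReal.ofReal (‖f z‖ ^ q) := by
    intro z
    change ‖f z‖ₑ ^ q = _
    rw [← ofReal_norm, ENNReal.ofReal_rpow_of_nonneg (norm_nonneg _) (by linarith)]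
  have hpt : ∀ z : ℍ, ENNReal.ofReal (1 + ∑ p ∈ P, (wt₁ q p (l p) + wt₂ q p (l p))) * h z ≤
      ∑ M ∈ RR P, h (GM M • z) := by
    intro z
    rw [hreal z, ← ENNReal.ofReal_mul' (by positivity),
      Finset.sum_congr rfl (fun M _ => hreal (GM M • z)),
      ← ENNReal.ofReal_sum_of_nonneg (fun M _ => by positivity)]
    apply ENNReal.ofReal_le_ofReal
    rw [sum_RR hPp, add_mul, one_mul, GM_one, one_smul, Finset.sum_mul]
    apply add_le_add_right
    apply Finset.sum_le_sum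
    intro p hp
    rw [add_mul]
    exact add_le_add (pointwise₁ H (hPp p hp) q hq z) (pointwise₂ H (hPp p hp) q hq z)
  have hSm : ∀ M ∈ RR P, MeasurableSet {x : ℍ | GM M.adjugate • x ∈ E} := by
    intro M _
    exact (measurePreserving_smul (GM M.adjugate) (volume : Measure ℍ)).measurable hEm
  have hchange : ∀ M ∈ RR P, ∫⁻ z in E, h (GM M • z) =
      ∫⁻ z in {x : ℍ | GM M.adjugate • x ∈ E}, h z := by
    intro M hM
    have hd : 0 < M.det := (RR_factsS hP hex hM).1.det_pos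
    rw [← (measurePreserving_smul (GM M) (volume : Measure ℍ)).setLIntegral_comp_preimage
      (hSm M hM) hmeas]
    congr 2
    ext z
    simp only [Set.mem_preimage, Set.mem_ofPred_eq, adj_smul hd]
  have hstep : ENNReal.ofReal (1 + ∑ p ∈ P, (wt₁ q p (l p) + wt₂ q p (l p))) *
      ∫⁻ z in E, h z ≤
      ∑ M ∈ RR P, ∫⁻ z in {x : ℍ | GM M.adjugate • x ∈ E}, h z := by
    have hs : ∫⁻ z in E, ∑ M ∈ RR P, h (GM M • z) =
        ∑ M ∈ RR P, ∫⁻ z in E, h (GM M • z) := by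
      apply lintegral_finsetSum'
      intro M _
      exact (hmeas.comp
        (measurePreserving_smul (GM M) (volume : Measure ℍ)).measurable).aemeasurable
    rw [← lintegral_const_mul _ hmeas, ← Finset.sum_congr rfl hchange, ← hs]
    exact lintegral_mono hpt
  calc 2 * (ENNReal.ofReal (1 + ∑ p ∈ P, (wt₁ q p (l p) + wt₂ q p (l p))) *
        ∫⁻ z in E, h z)
      ≤ 2 * ∑ M ∈ RR P, ∫⁻ z in {x : ℍ | GM M.adjugate • x ∈ E}, h z :=
        mul_le_mul_right hstep 2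
    _ ≤ _ := unfold (RR P) _ hSm h hmeas hinv _ hcount

end Pool.Agent.Run7.h176.NC
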