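import Pool.Agent.Run7.h176.NC.Basic

/-!
# Hecke relations of level `p` and `p ^ 2` and the pointwise inequality
-/

set_option autoImplicit false

open UpperHalfPlane Matrix
open scoped MatrixGroups

namespace Pool.Agent.Run7.h176.NC

/-- `f` is invariant under the modular group and an eigenfunction of the Hecke operators `T_p`, with the
eigenvalues `l p` (in the normalisation of the Ramanujan conjecture `|l p| ≤ 2`). -/
structure HeckeForm (f : ℍ → ℂ) (l : ℕ → ℂ) : Prop where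
  measurable : Measurable f
  invariant : ∀ (γ : SL(2, ℤ)) (z : ℍ), f (γ • z) = f z
  hecke : ∀ p : ℕ, p.Prime → ∀ z : ℍ, f (ofComplex (p * z)) +
    ∑ b ∈ Finset.range p, f (ofComplex ((z + b) / p)) = (√(p : ℝ) : ℂ) * l p * f z

def V (p : ℕ) : Mat := !![(p : ℤ), 0; 0, 1]
def U (p b : ℕ) : Mat := !![1, (b : ℤ); 0, (p : ℤ)]
def VV (p : ℕ) : Mat := !![(p : ℤ) ^ 2, 0; 0, 1]
def UU (p j : ℕ) : Mat := !![1, (j : ℤ); 0, (p : ℤ) ^ 2]
def W (p c : ℕ) : Mat := !![(p : ℤ), (c : ℤ); 0, (p : ℤ)]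

lemma det_V (p : ℕ) : (V p).det = p := by simp [V, Matrix.det_fin_two]
lemma det_U (p b : ℕ) : (U p b).det = p := by simp [U, Matrix.det_fin_two]
lemma det_VV (p : ℕ) : (VV p).det = (p : ℤ) ^ 2 := by simp [VV, Matrix.det_fin_two]
lemma det_UU (p b : ℕ) : (UU p b).det = (p : ℤ) ^ 2 := by simp [UU, Matrix.det_fin_two]
lemma det_W (p b : ℕ) : (W p b).det = (p : ℤ) ^ 2 := by simp [W, Matrix.det_fin_two]; ring

noncomputable def S1 (p : ℕ) : Finset Mat := by
  classical exact insert (V p) ((Finset.range p).image (U p))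

noncomputable def S2 (p : ℕ) : Finset Mat := by
  classical exact insert (VV p) ((Finset.range (p * p)).image (UU p) ∪ (Finset.Ico 1 p).image (W p))

lemma sum_S1 {β : Type} [AddCommMonoid β] {p : ℕ} (hp : p.Prime) (φ : Mat → β) :
    ∑ M ∈ S1 p, φ M = φ (V p) + ∑ b ∈ Finset.range p, φ (U p b) := by
  classical
  unfold S1
  rw [Finset.sum_insert, Finset.sum_image]
  · intro a _ b _ h
    have := congrFun (congrFun h 0) 1
    simpa [U] using this
  · intro h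
    obtain ⟨b, _, hb⟩ := Finset.mem_image.1 h
    have := congrFun (congrFun hb 0) 0
    have h1 : (1 : ℤ) = p := by simpa [U, V] using this
    have h2 : p = 1 := by exact_mod_cast h1.symm
    exact hp.one_lt.ne' h2

lemma sum_S2 {β : Type} [AddCommMonoid β] {p : ℕ} (hp : p.Prime) (φ : Mat → β) :
    ∑ M ∈ S2 p, φ M = φ (VV p) + (∑ j ∈ Finset.range (p * p), φ (UU p j) +
      ∑ c ∈ Finset.Ico 1 p, φ (W p c)) := by
  classical
  have hp1 : (1 : ℤ) < p := by exact_mod_cast hp.one_lt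
  unfold S2
  rw [Finset.sum_insert, Finset.sum_union, Finset.sum_image, Finset.sum_image]
  · intro a _ b _ h
    have := congrFun (congrFun h 0) 1
    simpa [W] using this
  · intro a _ b _ h
    have := congrFun (congrFun h 0) 1
    simpa [UU] using this
  · rw [Finset.disjoint_left]
    intro M hM hM'
    obtain ⟨a, _, ha⟩ := Finset.mem_image.1 hM
    obtain ⟨b, _, hb⟩ := Finset.mem_image.1 hM'
    rw [← hb] at ha
    have := congrFun (congrFun ha 0) 0
    have h1 : (1 : ℤ) = p := by simpa [UU, W] using this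
    omega
  · intro h
    rcases Finset.mem_union.1 h with h | h
    · obtain ⟨b, _, hb⟩ := Finset.mem_image.1 h
      have := congrFun (congrFun hb 0) 0
      have h1 : (1 : ℤ) = (p : ℤ) ^ 2 := by simpa [UU, VV] using this
      nlinarith
    · obtain ⟨b, _, hb⟩ := Finset.mem_image.1 h
      have := congrFun (congrFun hb 0) 0
      have h1 : (p : ℤ) = (p : ℤ) ^ 2 := by simpa [W, VV] using this
      nlinarith

lemma eq_ofComplex (x : ℍ) (w : ℂ) (h : (x : ℂ) = w) : x = ofComplex w := by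
  rw [← h, ofComplex_apply]

lemma sum_mul_range {β : Type} [AddCommMonoid β] (F : ℕ → β) (p n : ℕ) :
    ∑ j ∈ Finset.range (p * n), F j = ∑ c ∈ Finset.range n, ∑ b ∈ Finset.range p, F (b + c * p) := by
  induction n with
  | zero => simp
  | succ n ih =>
    rw [Nat.mul_succ, Finset.sum_range_add, ih, Finset.sum_range_succ]
    congr 1
    apply Finset.sum_congr rfl
    intro b _
    congr 1
    ring

section

variable {f : ℍ → ℂ} {l : ℕ → ℂ} (H : HeckeForm f l)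

include H

lemma rel1 {p : ℕ} (hp : p.Prime) (z : ℍ) :
    f (GM (V p) • z) + ∑ b ∈ Finset.range p, f (GM (U p b) • z) = (√(p : ℝ) : ℂ) * l p * f z := by
  have hp0 : (0 : ℤ) < p := by exact_mod_cast hp.pos
  rw [← H.hecke p hp z]
  congr 1
  · congr 1
    apply eq_ofComplex
    rw [coe_GM (by rw [det_V]; exact hp0)]
    simp [V]
  · apply Finset.sum_congr rfl
    intro b _
    congr 1
    apply eq_ofComplex
    rw [coe_GM (by rw [det_U]; exact hp0)]
    simp [U]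

lemma rel2 {p : ℕ} (hp : p.Prime) (z : ℍ) :
    f (GM (VV p) • z) + (∑ j ∈ Finset.range (p * p), f (GM (UU p j) • z) +
      ∑ c ∈ Finset.Ico 1 p, f (GM (W p c) • z)) = (p * (l p) ^ 2 - (p + 1)) * f z := by
  have hp0 : (0 : ℤ) < p := by exact_mod_cast hp.pos
  have hpC : (p : ℂ) ≠ 0 := by exact_mod_cast hp.pos.ne'
  have hsq : (√(p : ℝ) : ℂ) * (√(p : ℝ) : ℂ) = p := by
    rw [← Complex.ofReal_mul, Real.mul_self_sqrt (Nat.cast_nonneg p)]; simp
  have dV : 0 < (V p).det := by rw [det_V]; exact hp0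
  have dU : ∀ b, 0 < (U p b).det := fun b => by rw [det_U]; exact hp0
  -- applied at V z
  have e1 := rel1 H hp (GM (V p) • z)
  have e2 : ∀ b, f (GM (V p) • (GM (U p b) • z)) +
      ∑ c ∈ Finset.range p, f (GM (U p c) • (GM (U p b) • z)) =
      (√(p : ℝ) : ℂ) * l p * f (GM (U p b) • z) := fun b => rel1 H hp (GM (U p b) • z)
  have m1 : GM (V p) • (GM (V p) • z) = GM (VV p) • z := by
    rw [smul_smul, ← GM_mul dV.ne' dV.ne']
    congr 2
    ext i j; fin_cases i <;> fin_cases j <;> simp [V, VV, Matrix.mul_apply, Fin.sum_univ_two, sq]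
  have m2 : ∀ c, GM (U p c) • (GM (V p) • z) = GM (W p c) • z := by
    intro c
    rw [smul_smul, ← GM_mul (dU c).ne' dV.ne']
    congr 2
    ext i j; fin_cases i <;> fin_cases j <;> simp [V, U, W, Matrix.mul_apply, Fin.sum_univ_two]
  have m3 : ∀ b, f (GM (V p) • (GM (U p b) • z)) = f z := by
    intro b
    have h1 : GM (V p) • (GM (U p b) • z) = (ModularGroup.T ^ (b : ℤ)) • z := by
      rw [sl_smul]
      apply UpperHalfPlane.ext
      rw [coe_GM dV, coe_GM (dU b), coe_GM (by rw [(ModularGroup.T ^ (b : ℤ)).2]; norm_num)]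
      rw [ModularGroup.coe_T_zpow]
      simp [V, U]
      field_simp
    rw [h1, H.invariant]
  have m4 : ∀ b c, GM (U p c) • (GM (U p b) • z) = GM (UU p (b + c * p)) • z := by
    intro b c
    rw [smul_smul, ← GM_mul (dU c).ne' (dU b).ne']
    congr 2
    ext i j; fin_cases i <;> fin_cases j <;>
      simp [U, UU, Matrix.mul_apply, Fin.sum_univ_two, sq]
  have m5 : f (GM (W p 0) • z) = f z := by
    have h1 : GM (W p 0) • z = z := by
      rw [fix_iff (by rw [det_W]; positivity)]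
      simp [W]
    rw [h1]
  rw [m1, Finset.sum_congr rfl (fun c _ => by rw [m2 c])] at e1
  have e3 : ∀ b, f z + ∑ c ∈ Finset.range p, f (GM (UU p (b + c * p)) • z) =
      (√(p : ℝ) : ℂ) * l p * f (GM (U p b) • z) := by
    intro b
    rw [← e2 b, m3 b]
    congr 1
    exact Finset.sum_congr rfl (fun c _ => by rw [m4 b c])
  have e4 : (∑ b ∈ Finset.range p, (f z + ∑ c ∈ Finset.range p, f (GM (UU p (b + c * p)) • z))) =
      (√(p : ℝ) : ℂ) * l p * ∑ b ∈ Finset.range p, f (GM (U p b) • z) := by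
    rw [Finset.mul_sum]
    exact Finset.sum_congr rfl (fun b _ => e3 b)
  rw [Finset.sum_add_distrib, Finset.sum_const, Finset.card_range, Finset.sum_comm,
    ← sum_mul_range (fun j => f (GM (UU p j) • z))] at e4
  have e5 : ∑ c ∈ Finset.range p, f (GM (W p c) • z) =
      f z + ∑ c ∈ Finset.Ico 1 p, f (GM (W p c) • z) := by
    rw [Finset.range_eq_Ico, Finset.sum_eq_sum_Ico_succ_bot hp.pos, m5]
  rw [e5] at e1
  have e6 := rel1 H hp z
  rw [nsmul_eq_mul] at e4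
  linear_combination e1 + e4 + (√(p : ℝ) : ℂ) * l p * e6 + (l p) ^ 2 * f z * hsq

end

/-- the weights -/
noncomputable def wt₁ (q : ℝ) (p : ℕ) (x : ℂ) : ℝ := (√(p : ℝ) * ‖x‖) ^ q / ((p : ℝ) + 1) ^ (q - 1)

noncomputable def wt₂ (q : ℝ) (p : ℕ) (x : ℂ) : ℝ :=
  ‖(p : ℂ) * x ^ 2 - (p + 1)‖ ^ q / ((p : ℝ) ^ 2 + p) ^ (q - 1)

lemma holder_aux {S : Finset Mat} {a : Mat → ℂ} {x : ℝ} {n : ℝ} (q : ℝ) (hq : 1 ≤ q)
    (hn : 0 < n) (hcard : (S.card : ℝ) = n) (y : ℝ) (hx : 0 ≤ x) (hy : 0 ≤ y)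
    (h : x * y = ‖∑ M ∈ S, a M‖) :
    x ^ q / n ^ (q - 1) * y ^ q ≤ ∑ M ∈ S, ‖a M‖ ^ q := by
  have h1 : x * y ≤ ∑ M ∈ S, ‖a M‖ := by rw [h]; exact norm_sum_le _ _
  have h2 : (x * y) ^ q ≤ (∑ M ∈ S, ‖a M‖) ^ q :=
    Real.rpow_le_rpow (mul_nonneg hx hy) h1 (by linarith)
  have h3 := Real.rpow_sum_le_const_mul_sum_rpow_of_nonneg (s := S) (f := fun M => ‖a M‖) hq
    (fun M _ => norm_nonneg _)
  rw [hcard] at h3
  rw [Real.mul_rpow hx hy] at h2
  have hn1 : 0 < n ^ (q - 1) := Real.rpow_pos_of_pos hn _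
  rw [div_mul_eq_mul_div, div_le_iff₀ hn1, mul_comm (∑ M ∈ S, ‖a M‖ ^ q)]
  exact h2.trans h3

lemma card_S1 {p : ℕ} (hp : p.Prime) : ((S1 p).card : ℝ) = p + 1 := by
  have h := sum_S1 hp (fun _ => (1 : ℝ))
  rw [Finset.sum_const, Finset.sum_const, Finset.card_range] at h
  simp only [nsmul_eq_mul, mul_one] at h
  linarith

lemma card_S2 {p : ℕ} (hp : p.Prime) : ((S2 p).card : ℝ) = (p : ℝ) ^ 2 + p := by
  have h := sum_S2 hp (fun _ => (1 : ℝ))
  rw [Finset.sum_const, Finset.sum_const, Finset.sum_const, Finset.card_range, Nat.card_Ico] at h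
  simp only [nsmul_eq_mul, mul_one] at h
  rw [Nat.cast_sub hp.one_le] at h
  push_cast at h
  rw [h]; ring

theorem pointwise₁ {f : ℍ → ℂ} {l : ℕ → ℂ} (H : HeckeForm f l) {p : ℕ} (hp : p.Prime) (q : ℝ)
    (hq : 1 ≤ q) (z : ℍ) :
    wt₁ q p (l p) * ‖f z‖ ^ q ≤ ∑ M ∈ S1 p, ‖f (GM M • z)‖ ^ q := by
  have h1 := rel1 H hp z
  rw [← sum_S1 hp (fun M => f (GM M • z))] at h1
  refine holder_aux q hq (by positivity) (card_S1 hp) ‖f z‖ (by positivity) (norm_nonneg _) ?_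
  rw [h1, norm_mul, norm_mul, Complex.norm_real, Real.norm_of_nonneg (Real.sqrt_nonneg _)]

theorem pointwise₂ {f : ℍ → ℂ} {l : ℕ → ℂ} (H : HeckeForm f l) {p : ℕ} (hp : p.Prime) (q : ℝ)
    (hq : 1 ≤ q) (z : ℍ) :
    wt₂ q p (l p) * ‖f z‖ ^ q ≤ ∑ M ∈ S2 p, ‖f (GM M • z)‖ ^ q := by
  have h1 := rel2 H hp z
  rw [← sum_S2 hp (fun M => f (GM M • z))] at h1
  have hp0 : (0 : ℝ) < p := by exact_mod_cast hp.pos
  refine holder_aux q hq (by positivity) (card_S2 hp) ‖f z‖ (norm_nonneg _) (norm_nonneg _) ?_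
  rw [h1, norm_mul]

lemma key_min {x a q : ℝ} (hx : 0 < x) (ha : 0 < a) (hq : 1 ≤ q) (hq3 : q ≤ 3) :
    min x (x ^ 3 / a ^ 2) ≤ x ^ q / a ^ (q - 1) := by
  have h1 : x ^ q / a ^ (q - 1) = x * (x / a) ^ (q - 1) := by
    rw [Real.div_rpow hx.le ha.le, ← mul_div_assoc]
    congr 1
    nth_rewrite 2 [← Real.rpow_one x]
    rw [← Real.rpow_add hx]
    congr 1; ring
  rw [h1]
  have hxa : 0 < x / a := by positivity
  rcases le_or_gt 1 (x / a) with h | h
  · refine (min_le_left _ _).trans ?_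
    have := Real.one_le_rpow h (by linarith : 0 ≤ q - 1)
    nlinarith
  · refine (min_le_right _ _).trans ?_
    have h2 : (x / a) ^ (2 : ℝ) ≤ (x / a) ^ (q - 1) :=
      Real.rpow_le_rpow_of_exponent_ge hxa h.le (by linarith)
    have h3 : x ^ 3 / a ^ 2 = x * (x / a) ^ (2 : ℝ) := by
      rw [show (2 : ℝ) = ((2 : ℕ) : ℝ) by norm_num, Real.rpow_natCast]
      field_simp
    rw [h3]
    exact mul_le_mul_of_nonneg_left h2 hx.le

/-- for `q ≤ 3` the weights are at least `1 / (18 p)` -/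
theorem weight_ge {p : ℕ} (hp : p.Prime) (x : ℂ) {q : ℝ} (hq : 1 ≤ q) (hq3 : q ≤ 3) :
    1 / (18 * (p : ℝ)) ≤ wt₁ q p x + wt₂ q p x := by
  have hp2 : (2 : ℝ) ≤ p := by exact_mod_cast hp.two_le
  have hw1 : 0 ≤ wt₁ q p x := by unfold wt₁; positivity
  have hw2 : 0 ≤ wt₂ q p x := by unfold wt₂; positivity
  by_cases hx : 1 / 2 ≤ ‖x‖ ^ 2
  · have h1 : (p : ℝ) / 2 ≤ (√(p : ℝ) * ‖x‖) ^ 2 := by
      rw [mul_pow, Real.sq_sqrt (by linarith)]; nlinarith
    set X := √(p : ℝ) * ‖x‖ with hX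
    have hX0 : 0 ≤ X := by positivity
    have hX1 : 1 ≤ X := by nlinarith
    have h2 := key_min (x := X) (a := (p : ℝ) + 1) (by linarith) (by linarith) hq hq3
    have h3 : 1 / (18 * (p : ℝ)) ≤ min X (X ^ 3 / ((p : ℝ) + 1) ^ 2) := by
      apply le_min
      · rw [div_le_iff₀ (by linarith)]; nlinarith
      · rw [div_le_div_iff₀ (by linarith) (by positivity)]
        have h4 : (p : ℝ) / 2 ≤ X ^ 3 := by nlinarith [pow_pos (by linarith : 0 < X) 2]
        nlinarith [pow_pos (by linarith : 0 < X) 3]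
    unfold wt₁ at hw1 ⊢
    rw [← hX]
    linarith
  · push Not at hx
    set Y := ‖(p : ℂ) * x ^ 2 - (p + 1)‖ with hY
    have hY1 : (p : ℝ) / 2 + 1 ≤ Y := by
      have h1 : ‖((p : ℂ) + 1)‖ - ‖(p : ℂ) * x ^ 2‖ ≤ Y := by
        rw [hY, norm_sub_rev]
        exact norm_sub_norm_le _ _
      have h2 : ‖((p : ℂ) + 1)‖ = p + 1 := by
        have : ((p : ℂ) + 1) = ((p + 1 : ℝ) : ℂ) := by push_cast; rfl
        rw [this, Complex.norm_real, Real.norm_of_nonneg (by linarith)]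
      have h3 : ‖(p : ℂ) * x ^ 2‖ = p * ‖x‖ ^ 2 := by
        rw [norm_mul, norm_pow, Complex.norm_natCast]
      rw [h2, h3] at h1
      nlinarith
    have h2 := key_min (x := Y) (a := (p : ℝ) ^ 2 + p) (by linarith) (by positivity) hq hq3
    have h3 : 1 / (18 * (p : ℝ)) ≤ min Y (Y ^ 3 / ((p : ℝ) ^ 2 + p) ^ 2) := by
      apply le_min
      · rw [div_le_iff₀ (by linarith)]; nlinarith
      · rw [div_le_div_iff₀ (by linarith) (by positivity)]
        have h4 : ((p : ℝ) / 2) ^ 3 ≤ Y ^ 3 :=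
          pow_le_pow_left₀ (by linarith) (by linarith) 3
        have h5 : ((p : ℝ) ^ 2 + p) ^ 2 ≤ (9 / 4) * p ^ 4 := by
          have : (p : ℝ) ^ 2 + p ≤ (3 / 2) * p ^ 2 := by nlinarith
          calc ((p : ℝ) ^ 2 + p) ^ 2 ≤ ((3 / 2) * p ^ 2) ^ 2 :=
                pow_le_pow_left₀ (by positivity) this 2
            _ = (9 / 4) * p ^ 4 := by ring
        have h6 : Y ^ 3 * (18 * (p : ℝ)) ≥ ((p : ℝ) / 2) ^ 3 * (18 * p) :=
          mul_le_mul_of_nonneg_right h4 (by linarith)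
        have h7 : ((p : ℝ) / 2) ^ 3 * (18 * p) = (9 / 4) * p ^ 4 := by ring
        linarith
    unfold wt₂ at hw2 ⊢
    rw [← hY]
    linarith

/-- the fourth moment: the weight is at least `(8 / 27) ‖x‖ ^ 4 / p` -/
theorem weight_four {p : ℕ} (hp : p.Prime) (x : ℂ) :
    (8 / 27) * (‖x‖ ^ 4 / p) ≤ wt₁ 4 p x + wt₂ 4 p x := by
  have hp2 : (2 : ℝ) ≤ p := by exact_mod_cast hp.two_le
  have hw2 : 0 ≤ wt₂ 4 p x := by unfold wt₂; positivity
  have h1 : wt₁ 4 p x = p ^ 2 * ‖x‖ ^ 4 / ((p : ℝ) + 1) ^ 3 := by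
    unfold wt₁
    rw [show (4 : ℝ) = ((4 : ℕ) : ℝ) by norm_num, Real.rpow_natCast,
      show ((4 : ℕ) : ℝ) - 1 = ((3 : ℕ) : ℝ) by norm_num, Real.rpow_natCast, mul_pow,
      show √(p : ℝ) ^ 4 = (√(p : ℝ) ^ 2) ^ 2 by ring, Real.sq_sqrt (by linarith)]
  rw [h1]
  have h2 : (8 / 27) * (‖x‖ ^ 4 / p) ≤ p ^ 2 * ‖x‖ ^ 4 / ((p : ℝ) + 1) ^ 3 := by
    rw [← mul_div_assoc, div_le_div_iff₀ (by linarith) (by positivity)]
    have h3 : ((p : ℝ) + 1) ^ 3 ≤ (27 / 8) * p ^ 3 := by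
      calc ((p : ℝ) + 1) ^ 3 ≤ ((3 / 2) * p) ^ 3 := pow_le_pow_left₀ (by linarith) (by linarith) 3
        _ = (27 / 8) * p ^ 3 := by ring
    have h4 : 0 ≤ ‖x‖ ^ 4 := by positivity
    nlinarith [mul_le_mul_of_nonneg_left h3 h4]
  linarith

end Pool.Agent.Run7.h176.NC
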