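import Pool.Agent.Run7.h176.NC.Count
import Pool.Agent.Run7.h176.NC.Hecke
import Pool.Agent.H98R3.OM.A1

/-!
# The moments of Hecke eigenfunctions do not concentrate at points
-/

set_option autoImplicit false

open UpperHalfPlane Matrix MeasureTheory
open scoped MatrixGroups ENNReal Modular

namespace Pool.Agent.Run7.h176.NC

lemma S1_facts {p : ℕ} (hp : p.Prime) {M : Mat} (h : M ∈ S1 p) :
    HN M ∧ Prim M ∧ M.det = p := by
  classical
  have hp0 : (0 : ℤ) < p := by exact_mod_cast hp.pos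
  unfold S1 at h
  rcases Finset.mem_insert.1 h with h | h
  · subst h
    refine ⟨⟨by simp [V], by simp [V]; exact_mod_cast hp.pos, by simp [V], by simp [V]⟩, ?_, det_V p⟩
    intro r hr hd
    have := hd 1 1
    have h1 : (r : ℤ) ∣ 1 := by simpa [V] using this
    exact (Nat.prime_iff_prime_int.1 hr).not_dvd_one h1
  · obtain ⟨b, hb, rfl⟩ := Finset.mem_image.1 h
    have hb' : b < p := Finset.mem_range.1 hb
    refine ⟨⟨by simp [U], by simp [U], by simp [U], by simp [U]; exact_mod_cast hb'⟩, ?_, det_U p b⟩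
    intro r hr hd
    have := hd 0 0
    have h1 : (r : ℤ) ∣ 1 := by simpa [U] using this
    exact (Nat.prime_iff_prime_int.1 hr).not_dvd_one h1

lemma S2_facts {p : ℕ} (hp : p.Prime) {M : Mat} (h : M ∈ S2 p) :
    HN M ∧ Prim M ∧ M.det = (p : ℤ) ^ 2 := by
  classical
  have hp0 : (0 : ℤ) < p := by exact_mod_cast hp.pos
  unfold S2 at h
  rcases Finset.mem_insert.1 h with h | h
  · subst h
    refine ⟨⟨by simp [VV], by simp [VV]; positivity, by simp [VV], by simp [VV]⟩, ?_, det_VV p⟩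
    intro r hr hd
    have := hd 1 1
    have h1 : (r : ℤ) ∣ 1 := by simpa [VV] using this
    exact (Nat.prime_iff_prime_int.1 hr).not_dvd_one h1
  rcases Finset.mem_union.1 h with h | h
  · obtain ⟨b, hb, rfl⟩ := Finset.mem_image.1 h
    have hb' : b < p * p := Finset.mem_range.1 hb
    have hb2 : (b : ℤ) < (p : ℤ) ^ 2 := by rw [sq]; exact_mod_cast hb'
    refine ⟨⟨by simp [UU], by simp [UU], by simp [UU], by simpa [UU] using hb2⟩, ?_, det_UU p b⟩
    intro r hr hd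
    have := hd 0 0
    have h1 : (r : ℤ) ∣ 1 := by simpa [UU] using this
    exact (Nat.prime_iff_prime_int.1 hr).not_dvd_one h1
  · obtain ⟨c, hc, rfl⟩ := Finset.mem_image.1 h
    obtain ⟨hc1, hc2⟩ := Finset.mem_Ico.1 hc
    refine ⟨⟨by simp [W], by simp [W]; exact_mod_cast hp.pos, by simp [W],
      by simp [W]; exact_mod_cast hc2⟩, ?_, det_W p c⟩
    intro r hr hd
    have h1 : (r : ℤ) ∣ p := by simpa [W] using hd 0 0
    have h2 : (r : ℤ) ∣ c := by simpa [W] using hd 0 1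
    have h3 : r ∣ p := by exact_mod_cast h1
    have h4 : r ∣ c := by exact_mod_cast h2
    have h5 : r = p := (Nat.prime_dvd_prime_iff_eq hr hp).1 h3
    rw [h5] at h4
    exact absurd (Nat.le_of_dvd hc1 h4) (by omega)

/-- all Hecke translations of the levels `1`, `p`, `p ^ 2` -/
noncomputable def RR (P : Finset ℕ) : Finset Mat := by
  classical exact insert 1 (P.biUnion (fun p => S1 p ∪ S2 p))

lemma disj12 {p : ℕ} (hp : p.Prime) : Disjoint (S1 p) (S2 p) := by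
  rw [Finset.disjoint_left]
  intro M h1 h2
  have e1 := (S1_facts hp h1).2.2
  have e2 := (S2_facts hp h2).2.2
  have hp1 : (1 : ℤ) < p := by exact_mod_cast hp.one_lt
  rw [e1] at e2
  nlinarith

lemma mem_dvd {p r : ℕ} (hp : p.Prime) (hr : r.Prime) {M : Mat} (h : M ∈ S1 p ∪ S2 p)
    (h' : (r : ℤ) ∣ M.det) : r = p := by
  classical
  have hrr : Prime (r : ℤ) := Nat.prime_iff_prime_int.1 hr
  have h1 : (r : ℤ) ∣ p := by
    rcases Finset.mem_union.1 h with h | h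
    · rwa [(S1_facts hp h).2.2] at h'
    · rw [(S2_facts hp h).2.2] at h'
      exact hrr.dvd_of_dvd_pow h'
  have h2 : r ∣ p := by exact_mod_cast h1
  exact (Nat.prime_dvd_prime_iff_eq hr hp).1 h2

lemma dvd_mem {p : ℕ} (hp : p.Prime) {M : Mat} (h : M ∈ S1 p ∪ S2 p) : (p : ℤ) ∣ M.det := by
  classical
  rcases Finset.mem_union.1 h with h | h
  · rw [(S1_facts hp h).2.2]
  · rw [(S2_facts hp h).2.2]; exact dvd_pow_self _ two_ne_zero

lemma sum_RR {β : Type} [AddCommMonoid β] {P : Finset ℕ} (hP : ∀ p ∈ P, p.Prime) (φ : Mat → β) :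
    ∑ M ∈ RR P, φ M = φ 1 + ∑ p ∈ P, (∑ M ∈ S1 p, φ M + ∑ M ∈ S2 p, φ M) := by
  classical
  unfold RR
  rw [Finset.sum_insert, Finset.sum_biUnion]
  · congr 1
    exact Finset.sum_congr rfl fun p hp => Finset.sum_union (disj12 (hP p hp))
  · intro p hp r hr hpr
    rw [Function.onFun, Finset.disjoint_left]
    intro M h1 h2
    exact hpr (mem_dvd (hP r hr) (hP p hp) h2 (dvd_mem (hP p hp) h1))
  · intro h
    obtain ⟨p, hp, h1⟩ := Finset.mem_biUnion.1 h
    have h2 := dvd_mem (hP p hp) h1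
    rw [Matrix.det_one] at h2
    exact (Nat.prime_iff_prime_int.1 (hP p hp)).not_dvd_one h2

lemma RR_facts {z₀ : ℍ} {P : Finset ℕ} (hP : ∀ p ∈ P, p.Prime ∧ Inert z₀ p)
    (hex : ∃ p : ℕ, p.Prime ∧ Inert z₀ p) {M : Mat} (h : M ∈ RR P) :
    HN M ∧ Prim M ∧ ∃ p : ℕ, p.Prime ∧ Inert z₀ p ∧ Lev p M := by
  classical
  unfold RR at h
  rcases Finset.mem_insert.1 h with h | h
  · subst h
    obtain ⟨p, hp, hi⟩ := hex
    refine ⟨⟨by simp, by simp, by simp, by simp⟩, ?_, p, hp, hi, Or.inl (by simp)⟩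
    intro r hr hd
    have h1 : (r : ℤ) ∣ 1 := by simpa using hd 0 0
    exact (Nat.prime_iff_prime_int.1 hr).not_dvd_one h1
  · obtain ⟨p, hp, h1⟩ := Finset.mem_biUnion.1 h
    obtain ⟨hp1, hp2⟩ := hP p hp
    rcases Finset.mem_union.1 h1 with h2 | h2
    · obtain ⟨a, b, c⟩ := S1_facts hp1 h2
      exact ⟨a, b, p, hp1, hp2, Or.inr (Or.inl c)⟩
    · obtain ⟨a, b, c⟩ := S2_facts hp1 h2
      exact ⟨a, b, p, hp1, hp2, Or.inr (Or.inr c)⟩

lemma exists_inert (z₀ : ℍ) : ∃ p : ℕ, p.Prime ∧ Inert z₀ p := by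
  obtain ⟨q₀, hq₀, -, h⟩ := exists_modulus z₀
  have : NeZero q₀ := ⟨hq₀.ne'⟩
  have hu : IsUnit (-1 : ZMod q₀) := isUnit_one.neg
  obtain ⟨p, _, hp, hpm⟩ := Nat.forall_exists_prime_gt_and_eq_mod hu 0
  refine ⟨p, hp, h p hp ?_⟩
  rw [← ZMod.natCast_eq_zero_iff]
  push_cast
  rw [hpm]; ring

/-- **Main inequality.** -/
theorem main_ineq (z₀ : ℍ) (P : Finset ℕ) (hP : ∀ p ∈ P, p.Prime ∧ Inert z₀ p) :
    ∃ δ : ℝ, 0 < δ ∧ ∀ (f : ℍ → ℂ) (l : ℕ → ℂ), HeckeForm f l → ∀ q : ℝ, 1 ≤ q →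
      2 * (ENNReal.ofReal (1 + ∑ p ∈ P, (wt₁ q p (l p) + wt₂ q p (l p))) *
        ∫⁻ z in Metric.ball z₀ δ, ‖f z‖ₑ ^ q) ≤
      (Nat.card {γ : SL(2, ℤ) // γ • z₀ = z₀} : ℝ≥0∞) * ∫⁻ z in 𝒟, ‖f z‖ₑ ^ q := by
  classical
  obtain ⟨δ, hδ, hcount⟩ := count z₀ (RR P) (fun M hM => RR_facts hP (exists_inert z₀) hM)
  refine ⟨δ, hδ, fun f l H q hq => ?_⟩
  have hPp : ∀ p ∈ P, p.Prime := fun p hp => (hP p hp).1
  set h : ℍ → ℝ≥0∞ := fun z => ‖f z‖ₑ ^ q with hh
  have hmeas : Measurable h := H.measurable.enorm.pow_const q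
  have hinv : ∀ (γ : SL(2, ℤ)) (z : ℍ), h (γ • z) = h z := by
    intro γ z; simp only [hh, H.invariant]
  have hreal : ∀ z, h z = ENNReal.ofReal (‖f z‖ ^ q) := by
    intro z
    change ‖f z‖ₑ ^ q = _
    rw [← ofReal_norm, ENNReal.ofReal_rpow_of_nonneg (norm_nonneg _) (by linarith)]
  -- the pointwise inequality
  have hpt : ∀ z : ℍ, ENNReal.ofReal (1 + ∑ p ∈ P, (wt₁ q p (l p) + wt₂ q p (l p))) * h z ≤
      ∑ M ∈ RR P, h (GM M • z) := by
    intro z
    rw [hreal z, ← ENNReal.ofReal_mul' (by positivity),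
      Finset.sum_congr rfl (fun M _ => hreal (GM M • z)),
      ← ENNReal.ofReal_sum_of_nonneg (fun M _ => by positivity)]
    apply ENNReal.ofReal_le_ofReal
    rw [sum_RR hPp, add_mul, one_mul, GM_one, one_smul, Finset.sum_mul]
    apply add_le_add_right
    apply Finset.sum_le_sum
    intro p hp
    rw [add_mul]
    exact add_le_add (pointwise₁ H (hPp p hp) q hq z) (pointwise₂ H (hPp p hp) q hq z)
  have hSm : ∀ M ∈ RR P, MeasurableSet {x : ℍ | GM M.adjugate • x ∈ Metric.ball z₀ δ} := by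
    intro M _
    exact (measurePreserving_smul (GM M.adjugate) (volume : Measure ℍ)).measurable
      Metric.isOpen_ball.measurableSet
  have hchange : ∀ M ∈ RR P, ∫⁻ z in Metric.ball z₀ δ, h (GM M • z) =
      ∫⁻ z in {x : ℍ | GM M.adjugate • x ∈ Metric.ball z₀ δ}, h z := by
    intro M hM
    have hd : 0 < M.det := (RR_facts hP (exists_inert z₀) hM).1.det_pos
    rw [← (measurePreserving_smul (GM M) (volume : Measure ℍ)).setLIntegral_comp_preimage
      (hSm M hM) hmeas]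
    congr 2
    ext z
    simp only [Set.mem_preimage, Set.mem_ofPred_eq, adj_smul hd]
  have hstep : ENNReal.ofReal (1 + ∑ p ∈ P, (wt₁ q p (l p) + wt₂ q p (l p))) *
      ∫⁻ z in Metric.ball z₀ δ, h z ≤
      ∑ M ∈ RR P, ∫⁻ z in {x : ℍ | GM M.adjugate • x ∈ Metric.ball z₀ δ}, h z := by
    have hs : ∫⁻ z in Metric.ball z₀ δ, ∑ M ∈ RR P, h (GM M • z) =
        ∑ M ∈ RR P, ∫⁻ z in Metric.ball z₀ δ, h (GM M • z) := by
      apply lintegral_finsetSum'
      intro M _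
      exact (hmeas.comp
        (measurePreserving_smul (GM M) (volume : Measure ℍ)).measurable).aemeasurable
    rw [← lintegral_const_mul _ hmeas, ← Finset.sum_congr rfl hchange, ← hs]
    exact lintegral_mono hpt
  calc 2 * (ENNReal.ofReal (1 + ∑ p ∈ P, (wt₁ q p (l p) + wt₂ q p (l p))) *
        ∫⁻ z in Metric.ball z₀ δ, h z)
      ≤ 2 * ∑ M ∈ RR P, ∫⁻ z in {x : ℍ | GM M.adjugate • x ∈ Metric.ball z₀ δ}, h z :=
        mul_le_mul_right hstep 2
    _ ≤ _ := unfold (RR P) _ hSm h hmeas hinv _ hcount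

end Pool.Agent.Run7.h176.NC
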