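import Pool.Agent.Run7.h176.NC.OffAlg

/-!
# All matrices of small determinant which nearly fix a point lie in one quadratic algebra
-/

set_option autoImplicit false

open UpperHalfPlane Matrix
open scoped MatrixGroups

namespace Pool.Agent.Run7.h176.NC

lemma prim_form {c₁ s₁ b₁ : ℤ} (hc : c₁ ≠ 0) : ∃ g u v w x y t : ℤ, g ≠ 0 ∧ c₁ = g * u ∧
    s₁ = g * v ∧ b₁ = -(g * w) ∧ x * u + y * v + t * w = 1 := by
  set g1 : ℤ := (Int.gcd c₁ s₁ : ℤ) with hg1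
  set g : ℤ := (Int.gcd g1 b₁ : ℤ) with hg
  have h1 : g1 = c₁ * Int.gcdA c₁ s₁ + s₁ * Int.gcdB c₁ s₁ := Int.gcd_eq_gcd_ab c₁ s₁
  have h2 : g = g1 * Int.gcdA g1 b₁ + b₁ * Int.gcdB g1 b₁ := Int.gcd_eq_gcd_ab g1 b₁
  have d1 : g ∣ g1 := Int.gcd_dvd_left _ _
  have d2 : g ∣ b₁ := Int.gcd_dvd_right _ _
  have d3 : g ∣ c₁ := d1.trans (Int.gcd_dvd_left _ _)
  have d4 : g ∣ s₁ := d1.trans (Int.gcd_dvd_right _ _)
  obtain ⟨u, hu⟩ := d3
  obtain ⟨v, hv⟩ := d4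
  obtain ⟨w, hw⟩ := d2
  have hg0 : g ≠ 0 := by
    intro h
    rw [h, zero_mul] at hu
    exact hc hu
  refine ⟨g, u, v, -w, Int.gcdA c₁ s₁ * Int.gcdA g1 b₁, Int.gcdB c₁ s₁ * Int.gcdA g1 b₁,
    -Int.gcdB g1 b₁, hg0, hu, hv, by rw [hw]; ring, ?_⟩
  apply mul_left_cancel₀ hg0
  have h3 : g = (c₁ * Int.gcdA c₁ s₁ + s₁ * Int.gcdB c₁ s₁) * Int.gcdA g1 b₁ +
      b₁ * Int.gcdB g1 b₁ := by rw [← h1]; exact h2
  calc g * (Int.gcdA c₁ s₁ * Int.gcdA g1 b₁ * u + Int.gcdB c₁ s₁ * Int.gcdA g1 b₁ * v +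
        -Int.gcdB g1 b₁ * -w)
      = ((g * u) * Int.gcdA c₁ s₁ + (g * v) * Int.gcdB c₁ s₁) * Int.gcdA g1 b₁ +
          (g * w) * Int.gcdB g1 b₁ := by ring
    _ = g * 1 := by rw [← hu, ← hv, ← hw, ← h3]; ring

/-- integers of absolute value less than one -/
lemma int_zero {n : ℤ} {y t : ℝ} (hy : 0 < y) (h : |(n : ℝ)| * y ≤ t) (ht : t < y) : n = 0 := by
  by_contra hn
  have h1 : (1 : ℝ) ≤ |(n : ℝ)| := by exact_mod_cast Int.one_le_abs hn
  nlinarith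

lemma dist_GM {A : Mat} (hA : 0 < A.det) (z w : ℍ) :
    dist (GM A • z) (GM A • w) = dist z w := by
  have hz := denom_ne hA z
  have hw := denom_ne hA w
  set dz : ℂ := (A 1 0 : ℂ) * z + A 1 1 with hdz
  set dw : ℂ := (A 1 0 : ℂ) * w + A 1 1 with hdw
  have hdet : (A.det : ℂ) = A 0 0 * A 1 1 - A 0 1 * A 1 0 := by
    rw [Matrix.det_fin_two]; push_cast; ring
  have h1 : ((GM A • z : ℍ) : ℂ) - (GM A • w : ℍ) = A.det * ((z : ℂ) - w) / (dz * dw) := by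
    rw [coe_GM hA, coe_GM hA, div_sub_div _ _ hz hw, hdet]
    congr 1
    rw [hdz, hdw]; ring
  have h2 : (GM A • z).im = A.det * z.im / ‖dz‖ ^ 2 := by
    rw [← Complex.normSq_eq_norm_sq]; exact im_GM hA z
  have h3 : (GM A • w).im = A.det * w.im / ‖dw‖ ^ 2 := by
    rw [← Complex.normSq_eq_norm_sq]; exact im_GM hA w
  have h4 : Real.cosh (dist (GM A • z) (GM A • w)) = Real.cosh (dist z w) := by
    rw [UpperHalfPlane.cosh_dist, UpperHalfPlane.cosh_dist, dist_eq_norm, dist_eq_norm, h1, h2, h3]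
    rw [norm_div, norm_mul, norm_mul]
    have hdn : ‖((A.det : ℤ) : ℂ)‖ = (A.det : ℝ) := by
      rw [Complex.norm_intCast, abs_of_pos]; exact_mod_cast hA
    rw [hdn]
    have e1 : (A.det : ℝ) ≠ 0 := by exact_mod_cast hA.ne'
    have e2 : ‖dz‖ ≠ 0 := norm_ne_zero_iff.2 hz
    have e3 : ‖dw‖ ≠ 0 := norm_ne_zero_iff.2 hw
    have e4 := z.im_pos.ne'
    have e5 := w.im_pos.ne'
    field_simp
  exact Real.cosh_strictMonoOn.injOn (Set.mem_Ici.2 dist_nonneg) (Set.mem_Ici.2 dist_nonneg) h4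

theorem near {K : Set ℍ} (hK : IsCompact K) : ∃ c : ℝ, 0 < c ∧ ∀ z₀ ∈ K, ∀ δ : ℝ, 0 < δ → δ ≤ 1 →
    ∀ D : ℕ, 1 ≤ D → D * δ ≤ c → ∃ u v w x y t : ℤ, x * u + y * v + t * w = 1 ∧
      ∀ A : Mat, 0 < A.det → A.det ≤ D →
        (∃ x ∈ Metric.ball z₀ δ, GM A • x ∈ Metric.ball z₀ δ) → Alg u v w A := by
  rcases K.eq_empty_or_nonempty with hem | hne
  · exact ⟨1, one_pos, fun z hz => absurd hz (by rw [hem]; simp)⟩
  obtain ⟨x₁, hx₁, hmin⟩ := hK.exists_isMinOn hne UpperHalfPlane.continuous_im.continuousOn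
  obtain ⟨x₂, hx₂, hmax⟩ := hK.exists_isMaxOn hne UpperHalfPlane.continuous_im.continuousOn
  set y₁ := x₁.im with hy₁
  set y₂ := x₂.im with hy₂
  have hy1 : 0 < y₁ := x₁.im_pos
  have hy2 : 0 < y₂ := x₂.im_pos
  set C₂ : ℝ := y₂ * (2 * Real.exp 2) with hC₂
  have hC₂0 : 0 < C₂ := by positivity
  set e : ℝ := Real.exp 2 with he
  have he1 : 1 ≤ e := Real.one_le_exp (by norm_num)
  set C₃ : ℝ := 2 * e * C₂ / y₁ + e * C₂ with hC₃
  have hC₃0 : 0 < C₃ := by positivity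
  set m : ℝ := min y₁ 1 with hm
  have hm0 : 0 < m := lt_min hy1 one_pos
  refine ⟨m / (2 * C₃), by positivity, fun z₀ hz₀ δ hδ hδ1 D hD hDδ => ?_⟩
  have hD1 : (1 : ℝ) ≤ D := by exact_mod_cast hD
  have hy_lo : y₁ ≤ z₀.im := hmin hz₀
  have hy_hi : z₀.im ≤ y₂ := hmax hz₀
  have hsmall : C₃ * (D * δ) < m := by
    calc C₃ * (D * δ) ≤ C₃ * (m / (2 * C₃)) := mul_le_mul_of_nonneg_left hDδ hC₃0.le
      _ = m / 2 := by field_simp
      _ < m := by linarith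
  set N : ℝ := √(e * D) with hN
  have hN2 : N ^ 2 = e * D := Real.sq_sqrt (by positivity)
  have hN0 : 0 ≤ N := Real.sqrt_nonneg _
  have hN1 : 1 ≤ N := by
    by_contra hcon
    push Not at hcon
    nlinarith
  -- the basic estimates
  have basic : ∀ A : Mat, 0 < A.det → A.det ≤ D →
      (∃ x ∈ Metric.ball z₀ δ, GM A • x ∈ Metric.ball z₀ δ) →
      |(A 1 0 : ℝ)| * y₁ ≤ N ∧ ‖(A 1 0 : ℂ) * (z₀ : ℂ) ^ 2 + ((A 1 1 : ℂ) - A 0 0) * z₀ - A 0 1‖ ≤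
        N * (C₂ * δ) := by
    rintro A hA hAD ⟨x, hx, hx'⟩
    set w : ℍ := GM A • z₀ with hw
    have hd : dist z₀ w < 2 * δ := by
      calc dist z₀ w ≤ dist z₀ (GM A • x) + dist (GM A • x) w := dist_triangle _ _ _
        _ = dist (GM A • x) z₀ + dist x z₀ := by rw [hw, dist_GM hA, dist_comm z₀]
        _ < 2 * δ := by
          have h1 := Metric.mem_ball.1 hx
          have h2 := Metric.mem_ball.1 hx'
          linarith
    have hd' : dist w z₀ < 2 * δ := by rw [dist_comm]; exact hd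
    have hexp : Real.exp (dist w z₀) ≤ e := Real.exp_le_exp.2 (by linarith)
    have hexp' : Real.exp (dist z₀ w) ≤ e := Real.exp_le_exp.2 (by linarith)
    have hdn0 := denom_ne hA z₀
    set dn : ℂ := (A 1 0 : ℂ) * z₀ + A 1 1 with hdn
    have hns : Complex.normSq dn = A.det * z₀.im / w.im := by
      have h1 : w.im = A.det * z₀.im / Complex.normSq dn := im_GM hA z₀
      have h2 : Complex.normSq dn ≠ 0 := by simpa using hdn0
      have h3 : w.im ≠ 0 := w.im_pos.ne'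
      field_simp
      rw [h1]
      field_simp
    have hratio : z₀.im ≤ e * w.im := by
      have h1 := UpperHalfPlane.im_div_exp_dist_le z₀ w
      rw [div_le_iff₀ (Real.exp_pos _)] at h1
      calc z₀.im ≤ w.im * Real.exp (dist z₀ w) := h1
        _ ≤ w.im * e := mul_le_mul_of_nonneg_left hexp' w.im_pos.le
        _ = e * w.im := mul_comm _ _
    have hdetD : (A.det : ℝ) ≤ D := by exact_mod_cast hAD
    have hdet0 : (0 : ℝ) < A.det := by exact_mod_cast hA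
    have hdnN : ‖dn‖ ≤ N := by
      have h1 : ‖dn‖ ^ 2 ≤ N ^ 2 := by
        rw [← Complex.normSq_eq_norm_sq, hns, hN2, div_le_iff₀ w.im_pos]
        calc (A.det : ℝ) * z₀.im ≤ D * (e * w.im) :=
              mul_le_mul hdetD hratio z₀.im_pos.le (by positivity)
          _ = e * D * w.im := by ring
      exact (pow_le_pow_iff_left₀ (norm_nonneg _) hN0 two_ne_zero).1 h1
    refine ⟨?_, ?_⟩
    · have h1 : dn.im = (A 1 0 : ℝ) * z₀.im := by simp [hdn]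
      calc |(A 1 0 : ℝ)| * y₁ ≤ |(A 1 0 : ℝ)| * z₀.im :=
            mul_le_mul_of_nonneg_left hy_lo (abs_nonneg _)
        _ = |dn.im| := by rw [h1, abs_mul, abs_of_pos z₀.im_pos]
        _ ≤ ‖dn‖ := Complex.abs_im_le_norm _
        _ ≤ N := hdnN
    · have hE : (A 1 0 : ℂ) * (z₀ : ℂ) ^ 2 + ((A 1 1 : ℂ) - A 0 0) * z₀ - A 0 1 =
          dn * ((z₀ : ℂ) - w) := by
        rw [hw, coe_GM hA, mul_sub, mul_div_cancel₀ _ hdn0, hdn]
        ring
      rw [hE, norm_mul]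
      have h2 : ‖(z₀ : ℂ) - w‖ ≤ C₂ * δ := by
        have h3 := UpperHalfPlane.dist_coe_le w z₀
        rw [dist_comm, dist_eq_norm] at h3
        have h4 : Real.exp (dist w z₀) - 1 ≤ dist w z₀ * Real.exp (dist w z₀) := by
          have h5 := Real.add_one_le_exp (-(dist w z₀))
          have h6 : Real.exp (-(dist w z₀)) * Real.exp (dist w z₀) = 1 := by
            rw [← Real.exp_add]; simp
          have h7 := mul_le_mul_of_nonneg_right h5 (Real.exp_pos (dist w z₀)).le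
          rw [h6] at h7
          linarith
        calc ‖(z₀ : ℂ) - w‖ ≤ z₀.im * (Real.exp (dist w z₀) - 1) := h3
          _ ≤ z₀.im * (dist w z₀ * Real.exp (dist w z₀)) :=
              mul_le_mul_of_nonneg_left h4 z₀.im_pos.le
          _ ≤ y₂ * (2 * δ * e) := by
              apply mul_le_mul hy_hi _ (by positivity) hy2.le
              exact mul_le_mul hd'.le hexp (Real.exp_pos _).le (by positivity)
          _ = C₂ * δ := by rw [hC₂]; ring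
      exact mul_le_mul hdnN h2 (norm_nonneg _) hN0
  have lin : ∀ n₁ n₂ : ℤ, ‖(n₁ : ℂ) * z₀ - n₂‖ ≤ C₃ * (D * δ) → n₁ = 0 ∧ n₂ = 0 := by
    intro n₁ n₂ h
    have h1 : n₁ = 0 := by
      apply int_zero hy1 (t := C₃ * (D * δ)) _ (hsmall.trans_le (min_le_left _ _))
      have h2 : ((n₁ : ℂ) * z₀ - n₂).im = (n₁ : ℝ) * z₀.im := by simp
      calc |(n₁ : ℝ)| * y₁ ≤ |(n₁ : ℝ)| * z₀.im := mul_le_mul_of_nonneg_left hy_lo (abs_nonneg _)
        _ = |((n₁ : ℂ) * z₀ - n₂).im| := by rw [h2, abs_mul, abs_of_pos z₀.im_pos]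
        _ ≤ ‖(n₁ : ℂ) * z₀ - n₂‖ := Complex.abs_im_le_norm _
        _ ≤ _ := h
    refine ⟨h1, ?_⟩
    apply int_zero one_pos (t := C₃ * (D * δ)) _ (hsmall.trans_le (min_le_right _ _))
    rw [h1] at h
    simp only [Int.cast_zero, zero_mul, zero_sub, norm_neg, Complex.norm_intCast] at h
    rw [mul_one]; exact h
  have hNN : N * (N * (C₂ * δ)) = e * C₂ * (D * δ) := by
    rw [← mul_assoc, ← sq, hN2]; ring
  have hDδ0 : 0 ≤ (D : ℝ) * δ := by positivity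
  have par : ∀ A A' : Mat, 0 < A.det → A.det ≤ D →
      (∃ x ∈ Metric.ball z₀ δ, GM A • x ∈ Metric.ball z₀ δ) → 0 < A'.det → A'.det ≤ D →
      (∃ x ∈ Metric.ball z₀ δ, GM A' • x ∈ Metric.ball z₀ δ) →
      A' 1 0 * (A 1 1 - A 0 0) = A 1 0 * (A' 1 1 - A' 0 0) ∧
        A' 1 0 * A 0 1 = A 1 0 * A' 0 1 := by
    intro A A' hA hAD hAx hA' hAD' hAx'
    obtain ⟨c1, c2⟩ := basic A hA hAD hAx
    obtain ⟨c1', c2'⟩ := basic A' hA' hAD' hAx'
    set E : ℂ := (A 1 0 : ℂ) * (z₀ : ℂ) ^ 2 + ((A 1 1 : ℂ) - A 0 0) * z₀ - A 0 1 with hE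
    set E' : ℂ := (A' 1 0 : ℂ) * (z₀ : ℂ) ^ 2 + ((A' 1 1 : ℂ) - A' 0 0) * z₀ - A' 0 1 with hE'
    rw [← le_div_iff₀ hy1] at c1 c1'
    have hb : ‖(A' 1 0 : ℂ) * E - (A 1 0 : ℂ) * E'‖ ≤ C₃ * (D * δ) := by
      calc ‖(A' 1 0 : ℂ) * E - (A 1 0 : ℂ) * E'‖
          ≤ ‖(A' 1 0 : ℂ) * E‖ + ‖(A 1 0 : ℂ) * E'‖ := norm_sub_le _ _
        _ = |(A' 1 0 : ℝ)| * ‖E‖ + |(A 1 0 : ℝ)| * ‖E'‖ := by
            rw [norm_mul, norm_mul, Complex.norm_intCast, Complex.norm_intCast]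
        _ ≤ N / y₁ * (N * (C₂ * δ)) + N / y₁ * (N * (C₂ * δ)) :=
            add_le_add (mul_le_mul c1' c2 (norm_nonneg _) (by positivity))
              (mul_le_mul c1 c2' (norm_nonneg _) (by positivity))
        _ = 2 * e * C₂ / y₁ * (D * δ) := by
            have : N / y₁ * (N * (C₂ * δ)) = (N * (N * (C₂ * δ))) / y₁ := by ring
            rw [this, hNN]; ring
        _ ≤ C₃ * (D * δ) := by
            apply mul_le_mul_of_nonneg_right _ hDδ0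
            rw [hC₃]
            have : 0 ≤ e * C₂ := by positivity
            linarith
    have hid : (A' 1 0 : ℂ) * E - (A 1 0 : ℂ) * E' =
        ((A' 1 0 * (A 1 1 - A 0 0) - A 1 0 * (A' 1 1 - A' 0 0) : ℤ) : ℂ) * z₀ -
          ((A' 1 0 * A 0 1 - A 1 0 * A' 0 1 : ℤ) : ℂ) := by
      rw [hE, hE']; push_cast; ring
    rw [hid] at hb
    obtain ⟨r1, r2⟩ := lin _ _ hb
    exact ⟨by linarith, by linarith⟩
  have scal : ∀ A : Mat, 0 < A.det → A.det ≤ D →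
      (∃ x ∈ Metric.ball z₀ δ, GM A • x ∈ Metric.ball z₀ δ) → A 1 0 = 0 →
      A 1 1 - A 0 0 = 0 ∧ A 0 1 = 0 := by
    intro A hA hAD hAx hc
    obtain ⟨_, c2⟩ := basic A hA hAD hAx
    rw [hc] at c2
    have hid : ((0 : ℤ) : ℂ) * (z₀ : ℂ) ^ 2 + ((A 1 1 : ℂ) - A 0 0) * z₀ - A 0 1 =
        ((A 1 1 - A 0 0 : ℤ) : ℂ) * z₀ - (A 0 1 : ℂ) := by push_cast; ring
    rw [hid] at c2
    apply lin
    calc _ ≤ N * (C₂ * δ) := c2
      _ ≤ N * (N * (C₂ * δ)) := by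
          apply mul_le_mul_of_nonneg_left _ hN0
          have : 0 ≤ C₂ * δ := by positivity
          nlinarith
      _ = e * C₂ * (D * δ) := hNN
      _ ≤ C₃ * (D * δ) := by
          apply mul_le_mul_of_nonneg_right _ hDδ0
          rw [hC₃]
          have : 0 ≤ 2 * e * C₂ / y₁ := by positivity
          linarith
  by_cases hall : ∃ A₁ : Mat, 0 < A₁.det ∧ A₁.det ≤ D ∧
      (∃ x ∈ Metric.ball z₀ δ, GM A₁ • x ∈ Metric.ball z₀ δ) ∧ A₁ 1 0 ≠ 0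
  · obtain ⟨A₁, hA₁, hAD₁, hAx₁, hc₁⟩ := hall
    obtain ⟨g, u, v, w, x, y, t, hg, f1, f2, f3, hbez⟩ :=
      prim_form (c₁ := A₁ 1 0) (s₁ := A₁ 1 1 - A₁ 0 0) (b₁ := A₁ 0 1) hc₁
    refine ⟨u, v, w, x, y, t, hbez, fun A hA hAD hAx => ?_⟩
    obtain ⟨r1, r2⟩ := par A A₁ hA hAD hAx hA₁ hAD₁ hAx₁
    have r3 : (A 1 1 - A 0 0) * A₁ 0 1 = (A₁ 1 1 - A₁ 0 0) * A 0 1 := by
      apply mul_left_cancel₀ hc₁
      linear_combination (A₁ 0 1) * r1 - (A₁ 1 1 - A₁ 0 0) * r2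
    rw [f1, f2] at r1
    rw [f1, f3] at r2
    rw [f2, f3] at r3
    have q1 : u * (A 1 1 - A 0 0) = A 1 0 * v := by
      apply mul_left_cancel₀ hg; linear_combination r1
    have q2 : u * A 0 1 = -(A 1 0 * w) := by
      apply mul_left_cancel₀ hg; linear_combination r2
    have q3 : (A 1 1 - A 0 0) * w = -(v * A 0 1) := by
      apply mul_left_cancel₀ hg; linear_combination -r3
    refine ⟨A 1 0 * x + (A 1 1 - A 0 0) * y - A 0 1 * t, ?_, ?_, ?_⟩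
    · linear_combination (-A 1 0) * hbez - y * q1 + t * q2
    · linear_combination (-(A 1 1 - A 0 0)) * hbez + x * q1 + t * q3
    · linear_combination (-A 0 1) * hbez + x * q2 + y * q3
  · push Not at hall
    refine ⟨1, 0, 0, 1, 0, 0, by ring, fun A hA hAD hAx => ?_⟩
    obtain ⟨x, hx, hx'⟩ := hAx
    have hc := hall A hA hAD ⟨x, hx, hx'⟩
    obtain ⟨r1, r2⟩ := scal A hA hAD ⟨x, hx, hx'⟩ hc
    exact ⟨0, by rw [hc]; ring, by rw [r1]; ring, by rw [r2]; ring⟩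

end Pool.Agent.Run7.h176.NC
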