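import Pool.Agent.Run7.h176.NC.Gen

/-!
# Translates off a quadratic form: the arithmetic of return matrices
-/

set_option autoImplicit false

open UpperHalfPlane Matrix
open scoped MatrixGroups

namespace Pool.Agent.Run7.h176.NC

/-- the matrix `(1 b; 0 m)` -/
def TT (m b : ℕ) : Mat := !![1, (b : ℤ); 0, (m : ℤ)]

/-- the value at `b` of the polynomial of the form `(u, v, w)` -/
def qv (u v w : ℤ) (b : ℕ) : ℤ := u * b ^ 2 - v * b + w

/-- admissible levels -/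
def Adm (m : ℕ) : Prop := m = 1 ∨ ∃ p : ℕ, p.Prime ∧ (m = p ∨ m = p ^ 2)

lemma Adm.pos {m : ℕ} (h : Adm m) : 0 < m := by
  rcases h with h | ⟨p, hp, h | h⟩
  · omega
  · rw [h]; exact hp.pos
  · rw [h]; exact pow_pos hp.pos 2

lemma off_key {u v w : ℤ} {m m' b b' : ℕ} (hm : Adm m) (hm' : Adm m')
    (hc : IsCoprime (qv u v w b) (m : ℤ)) (hc' : IsCoprime (qv u v w b') (m' : ℤ))
    {g1 g2 g3 g4 : ℤ} (hg : g1 * g4 - g2 * g3 = 1) {h a : ℤ}
    (e00 : m * g1 - b * g3 = a) (e10 : g3 = h * u)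
    (e11 : g3 * b' + g4 * m' = a + h * v)
    (e01 : (m * g1 - b * g3) * b' + (m * g2 - b * g4) * m' = -(h * w)) :
    m = m' ∧ (m : ℤ) ∣ g3 := by
  unfold qv at hc hc'
  have hm0 : (m : ℤ) ≠ 0 := by exact_mod_cast hm.pos.ne'
  have hm0' : (m' : ℤ) ≠ 0 := by exact_mod_cast hm'.pos.ne'
  have hdet : a * (a + h * v) + h * w * (h * u) = m * m' := by
    rw [← e11, ← e10]
    have : h * w = -((m * g1 - b * g3) * b' + (m * g2 - b * g4) * m') := by linarith
    rw [this, ← e00]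
    linear_combination (m * m' : ℤ) * hg
  have k1 : (m' : ℤ) * g4 = a + h * v - h * u * b' := by linear_combination e11 - (b' : ℤ) * e10
  have k2 : (m' : ℤ) * (m * g2 - b * g4) = -(h * w) - a * b' := by
    linear_combination e01 - (b' : ℤ) * e00
  have k3 : (m' : ℤ) * (u * (m * g2 - b * g4) ^ 2 + v * (m * g2 - b * g4) * g4 + w * g4 ^ 2) =
      m * (u * b' ^ 2 - v * b' + w) := by
    apply mul_left_cancel₀ hm0'
    have : (m' : ℤ) * (m' * (u * (m * g2 - b * g4) ^ 2 + v * (m * g2 - b * g4) * g4 + w * g4 ^ 2)) =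
        u * (m' * (m * g2 - b * g4)) ^ 2 + v * (m' * (m * g2 - b * g4)) * (m' * g4) +
          w * (m' * g4) ^ 2 := by ring
    rw [this, k1, k2]
    linear_combination (u * b' ^ 2 - v * b' + w) * hdet
  have d1 : (m' : ℤ) ∣ m := by
    have : (m' : ℤ) ∣ m * (u * b' ^ 2 - v * b' + w) := by rw [← k3]; exact Dvd.intro _ rfl
    exact hc'.symm.dvd_of_dvd_mul_right this
  have k4 : (m : ℤ) * g1 = a + h * u * b := by linear_combination e00 + (b : ℤ) * e10
  have k5 : (m : ℤ) * (-(m' * g2) - b' * g1) = h * w - b * (a + h * v) := by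
    linear_combination -e01 + (-b : ℤ) * e11 
  have k6 : (m : ℤ) * (u * (-(m' * g2) - b' * g1) ^ 2 + v * (-(m' * g2) - b' * g1) * g1 +
      w * g1 ^ 2) = m' * (u * b ^ 2 - v * b + w) := by
    apply mul_left_cancel₀ hm0
    have : (m : ℤ) * (m * (u * (-(m' * g2) - b' * g1) ^ 2 + v * (-(m' * g2) - b' * g1) * g1 +
        w * g1 ^ 2)) = u * (m * (-(m' * g2) - b' * g1)) ^ 2 +
          v * (m * (-(m' * g2) - b' * g1)) * (m * g1) + w * (m * g1) ^ 2 := by ring
    rw [this, k4, k5]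
    linear_combination (u * b ^ 2 - v * b + w) * hdet
  have d2 : (m : ℤ) ∣ m' := by
    have : (m : ℤ) ∣ m' * (u * b ^ 2 - v * b + w) := by rw [← k6]; exact Dvd.intro _ rfl
    exact hc.symm.dvd_of_dvd_mul_right this
  have hmm : m = m' := Nat.dvd_antisymm (Int.natCast_dvd_natCast.1 d2) (Int.natCast_dvd_natCast.1 d1)
  refine ⟨hmm, ?_⟩
  rw [← hmm] at hdet
  have k7 : g3 ^ 2 * (u * b ^ 2 - v * b + w) =
      m * (u * m - g1 * (u * m * g1 + (v - 2 * u * b) * g3)) := by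
    have : u * (m * g1 - b * g3) ^ 2 + v * (m * g1 - b * g3) * g3 + w * g3 ^ 2 = u * (m * m) := by
      rw [e00, e10]
      linear_combination u * hdet
    linear_combination this
  rcases hm with h1 | ⟨p, hp, h1 | h1⟩
  · rw [h1]; simp
  · have hpp : Prime (p : ℤ) := Nat.prime_iff_prime_int.1 hp
    rw [h1] at hc k7 ⊢
    have : (p : ℤ) ∣ g3 ^ 2 * (u * b ^ 2 - v * b + w) := by rw [k7]; exact Dvd.intro _ rfl
    exact hpp.dvd_of_dvd_pow (hc.symm.dvd_of_dvd_mul_right this)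
  · have hpp : Prime (p : ℤ) := Nat.prime_iff_prime_int.1 hp
    have hcp : IsCoprime (u * b ^ 2 - v * b + w) (p : ℤ) := by
      rw [h1] at hc
      push_cast at hc
      exact (IsCoprime.pow_right_iff (by norm_num)).1 hc
    rw [h1] at k7 ⊢
    push_cast at k7 ⊢
    have h2 : (p : ℤ) ∣ g3 ^ 2 * (u * b ^ 2 - v * b + w) := by
      rw [k7, sq, mul_assoc]; exact Dvd.intro _ rfl
    obtain ⟨k, hk⟩ := hpp.dvd_of_dvd_pow (hcp.symm.dvd_of_dvd_mul_right h2)
    rw [hk] at k7 ⊢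
    have hp0 : (p : ℤ) ^ 2 ≠ 0 := pow_ne_zero 2 hpp.ne_zero
    have k8 : k ^ 2 * (u * b ^ 2 - v * b + w) =
        p * (u * p - g1 * (u * p * g1 + (v - 2 * u * b) * k)) := by
      apply mul_left_cancel₀ hp0
      linear_combination k7
    have h3 : (p : ℤ) ∣ k ^ 2 * (u * b ^ 2 - v * b + w) := by rw [k8]; exact Dvd.intro _ rfl
    have h4 := hpp.dvd_of_dvd_pow (hcp.symm.dvd_of_dvd_mul_right h3)
    rw [sq]
    exact mul_dvd_mul_left _ h4

/-- `A` is in the algebra of the form `(u, v, w)` -/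
def Alg (u v w : ℤ) (A : Mat) : Prop :=
  ∃ h : ℤ, A 1 0 = h * u ∧ A 1 1 - A 0 0 = h * v ∧ A 0 1 = -(h * w)

lemma tt_mul (m b m' b' : ℕ) (g1 g2 g3 g4 : ℤ) :
    (TT m b).adjugate * !![g1, g2; g3, g4] * TT m' b' =
      !![(m : ℤ) * g1 - b * g3, (m * g1 - b * g3) * b' + (m * g2 - b * g4) * m';
        g3, g3 * b' + g4 * m'] := by
  unfold TT
  rw [Matrix.adjugate_fin_two_of, Matrix.mul_fin_two, Matrix.mul_fin_two]
  ext i j
  fin_cases i <;> fin_cases j <;> simp <;> ring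

theorem off_quot {u v w : ℤ} {m m' b b' : ℕ} (hm : Adm m) (hm' : Adm m')
    (hc : IsCoprime (qv u v w b) (m : ℤ)) (hc' : IsCoprime (qv u v w b') (m' : ℤ))
    (γ γ₀ : SL(2, ℤ))
    (hA : Alg u v w ((γ.1.adjugate * TT m b).adjugate * (γ₀.1.adjugate * TT m' b'))) :
    ∃ x : SL(2, ℤ), γ₀.1.adjugate * TT m' b' = γ.1.adjugate * TT m b * x.1 := by
  obtain ⟨h, h1, h2, h3⟩ := hA
  set G : Mat := γ.1 * γ₀.1.adjugate with hG
  have hGdet : G.det = 1 := by
    rw [hG, Matrix.det_mul, Matrix.det_adjugate, γ.2, γ₀.2]; simp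
  have hAe : (γ.1.adjugate * TT m b).adjugate * (γ₀.1.adjugate * TT m' b') =
      (TT m b).adjugate * G * TT m' b' := by
    rw [Matrix.adjugate_mul_distrib, adj_adj, hG]
    simp only [Matrix.mul_assoc]
  rw [hAe] at h1 h2 h3
  have E : (TT m b).adjugate * G * TT m' b' =
      !![(m : ℤ) * G 0 0 - b * G 1 0, (m * G 0 0 - b * G 1 0) * b' + (m * G 0 1 - b * G 1 1) * m';
        G 1 0, G 1 0 * b' + G 1 1 * m'] := by
    have := tt_mul m b m' b' (G 0 0) (G 0 1) (G 1 0) (G 1 1)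
    rwa [← Matrix.eta_fin_two G] at this
  rw [E] at h1 h2 h3
  simp only [Matrix.of_apply, Matrix.cons_val', Matrix.cons_val_zero, Matrix.cons_val_one,
    Matrix.cons_val_fin_one] at h1 h2 h3
  have hg : G 0 0 * G 1 1 - G 0 1 * G 1 0 = 1 := by rw [← Matrix.det_fin_two]; exact hGdet
  obtain ⟨hmm, hdv⟩ := off_key hm hm' hc hc' hg (h := h) rfl h1 (by linarith) h3
  obtain ⟨k, hk⟩ := hdv
  subst hmm
  set V : Mat := !![G 0 0 - b * k, (G 0 0 - b * k) * b' + (m * G 0 1 - b * G 1 1);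
    k, k * b' + G 1 1] with hV
  have hdT : ∀ c : ℕ, (TT m c).det = m := by
    intro c; unfold TT; rw [Matrix.det_fin_two]; simp
  have hd1 : (γ.1.adjugate * TT m b).det = m := by
    rw [Matrix.det_mul, Matrix.det_adjugate, γ.2, hdT]; simp
  have hd2 : (γ₀.1.adjugate * TT m b').det = m := by
    rw [Matrix.det_mul, Matrix.det_adjugate, γ₀.2, hdT]; simp
  refine of_scaledS (V := V) (by rw [hd1]; exact_mod_cast hm.pos) (by rw [hd1, hd2]) ?_
  rw [hAe, hd1, E, hV, hk]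
  ext i j
  fin_cases i <;> fin_cases j <;> simp <;> ring

end Pool.Agent.Run7.h176.NC
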