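import Pool.Agent.Run7.h176.NC.OffHecke
import Pool.Agent.Run7.h176.NC.Near

/-!
# The main inequality away from a quadratic form
-/

set_option autoImplicit false

open UpperHalfPlane Matrix MeasureTheory
open scoped MatrixGroups ENNReal Modular

namespace Pool.Agent.Run7.h176.NC

theorem countQ (R : Finset Mat) (hR : ∀ M ∈ R, HN M)
    {K E : Set ℍ} (hK : IsCompact K) (hEK : E ⊆ K)
    (hRq : ∀ M ∈ R, ∀ M₀ ∈ R, ∀ γ γ₀ : SL(2, ℤ),
      (∃ x ∈ E, GM ((γ.1.adjugate * M).adjugate * (γ₀.1.adjugate * M₀)) • x ∈ E) →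
        ∃ v : SL(2, ℤ), γ₀.1.adjugate * M₀ = γ.1.adjugate * M * v.1) (w : ℍ) :
    ∑ M ∈ R, ∑' γ : SL(2, ℤ),
      ({x : ℍ | GM M.adjugate • x ∈ E}).indicator (fun _ => (1 : ℝ≥0∞)) (γ • w) ≤
        (Nat.card {γ : SL(2, ℤ) // ∃ x ∈ K, γ • x ∈ K} : ℝ≥0∞) := by
  classical
  have hfin := finite_return hK
  set P : Set (R × SL(2, ℤ)) :=
    {x | GM x.1.1.adjugate • (x.2 • w) ∈ E} with hP
  have hsum : ∑ M ∈ R, ∑' γ : SL(2, ℤ),
      ({x : ℍ | GM M.adjugate • x ∈ E}).indicator (fun _ => (1 : ℝ≥0∞)) (γ • w) =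
      ∑' _ : P, (1 : ℝ≥0∞) := by
    rw [← Finset.sum_coe_sort R, ← tsum_fintype (L := SummationFilter.unconditional _),
      ← ENNReal.tsum_prod, tsum_subtype P (fun _ => (1 : ℝ≥0∞))]
    rfl
  rw [hsum]
  rcases P.eq_empty_or_nonempty with hemp | ⟨⟨⟨M₀, hM₀⟩, γ₀⟩, hx₀⟩
  · rw [hemp]; simp
  have hcard : (Nat.card {γ : SL(2, ℤ) // ∃ x ∈ K, γ • x ∈ K} : ℝ≥0∞) =
      ∑' _ : {γ : SL(2, ℤ) // ∃ x ∈ K, γ • x ∈ K}, (1 : ℝ≥0∞) := by
    have : Fintype {γ : SL(2, ℤ) // ∃ x ∈ K, γ • x ∈ K} := Fintype.ofFinite _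
    rw [tsum_fintype, Finset.sum_const, Finset.card_univ, Nat.card_eq_fintype_card]
    simp
  rw [hcard]
  have hmap : ∀ x : P, ∃ v : {γ : SL(2, ℤ) // ∃ x ∈ K, γ • x ∈ K},
      γ₀.1.adjugate * M₀ = x.1.2.1.adjugate * x.1.1.1 * v.1.1 := by
    rintro ⟨⟨⟨M, hM⟩, γ⟩, hx⟩
    have hMd := (hR M hM).det_pos
    have hMd₀ := (hR M₀ hM₀).det_pos
    have dg : ∀ g : SL(2, ℤ), g.1.adjugate.det = 1 := by
      intro g
      rw [Matrix.det_adjugate, g.2]; simp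
    set N : Mat := γ.1.adjugate * M with hN
    set N₀ : Mat := γ₀.1.adjugate * M₀ with hN₀
    have dN : N.det = M.det := by rw [hN, Matrix.det_mul, dg, one_mul]
    have dN₀ : N₀.det = M₀.det := by rw [hN₀, Matrix.det_mul, dg, one_mul]
    have adjN : N.adjugate = M.adjugate * γ.1 := by
      rw [hN, Matrix.adjugate_mul_distrib, adj_adj]
    have adjN₀ : N₀.adjugate = M₀.adjugate * γ₀.1 := by
      rw [hN₀, Matrix.adjugate_mul_distrib, adj_adj]
    have dadj : ∀ {B : Mat}, 0 < B.det → 0 < B.adjugate.det := by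
      intro B hB
      rw [Matrix.det_adjugate]; simpa using hB
    have act : ∀ (g : SL(2, ℤ)) (B : Mat), 0 < B.det →
        GM (B.adjugate * g.1) • w = GM B.adjugate • (g • w) := by
      intro g B hB
      rw [GM_mul (dadj hB).ne' (by rw [g.2]; norm_num), mul_smul, ← sl_smul]
    have hx' : GM N.adjugate • w ∈ E := by
      rw [adjN, act γ M hMd]; exact hx
    have hx₀' : GM N₀.adjugate • w ∈ E := by
      rw [adjN₀, act γ₀ M₀ hMd₀]; exact hx₀
    have hNd : 0 < N.det := by rw [dN]; exact hMd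
    have hNd₀ : 0 < N₀.det := by rw [dN₀]; exact hMd₀
    obtain ⟨v, hv2⟩ := hRq M hM M₀ hM₀ γ γ₀ ⟨GM N₀.adjugate • w, hx₀', by
      rw [← hN, ← hN₀, GM_mul (dadj hNd).ne' hNd₀.ne', mul_smul, smul_adj hNd₀]
      exact hx'⟩
    rw [← hN₀, ← hN] at hv2
    refine ⟨⟨v, GM N₀.adjugate • w, hEK hx₀', ?_⟩, hv2⟩
    have hv3 : v • (GM N₀.adjugate • w) = GM N.adjugate • w := by
      have e1 : v.1 * N₀.adjugate = N.adjugate := by
        rw [hv2, Matrix.adjugate_mul_distrib, ← Matrix.mul_assoc, Matrix.mul_adjugate, v.2,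
          one_smul, Matrix.one_mul]
      rw [sl_smul, ← mul_smul, ← GM_mul (by rw [v.2]; norm_num) (dadj hNd₀).ne', e1]
    rw [hv3]
    exact hEK hx'
  choose F hF using hmap
  have hinj : Function.Injective F := by
    intro x y hxy
    obtain ⟨⟨⟨M, hM⟩, γ⟩, hx⟩ := x
    obtain ⟨⟨⟨M', hM'⟩, γ'⟩, hy⟩ := y
    have h1 := hF ⟨⟨⟨M, hM⟩, γ⟩, hx⟩
    have h2 := hF ⟨⟨⟨M', hM'⟩, γ'⟩, hy⟩
    rw [hxy] at h1
    rw [h1] at h2
    simp only at h2
    set v := F ⟨⟨⟨M', hM'⟩, γ'⟩, hy⟩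
    have h3 : γ.1.adjugate * M = γ'.1.adjugate * M' := by
      have h4 := congrArg (fun B : Mat => B * v.1.1.adjugate) h2
      simp only [Matrix.mul_assoc, Matrix.mul_adjugate, v.1.2, one_smul, Matrix.mul_one] at h4
      exact h4
    have h5 : (γ' * γ⁻¹).1 * M = M' := by
      rw [Matrix.SpecialLinearGroup.coe_mul, Matrix.SpecialLinearGroup.coe_inv, Matrix.mul_assoc,
        h3, ← Matrix.mul_assoc, Matrix.mul_adjugate, γ'.2, one_smul, Matrix.one_mul]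
    obtain ⟨h6, h7⟩ := hn_unique (hR M hM) (hR M' hM') _ h5
    have h8 : γ' = γ := by rw [mul_inv_eq_one] at h7; exact h7
    subst h6
    subst h8
    rfl
  exact ENNReal.tsum_comp_le_tsum_of_injective hinj (fun _ => (1 : ℝ≥0∞))

/-- the levels -/
noncomputable def Lv (P : Finset ℕ) : Finset ℕ := by
  classical
  exact insert 1 (P ∪ P.image fun p => p ^ 2)

/-- the translates -/
noncomputable def RO (u v w : ℤ) (P : Finset ℕ) : Finset Mat := by
  classical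
  exact ((Lv P).sigma (Bp u v w)).image fun x => TT x.1 x.2

lemma TT_inj {m b m' b' : ℕ} (h : TT m b = TT m' b') : m = m' ∧ b = b' := by
  have h1 := congrFun (congrFun h 0) 1
  have h2 := congrFun (congrFun h 1) 1
  simp only [TT, Matrix.of_apply, Matrix.cons_val', Matrix.cons_val_zero, Matrix.cons_val_one,
    Matrix.cons_val_fin_one] at h1 h2
  exact ⟨by exact_mod_cast h2, by exact_mod_cast h1⟩

lemma Lv_adm {P : Finset ℕ} (hP : ∀ p ∈ P, p.Prime) {m : ℕ} (hm : m ∈ Lv P) :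
    Adm m := by
  classical
  unfold Lv at hm
  rcases Finset.mem_insert.1 hm with h | h
  · exact Or.inl h
  · rcases Finset.mem_union.1 h with h | h
    · exact Or.inr ⟨m, hP m h, Or.inl rfl⟩
    · obtain ⟨p, hp, rfl⟩ := Finset.mem_image.1 h
      exact Or.inr ⟨p, hP p hp, Or.inr rfl⟩

lemma Lv_le {P : Finset ℕ} {X : ℕ} (hX1 : 1 ≤ X) (hX : ∀ p ∈ P, p ≤ X) {m : ℕ} (hm : m ∈ Lv P) :
    m ≤ X ^ 2 := by
  classical
  unfold Lv at hm
  rcases Finset.mem_insert.1 hm with h | h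
  · rw [h]; exact Nat.one_le_pow _ _ hX1
  · rcases Finset.mem_union.1 h with h | h
    · have := hX m h
      nlinarith
    · obtain ⟨p, hp, rfl⟩ := Finset.mem_image.1 h
      exact Nat.pow_le_pow_left (hX p hp) 2

lemma sum_RO {β : Type} [AddCommMonoid β] {u v w : ℤ} {P : Finset ℕ} (hP : ∀ p ∈ P, p.Prime)
    (φ : Mat → β) : ∑ M ∈ RO u v w P, φ M = φ 1 + ∑ p ∈ P, ((∑ b ∈ Bp u v w p, φ (TT p b)) +
      ∑ j ∈ Bp u v w (p ^ 2), φ (TT (p ^ 2) j)) := by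
  classical
  unfold RO
  rw [Finset.sum_image, Finset.sum_sigma]
  · unfold Lv
    rw [Finset.sum_insert, Finset.sum_union, Finset.sum_image, Finset.sum_add_distrib]
    · congr 1
      have h1 : Bp u v w 1 = {0} := by
        ext b
        rw [mem_Bp, Finset.mem_singleton]
        constructor
        · rintro ⟨h, _⟩; omega
        · rintro rfl; exact ⟨by omega, by rw [Nat.cast_one]; exact isCoprime_one_right⟩
      have h2 : TT 1 0 = 1 := by
        ext i j; fin_cases i <;> fin_cases j <;> simp [TT]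
      rw [h1, Finset.sum_singleton, h2]
    · intro a ha b hb hab
      exact Nat.pow_left_injective (n := 2) (by norm_num) hab
    · rw [Finset.disjoint_left]
      intro a ha ha'
      obtain ⟨b, hb, hba⟩ := Finset.mem_image.1 ha'
      have h1 := hP a ha
      rw [← hba] at h1
      exact (Nat.Prime.not_prime_pow (by norm_num : 2 ≤ 2)) h1
    · intro h
      rcases Finset.mem_union.1 h with h | h
      · exact Nat.not_prime_one (hP 1 h)
      · obtain ⟨b, hb, hba⟩ := Finset.mem_image.1 h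
        have h1 := (hP b hb).one_lt
        have : 1 < b ^ 2 := by nlinarith
        omega
  · rintro ⟨a, b⟩ _ ⟨c, d⟩ _ h
    obtain ⟨h1, h2⟩ := TT_inj h
    simp only at h1 h2
    rw [h1, h2]

/-- **Main inequality away from a form.** -/
theorem main_off {K E : Set ℍ} (hK : IsCompact K) (hEK : E ⊆ K) (hEm : MeasurableSet E)
    {u v w x y t : ℤ} (hbez : x * u + y * v + t * w = 1) {P : Finset ℕ}
    (hP : ∀ p ∈ P, p.Prime ∧ 3 ≤ p) {X : ℕ} (hX1 : 1 ≤ X) (hX : ∀ p ∈ P, p ≤ X)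
    (hE : ∀ A : Mat, 0 < A.det → A.det ≤ ((X ^ 4 : ℕ) : ℤ) → (∃ x ∈ E, GM A • x ∈ E) →
      Alg u v w A)
    {f : ℍ → ℂ} {l : ℕ → ℂ} (H : HeckeForm f l) {C₀ θ s q : ℝ} (hC₀ : 1 ≤ C₀) (hq : 1 ≤ q)
    (hq3 : q ≤ 3) (hs1 : s ≤ 3 - q) (hs2 : s ≤ 2 - (1 / 2 + θ) * q)
    (hl : ∀ p : ℕ, p.Prime → ‖l p‖ ≤ C₀ * (p : ℝ) ^ θ) :
    2 * (ENNReal.ofReal (1 + ∑ p ∈ P, (p : ℝ) ^ (s - 1) / (12 * C₀ ^ q)) *
        ∫⁻ z in E, ‖f z‖ₑ ^ q) ≤
      (Nat.card {γ : SL(2, ℤ) // ∃ x ∈ K, γ • x ∈ K} : ℝ≥0∞) * ∫⁻ z in 𝒟, ‖f z‖ₑ ^ q := by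
  classical
  have hPp : ∀ p ∈ P, p.Prime := fun p hp => (hP p hp).1
  have hRmem : ∀ M ∈ RO u v w P, ∃ m b : ℕ, M = TT m b ∧ Adm m ∧ m ≤ X ^ 2 ∧ b < m ∧
      IsCoprime (qv u v w b) (m : ℤ) := by
    intro M hM
    unfold RO at hM
    obtain ⟨⟨m, b⟩, hmb, rfl⟩ := Finset.mem_image.1 hM
    obtain ⟨h1, h2⟩ := Finset.mem_sigma.1 hmb
    obtain ⟨h3, h4⟩ := mem_Bp.1 h2
    exact ⟨m, b, rfl, Lv_adm hPp h1, Lv_le hX1 hX h1, h3, h4⟩
  have hRhn : ∀ M ∈ RO u v w P, HN M := by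
    intro M hM
    obtain ⟨m, b, rfl, _, _, h3, _⟩ := hRmem M hM
    refine ⟨by simp [TT], by simp [TT], by simp [TT], ?_⟩
    simp only [TT, Matrix.of_apply, Matrix.cons_val', Matrix.cons_val_zero, Matrix.cons_val_one,
      Matrix.cons_val_fin_one]
    exact_mod_cast h3
  have hRq : ∀ M ∈ RO u v w P, ∀ M₀ ∈ RO u v w P, ∀ γ γ₀ : SL(2, ℤ),
      (∃ x ∈ E, GM ((γ.1.adjugate * M).adjugate * (γ₀.1.adjugate * M₀)) • x ∈ E) →
        ∃ v : SL(2, ℤ), γ₀.1.adjugate * M₀ = γ.1.adjugate * M * v.1 := by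
    intro M hM M₀ hM₀ γ γ₀ hx
    obtain ⟨m, b, rfl, ha, hle, _, hc⟩ := hRmem M hM
    obtain ⟨m', b', rfl, ha', hle', _, hc'⟩ := hRmem M₀ hM₀
    have hdet : ((γ.1.adjugate * TT m b).adjugate * (γ₀.1.adjugate * TT m' b')).det =
        (m : ℤ) * m' := by
      rw [Matrix.det_mul, Matrix.det_adjugate, Matrix.det_mul, Matrix.det_mul,
        Matrix.det_adjugate, Matrix.det_adjugate, γ.2, γ₀.2, TT_det, TT_det]
      simp
    apply off_quot ha ha' hc hc' γ γ₀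
    apply hE _ _ _ hx
    · rw [hdet]
      have := ha.pos
      have := ha'.pos
      positivity
    · rw [hdet]
      have : m * m' ≤ X ^ 4 := by
        calc m * m' ≤ X ^ 2 * X ^ 2 := Nat.mul_le_mul hle hle'
          _ = X ^ 4 := by ring
      exact_mod_cast this
  have hcount := countQ (RO u v w P) hRhn hK hEK hRq
  set h : ℍ → ℝ≥0∞ := fun z => ‖f z‖ₑ ^ q with hh
  have hmeas : Measurable h := H.measurable.enorm.pow_const q
  have hinv : ∀ (γ : SL(2, ℤ)) (z : ℍ), h (γ • z) = h z := by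
    intro γ z; simp only [hh, H.invariant]
  have hreal : ∀ z, h z = ENNReal.ofReal (‖f z‖ ^ q) := by
    intro z
    change ‖f z‖ₑ ^ q = _
    rw [← ofReal_norm, ENNReal.ofReal_rpow_of_nonneg (norm_nonneg _) (by linarith)]
  have hC0 : (0 : ℝ) < C₀ ^ q := Real.rpow_pos_of_pos (by linarith) _
  have hpt : ∀ z : ℍ, ENNReal.ofReal (1 + ∑ p ∈ P, (p : ℝ) ^ (s - 1) / (12 * C₀ ^ q)) * h z ≤
      ∑ M ∈ RO u v w P, h (GM M • z) := by
    intro z
    rw [hreal z, ← ENNReal.ofReal_mul' (by positivity),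
      Finset.sum_congr rfl (fun M _ => hreal (GM M • z)),
      ← ENNReal.ofReal_sum_of_nonneg (fun M _ => by positivity)]
    apply ENNReal.ofReal_le_ofReal
    rw [sum_RO hPp, add_mul, one_mul, GM_one, one_smul, Finset.sum_mul]
    apply add_le_add_right
    apply Finset.sum_le_sum
    intro p hp
    exact off_point H hC₀ hq hq3 hs1 hs2 (hP p hp).1 (hP p hp).2 (hl p (hP p hp).1) hbez z
  have hSm : ∀ M ∈ RO u v w P, MeasurableSet {x : ℍ | GM M.adjugate • x ∈ E} := by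
    intro M _
    exact (measurePreserving_smul (GM M.adjugate) (volume : Measure ℍ)).measurable hEm
  have hchange : ∀ M ∈ RO u v w P, ∫⁻ z in E, h (GM M • z) =
      ∫⁻ z in {x : ℍ | GM M.adjugate • x ∈ E}, h z := by
    intro M hM
    have hd : 0 < M.det := (hRhn M hM).det_pos
    rw [← (measurePreserving_smul (GM M) (volume : Measure ℍ)).setLIntegral_comp_preimage
      (hSm M hM) hmeas]
    congr 2
    ext z
    simp only [Set.mem_preimage, Set.mem_ofPred_eq, adj_smul hd]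
  have hstep : ENNReal.ofReal (1 + ∑ p ∈ P, (p : ℝ) ^ (s - 1) / (12 * C₀ ^ q)) *
      ∫⁻ z in E, h z ≤
      ∑ M ∈ RO u v w P, ∫⁻ z in {x : ℍ | GM M.adjugate • x ∈ E}, h z := by
    have hs : ∫⁻ z in E, ∑ M ∈ RO u v w P, h (GM M • z) =
        ∑ M ∈ RO u v w P, ∫⁻ z in E, h (GM M • z) := by
      apply lintegral_finsetSum'
      intro M _
      exact (hmeas.comp
        (measurePreserving_smul (GM M) (volume : Measure ℍ)).measurable).aemeasurable
    rw [← lintegral_const_mul _ hmeas, ← Finset.sum_congr rfl hchange, ← hs]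
    exact lintegral_mono hpt
  calc 2 * (ENNReal.ofReal (1 + ∑ p ∈ P, (p : ℝ) ^ (s - 1) / (12 * C₀ ^ q)) *
        ∫⁻ z in E, h z)
      ≤ 2 * ∑ M ∈ RO u v w P, ∫⁻ z in {x : ℍ | GM M.adjugate • x ∈ E}, h z :=
        mul_le_mul_right hstep 2
    _ ≤ _ := unfold (RO u v w P) _ hSm h hmeas hinv _ hcount

end Pool.Agent.Run7.h176.NC
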