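import Pool.Agent.Run7.h176.NC.OffAlg

/-!
# The Hecke relations away from a quadratic form
-/

set_option autoImplicit false

open UpperHalfPlane Matrix
open scoped MatrixGroups

namespace Pool.Agent.Run7.h176.NC

/-- the `b < m` whose value is prime to `m` -/
noncomputable def Bp (u v w : ℤ) (m : ℕ) : Finset ℕ := by
  classical
  exact (Finset.range m).filter fun b => IsCoprime (qv u v w b) (m : ℤ)

lemma mem_Bp {u v w : ℤ} {m b : ℕ} : b ∈ Bp u v w m ↔ b < m ∧ IsCoprime (qv u v w b) (m : ℤ) := by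
  unfold Bp; rw [Finset.mem_filter, Finset.mem_range]

lemma cop_iff {p : ℕ} (hp : p.Prime) (n : ℤ) : IsCoprime n (p : ℤ) ↔ ¬ (p : ℤ) ∣ n := by
  rw [isCoprime_comm]
  exact (Nat.prime_iff_prime_int.1 hp).irreducible.coprime_iff_not_dvd

lemma cop_sq {u v w : ℤ} {p : ℕ} (hp : p.Prime) (b c : ℕ) :
    IsCoprime (qv u v w (b + c * p)) ((p ^ 2 : ℕ) : ℤ) ↔ IsCoprime (qv u v w b) (p : ℤ) := by
  push_cast
  rw [IsCoprime.pow_right_iff (by norm_num), cop_iff hp, cop_iff hp]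
  have : qv u v w (b + c * p) = qv u v w b + p * (u * (2 * b * c + c ^ 2 * p) - v * c) := by
    unfold qv; push_cast; ring
  rw [this, dvd_add_left (Dvd.intro _ rfl)]

lemma sum_Bp_sq {β : Type} [AddCommMonoid β] {u v w : ℤ} {p : ℕ} (hp : p.Prime) (g : ℕ → β) :
    ∑ j ∈ Bp u v w (p ^ 2), g j = ∑ b ∈ Bp u v w p, ∑ c ∈ Finset.range p, g (b + c * p) := by
  classical
  unfold Bp
  rw [Finset.sum_filter, Finset.sum_filter]
  have h1 : ∑ a ∈ Finset.range (p ^ 2), (if IsCoprime (qv u v w a) ((p ^ 2 : ℕ) : ℤ) then g a else 0) =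
      ∑ a ∈ Finset.range (p * p), (if IsCoprime (qv u v w a) ((p ^ 2 : ℕ) : ℤ) then g a else 0) := by
    rw [sq p]
  rw [h1, sum_mul_range, Finset.sum_comm]
  apply Finset.sum_congr rfl
  intro b _
  by_cases h : IsCoprime (qv u v w b) (p : ℤ)
  · rw [if_pos h]
    apply Finset.sum_congr rfl
    intro c _
    rw [if_pos ((cop_sq hp b c).2 h)]
  · rw [if_neg h]
    apply Finset.sum_eq_zero
    intro c _
    rw [if_neg (fun h' => h ((cop_sq hp b c).1 h'))]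

lemma card_Bp {u v w x y t : ℤ} (hbez : x * u + y * v + t * w = 1) {p : ℕ} (hp : p.Prime) :
    p ≤ (Bp u v w p).card + 2 := by
  classical
  have h1 : ((Finset.range p).filter fun b => ¬ IsCoprime (qv u v w b) (p : ℤ)).card ≤ 2 := by
    by_contra hcon
    push Not at hcon
    obtain ⟨a, ha, b, hb, c, hc, hab, hac, hbc⟩ := Finset.two_lt_card.1 hcon
    rw [Finset.mem_filter, Finset.mem_range, cop_iff hp, not_not] at ha hb hc
    obtain ⟨ha1, ha2⟩ := ha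
    obtain ⟨hb1, hb2⟩ := hb
    obtain ⟨hc1, hc2⟩ := hc
    unfold qv at ha2 hb2 hc2
    have hpp : Prime (p : ℤ) := Nat.prime_iff_prime_int.1 hp
    have hne : ∀ m n : ℕ, m < p → n < p → m ≠ n → ¬ (p : ℤ) ∣ ((m : ℤ) - n) := by
      intro m n hm hn hmn hd
      have h2 := Int.eq_zero_of_abs_lt_dvd hd (by
        rw [abs_lt]; constructor <;> omega)
      omega
    have d1 : (p : ℤ) ∣ u * (a + b) - v := by
      have h2 : (p : ℤ) ∣ ((a : ℤ) - b) * (u * (a + b) - v) := by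
        have h3 := dvd_sub ha2 hb2
        have h4 : (u * (a : ℤ) ^ 2 - v * a + w) - (u * b ^ 2 - v * b + w) =
            ((a : ℤ) - b) * (u * (a + b) - v) := by ring
        rw [h4] at h3; exact h3
      exact (hpp.dvd_mul.1 h2).resolve_left (hne a b ha1 hb1 hab)
    have d2 : (p : ℤ) ∣ u * (a + c) - v := by
      have h2 : (p : ℤ) ∣ ((a : ℤ) - c) * (u * (a + c) - v) := by
        have h3 := dvd_sub ha2 hc2
        have h4 : (u * (a : ℤ) ^ 2 - v * a + w) - (u * c ^ 2 - v * c + w) =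
            ((a : ℤ) - c) * (u * (a + c) - v) := by ring
        rw [h4] at h3; exact h3
      exact (hpp.dvd_mul.1 h2).resolve_left (hne a c ha1 hc1 hac)
    have d3 : (p : ℤ) ∣ u := by
      have h2 : (p : ℤ) ∣ ((b : ℤ) - c) * u := by
        have h3 := dvd_sub d1 d2
        have h4 : (u * ((a : ℤ) + b) - v) - (u * (a + c) - v) = ((b : ℤ) - c) * u := by ring
        rw [h4] at h3; exact h3
      exact (hpp.dvd_mul.1 h2).resolve_left (hne b c hb1 hc1 hbc)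
    have d4 : (p : ℤ) ∣ v := by
      have h3 := dvd_sub (Dvd.dvd.mul_right d3 ((a : ℤ) + b)) d1
      have h4 : u * ((a : ℤ) + b) - (u * (a + b) - v) = v := by ring
      rw [h4] at h3; exact h3
    have d5 : (p : ℤ) ∣ w := by
      have h3 := dvd_add (dvd_sub ha2 (Dvd.dvd.mul_right d3 ((a : ℤ) ^ 2)))
        (Dvd.dvd.mul_right d4 (a : ℤ))
      have h4 : u * (a : ℤ) ^ 2 - v * a + w - u * (a : ℤ) ^ 2 + v * a = w := by ring
      rw [h4] at h3; exact h3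
    apply hpp.not_dvd_one
    rw [← hbez]
    exact dvd_add (dvd_add (Dvd.dvd.mul_left d3 _) (Dvd.dvd.mul_left d4 _))
      (Dvd.dvd.mul_left d5 _)
  have h2 := Finset.card_filter_add_card_filter_not (s := Finset.range p)
    (fun b => IsCoprime (qv u v w b) (p : ℤ))
  rw [Finset.card_range] at h2
  unfold Bp
  omega

lemma TT_det (m b : ℕ) : (TT m b).det = m := by
  unfold TT; rw [Matrix.det_fin_two]; simp

lemma UU_eq (p j : ℕ) : UU p j = TT (p ^ 2) j := by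
  unfold UU TT; push_cast; rfl

section

variable {f : ℍ → ℂ} {l : ℕ → ℂ} (H : HeckeForm f l)

include H

lemma rel_off {p : ℕ} (hp : p.Prime) (z : ℍ) (b : ℕ) :
    f z + ∑ c ∈ Finset.range p, f (GM (TT (p ^ 2) (b + c * p)) • z) =
      (√(p : ℝ) : ℂ) * l p * f (GM (TT p b) • z) := by
  have hp0 : (0 : ℤ) < p := by exact_mod_cast hp.pos
  have hpC : (p : ℂ) ≠ 0 := by exact_mod_cast hp.pos.ne'
  have dV : 0 < (V p).det := by rw [det_V]; exact hp0
  have dU : ∀ b, 0 < (U p b).det := fun b => by rw [det_U]; exact hp0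
  have e2 := rel1 H hp (GM (U p b) • z)
  have m3 : f (GM (V p) • (GM (U p b) • z)) = f z := by
    have h1 : GM (V p) • (GM (U p b) • z) = (ModularGroup.T ^ (b : ℤ)) • z := by
      rw [sl_smul]
      apply UpperHalfPlane.ext
      rw [coe_GM dV, coe_GM (dU b), coe_GM (by rw [(ModularGroup.T ^ (b : ℤ)).2]; norm_num)]
      rw [ModularGroup.coe_T_zpow]
      simp [V, U]
      field_simp
    rw [h1, H.invariant]
  have m4 : ∀ c, GM (U p c) • (GM (U p b) • z) = GM (TT (p ^ 2) (b + c * p)) • z := by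
    intro c
    rw [smul_smul, ← GM_mul (dU c).ne' (dU b).ne', ← UU_eq]
    congr 2
    ext i j; fin_cases i <;> fin_cases j <;>
      simp [U, UU, Matrix.mul_apply, Fin.sum_univ_two, sq]
  rw [m3, Finset.sum_congr rfl (fun c _ => by rw [m4 c])] at e2
  exact e2

lemma off_one {p : ℕ} (hp : p.Prime) {q : ℝ} (hq : 1 ≤ q) (z : ℍ) (b : ℕ) :
    ‖f z‖ ^ q ≤ 2 ^ (q - 1) * (max ((√(p : ℝ) * ‖l p‖) ^ q) ((p : ℝ) ^ (q - 1)) *
      (‖f (GM (TT p b) • z)‖ ^ q +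
        ∑ c ∈ Finset.range p, ‖f (GM (TT (p ^ 2) (b + c * p)) • z)‖ ^ q)) := by
  set T := max ((√(p : ℝ) * ‖l p‖) ^ q) ((p : ℝ) ^ (q - 1)) with hT
  set X : ℝ := √(p : ℝ) * ‖l p‖ * ‖f (GM (TT p b) • z)‖ with hX
  set Y : ℝ := ∑ c ∈ Finset.range p, ‖f (GM (TT (p ^ 2) (b + c * p)) • z)‖ with hY
  have hX0 : 0 ≤ X := by positivity
  have hY0 : 0 ≤ Y := Finset.sum_nonneg fun c _ => norm_nonneg _
  have h1 : ‖f z‖ ≤ X + Y := by
    have h2 : f z = (√(p : ℝ) : ℂ) * l p * f (GM (TT p b) • z) -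
        ∑ c ∈ Finset.range p, f (GM (TT (p ^ 2) (b + c * p)) • z) := by
      rw [← rel_off H hp z b]; ring
    rw [h2]
    refine (norm_sub_le _ _).trans (add_le_add ?_ (norm_sum_le _ _))
    rw [norm_mul, norm_mul, Complex.norm_real, Real.norm_of_nonneg (Real.sqrt_nonneg _)]
  have h2 : (X + Y) ^ q ≤ 2 ^ (q - 1) * (X ^ q + Y ^ q) := by
    have := Real.rpow_sum_le_const_mul_sum_rpow_of_nonneg (s := Finset.univ) (f := ![X, Y]) hq
      (fun i _ => by fin_cases i <;> simp [hX0, hY0])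
    simpa using this
  have h3 : Y ^ q ≤ (p : ℝ) ^ (q - 1) *
      ∑ c ∈ Finset.range p, ‖f (GM (TT (p ^ 2) (b + c * p)) • z)‖ ^ q := by
    have := Real.rpow_sum_le_const_mul_sum_rpow_of_nonneg (s := Finset.range p)
      (f := fun c => ‖f (GM (TT (p ^ 2) (b + c * p)) • z)‖) hq (fun i _ => norm_nonneg _)
    rw [Finset.card_range] at this
    exact this
  have h4 : X ^ q = (√(p : ℝ) * ‖l p‖) ^ q * ‖f (GM (TT p b) • z)‖ ^ q := by
    rw [hX, Real.mul_rpow (by positivity) (norm_nonneg _)]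
  calc ‖f z‖ ^ q ≤ (X + Y) ^ q := Real.rpow_le_rpow (norm_nonneg _) h1 (by linarith)
    _ ≤ 2 ^ (q - 1) * (X ^ q + Y ^ q) := h2
    _ ≤ 2 ^ (q - 1) * (T * ‖f (GM (TT p b) • z)‖ ^ q + T *
        ∑ c ∈ Finset.range p, ‖f (GM (TT (p ^ 2) (b + c * p)) • z)‖ ^ q) := by
        apply mul_le_mul_of_nonneg_left _ (by positivity)
        apply add_le_add
        · rw [h4]
          exact mul_le_mul_of_nonneg_right (le_max_left _ _) (by positivity)
        · refine h3.trans (mul_le_mul_of_nonneg_right (le_max_right _ _) ?_)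
          exact Finset.sum_nonneg fun c _ => by positivity
    _ = _ := by rw [← mul_add]

/-- **The pointwise inequality away from a form.** -/
theorem off_point {C₀ θ s q : ℝ} (hC₀ : 1 ≤ C₀) (hq : 1 ≤ q) (hq3 : q ≤ 3)
    (hs1 : s ≤ 3 - q) (hs2 : s ≤ 2 - (1 / 2 + θ) * q)
    {p : ℕ} (hp : p.Prime) (hp3 : 3 ≤ p) (hl : ‖l p‖ ≤ C₀ * (p : ℝ) ^ θ)
    {u v w x y t : ℤ} (hbez : x * u + y * v + t * w = 1) (z : ℍ) :
    (p : ℝ) ^ (s - 1) / (12 * C₀ ^ q) * ‖f z‖ ^ q ≤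
      (∑ b ∈ Bp u v w p, ‖f (GM (TT p b) • z)‖ ^ q) +
        ∑ j ∈ Bp u v w (p ^ 2), ‖f (GM (TT (p ^ 2) j) • z)‖ ^ q := by
  have hp1 : (1 : ℝ) ≤ p := by exact_mod_cast hp.one_le
  have hp0 : (0 : ℝ) < p := by linarith
  have hC0 : (0 : ℝ) < C₀ ^ q := Real.rpow_pos_of_pos (by linarith) _
  set T := max ((√(p : ℝ) * ‖l p‖) ^ q) ((p : ℝ) ^ (q - 1)) with hT
  have hTle : T ≤ C₀ ^ q * (p : ℝ) ^ (2 - s) := by
    apply max_le
    · have h1 : √(p : ℝ) * ‖l p‖ ≤ C₀ * (p : ℝ) ^ (1 / 2 + θ) := by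
        rw [Real.rpow_add hp0, ← Real.sqrt_eq_rpow]
        calc √(p : ℝ) * ‖l p‖ ≤ √(p : ℝ) * (C₀ * (p : ℝ) ^ θ) :=
              mul_le_mul_of_nonneg_left hl (Real.sqrt_nonneg _)
          _ = _ := by ring
      calc (√(p : ℝ) * ‖l p‖) ^ q ≤ (C₀ * (p : ℝ) ^ (1 / 2 + θ)) ^ q :=
            Real.rpow_le_rpow (by positivity) h1 (by linarith)
        _ = C₀ ^ q * (p : ℝ) ^ ((1 / 2 + θ) * q) := by
            rw [Real.mul_rpow (by linarith) (by positivity), ← Real.rpow_mul hp0.le]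
        _ ≤ C₀ ^ q * (p : ℝ) ^ (2 - s) :=
            mul_le_mul_of_nonneg_left (Real.rpow_le_rpow_of_exponent_le hp1 (by linarith)) hC0.le
    · calc (p : ℝ) ^ (q - 1) ≤ 1 * (p : ℝ) ^ (2 - s) := by
            rw [one_mul]; exact Real.rpow_le_rpow_of_exponent_le hp1 (by linarith)
        _ ≤ C₀ ^ q * (p : ℝ) ^ (2 - s) :=
            mul_le_mul_of_nonneg_right (Real.one_le_rpow hC₀ (by linarith)) (by positivity)
  have hcard : (p : ℝ) / 3 ≤ ((Bp u v w p).card : ℝ) := by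
    have h1 : (p : ℝ) ≤ (Bp u v w p).card + 2 := by exact_mod_cast card_Bp hbez hp
    have h2 : (3 : ℝ) ≤ p := by exact_mod_cast hp3
    linarith
  set Sg := (∑ b ∈ Bp u v w p, ‖f (GM (TT p b) • z)‖ ^ q) +
        ∑ j ∈ Bp u v w (p ^ 2), ‖f (GM (TT (p ^ 2) j) • z)‖ ^ q with hSg
  have hSg0 : 0 ≤ Sg := add_nonneg (Finset.sum_nonneg fun _ _ => by positivity)
    (Finset.sum_nonneg fun _ _ => by positivity)
  have hsum : ((Bp u v w p).card : ℝ) * ‖f z‖ ^ q ≤ 2 ^ (q - 1) * (T * Sg) := by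
    have h1 := Finset.sum_le_sum fun b (_ : b ∈ Bp u v w p) => off_one H hp hq z b
    rw [Finset.sum_const, nsmul_eq_mul, ← Finset.mul_sum, ← Finset.mul_sum,
      Finset.sum_add_distrib, ← sum_Bp_sq hp (fun j => ‖f (GM (TT (p ^ 2) j) • z)‖ ^ q)] at h1
    exact h1
  have h2 : (2 : ℝ) ^ (q - 1) ≤ 4 := by
    calc (2 : ℝ) ^ (q - 1) ≤ 2 ^ (2 : ℝ) :=
          Real.rpow_le_rpow_of_exponent_le (by norm_num) (by linarith)
      _ = 4 := by norm_num
  have h3 : (p : ℝ) / 3 * ‖f z‖ ^ q ≤ 4 * (C₀ ^ q * (p : ℝ) ^ (2 - s) * Sg) := by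
    calc (p : ℝ) / 3 * ‖f z‖ ^ q ≤ ((Bp u v w p).card : ℝ) * ‖f z‖ ^ q :=
          mul_le_mul_of_nonneg_right hcard (by positivity)
      _ ≤ 2 ^ (q - 1) * (T * Sg) := hsum
      _ ≤ 4 * (C₀ ^ q * (p : ℝ) ^ (2 - s) * Sg) := by
          apply mul_le_mul h2 (mul_le_mul_of_nonneg_right hTle hSg0) _ (by norm_num)
          exact mul_nonneg (le_max_of_le_right (by positivity)) hSg0
  have h4 : (p : ℝ) ^ (s - 1) * (p : ℝ) ^ (2 - s) = p := by
    rw [← Real.rpow_add hp0]; norm_num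
  rw [div_mul_eq_mul_div, div_le_iff₀ (by positivity)]
  have h5 : 0 < (p : ℝ) ^ (2 - s) := Real.rpow_pos_of_pos hp0 _
  apply le_of_mul_le_mul_right _ h5
  calc (p : ℝ) ^ (s - 1) * ‖f z‖ ^ q * (p : ℝ) ^ (2 - s)
      = ((p : ℝ) ^ (s - 1) * (p : ℝ) ^ (2 - s)) * ‖f z‖ ^ q := by ring
    _ = 3 * ((p : ℝ) / 3 * ‖f z‖ ^ q) := by rw [h4]; ring
    _ ≤ 3 * (4 * (C₀ ^ q * (p : ℝ) ^ (2 - s) * Sg)) := by linarith
    _ = Sg * (12 * C₀ ^ q) * (p : ℝ) ^ (2 - s) := by ring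

end

end Pool.Agent.Run7.h176.NC
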