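import Pool.Agent.Run7.h176.NC.Geod

/-!
# Geodesics which are nearly preserved
-/

set_option autoImplicit false

open UpperHalfPlane Matrix
open scoped MatrixGroups

namespace Pool.Agent.Run7.h176.NC

/-- `sinh` of the signed distance to the geodesic `α |z|² + β Re z + γ = 0`, if `β² - 4 α γ = 1` -/
noncomputable def Fv (α β γ : ℝ) (z : ℍ) : ℝ :=
  (α * Complex.normSq (z : ℂ) + β * z.re + γ) / z.im

lemma Fv_GM {A : Mat} (hA : 0 < A.det) (α β γ : ℝ) (z : ℍ) :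
    Fv α β γ (GM A • z) = Fv (c₁ α β γ (A 0 0) (A 1 0) / A.det)
      (c₂ α β γ (A 0 0) (A 0 1) (A 1 0) (A 1 1) / A.det)
      (c₁ α β γ (A 0 1) (A 1 1) / A.det) z := by
  unfold Fv
  set X := z.re with hX
  set Y := z.im with hY
  set a : ℝ := (A 0 0 : ℝ) with ha
  set b : ℝ := (A 0 1 : ℝ) with hb
  set c : ℝ := (A 1 0 : ℝ) with hc
  set d : ℝ := (A 1 1 : ℝ) with hd
  have hdn := denom_ne hA z
  have hn : Complex.normSq ((A 1 0 : ℂ) * z + A 1 1) ≠ 0 := by simpa using hdn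
  have hns : Complex.normSq ((A 1 0 : ℂ) * z + A 1 1) = (c * X + d) ^ 2 + (c * Y) ^ 2 := by
    rw [Complex.normSq_apply]
    simp [← hX, ← hY, ← hc, ← hd]; ring
  have hns2 : Complex.normSq ((A 0 0 : ℂ) * z + A 0 1) = (a * X + b) ^ 2 + (a * Y) ^ 2 := by
    rw [Complex.normSq_apply]
    simp [← hX, ← hY, ← ha, ← hb]; ring
  have hre : (GM A • z).re = ((a * X + b) * (c * X + d) + (a * Y) * (c * Y)) /
      ((c * X + d) ^ 2 + (c * Y) ^ 2) := by
    have h1 : (GM A • z).re = (((A 0 0 : ℂ) * z + A 0 1) / ((A 1 0 : ℂ) * z + A 1 1)).re := by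
      rw [← coe_GM hA]; rfl
    rw [h1, Complex.div_re, hns]
    simp [← hX, ← hY, ← ha, ← hb, ← hc, ← hd]
    ring
  have hnn : Complex.normSq ((GM A • z : ℍ) : ℂ) = ((a * X + b) ^ 2 + (a * Y) ^ 2) /
      ((c * X + d) ^ 2 + (c * Y) ^ 2) := by
    rw [coe_GM hA, map_div₀, hns, hns2]
  have him : (GM A • z).im = A.det * Y / ((c * X + d) ^ 2 + (c * Y) ^ 2) := by
    rw [im_GM hA, hns]
  have hzz : Complex.normSq (z : ℂ) = X ^ 2 + Y ^ 2 := by
    rw [Complex.normSq_apply]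
    simp [← hX, ← hY]; ring
  rw [hns] at hn
  rw [hre, hnn, him, hzz]
  have hD : (A.det : ℝ) ≠ 0 := by exact_mod_cast hA.ne'
  have hY0 : Y ≠ 0 := z.im_pos.ne'
  set n := (c * X + d) ^ 2 + (c * Y) ^ 2 with hnd
  unfold c₁ c₂
  field_simp
  rw [hnd]
  ring

/-- the constants of a compact set -/
lemma Kbd {K : Set ℍ} (hK : IsCompact K) : ∃ y₀ Y R : ℝ, 0 < y₀ ∧ 1 ≤ Y ∧ 1 ≤ R ∧ ∀ z ∈ K,
    y₀ ≤ z.im ∧ z.im ≤ Y ∧ |z.re| ≤ R ∧ Complex.normSq (z : ℂ) ≤ R ^ 2 := by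
  rcases K.eq_empty_or_nonempty with hem | hne
  · exact ⟨1, 1, 1, one_pos, le_rfl, le_rfl, fun z hz => absurd hz (by rw [hem]; simp)⟩
  obtain ⟨x₁, hx₁, hmin⟩ := hK.exists_isMinOn hne UpperHalfPlane.continuous_im.continuousOn
  obtain ⟨x₂, hx₂, hmax⟩ := hK.exists_isMaxOn hne UpperHalfPlane.continuous_im.continuousOn
  obtain ⟨x₃, hx₃, hmax3⟩ := hK.exists_isMaxOn hne
    (f := fun z : ℍ => ‖(z : ℂ)‖) (UpperHalfPlane.continuous_coe.norm).continuousOn
  refine ⟨x₁.im, max x₂.im 1, max ‖(x₃ : ℂ)‖ 1, x₁.im_pos, le_max_right _ _, le_max_right _ _,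
    fun z hz => ⟨hmin hz, (hmax hz).trans (le_max_left _ _), ?_, ?_⟩⟩
  · exact (Complex.abs_re_le_norm _).trans ((hmax3 hz).trans (le_max_left _ _))
  · rw [Complex.normSq_eq_norm_sq]
    exact pow_le_pow_left₀ (norm_nonneg _) ((hmax3 hz).trans (le_max_left _ _)) 2

lemma bdd {y₀ Y R : ℝ} (hy₀ : 0 < y₀) (hR : 1 ≤ R) {z : ℍ} (hz1 : y₀ ≤ z.im)
    (hz2 : z.im ≤ Y) (hz3 : |z.re| ≤ R) (hz4 : Complex.normSq (z : ℂ) ≤ R ^ 2)
    {α β γ : ℝ} (hd : β ^ 2 - 4 * α * γ = 1) (hF : |Fv α β γ z| ≤ 1) :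
    |α| ≤ 3 / y₀ ∧ |β| ≤ 3 + 6 / y₀ * R ∧ |γ| ≤ Y + 3 / y₀ * R ^ 2 + (3 + 6 / y₀ * R) * R := by
  have hy : 0 < z.im := z.im_pos
  set x := z.re with hx
  set y := z.im with hyd
  have hN : Complex.normSq (z : ℂ) = x ^ 2 + y ^ 2 := by
    rw [Complex.normSq_apply]; simp [← hx, ← hyd]; ring
  set s := α * Complex.normSq (z : ℂ) + β * x + γ with hs
  have hsF : |s| ≤ y := by
    unfold Fv at hF
    rw [abs_div, abs_of_pos hy, div_le_one hy] at hF
    exact hF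
  have hid : (2 * α * x + β) ^ 2 + (2 * α * y) ^ 2 = 1 + 4 * α * s := by
    rw [hs, hN]; linear_combination hd
  have h1 : 4 * α * s ≤ 2 * |2 * α * y| := by
    have h2 : 4 * α * s ≤ |4 * α * s| := le_abs_self _
    have h3 : |4 * α * s| = 4 * |α| * |s| := by rw [abs_mul, abs_mul]; norm_num
    have h4 : |2 * α * y| = 2 * |α| * y := by
      rw [abs_mul, abs_mul, abs_of_pos hy]; norm_num
    rw [h4]
    nlinarith [abs_nonneg α]
  have h5 : |2 * α * y| ≤ 3 := by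
    by_contra hcon
    push Not at hcon
    have h6 : |2 * α * y| ^ 2 ≤ 1 + 2 * |2 * α * y| := by
      rw [sq_abs]; nlinarith [sq_nonneg (2 * α * x + β)]
    nlinarith
  have hα : |α| ≤ 3 / y₀ := by
    rw [le_div_iff₀ hy₀]
    have h4 : |2 * α * y| = 2 * |α| * y := by
      rw [abs_mul, abs_mul, abs_of_pos hy]; norm_num
    rw [h4] at h5
    nlinarith [abs_nonneg α]
  have h7 : |2 * α * x + β| ≤ 3 := by
    have h8 : (2 * α * x + β) ^ 2 ≤ 3 ^ 2 := by
      nlinarith [sq_nonneg (2 * α * y)]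
    exact abs_le_of_sq_le_sq h8 (by norm_num)
  have hβ : |β| ≤ 3 + 6 / y₀ * R := by
    have h8 : β = (2 * α * x + β) - 2 * α * x := by ring
    rw [h8]
    calc |(2 * α * x + β) - 2 * α * x| ≤ |2 * α * x + β| + |2 * α * x| := abs_sub _ _
      _ ≤ 3 + 6 / y₀ * R := by
          apply add_le_add h7
          rw [abs_mul, abs_mul, abs_of_pos (by norm_num : (0 : ℝ) < 2)]
          calc 2 * |α| * |x| ≤ 2 * (3 / y₀) * R := by
                apply mul_le_mul _ hz3 (abs_nonneg _) (by positivity)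
                linarith
            _ = 6 / y₀ * R := by ring
  refine ⟨hα, hβ, ?_⟩
  have h8 : γ = s - α * Complex.normSq (z : ℂ) - β * x := by rw [hs]; ring
  rw [h8]
  have h9 : 0 ≤ Complex.normSq (z : ℂ) := Complex.normSq_nonneg _
  calc |s - α * Complex.normSq (z : ℂ) - β * x|
      ≤ |s - α * Complex.normSq (z : ℂ)| + |β * x| := abs_sub _ _
    _ ≤ (|s| + |α * Complex.normSq (z : ℂ)|) + |β * x| := by
        gcongr; exact abs_sub _ _
    _ ≤ Y + 3 / y₀ * R ^ 2 + (3 + 6 / y₀ * R) * R := by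
        rw [abs_mul, abs_mul, abs_of_nonneg h9]
        have : |s| ≤ Y := hsF.trans hz2
        have h10 : |α| * Complex.normSq (z : ℂ) ≤ 3 / y₀ * R ^ 2 :=
          mul_le_mul hα hz4 h9 (by positivity)
        have h11 : |β| * |x| ≤ (3 + 6 / y₀ * R) * R :=
          mul_le_mul hβ hz3 (abs_nonneg _) (by positivity)
        linarith

/-- two points near two geodesics -/
lemma two_point {y₀ Y R B : ℝ} (hy₀ : 0 < y₀) (hY : 1 ≤ Y) (hR : 1 ≤ R) (hB : 1 ≤ B)
    {z z' : ℍ} (hz1 : y₀ ≤ z.im) (hz2 : z.im ≤ Y) (hz3 : |z.re| ≤ R)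
    (hz4 : Complex.normSq (z : ℂ) ≤ R ^ 2) (hz1' : y₀ ≤ z'.im) (hz2' : z'.im ≤ Y)
    (hz3' : |z'.re| ≤ R) (hz4' : Complex.normSq (z' : ℂ) ≤ R ^ 2)
    {v1 v2 v3 w1 w2 w3 δ : ℝ} (hδ : 0 ≤ δ)
    (b1 : |v1| ≤ B) (b2 : |v2| ≤ B) (b4 : |w1| ≤ B) (b5 : |w2| ≤ B)
    (f1 : |Fv v1 v2 v3 z| ≤ δ) (f2 : |Fv v1 v2 v3 z'| ≤ δ) (f3 : |Fv w1 w2 w3 z| ≤ δ)
    (f4 : |Fv w1 w2 w3 z'| ≤ δ) :
    dist z z' * |v2 * w3 - v3 * w2| ≤ 60 * B * Y * R ^ 3 * (1 + 1 / y₀) / y₀ * δ ∧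
      dist z z' * |v3 * w1 - v1 * w3| ≤ 60 * B * Y * R ^ 3 * (1 + 1 / y₀) / y₀ * δ ∧
      dist z z' * |v1 * w2 - v2 * w1| ≤ 60 * B * Y * R ^ 3 * (1 + 1 / y₀) / y₀ * δ := by
  set n1 := v2 * w3 - v3 * w2 with hn1
  set n2 := v3 * w1 - v1 * w3 with hn2
  set n3 := v1 * w2 - v2 * w1 with hn3
  set M : ℝ := 2 * B * Y * δ with hM
  have hM0 : 0 ≤ M := by positivity
  have key : ∀ t : ℍ, t.im ≤ Y → |Fv v1 v2 v3 t| ≤ δ → |Fv w1 w2 w3 t| ≤ δ →
      |t.re * n3 - n2| ≤ M ∧ |n1 - Complex.normSq (t : ℂ) * n3| ≤ M := by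
    intro t ht g1 g2
    have hy : 0 < t.im := t.im_pos
    have e1 : t.re * n3 - n2 = t.im * (v1 * Fv w1 w2 w3 t - w1 * Fv v1 v2 v3 t) := by
      unfold Fv; rw [hn3, hn2]; field_simp; ring
    have e2 : n1 - Complex.normSq (t : ℂ) * n3 =
        t.im * (v2 * Fv w1 w2 w3 t - w2 * Fv v1 v2 v3 t) := by
      unfold Fv; rw [hn3, hn1]; field_simp; ring
    have bound : ∀ p r : ℝ, |p| ≤ B → |r| ≤ B →
        |t.im * (p * Fv w1 w2 w3 t - r * Fv v1 v2 v3 t)| ≤ M := by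
      intro p r hp hr
      rw [abs_mul, abs_of_pos hy]
      calc t.im * |p * Fv w1 w2 w3 t - r * Fv v1 v2 v3 t|
          ≤ Y * (B * δ + B * δ) := by
            apply mul_le_mul ht _ (abs_nonneg _) (by linarith)
            refine (abs_sub _ _).trans ?_
            rw [abs_mul, abs_mul]
            exact add_le_add (mul_le_mul hp g2 (abs_nonneg _) (by linarith))
              (mul_le_mul hr g1 (abs_nonneg _) (by linarith))
        _ = M := by rw [hM]; ring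
    exact ⟨by rw [e1]; exact bound _ _ b1 b4, by rw [e2]; exact bound _ _ b2 b5⟩
  obtain ⟨p1, p2⟩ := key z hz2 f1 f3
  obtain ⟨p1', p2'⟩ := key z' hz2' f2 f4
  set x := z.re with hx
  set y := z.im with hyd
  set x' := z'.re with hx'
  set y' := z'.im with hyd'
  have hN : Complex.normSq (z : ℂ) = x ^ 2 + y ^ 2 := by
    rw [Complex.normSq_apply]; simp [← hx, ← hyd]; ring
  have hN' : Complex.normSq (z' : ℂ) = x' ^ 2 + y' ^ 2 := by
    rw [Complex.normSq_apply]; simp [← hx', ← hyd']; ring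
  have hy : 0 < y := z.im_pos
  have hy' : 0 < y' := z'.im_pos
  have q1 : |x - x'| * |n3| ≤ 2 * M := by
    rw [← abs_mul]
    have : (x - x') * n3 = (x * n3 - n2) - (x' * n3 - n2) := by ring
    rw [this]
    exact (abs_sub _ _).trans (by linarith)
  have q2 : |Complex.normSq (z : ℂ) - Complex.normSq (z' : ℂ)| * |n3| ≤ 2 * M := by
    rw [← abs_mul]
    have : (Complex.normSq (z : ℂ) - Complex.normSq (z' : ℂ)) * n3 =
        (n1 - Complex.normSq (z' : ℂ) * n3) - (n1 - Complex.normSq (z : ℂ) * n3) := by ring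
    rw [this]
    exact (abs_sub _ _).trans (by linarith)
  set d : ℝ := dist (z : ℂ) z' with hd
  have hd1 : d ≤ |x - x'| + |y - y'| := by
    rw [hd, dist_eq_norm]
    have h1 := Complex.norm_le_abs_re_add_abs_im ((z : ℂ) - z')
    simpa using h1
  have hd0 : 0 ≤ d := dist_nonneg
  have hyy : 2 * y₀ * |y - y'| ≤
      |Complex.normSq (z : ℂ) - Complex.normSq (z' : ℂ)| + 2 * R * |x - x'| := by
    have h1 : (y + y') * |y - y'| = |y ^ 2 - y' ^ 2| := by
      rw [show y ^ 2 - y' ^ 2 = (y + y') * (y - y') by ring, abs_mul,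
        abs_of_pos (show 0 < y + y' by linarith)]
    have h2 : y ^ 2 - y' ^ 2 = (Complex.normSq (z : ℂ) - Complex.normSq (z' : ℂ)) -
        (x + x') * (x - x') := by rw [hN, hN']; ring
    have h3 : |(x + x') * (x - x')| ≤ 2 * R * |x - x'| := by
      rw [abs_mul]
      apply mul_le_mul_of_nonneg_right _ (abs_nonneg _)
      exact (abs_add_le _ _).trans (by linarith)
    calc 2 * y₀ * |y - y'| ≤ (y + y') * |y - y'| :=
          mul_le_mul_of_nonneg_right (by linarith) (abs_nonneg _)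
      _ = |(Complex.normSq (z : ℂ) - Complex.normSq (z' : ℂ)) - (x + x') * (x - x')| := by
          rw [h1, h2]
      _ ≤ |Complex.normSq (z : ℂ) - Complex.normSq (z' : ℂ)| + |(x + x') * (x - x')| :=
          abs_sub _ _
      _ ≤ _ := by linarith
  have q3 : |y - y'| * |n3| ≤ 3 * R * M / y₀ := by
    rw [le_div_iff₀ hy₀]
    have h1 := mul_le_mul_of_nonneg_right hyy (abs_nonneg n3)
    have h2 : (|Complex.normSq (z : ℂ) - Complex.normSq (z' : ℂ)| + 2 * R * |x - x'|) * |n3| =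
        |Complex.normSq (z : ℂ) - Complex.normSq (z' : ℂ)| * |n3| +
          2 * R * (|x - x'| * |n3|) := by ring
    rw [h2] at h1
    have h3 : 2 * R * (|x - x'| * |n3|) ≤ 2 * R * (2 * M) :=
      mul_le_mul_of_nonneg_left q1 (by linarith)
    nlinarith
  set T : ℝ := 3 * R * M * (1 + 1 / y₀) with hT
  have hT0 : 0 ≤ T := by positivity
  have hdn3 : d * |n3| ≤ T := by
    calc d * |n3| ≤ (|x - x'| + |y - y'|) * |n3| :=
          mul_le_mul_of_nonneg_right hd1 (abs_nonneg _)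
      _ = |x - x'| * |n3| + |y - y'| * |n3| := by ring
      _ ≤ 2 * M + 3 * R * M / y₀ := add_le_add q1 q3
      _ ≤ T := by
          rw [hT]
          have : 2 * M ≤ 3 * R * M := by nlinarith
          have h2 : 3 * R * M * (1 + 1 / y₀) = 3 * R * M + 3 * R * M / y₀ := by ring
          rw [h2]; linarith
  have hd2 : d ≤ 2 * R := by
    rw [hd]
    have h1 : ∀ t : ℍ, Complex.normSq (t : ℂ) ≤ R ^ 2 → ‖(t : ℂ)‖ ≤ R := by
      intro t ht
      rw [Complex.normSq_eq_norm_sq] at ht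
      exact (pow_le_pow_iff_left₀ (norm_nonneg _) (by linarith) two_ne_zero).1 ht
    rw [dist_eq_norm]
    exact (norm_sub_le _ _).trans (by linarith [h1 z hz4, h1 z' hz4'])
  have hdn2 : d * |n2| ≤ R * T + 2 * R * M := by
    have h1 : |n2| ≤ R * |n3| + M := by
      have : n2 = x * n3 - (x * n3 - n2) := by ring
      rw [this]
      refine (abs_sub _ _).trans (add_le_add ?_ p1)
      rw [abs_mul]
      exact mul_le_mul_of_nonneg_right hz3 (abs_nonneg _)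
    calc d * |n2| ≤ d * (R * |n3| + M) := mul_le_mul_of_nonneg_left h1 hd0
      _ = R * (d * |n3|) + d * M := by ring
      _ ≤ R * T + 2 * R * M := add_le_add (mul_le_mul_of_nonneg_left hdn3 (by linarith))
          (mul_le_mul_of_nonneg_right hd2 hM0)
  have hdn1 : d * |n1| ≤ R ^ 2 * T + 2 * R * M := by
    have h1 : |n1| ≤ R ^ 2 * |n3| + M := by
      have : n1 = Complex.normSq (z : ℂ) * n3 + (n1 - Complex.normSq (z : ℂ) * n3) := by ring
      rw [this]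
      refine (abs_add_le _ _).trans (add_le_add ?_ p2)
      rw [abs_mul, abs_of_nonneg (Complex.normSq_nonneg _)]
      exact mul_le_mul_of_nonneg_right hz4 (abs_nonneg _)
    calc d * |n1| ≤ d * (R ^ 2 * |n3| + M) := mul_le_mul_of_nonneg_left h1 hd0
      _ = R ^ 2 * (d * |n3|) + d * M := by ring
      _ ≤ R ^ 2 * T + 2 * R * M := add_le_add (mul_le_mul_of_nonneg_left hdn3 (by positivity))
          (mul_le_mul_of_nonneg_right hd2 hM0)
  -- all are at most `5 R³ M (1 + 1 / y₀)`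
  have hu : (1 : ℝ) ≤ 1 + 1 / y₀ := by
    have : 0 < 1 / y₀ := by positivity
    linarith
  have hW : ∀ n : ℝ, d * |n| ≤ R ^ 2 * T + 2 * R * M →
      dist z z' * |n| ≤ 60 * B * Y * R ^ 3 * (1 + 1 / y₀) / y₀ * δ := by
    intro n hn
    have h1 : dist z z' ≤ d / y₀ := by
      refine (UpperHalfPlane.dist_le_dist_coe_div_sqrt z z').trans ?_
      apply div_le_div_of_nonneg_left hd0 hy₀
      apply Real.le_sqrt_of_sq_le
      rw [sq]
      exact mul_le_mul hz1 hz1' hy₀.le hy.le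
    have h2 : R ^ 2 * T + 2 * R * M ≤ 5 * R ^ 3 * M * (1 + 1 / y₀) := by
      have h3 : R ^ 2 * T = 3 * R ^ 3 * M * (1 + 1 / y₀) := by rw [hT]; ring
      have h4 : 2 * R * M ≤ 2 * R ^ 3 * M * (1 + 1 / y₀) := by
        have h5 : R ≤ R ^ 3 := by nlinarith [sq_nonneg R]
        have h6 : 2 * R * M ≤ 2 * R ^ 3 * M := by nlinarith
        have h7 : 0 ≤ 2 * R ^ 3 * M := by positivity
        nlinarith
      rw [h3]; linarith
    calc dist z z' * |n| ≤ d / y₀ * |n| := mul_le_mul_of_nonneg_right h1 (abs_nonneg _)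
      _ = (d * |n|) / y₀ := by ring
      _ ≤ (5 * R ^ 3 * M * (1 + 1 / y₀)) / y₀ :=
          div_le_div_of_nonneg_right (hn.trans h2) hy₀.le
      _ ≤ 60 * B * Y * R ^ 3 * (1 + 1 / y₀) / y₀ * δ := by
          rw [hM]
          have : 5 * R ^ 3 * (2 * B * Y * δ) * (1 + 1 / y₀) / y₀ =
              10 * (B * Y * R ^ 3 * (1 + 1 / y₀) / y₀ * δ) := by ring
          rw [this]
          have h3 : 0 ≤ B * Y * R ^ 3 * (1 + 1 / y₀) / y₀ * δ := by positivity
          have h4 : 60 * B * Y * R ^ 3 * (1 + 1 / y₀) / y₀ * δ =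
              60 * (B * Y * R ^ 3 * (1 + 1 / y₀) / y₀ * δ) := by ring
          rw [h4]; linarith
  have hR2 : R ≤ R ^ 2 := by nlinarith
  refine ⟨hW n1 hdn1, hW n2 (hdn2.trans ?_), hW n3 (hdn3.trans ?_)⟩
  · nlinarith
  · nlinarith

end Pool.Agent.Run7.h176.NC
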