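import Pool.Agent.Run7.h176.NC.OffCount

/-!
# Counting with two classes
-/

set_option autoImplicit false

open UpperHalfPlane Matrix MeasureTheory
open scoped MatrixGroups ENNReal Modular

namespace Pool.Agent.Run7.h176.NC

theorem countQ2 (R : Finset Mat) (hR : ∀ M ∈ R, HN M)
    {K E : Set ℍ} (hK : IsCompact K) (hEK : E ⊆ K)
    (T : Mat → Mat → Prop)
    (hRq : ∀ M ∈ R, ∀ M₀ ∈ R, ∀ γ γ₀ : SL(2, ℤ), T (γ.1.adjugate * M) (γ₀.1.adjugate * M₀) →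
      (∃ x ∈ E, GM ((γ.1.adjugate * M).adjugate * (γ₀.1.adjugate * M₀)) • x ∈ E) →
        ∃ v : SL(2, ℤ), γ₀.1.adjugate * M₀ = γ.1.adjugate * M * v.1)
    (hT : ∀ N N₁ N₀ : Mat, (∃ M ∈ R, ∃ γ : SL(2, ℤ), N = γ.1.adjugate * M) →
      (∃ M ∈ R, ∃ γ : SL(2, ℤ), N₁ = γ.1.adjugate * M) →
      (∃ M ∈ R, ∃ γ : SL(2, ℤ), N₀ = γ.1.adjugate * M) →
      (∃ x ∈ E, GM (N.adjugate * N₀) • x ∈ E) → (∃ x ∈ E, GM (N₁.adjugate * N₀) • x ∈ E) →
      (∃ x ∈ E, GM (N.adjugate * N₁) • x ∈ E) → ¬ T N N₀ → ¬ T N₁ N₀ → T N N₁) (w : ℍ) :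
    ∑ M ∈ R, ∑' γ : SL(2, ℤ),
      ({x : ℍ | GM M.adjugate • x ∈ E}).indicator (fun _ => (1 : ℝ≥0∞)) (γ • w) ≤
        ((2 * Nat.card {γ : SL(2, ℤ) // ∃ x ∈ K, γ • x ∈ K} : ℕ) : ℝ≥0∞) := by
  classical
  have hfin := finite_return hK
  set P : Set (R × SL(2, ℤ)) :=
    {x | GM x.1.1.adjugate • (x.2 • w) ∈ E} with hP
  have hsum : ∑ M ∈ R, ∑' γ : SL(2, ℤ),
      ({x : ℍ | GM M.adjugate • x ∈ E}).indicator (fun _ => (1 : ℝ≥0∞)) (γ • w) =
      ∑' _ : P, (1 : ℝ≥0∞) := by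
    rw [← Finset.sum_coe_sort R, ← tsum_fintype (L := SummationFilter.unconditional _),
      ← ENNReal.tsum_prod, tsum_subtype P (fun _ => (1 : ℝ≥0∞))]
    rfl
  rw [hsum]
  -- the geometry of two elements
  have dg : ∀ g : SL(2, ℤ), g.1.adjugate.det = 1 := by
    intro g
    rw [Matrix.det_adjugate, g.2]; simp
  have dadj : ∀ {B : Mat}, 0 < B.det → 0 < B.adjugate.det := by
    intro B hB
    rw [Matrix.det_adjugate]; simpa using hB
  have act : ∀ (g : SL(2, ℤ)) (B : Mat), 0 < B.det →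
      GM (B.adjugate * g.1) • w = GM B.adjugate • (g • w) := by
    intro g B hB
    rw [GM_mul (dadj hB).ne' (by rw [g.2]; norm_num), mul_smul, ← sl_smul]
  set NN : P → Mat := fun x => x.1.2.1.adjugate * x.1.1.1 with hNN
  have hdN : ∀ x : P, 0 < (NN x).det := by
    intro x
    rw [hNN]
    simp only
    rw [Matrix.det_mul, dg, one_mul]
    exact (hR _ x.1.1.2).det_pos
  have hpt : ∀ x : P, GM (NN x).adjugate • w ∈ E := by
    rintro ⟨⟨⟨M, hM⟩, γ⟩, hx⟩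
    have adjN : (γ.1.adjugate * M).adjugate = M.adjugate * γ.1 := by
      rw [Matrix.adjugate_mul_distrib, adj_adj]
    simp only [hNN]
    rw [adjN, act γ M (hR M hM).det_pos]; exact hx
  have hret : ∀ x y : P, ∃ p ∈ E, GM ((NN x).adjugate * NN y) • p ∈ E := by
    intro x y
    refine ⟨GM (NN y).adjugate • w, hpt y, ?_⟩
    rw [GM_mul (dadj (hdN x)).ne' (hdN y).ne', mul_smul, smul_adj (hdN y)]
    exact hpt x
  have hform : ∀ x : P, ∃ M ∈ R, ∃ γ : SL(2, ℤ), NN x = γ.1.adjugate * M :=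
    fun x => ⟨x.1.1.1, x.1.1.2, x.1.2, rfl⟩
  have hquo : ∀ x y : P, T (NN x) (NN y) → ∃ v : {γ : SL(2, ℤ) // ∃ x ∈ K, γ • x ∈ K},
      NN y = NN x * v.1.1 := by
    intro x y hxy
    obtain ⟨v, hv2⟩ := hRq _ x.1.1.2 _ y.1.1.2 x.1.2 y.1.2 hxy (hret x y)
    refine ⟨⟨v, GM (NN y).adjugate • w, hEK (hpt y), ?_⟩, hv2⟩
    have hv3 : v • (GM (NN y).adjugate • w) = GM (NN x).adjugate • w := by
      have e1 : v.1 * (NN y).adjugate = (NN x).adjugate := by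
        have hv4 : NN y = NN x * v.1 := hv2
        rw [hv4, Matrix.adjugate_mul_distrib, ← Matrix.mul_assoc, Matrix.mul_adjugate, v.2,
          one_smul, Matrix.one_mul]
      rw [sl_smul, ← mul_smul, ← GM_mul (by rw [v.2]; norm_num) (dadj (hdN y)).ne', e1]
    rw [hv3]
    exact hEK (hpt x)
  have hNinj : Function.Injective NN := by
    intro x y hxy
    obtain ⟨⟨⟨M, hM⟩, γ⟩, hx⟩ := x
    obtain ⟨⟨⟨M', hM'⟩, γ'⟩, hy⟩ := y
    have h3 : γ.1.adjugate * M = γ'.1.adjugate * M' := hxy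
    have h5 : (γ' * γ⁻¹).1 * M = M' := by
      rw [Matrix.SpecialLinearGroup.coe_mul, Matrix.SpecialLinearGroup.coe_inv, Matrix.mul_assoc,
        h3, ← Matrix.mul_assoc, Matrix.mul_adjugate, γ'.2, one_smul, Matrix.one_mul]
    obtain ⟨h6, h7⟩ := hn_unique (hR M hM) (hR M' hM') _ h5
    have h8 : γ' = γ := by rw [mul_inv_eq_one] at h7; exact h7
    subst h6
    subst h8
    rfl
  have hcard : ((2 * Nat.card {γ : SL(2, ℤ) // ∃ x ∈ K, γ • x ∈ K} : ℕ) : ℝ≥0∞) =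
      ∑' _ : Bool × {γ : SL(2, ℤ) // ∃ x ∈ K, γ • x ∈ K}, (1 : ℝ≥0∞) := by
    have : Fintype {γ : SL(2, ℤ) // ∃ x ∈ K, γ • x ∈ K} := Fintype.ofFinite _
    rw [tsum_fintype, Finset.sum_const, Finset.card_univ, Fintype.card_prod, Fintype.card_bool,
      Nat.card_eq_fintype_card]
    simp
  rw [hcard]
  rcases P.eq_empty_or_nonempty with hemp | ⟨x₀, hx₀⟩
  · rw [hemp]; simp
  -- two base points
  obtain ⟨y₀, y₁, hy⟩ : ∃ y₀ y₁ : P, ∀ x : P, T (NN x) (NN y₀) ∨ T (NN x) (NN y₁) := by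
    by_cases hall : ∀ x : P, T (NN x) (NN ⟨x₀, hx₀⟩)
    · exact ⟨⟨x₀, hx₀⟩, ⟨x₀, hx₀⟩, fun x => Or.inl (hall x)⟩
    · push Not at hall
      obtain ⟨y₁, hy₁⟩ := hall
      refine ⟨⟨x₀, hx₀⟩, y₁, fun x => ?_⟩
      by_cases h : T (NN x) (NN ⟨x₀, hx₀⟩)
      · exact Or.inl h
      · exact Or.inr (hT _ _ _ (hform x) (hform y₁) (hform _) (hret _ _) (hret _ _) (hret _ _)
          h hy₁)
  have hmap : ∀ x : P, ∃ v : Bool × {γ : SL(2, ℤ) // ∃ x ∈ K, γ • x ∈ K},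
      (if v.1 then NN y₀ else NN y₁) = NN x * v.2.1.1 := by
    intro x
    rcases hy x with h | h
    · obtain ⟨v, hv⟩ := hquo x y₀ h
      exact ⟨(true, v), by simpa using hv⟩
    · obtain ⟨v, hv⟩ := hquo x y₁ h
      exact ⟨(false, v), by simpa using hv⟩
  choose F hF using hmap
  have hinj : Function.Injective F := by
    intro x y hxy
    have h1 := hF x
    have h2 := hF y
    rw [hxy] at h1
    rw [h1] at h2
    apply hNinj
    have h4 := congrArg (fun B : Mat => B * (F y).2.1.1.adjugate) h2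
    simp only [Matrix.mul_assoc, Matrix.mul_adjugate, (F y).2.1.2, one_smul, Matrix.mul_one] at h4
    exact h4
  exact ENNReal.tsum_comp_le_tsum_of_injective hinj (fun _ => (1 : ℝ≥0∞))

end Pool.Agent.Run7.h176.NC
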