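import Pool.Agent.Run7.h176.NC.Tube1

/-!
# Linear algebra for nearly preserved geodesics
-/

set_option autoImplicit false

open UpperHalfPlane Matrix
open scoped MatrixGroups

namespace Pool.Agent.Run7.h176.NC

lemma disc_big {α β γ : ℝ} (h : β ^ 2 - 4 * α * γ = 1) :
    1 / 3 ≤ |α| ∨ 1 / 3 ≤ |β| ∨ 1 / 3 ≤ |γ| := by
  by_contra hcon
  push Not at hcon
  obtain ⟨h1, h2, h3⟩ := hcon
  have a1 := abs_lt.1 h1
  have a2 := abs_lt.1 h2
  have a3 := abs_lt.1 h3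
  have h4 : β ^ 2 < 1 / 9 := by nlinarith
  have h5 : |α| * |γ| < 1 / 9 := by nlinarith [abs_nonneg α, abs_nonneg γ]
  have h6 : -(4 * α * γ) ≤ 4 * (|α| * |γ|) := by
    rw [← abs_mul]
    have := neg_abs_le (α * γ)
    linarith
  linarith

/-- the common part of the alternative -/
lemma pm_aux {α β γ A B C μ τ b : ℝ} (hd : β ^ 2 - 4 * α * γ = 1) (hD : B ^ 2 - 4 * A * C = 1)
    (hb : 1 ≤ b) (hτ : 0 ≤ τ) (hτ1 : τ ≤ 1) (h1 : |α| ≤ b) (h2 : |β| ≤ b) (h3 : |γ| ≤ b)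
    (hμ : |μ| ≤ 3 * b) (e1 : |A - μ * α| ≤ 3 * τ) (e2 : |B - μ * β| ≤ 3 * τ)
    (e3 : |C - μ * γ| ≤ 3 * τ) :
    (|A - α| ≤ 200 * b ^ 3 * τ ∧ |B - β| ≤ 200 * b ^ 3 * τ ∧ |C - γ| ≤ 200 * b ^ 3 * τ) ∨
      (|A + α| ≤ 200 * b ^ 3 * τ ∧ |B + β| ≤ 200 * b ^ 3 * τ ∧ |C + γ| ≤ 200 * b ^ 3 * τ) := by
  set f1 := A - μ * α with hf1
  set f2 := B - μ * β with hf2
  set f3 := C - μ * γ with hf3
  have hA : A = μ * α + f1 := by rw [hf1]; ring
  have hB : B = μ * β + f2 := by rw [hf2]; ring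
  have hC : C = μ * γ + f3 := by rw [hf3]; ring
  have hb0 : 0 < b := by linarith
  have hid : μ ^ 2 - 1 = -(2 * (μ * β * f2)) - f2 * f2 + 4 * (μ * α * f3) + 4 * (μ * γ * f1) +
      4 * (f1 * f3) := by
    rw [hA, hB, hC] at hD
    linear_combination hD - μ ^ 2 * hd
  have bd : ∀ p f : ℝ, |p| ≤ b → |f| ≤ 3 * τ → |μ * p * f| ≤ 9 * b ^ 2 * τ := by
    intro p f hp hf
    rw [abs_mul, abs_mul]
    calc |μ| * |p| * |f| ≤ 3 * b * b * (3 * τ) :=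
          mul_le_mul (mul_le_mul hμ hp (abs_nonneg _) (by positivity)) hf (abs_nonneg _)
            (by positivity)
      _ = 9 * b ^ 2 * τ := by ring
  have be : ∀ f g : ℝ, |f| ≤ 3 * τ → |g| ≤ 3 * τ → |f * g| ≤ 9 * b ^ 2 * τ := by
    intro f g hf hg
    rw [abs_mul]
    calc |f| * |g| ≤ 3 * τ * (3 * τ) := mul_le_mul hf hg (abs_nonneg _) (by positivity)
      _ ≤ 9 * b ^ 2 * τ := by nlinarith [mul_nonneg hτ (sub_nonneg.2 hτ1), mul_nonneg hτ hb0.le]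
  have hmu : |μ ^ 2 - 1| ≤ 135 * b ^ 2 * τ := by
    rw [hid]
    have t1 := abs_le.1 (bd β f2 h2 e2)
    have t2 := abs_le.1 (be f2 f2 e2 e2)
    have t3 := abs_le.1 (bd α f3 h1 e3)
    have t4 := abs_le.1 (bd γ f1 h3 e1)
    have t5 := abs_le.1 (be f1 f3 e1 e3)
    rw [abs_le]
    constructor <;> linarith [t1.1, t1.2, t2.1, t2.2, t3.1, t3.2, t4.1, t4.2, t5.1, t5.2]
  have hprod : |μ - 1| * |μ + 1| ≤ 135 * b ^ 2 * τ := by
    rw [← abs_mul, show (μ - 1) * (μ + 1) = μ ^ 2 - 1 by ring]; exact hmu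
  have fin : ∀ p X f s : ℝ, |p| ≤ b → |f| ≤ 3 * τ → X = s * p + f → |s| ≤ 135 * b ^ 2 * τ →
      |X| ≤ 200 * b ^ 3 * τ := by
    intro p X f s hp hf hX hs
    rw [hX]
    calc |s * p + f| ≤ |s| * |p| + |f| := by
          refine (abs_add_le _ _).trans ?_
          rw [abs_mul]
      _ ≤ 135 * b ^ 2 * τ * b + 3 * τ :=
          add_le_add (mul_le_mul hs hp (abs_nonneg _) (by positivity)) hf
      _ ≤ 200 * b ^ 3 * τ := by
          have h4 : 1 ≤ b ^ 3 := one_le_pow₀ hb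
          have h5 : τ ≤ b ^ 3 * τ := by nlinarith
          have h6 : 135 * b ^ 2 * τ * b = 135 * (b ^ 3 * τ) := by ring
          have h7 : 200 * b ^ 3 * τ = 200 * (b ^ 3 * τ) := by ring
          rw [h6, h7]
          nlinarith
  by_cases hcase : 1 ≤ |μ + 1|
  · left
    have hs : |μ - 1| ≤ 135 * b ^ 2 * τ := by
      calc |μ - 1| ≤ |μ - 1| * |μ + 1| := le_mul_of_one_le_right (abs_nonneg _) hcase
        _ ≤ _ := hprod
    exact ⟨fin α _ f1 (μ - 1) h1 e1 (by rw [hA]; ring) hs,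
      fin β _ f2 (μ - 1) h2 e2 (by rw [hB]; ring) hs,
      fin γ _ f3 (μ - 1) h3 e3 (by rw [hC]; ring) hs⟩
  · right
    have h4 : 1 ≤ |μ - 1| := by
      push Not at hcase
      have := abs_lt.1 hcase
      rw [le_abs]; right; linarith
    have hs : |μ + 1| ≤ 135 * b ^ 2 * τ := by
      calc |μ + 1| ≤ |μ - 1| * |μ + 1| := le_mul_of_one_le_left (abs_nonneg _) h4
        _ ≤ _ := hprod
    exact ⟨fin α _ f1 (μ + 1) h1 e1 (by rw [hA]; ring) hs,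
      fin β _ f2 (μ + 1) h2 e2 (by rw [hB]; ring) hs,
      fin γ _ f3 (μ + 1) h3 e3 (by rw [hC]; ring) hs⟩

/-- two normalised vectors with small vector product -/
lemma pm {α β γ A B C τ b : ℝ} (hd : β ^ 2 - 4 * α * γ = 1) (hD : B ^ 2 - 4 * A * C = 1)
    (hb : 1 ≤ b) (hτ : 0 ≤ τ) (hτ1 : τ ≤ 1) (h1 : |α| ≤ b) (h2 : |β| ≤ b) (h3 : |γ| ≤ b)
    (g1 : |A| ≤ b) (g2 : |B| ≤ b) (g3 : |C| ≤ b)
    (n1 : |β * C - γ * B| ≤ τ) (n2 : |γ * A - α * C| ≤ τ) (n3 : |α * B - β * A| ≤ τ) :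
    (|A - α| ≤ 200 * b ^ 3 * τ ∧ |B - β| ≤ 200 * b ^ 3 * τ ∧ |C - γ| ≤ 200 * b ^ 3 * τ) ∨
      (|A + α| ≤ 200 * b ^ 3 * τ ∧ |B + β| ≤ 200 * b ^ 3 * τ ∧ |C + γ| ≤ 200 * b ^ 3 * τ) := by
  have hb0 : 0 < b := by linarith
  have ratio : ∀ V v : ℝ, 1 / 3 ≤ |v| → |V| ≤ b → |V / v| ≤ 3 * b := by
    intro V v hv hV
    have hv0 : 0 < |v| := by linarith
    rw [abs_div, div_le_iff₀ hv0]
    nlinarith
  have small : ∀ V v W w : ℝ, 1 / 3 ≤ |v| → |v * W - V * w| ≤ τ → |W - V / v * w| ≤ 3 * τ := by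
    intro V v W w hv h
    have hv0 : 0 < |v| := by linarith
    have hv1 : v ≠ 0 := abs_pos.1 hv0
    have h4 : W - V / v * w = (v * W - V * w) / v := by field_simp
    rw [h4, abs_div, div_le_iff₀ hv0]
    nlinarith
  have sw : ∀ x y : ℝ, |x - y| ≤ τ → |y - x| ≤ τ := fun x y h => by rwa [abs_sub_comm]
  rcases disc_big hd with hv | hv | hv
  · refine pm_aux (μ := A / α) hd hD hb hτ hτ1 h1 h2 h3 (ratio _ _ hv g1)
      (small _ _ _ _ hv (by rw [show α * A - A * α = 0 by ring, abs_zero]; exact hτ))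
      (small _ _ _ _ hv (by rw [show α * B - A * β = α * B - β * A by ring]; exact n3))
      (small _ _ _ _ hv (by
        rw [show α * C - A * γ = -(γ * A - α * C) by ring, abs_neg]; exact n2))
  · refine pm_aux (μ := B / β) hd hD hb hτ hτ1 h1 h2 h3 (ratio _ _ hv g2)
      (small _ _ _ _ hv (by
        rw [show β * A - B * α = -(α * B - β * A) by ring, abs_neg]; exact n3))
      (small _ _ _ _ hv (by rw [show β * B - B * β = 0 by ring, abs_zero]; exact hτ))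
      (small _ _ _ _ hv (by rw [show β * C - B * γ = β * C - γ * B by ring]; exact n1))
  · refine pm_aux (μ := C / γ) hd hD hb hτ hτ1 h1 h2 h3 (ratio _ _ hv g3)
      (small _ _ _ _ hv (by rw [show γ * A - C * α = γ * A - α * C by ring]; exact n2))
      (small _ _ _ _ hv (by
        rw [show γ * B - C * β = -(β * C - γ * B) by ring, abs_neg]; exact n1))
      (small _ _ _ _ hv (by rw [show γ * C - C * γ = 0 by ring, abs_zero]; exact hτ))

/-- one minor of two vectors which are nearly parallel to a third one -/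
lemma minor {v1 v2 v3 F1 F2 F3 G1 G2 G3 N κ : ℝ}
    (hv : 1 / 3 ≤ |v1| ∨ 1 / 3 ≤ |v2| ∨ 1 / 3 ≤ |v3|)
    (a1 : |F1| ≤ N) (a2 : |F2| ≤ N) (a3 : |F3| ≤ N) (b1 : |G1| ≤ N) (b2 : |G2| ≤ N)
    (b3 : |G3| ≤ N)
    (p1 : |v2 * F3 - v3 * F2| ≤ κ) (p2 : |v3 * F1 - v1 * F3| ≤ κ) (p3 : |v1 * F2 - v2 * F1| ≤ κ)
    (q1 : |v2 * G3 - v3 * G2| ≤ κ) (q2 : |v3 * G1 - v1 * G3| ≤ κ) (q3 : |v1 * G2 - v2 * G1| ≤ κ) :
    |F1 * G2 - F2 * G1| ≤ 9 * N * κ := by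
  have hκ : 0 ≤ κ := (abs_nonneg _).trans p1
  have hN : 0 ≤ N := (abs_nonneg _).trans a1
  have pr : ∀ s t : ℝ, |s| ≤ N → |t| ≤ κ → |s * t| ≤ N * κ := by
    intro s t hs ht
    rw [abs_mul]; exact mul_le_mul hs ht (abs_nonneg _) hN
  set m := F1 * G2 - F2 * G1 with hm
  have fin : ∀ v : ℝ, 1 / 3 ≤ |v| → |v * m| ≤ 3 * (N * κ) → |m| ≤ 9 * N * κ := by
    intro v hv h
    rw [abs_mul] at h
    nlinarith [abs_nonneg m]
  rcases hv with hv | hv | hv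
  · apply fin v1 hv
    have : v1 * m = F1 * (v1 * G2 - v2 * G1) - G1 * (v1 * F2 - v2 * F1) := by rw [hm]; ring
    rw [this]
    refine (abs_sub _ _).trans ?_
    have := pr _ _ a1 q3
    have := pr _ _ b1 p3
    have : 0 ≤ N * κ := mul_nonneg hN hκ
    linarith
  · apply fin v2 hv
    have : v2 * m = F2 * (v1 * G2 - v2 * G1) - G2 * (v1 * F2 - v2 * F1) := by rw [hm]; ring
    rw [this]
    refine (abs_sub _ _).trans ?_
    have := pr _ _ a2 q3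
    have := pr _ _ b2 p3
    have : 0 ≤ N * κ := mul_nonneg hN hκ
    linarith
  · apply fin v3 hv
    have h2 : 2 * (v3 * m) = (G2 * (v3 * F1 - v1 * F3) - F2 * (v3 * G1 - v1 * G3)) +
        (F3 * (v1 * G2 - v2 * G1) - G3 * (v1 * F2 - v2 * F1)) +
        (G1 * (v2 * F3 - v3 * F2) - F1 * (v2 * G3 - v3 * G2)) := by rw [hm]; ring
    have t1 := abs_le.1 (pr _ _ b2 p2)
    have t2 := abs_le.1 (pr _ _ a2 q2)
    have t3 := abs_le.1 (pr _ _ a3 q3)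
    have t4 := abs_le.1 (pr _ _ b3 p3)
    have t5 := abs_le.1 (pr _ _ b1 p1)
    have t6 := abs_le.1 (pr _ _ a1 q1)
    rw [abs_le]
    constructor <;> linarith [t1.1, t1.2, t2.1, t2.2, t3.1, t3.2, t4.1, t4.2, t5.1, t5.2, t6.1, t6.2]

/-- the vector product of the geodesic and the form of the matrix -/
lemma uvw {α β γ a b c d D V1 V2 V3 : ℝ} (hD : D = a * d - b * c) (hD0 : 0 < D)
    (h1 : c₁ α β γ a c = D * V1) (h2 : c₂ α β γ a b c d = D * V2) (h3 : c₁ α β γ b d = D * V3) :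
    β * c - α * (d - a) = d * (V1 - α) - c * (V2 - β) / 2 ∧
      γ * c + α * b = a * (V2 - β) / 2 - b * (V1 - α) ∧
      β * b + γ * (d - a) = a * (V3 - γ) - b * (V2 - β) / 2 := by
  unfold c₁ at h1 h3
  unfold c₂ at h2
  refine ⟨?_, ?_, ?_⟩
  · apply mul_left_cancel₀ hD0.ne'
    have : D * (d * (V1 - α) - c * (V2 - β) / 2) =
        d * (D * V1 - D * α) - c * (D * V2 - D * β) / 2 := by ring
    rw [this, ← h1, ← h2, hD]; ring
  · apply mul_left_cancel₀ hD0.ne'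
    have : D * (a * (V2 - β) / 2 - b * (V1 - α)) =
        a * (D * V2 - D * β) / 2 - b * (D * V1 - D * α) := by ring
    rw [this, ← h1, ← h2, hD]; ring
  · apply mul_left_cancel₀ hD0.ne'
    have : D * (a * (V3 - γ) - b * (V2 - β) / 2) =
        a * (D * V3 - D * γ) - b * (D * V2 - D * β) / 2 := by ring
    rw [this, ← h3, ← h2, hD]; ring

end Pool.Agent.Run7.h176.NC
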