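import Pool.Agent.Run7.h176.NC.Tube3
import Pool.Agent.Run7.h176.NC.Near

/-!
# Returns to a neighbourhood of a geodesic
-/

set_option autoImplicit false

open UpperHalfPlane Matrix
open scoped MatrixGroups

namespace Pool.Agent.Run7.h176.NC

lemma entries_Q {y₀ Y R s : ℝ} (hy₀ : 0 < y₀) (hR : 1 ≤ R) (hs : 0 ≤ s) (hs2 : Y / y₀ ≤ s ^ 2)
    {z : ℍ} {A : Mat} (hA : 0 < A.det) {X : ℝ} (hX : 0 ≤ X) (hdet : (A.det : ℝ) ≤ X ^ 4)
    (hz1 : y₀ ≤ z.im) (hz2 : z.im ≤ Y) (hz4 : Complex.normSq (z : ℂ) ≤ R ^ 2)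
    (hw1 : y₀ ≤ (GM A • z).im)
    (hw4 : Complex.normSq ((GM A • z : ℍ) : ℂ) ≤ R ^ 2) :
    ∀ i j, |(A i j : ℝ)| ≤ R * s * (1 + R / y₀) * X ^ 2 := by
  have hn : ∀ t : ℍ, Complex.normSq (t : ℂ) ≤ R ^ 2 → ‖(t : ℂ)‖ ≤ R := by
    intro t ht
    rw [Complex.normSq_eq_norm_sq] at ht
    exact (pow_le_pow_iff_left₀ (norm_nonneg _) (by linarith) two_ne_zero).1 ht
  have hz3 := hn z hz4
  have hw3 := hn _ hw4
  set w : ℍ := GM A • z with hw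
  have hdet0 : (0 : ℝ) < A.det := by exact_mod_cast hA
  set dn : ℂ := (A 1 0 : ℂ) * z + A 1 1 with hdn
  have hdn0 : dn ≠ 0 := denom_ne hA z
  have hns : Complex.normSq dn = A.det * z.im / w.im := by
    have h1 : w.im = A.det * z.im / Complex.normSq dn := im_GM hA z
    have h2 : Complex.normSq dn ≠ 0 := by simpa using hdn0
    have h3 : w.im ≠ 0 := w.im_pos.ne'
    field_simp
    rw [h1]
    field_simp
  set Q : ℝ := s * X ^ 2 with hQ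
  have hQ0 : 0 ≤ Q := by positivity
  have hdnQ : ‖dn‖ ≤ Q := by
    have h1 : ‖dn‖ ^ 2 ≤ Q ^ 2 := by
      rw [← Complex.normSq_eq_norm_sq, hns, div_le_iff₀ w.im_pos]
      have h2 : Q ^ 2 = s ^ 2 * X ^ 4 := by rw [hQ]; ring
      rw [h2]
      calc (A.det : ℝ) * z.im ≤ X ^ 4 * Y := mul_le_mul hdet hz2 z.im_pos.le (by positivity)
        _ = Y / y₀ * X ^ 4 * y₀ := by field_simp
        _ ≤ s ^ 2 * X ^ 4 * w.im := by
            apply mul_le_mul _ hw1 hy₀.le (by positivity)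
            exact mul_le_mul_of_nonneg_right hs2 (by positivity)
    exact (pow_le_pow_iff_left₀ (norm_nonneg _) hQ0 two_ne_zero).1 h1
  have lead : ∀ (p r : ℤ) (Q' : ℝ), ‖(p : ℂ) * z + r‖ ≤ Q' →
      |(p : ℝ)| ≤ Q' / y₀ ∧ |(r : ℝ)| ≤ Q' + Q' / y₀ * R := by
    intro p r Q' h
    have h0 : 0 ≤ Q' := (norm_nonneg _).trans h
    have hp : |(p : ℝ)| ≤ Q' / y₀ := by
      rw [le_div_iff₀ hy₀]
      have h1 : ((p : ℂ) * z + r).im = (p : ℝ) * z.im := by simp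
      calc |(p : ℝ)| * y₀ ≤ |(p : ℝ)| * z.im := mul_le_mul_of_nonneg_left hz1 (abs_nonneg _)
        _ = |((p : ℂ) * z + r).im| := by rw [h1, abs_mul, abs_of_pos z.im_pos]
        _ ≤ ‖(p : ℂ) * z + r‖ := Complex.abs_im_le_norm _
        _ ≤ Q' := h
    refine ⟨hp, ?_⟩
    have h1 : (r : ℂ) = ((p : ℂ) * z + r) - (p : ℂ) * z := by ring
    have h2 : |(r : ℝ)| = ‖(r : ℂ)‖ := by rw [Complex.norm_intCast]
    rw [h2, h1]
    calc ‖((p : ℂ) * z + r) - (p : ℂ) * z‖ ≤ ‖(p : ℂ) * z + r‖ + ‖(p : ℂ) * z‖ := norm_sub_le _ _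
      _ = ‖(p : ℂ) * z + r‖ + |(p : ℝ)| * ‖(z : ℂ)‖ := by rw [norm_mul (p : ℂ), Complex.norm_intCast]
      _ ≤ Q' + Q' / y₀ * R := add_le_add h (mul_le_mul hp hz3 (norm_nonneg _) (by positivity))
  obtain ⟨hc, hd⟩ := lead _ _ Q hdnQ
  have hnum : (A 0 0 : ℂ) * z + A 0 1 = w * dn := by
    rw [hw, coe_GM hA, div_mul_cancel₀ _ hdn0]
  have hnumQ : ‖(A 0 0 : ℂ) * z + A 0 1‖ ≤ R * Q := by
    rw [hnum, norm_mul]
    exact mul_le_mul hw3 hdnQ (norm_nonneg _) (by linarith)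
  obtain ⟨ha, hb⟩ := lead _ _ (R * Q) hnumQ
  have hyy : 0 < 1 / y₀ := by positivity
  have hRy : 1 / y₀ ≤ R / y₀ := div_le_div_of_nonneg_right hR hy₀.le
  have tot : R * s * (1 + R / y₀) * X ^ 2 = R * Q + R * Q * (R / y₀) := by rw [hQ]; ring
  have hRQ : Q ≤ R * Q := le_mul_of_one_le_left hQ0 hR
  have hRQ0 : 0 ≤ R * Q := by positivity
  have k1 : Q / y₀ ≤ R * Q * (R / y₀) := by
    rw [div_eq_mul_one_div]
    exact mul_le_mul hRQ hRy hyy.le hRQ0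
  have k2 : R * Q / y₀ ≤ R * Q * (R / y₀) := by
    rw [div_eq_mul_one_div (R * Q)]
    exact mul_le_mul_of_nonneg_left hRy hRQ0
  have k3 : Q / y₀ * R ≤ R * Q * (R / y₀) := by
    have : Q / y₀ * R = Q * (R / y₀) := by ring
    rw [this]
    exact mul_le_mul_of_nonneg_right hRQ (by positivity)
  have k4 : R * Q / y₀ * R = R * Q * (R / y₀) := by ring
  rw [tot]
  intro i j
  fin_cases i <;> fin_cases j
  · change |(A 0 0 : ℝ)| ≤ _; linarith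
  · change |(A 0 1 : ℝ)| ≤ _; linarith
  · change |(A 1 0 : ℝ)| ≤ _; linarith
  · change |(A 1 1 : ℝ)| ≤ _; linarith

/-- the images of the vector under the matrix, normalised -/
noncomputable def W1 (α β γ : ℝ) (A : Mat) : ℝ := c₁ α β γ (A 0 0) (A 1 0) / A.det
noncomputable def W2 (α β γ : ℝ) (A : Mat) : ℝ :=
  c₂ α β γ (A 0 0) (A 0 1) (A 1 0) (A 1 1) / A.det
noncomputable def W3 (α β γ : ℝ) (A : Mat) : ℝ := c₁ α β γ (A 0 1) (A 1 1) / A.det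

lemma W_disc {α β γ : ℝ} (hd : β ^ 2 - 4 * α * γ = 1) {A : Mat} (hA : 0 < A.det) :
    W2 α β γ A ^ 2 - 4 * W1 α β γ A * W3 α β γ A = 1 := by
  have hD : (A.det : ℝ) ≠ 0 := by exact_mod_cast hA.ne'
  have hdet : (A.det : ℝ) = A 0 0 * A 1 1 - A 0 1 * A 1 0 := by
    rw [Matrix.det_fin_two]; push_cast; ring
  unfold W1 W2 W3
  field_simp
  have h1 : (c₂ α β γ (A 0 0) (A 0 1) (A 1 0) (A 1 1)) ^ 2 -
      4 * c₁ α β γ (A 0 0) (A 1 0) * c₁ α β γ (A 0 1) (A 1 1) =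
      ((A 0 0 : ℝ) * A 1 1 - A 0 1 * A 1 0) ^ 2 * (β ^ 2 - 4 * α * γ) := by
    unfold c₁ c₂; ring
  rw [h1, hd, hdet]; ring

/-- composition -/
lemma W_mul {α β γ : ℝ} {A B C : Mat} {k : ℤ} (hk : k ≠ 0) (hA : 0 < A.det) (hB : 0 < B.det)
    (h : A * B = k • C) :
    W1 α β γ C = W1 (W1 α β γ A) (W2 α β γ A) (W3 α β γ A) B ∧
      W2 α β γ C = W2 (W1 α β γ A) (W2 α β γ A) (W3 α β γ A) B ∧
      W3 α β γ C = W3 (W1 α β γ A) (W2 α β γ A) (W3 α β γ A) B := by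
  have hkr : (k : ℝ) ≠ 0 := by exact_mod_cast hk
  have hDA : (A.det : ℝ) ≠ 0 := by exact_mod_cast hA.ne'
  have hDB : (B.det : ℝ) ≠ 0 := by exact_mod_cast hB.ne'
  have hdet : (A.det : ℝ) * B.det = k ^ 2 * C.det := by
    have h1 : (A * B).det = (k • C).det := by rw [h]
    rw [Matrix.det_mul, det_smul_int] at h1
    exact_mod_cast h1
  have hDC : (C.det : ℝ) ≠ 0 := by
    intro h0
    rw [h0, mul_zero] at hdet
    exact mul_ne_zero hDA hDB hdet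
  have ent : ∀ i j, (A i 0 : ℝ) * B 0 j + A i 1 * B 1 j = k * C i j := by
    intro i j
    have h1 := congrFun (congrFun h i) j
    rw [Matrix.mul_apply, Fin.sum_univ_two, Matrix.smul_apply, smul_eq_mul] at h1
    exact_mod_cast h1
  have e00 := ent 0 0
  have e01 := ent 0 1
  have e10 := ent 1 0
  have e11 := ent 1 1
  have key : ∀ p q : ℝ, p / C.det = q / (A.det * B.det) ↔ k ^ 2 * p = q := by
    intro p q
    rw [hdet, div_eq_div_iff hDC (by positivity)]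
    constructor
    · intro h5
      apply mul_right_cancel₀ hDC
      linear_combination h5
    · intro h5
      linear_combination (C.det : ℝ) * h5
  unfold W1 W2 W3
  refine ⟨?_, ?_, ?_⟩
  · have r : c₁ (c₁ α β γ (A 0 0) (A 1 0) / A.det)
        (c₂ α β γ (A 0 0) (A 0 1) (A 1 0) (A 1 1) / A.det) (c₁ α β γ (A 0 1) (A 1 1) / A.det)
        (B 0 0) (B 1 0) / B.det =
        c₁ α β γ (A 0 0 * B 0 0 + A 0 1 * B 1 0) (A 1 0 * B 0 0 + A 1 1 * B 1 0) /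
          (A.det * B.det) := by
      unfold c₁ c₂; field_simp; ring
    rw [r, key, e00, e10]
    unfold c₁; ring
  · have r : c₂ (c₁ α β γ (A 0 0) (A 1 0) / A.det)
        (c₂ α β γ (A 0 0) (A 0 1) (A 1 0) (A 1 1) / A.det) (c₁ α β γ (A 0 1) (A 1 1) / A.det)
        (B 0 0) (B 0 1) (B 1 0) (B 1 1) / B.det =
        c₂ α β γ (A 0 0 * B 0 0 + A 0 1 * B 1 0) (A 0 0 * B 0 1 + A 0 1 * B 1 1)
          (A 1 0 * B 0 0 + A 1 1 * B 1 0) (A 1 0 * B 0 1 + A 1 1 * B 1 1) /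
          (A.det * B.det) := by
      unfold c₁ c₂; field_simp; ring
    rw [r, key, e00, e10, e01, e11]
    unfold c₂; ring
  · have r : c₁ (c₁ α β γ (A 0 0) (A 1 0) / A.det)
        (c₂ α β γ (A 0 0) (A 0 1) (A 1 0) (A 1 1) / A.det) (c₁ α β γ (A 0 1) (A 1 1) / A.det)
        (B 0 1) (B 1 1) / B.det =
        c₁ α β γ (A 0 0 * B 0 1 + A 0 1 * B 1 1) (A 1 0 * B 0 1 + A 1 1 * B 1 1) /
          (A.det * B.det) := by
      unfold c₁ c₂; field_simp; ring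
    rw [r, key, e01, e11]
    unfold c₁; ring

/-- the image of a small vector -/
lemma W_small {e1 e2 e3 ρ N : ℝ} {B : Mat} (hB : 0 < B.det) (hN : ∀ i j, |(B i j : ℝ)| ≤ N)
    (h1 : |e1| ≤ ρ) (h2 : |e2| ≤ ρ) (h3 : |e3| ≤ ρ) :
    |W1 e1 e2 e3 B| ≤ 6 * N ^ 2 * ρ ∧ |W2 e1 e2 e3 B| ≤ 6 * N ^ 2 * ρ ∧
      |W3 e1 e2 e3 B| ≤ 6 * N ^ 2 * ρ := by
  have hD1 : (1 : ℝ) ≤ B.det := by exact_mod_cast hB
  have hN0 : 0 ≤ N := (abs_nonneg _).trans (hN 0 0)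
  have hρ0 : 0 ≤ ρ := (abs_nonneg _).trans h1
  have pr : ∀ e : ℝ, |e| ≤ ρ → ∀ i j k l, |e * ((B i j : ℝ) * B k l)| ≤ N ^ 2 * ρ := by
    intro e he i j k l
    rw [abs_mul, abs_mul]
    calc |e| * (|(B i j : ℝ)| * |(B k l : ℝ)|) ≤ ρ * (N * N) :=
          mul_le_mul he (mul_le_mul (hN i j) (hN k l) (abs_nonneg _) hN0) (by positivity) hρ0
      _ = N ^ 2 * ρ := by ring
  have dv : ∀ x : ℝ, |x| ≤ 6 * N ^ 2 * ρ → |x / B.det| ≤ 6 * N ^ 2 * ρ := by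
    intro x hx
    rw [abs_div, abs_of_pos (by linarith : (0 : ℝ) < B.det)]
    exact (div_le_self (abs_nonneg _) hD1).trans hx
  have h0 : 0 ≤ N ^ 2 * ρ := by positivity
  refine ⟨dv _ ?_, dv _ ?_, dv _ ?_⟩
  · unfold c₁
    have t1 := abs_le.1 (pr e1 h1 0 0 0 0)
    have t2 := abs_le.1 (pr e2 h2 0 0 1 0)
    have t3 := abs_le.1 (pr e3 h3 1 0 1 0)
    rw [abs_le]
    constructor <;> nlinarith [t1.1, t1.2, t2.1, t2.2, t3.1, t3.2]
  · unfold c₂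
    have t1 := abs_le.1 (pr e1 h1 0 0 0 1)
    have t2 := abs_le.1 (pr e2 h2 0 0 1 1)
    have t3 := abs_le.1 (pr e2 h2 0 1 1 0)
    have t4 := abs_le.1 (pr e3 h3 1 0 1 1)
    rw [abs_le]
    constructor <;> nlinarith [t1.1, t1.2, t2.1, t2.2, t3.1, t3.2, t4.1, t4.2]
  · unfold c₁
    have t1 := abs_le.1 (pr e1 h1 0 1 0 1)
    have t2 := abs_le.1 (pr e2 h2 0 1 1 1)
    have t3 := abs_le.1 (pr e3 h3 1 1 1 1)
    rw [abs_le]
    constructor <;> nlinarith [t1.1, t1.2, t2.1, t2.2, t3.1, t3.2]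

end Pool.Agent.Run7.h176.NC
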