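import Pool.Agent.Run7.h176.NC.Tube2

/-!
# The main inequality with two classes
-/

set_option autoImplicit false

open UpperHalfPlane Matrix MeasureTheory
open scoped MatrixGroups ENNReal Modular

namespace Pool.Agent.Run7.h176.NC

/-- **Main inequality away from a form, two classes.** -/
theorem main_off2 {K E : Set ℍ} (hK : IsCompact K) (hEK : E ⊆ K) (hEm : MeasurableSet E)
    {u v w x y t : ℤ} (hbez : x * u + y * v + t * w = 1) {P : Finset ℕ}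
    (hP : ∀ p ∈ P, p.Prime ∧ 3 ≤ p) {X : ℕ} (hX1 : 1 ≤ X) (hX : ∀ p ∈ P, p ≤ X)
    (T : Mat → Mat → Prop)
    (hE : ∀ N N₀ : Mat, T N N₀ → 0 < (N.adjugate * N₀).det →
      (N.adjugate * N₀).det ≤ ((X ^ 4 : ℕ) : ℤ) → (∃ x ∈ E, GM (N.adjugate * N₀) • x ∈ E) →
      Alg u v w (N.adjugate * N₀))
    (hT : ∀ N N₁ N₀ : Mat, 0 < N.det → N.det ≤ ((X ^ 2 : ℕ) : ℤ) → 0 < N₁.det →
      N₁.det ≤ ((X ^ 2 : ℕ) : ℤ) → 0 < N₀.det → N₀.det ≤ ((X ^ 2 : ℕ) : ℤ) →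
      (∃ x ∈ E, GM (N.adjugate * N₀) • x ∈ E) → (∃ x ∈ E, GM (N₁.adjugate * N₀) • x ∈ E) →
      (∃ x ∈ E, GM (N.adjugate * N₁) • x ∈ E) → ¬ T N N₀ → ¬ T N₁ N₀ → T N N₁)
    {f : ℍ → ℂ} {l : ℕ → ℂ} (H : HeckeForm f l) {C₀ θ s q : ℝ} (hC₀ : 1 ≤ C₀) (hq : 1 ≤ q)
    (hq3 : q ≤ 3) (hs1 : s ≤ 3 - q) (hs2 : s ≤ 2 - (1 / 2 + θ) * q)
    (hl : ∀ p : ℕ, p.Prime → ‖l p‖ ≤ C₀ * (p : ℝ) ^ θ) :
    2 * (ENNReal.ofReal (1 + ∑ p ∈ P, (p : ℝ) ^ (s - 1) / (12 * C₀ ^ q)) *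
        ∫⁻ z in E, ‖f z‖ₑ ^ q) ≤
      ((2 * Nat.card {γ : SL(2, ℤ) // ∃ x ∈ K, γ • x ∈ K} : ℕ) : ℝ≥0∞) *
        ∫⁻ z in 𝒟, ‖f z‖ₑ ^ q := by
  classical
  have hPp : ∀ p ∈ P, p.Prime := fun p hp => (hP p hp).1
  have hRmem : ∀ M ∈ RO u v w P, ∃ m b : ℕ, M = TT m b ∧ Adm m ∧ m ≤ X ^ 2 ∧ b < m ∧
      IsCoprime (qv u v w b) (m : ℤ) := by
    intro M hM
    unfold RO at hM
    obtain ⟨⟨m, b⟩, hmb, rfl⟩ := Finset.mem_image.1 hM
    obtain ⟨h1, h2⟩ := Finset.mem_sigma.1 hmb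
    obtain ⟨h3, h4⟩ := mem_Bp.1 h2
    exact ⟨m, b, rfl, Lv_adm hPp h1, Lv_le hX1 hX h1, h3, h4⟩
  have hRhn : ∀ M ∈ RO u v w P, HN M := by
    intro M hM
    obtain ⟨m, b, rfl, _, _, h3, _⟩ := hRmem M hM
    refine ⟨by simp [TT], by simp [TT], by simp [TT], ?_⟩
    simp only [TT, Matrix.of_apply, Matrix.cons_val', Matrix.cons_val_zero, Matrix.cons_val_one,
      Matrix.cons_val_fin_one]
    exact_mod_cast h3
  have hRq : ∀ M ∈ RO u v w P, ∀ M₀ ∈ RO u v w P, ∀ γ γ₀ : SL(2, ℤ),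
      T (γ.1.adjugate * M) (γ₀.1.adjugate * M₀) →
      (∃ x ∈ E, GM ((γ.1.adjugate * M).adjugate * (γ₀.1.adjugate * M₀)) • x ∈ E) →
        ∃ v : SL(2, ℤ), γ₀.1.adjugate * M₀ = γ.1.adjugate * M * v.1 := by
    intro M hM M₀ hM₀ γ γ₀ hTT hx
    obtain ⟨m, b, rfl, ha, hle, _, hc⟩ := hRmem M hM
    obtain ⟨m', b', rfl, ha', hle', _, hc'⟩ := hRmem M₀ hM₀
    have hdet : ((γ.1.adjugate * TT m b).adjugate * (γ₀.1.adjugate * TT m' b')).det =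
        (m : ℤ) * m' := by
      rw [Matrix.det_mul, Matrix.det_adjugate, Matrix.det_mul, Matrix.det_mul,
        Matrix.det_adjugate, Matrix.det_adjugate, γ.2, γ₀.2, TT_det, TT_det]
      simp
    apply off_quot ha ha' hc hc' γ γ₀
    apply hE _ _ hTT _ _ hx
    · rw [hdet]
      have := ha.pos
      have := ha'.pos
      positivity
    · rw [hdet]
      have : m * m' ≤ X ^ 4 := by
        calc m * m' ≤ X ^ 2 * X ^ 2 := Nat.mul_le_mul hle hle'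
          _ = X ^ 4 := by ring
      exact_mod_cast this
  have hNdet : ∀ N : Mat, (∃ M ∈ RO u v w P, ∃ γ : SL(2, ℤ), N = γ.1.adjugate * M) →
      0 < N.det ∧ N.det ≤ ((X ^ 2 : ℕ) : ℤ) := by
    rintro N ⟨M, hM, γ, rfl⟩
    obtain ⟨m, b, rfl, ha, hle, _, hc⟩ := hRmem M hM
    rw [Matrix.det_mul, Matrix.det_adjugate, γ.2, TT_det]
    have := ha.pos
    refine ⟨by simpa using this, ?_⟩
    simp only [Fintype.card_fin, Nat.add_one_sub_one, one_pow, one_mul]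
    exact_mod_cast hle
  have hcount := countQ2 (RO u v w P) hRhn hK hEK T hRq
    (fun N N₁ N₀ h h₁ h₀ r1 r2 r3 t1 t2 => hT N N₁ N₀ (hNdet N h).1 (hNdet N h).2 (hNdet N₁ h₁).1
      (hNdet N₁ h₁).2 (hNdet N₀ h₀).1 (hNdet N₀ h₀).2 r1 r2 r3 t1 t2)
  set h : ℍ → ℝ≥0∞ := fun z => ‖f z‖ₑ ^ q with hh
  have hmeas : Measurable h := H.measurable.enorm.pow_const q
  have hinv : ∀ (γ : SL(2, ℤ)) (z : ℍ), h (γ • z) = h z := by
    intro γ z; simp only [hh, H.invariant]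
  have hreal : ∀ z, h z = ENNReal.ofReal (‖f z‖ ^ q) := by
    intro z
    change ‖f z‖ₑ ^ q = _
    rw [← ofReal_norm, ENNReal.ofReal_rpow_of_nonneg (norm_nonneg _) (by linarith)]
  have hC0 : (0 : ℝ) < C₀ ^ q := Real.rpow_pos_of_pos (by linarith) _
  have hpt : ∀ z : ℍ, ENNReal.ofReal (1 + ∑ p ∈ P, (p : ℝ) ^ (s - 1) / (12 * C₀ ^ q)) * h z ≤
      ∑ M ∈ RO u v w P, h (GM M • z) := by
    intro z
    rw [hreal z, ← ENNReal.ofReal_mul' (by positivity),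
      Finset.sum_congr rfl (fun M _ => hreal (GM M • z)),
      ← ENNReal.ofReal_sum_of_nonneg (fun M _ => by positivity)]
    apply ENNReal.ofReal_le_ofReal
    rw [sum_RO hPp, add_mul, one_mul, GM_one, one_smul, Finset.sum_mul]
    apply add_le_add_right
    apply Finset.sum_le_sum
    intro p hp
    exact off_point H hC₀ hq hq3 hs1 hs2 (hP p hp).1 (hP p hp).2 (hl p (hP p hp).1) hbez z
  have hSm : ∀ M ∈ RO u v w P, MeasurableSet {x : ℍ | GM M.adjugate • x ∈ E} := by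
    intro M _
    exact (measurePreserving_smul (GM M.adjugate) (volume : Measure ℍ)).measurable hEm
  have hchange : ∀ M ∈ RO u v w P, ∫⁻ z in E, h (GM M • z) =
      ∫⁻ z in {x : ℍ | GM M.adjugate • x ∈ E}, h z := by
    intro M hM
    have hd : 0 < M.det := (hRhn M hM).det_pos
    rw [← (measurePreserving_smul (GM M) (volume : Measure ℍ)).setLIntegral_comp_preimage
      (hSm M hM) hmeas]
    congr 2
    ext z
    simp only [Set.mem_preimage, Set.mem_ofPred_eq, adj_smul hd]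
  have hstep : ENNReal.ofReal (1 + ∑ p ∈ P, (p : ℝ) ^ (s - 1) / (12 * C₀ ^ q)) *
      ∫⁻ z in E, h z ≤
      ∑ M ∈ RO u v w P, ∫⁻ z in {x : ℍ | GM M.adjugate • x ∈ E}, h z := by
    have hs : ∫⁻ z in E, ∑ M ∈ RO u v w P, h (GM M • z) =
        ∑ M ∈ RO u v w P, ∫⁻ z in E, h (GM M • z) := by
      apply lintegral_finsetSum'
      intro M _
      exact (hmeas.comp
        (measurePreserving_smul (GM M) (volume : Measure ℍ)).measurable).aemeasurable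
    rw [← lintegral_const_mul _ hmeas, ← Finset.sum_congr rfl hchange, ← hs]
    exact lintegral_mono hpt
  calc 2 * (ENNReal.ofReal (1 + ∑ p ∈ P, (p : ℝ) ^ (s - 1) / (12 * C₀ ^ q)) *
        ∫⁻ z in E, h z)
      ≤ 2 * ∑ M ∈ RO u v w P, ∫⁻ z in {x : ℍ | GM M.adjugate • x ∈ E}, h z :=
        mul_le_mul_right hstep 2
    _ ≤ _ := unfold (RO u v w P) _ hSm h hmeas hinv _ hcount

end Pool.Agent.Run7.h176.NC
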