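import Pool.Agent.Run7.h176.NC.Tube4
import Pool.Agent.Run7.h176.NC.CuspCurve

/-!
# The algebra of the matrices which nearly preserve a geodesic
-/

set_option autoImplicit false

open UpperHalfPlane Matrix
open scoped MatrixGroups

namespace Pool.Agent.Run7.h176.NC

/-- the image of the vector is close to the vector -/
def Cls (ρ α β γ : ℝ) (A : Mat) : Prop :=
  |W1 α β γ A - α| ≤ ρ ∧ |W2 α β γ A - β| ≤ ρ ∧ |W3 α β γ A - γ| ≤ ρ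

/-- the image of the vector is close to minus the vector -/
def ClsM (ρ α β γ : ℝ) (A : Mat) : Prop :=
  |W1 α β γ A + α| ≤ ρ ∧ |W2 α β γ A + β| ≤ ρ ∧ |W3 α β γ A + γ| ≤ ρ

lemma cls_cross {ρ α β γ N : ℝ} {A : Mat} (hA : 0 < A.det) (hN : ∀ i j, |(A i j : ℝ)| ≤ N)
    (h : Cls ρ α β γ A) :
    |β * (-(A 0 1 : ℝ)) - γ * ((A 1 1 : ℝ) - A 0 0)| ≤ 2 * N * ρ ∧
      |γ * (A 1 0 : ℝ) - α * (-(A 0 1 : ℝ))| ≤ 2 * N * ρ ∧
      |α * ((A 1 1 : ℝ) - A 0 0) - β * (A 1 0 : ℝ)| ≤ 2 * N * ρ := by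
  have hdet : (A.det : ℝ) = A 0 0 * A 1 1 - A 0 1 * A 1 0 := by
    rw [Matrix.det_fin_two]; push_cast; ring
  have hD0 : (0 : ℝ) < A.det := by exact_mod_cast hA
  obtain ⟨h1, h2, h3⟩ := h
  have hρ : 0 ≤ ρ := (abs_nonneg _).trans h1
  have hN0 : 0 ≤ N := (abs_nonneg _).trans (hN 0 0)
  have e1 : c₁ α β γ (A 0 0) (A 1 0) = A.det * W1 α β γ A := by
    unfold W1; field_simp
  have e2 : c₂ α β γ (A 0 0) (A 0 1) (A 1 0) (A 1 1) = A.det * W2 α β γ A := by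
    unfold W2; field_simp
  have e3 : c₁ α β γ (A 0 1) (A 1 1) = A.det * W3 α β γ A := by
    unfold W3; field_simp
  obtain ⟨r1, r2, r3⟩ := uvw hdet hD0 e1 e2 e3
  have bd : ∀ s t u v : ℝ, |s| ≤ N → |u| ≤ N → |t| ≤ ρ → |v| ≤ ρ →
      |s * t - u * v / 2| ≤ 2 * N * ρ ∧ |u * v / 2 - s * t| ≤ 2 * N * ρ := by
    intro s t u v hs hu ht hv
    have k1 : |s * t| ≤ N * ρ := by
      rw [abs_mul]; exact mul_le_mul hs ht (abs_nonneg _) hN0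
    have k2 : |u * v / 2| ≤ N * ρ := by
      rw [abs_div, abs_mul]
      have : |u| * |v| ≤ N * ρ := mul_le_mul hu hv (abs_nonneg _) hN0
      have h0 : 0 ≤ |u| * |v| := by positivity
      rw [abs_of_pos (by norm_num : (0 : ℝ) < 2)]
      linarith
    refine ⟨(abs_sub _ _).trans (by linarith), (abs_sub _ _).trans (by linarith)⟩
  refine ⟨?_, ?_, ?_⟩
  · have : β * (-(A 0 1 : ℝ)) - γ * ((A 1 1 : ℝ) - A 0 0) =
        -(β * (A 0 1 : ℝ) + γ * ((A 1 1 : ℝ) - A 0 0)) := by ring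
    rw [this, abs_neg, r3]
    exact (bd _ _ _ _ (hN 0 0) (hN 0 1) h3 h2).1
  · have : γ * (A 1 0 : ℝ) - α * (-(A 0 1 : ℝ)) = γ * (A 1 0 : ℝ) + α * (A 0 1 : ℝ) := by ring
    rw [this, r2]
    exact (bd _ _ _ _ (hN 0 1) (hN 0 0) h1 h2).2
  · have : α * ((A 1 1 : ℝ) - A 0 0) - β * (A 1 0 : ℝ) =
        -(β * (A 1 0 : ℝ) - α * ((A 1 1 : ℝ) - A 0 0)) := by ring
    rw [this, abs_neg, r1]
    exact (bd _ _ _ _ (hN 1 1) (hN 1 0) h1 h2).1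

/-- all matrices of a class of matrices which nearly preserve a geodesic lie in one algebra -/
lemma alg_class {ρ α β γ N : ℝ} (hd : β ^ 2 - 4 * α * γ = 1) (hN1 : 1 ≤ N)
    (hρ : ρ = 1 / (72 * N ^ 2)) (𝒜 : Mat → Prop)
    (h𝒜 : ∀ A, 𝒜 A → 0 < A.det ∧ (∀ i j, |(A i j : ℝ)| ≤ N) ∧ Cls ρ α β γ A) :
    ∃ u v w x y t : ℤ, x * u + y * v + t * w = 1 ∧ ∀ A, 𝒜 A → Alg u v w A := by
  have hN2 : 0 < N ^ 2 := by positivity
  have par : ∀ A A' : Mat, 𝒜 A → 𝒜 A' →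
      A 1 0 * (A' 1 1 - A' 0 0) = (A 1 1 - A 0 0) * A' 1 0 ∧
      (A 1 1 - A 0 0) * A' 0 1 = A 0 1 * (A' 1 1 - A' 0 0) ∧
      A 0 1 * A' 1 0 = A 1 0 * A' 0 1 := by
    intro A A' hA hA'
    obtain ⟨d1, n1, k1⟩ := h𝒜 A hA
    obtain ⟨d2, n2, k2⟩ := h𝒜 A' hA'
    obtain ⟨p1, p2, p3⟩ := cls_cross d1 n1 k1
    obtain ⟨q1, q2, q3⟩ := cls_cross d2 n2 k2
    have fb : ∀ C : Mat, (∀ i j, |(C i j : ℝ)| ≤ N) → |(C 1 0 : ℝ)| ≤ 2 * N ∧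
        |(C 1 1 : ℝ) - C 0 0| ≤ 2 * N ∧ |-(C 0 1 : ℝ)| ≤ 2 * N := by
      intro C hC
      refine ⟨(hC 1 0).trans (by linarith), (abs_sub _ _).trans (by linarith [hC 1 1, hC 0 0]), ?_⟩
      rw [abs_neg]; exact (hC 0 1).trans (by linarith)
    obtain ⟨a1, a2, a3⟩ := fb A n1
    obtain ⟨b1, b2, b3⟩ := fb A' n2
    have hv := disc_big hd
    have lt1 : 9 * (2 * N) * (2 * N * ρ) < 1 := by
      rw [hρ]
      have : 9 * (2 * N) * (2 * N * (1 / (72 * N ^ 2))) = 1 / 2 := by field_simp; norm_num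
      rw [this]; norm_num
    have z : ∀ n : ℤ, |(n : ℝ)| ≤ 9 * (2 * N) * (2 * N * ρ) → n = 0 := by
      intro n hn
      exact int_zero one_pos (by rw [mul_one]; exact hn) lt1
    have m1 := minor hv a1 a2 a3 b1 b2 b3 p1 p2 p3 q1 q2 q3
    have hv2 : 1 / 3 ≤ |β| ∨ 1 / 3 ≤ |γ| ∨ 1 / 3 ≤ |α| := by tauto
    have m2 := minor hv2 a2 a3 a1 b2 b3 b1 p2 p3 p1 q2 q3 q1
    have hv3 : 1 / 3 ≤ |γ| ∨ 1 / 3 ≤ |α| ∨ 1 / 3 ≤ |β| := by tauto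
    have m3 := minor hv3 a3 a1 a2 b3 b1 b2 p3 p1 p2 q3 q1 q2
    have z1 := z (A 1 0 * (A' 1 1 - A' 0 0) - (A 1 1 - A 0 0) * A' 1 0) (by push_cast; exact m1)
    have z2 := z ((A 1 1 - A 0 0) * (-(A' 0 1)) - (-(A 0 1)) * (A' 1 1 - A' 0 0))
      (by push_cast; exact m2)
    have z3 := z ((-(A 0 1)) * A' 1 0 - A 1 0 * (-(A' 0 1))) (by push_cast; exact m3)
    refine ⟨by linarith, by linarith, by linarith⟩
  by_cases hall : ∃ A₁, 𝒜 A₁ ∧ ¬ (A₁ 1 0 = 0 ∧ A₁ 1 1 - A₁ 0 0 = 0 ∧ -(A₁ 0 1) = 0)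
  · obtain ⟨A₁, hA₁, hne⟩ := hall
    obtain ⟨g, u, v, w, x, y, t, hg, f1, f2, f3, hbez⟩ := prim_form3 hne
    refine ⟨u, v, w, x, y, t, hbez, fun A hA => ?_⟩
    obtain ⟨r1, r2, r3⟩ := par A A₁ hA hA₁
    have f3' : A₁ 0 1 = -(g * w) := by linarith
    rw [f1, f2] at r1
    rw [f2, f3'] at r2
    rw [f1, f3'] at r3
    have q1 : u * (A 1 1 - A 0 0) = A 1 0 * v := by
      apply mul_left_cancel₀ hg; linear_combination -r1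
    have q2 : u * A 0 1 = -(A 1 0 * w) := by
      apply mul_left_cancel₀ hg; linear_combination r3
    have q3 : (A 1 1 - A 0 0) * w = -(v * A 0 1) := by
      apply mul_left_cancel₀ hg; linear_combination -r2
    refine ⟨A 1 0 * x + (A 1 1 - A 0 0) * y - A 0 1 * t, ?_, ?_, ?_⟩
    · linear_combination (-A 1 0) * hbez - y * q1 + t * q2
    · linear_combination (-(A 1 1 - A 0 0)) * hbez + x * q1 + t * q3
    · linear_combination (-A 0 1) * hbez + x * q2 + y * q3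
  · push Not at hall
    refine ⟨1, 0, 0, 1, 0, 0, by ring, fun A hA => ?_⟩
    obtain ⟨r1, r2, r3⟩ := hall A hA
    exact ⟨0, by rw [r1]; ring, by rw [r2]; ring, by rw [neg_eq_zero.1 r3]; ring⟩

/-- the classes are consistent -/
lemma cls_trans {ρ α β γ N : ℝ} (hd : β ^ 2 - 4 * α * γ = 1) (hN1 : 1 ≤ N)
    (hρ : ρ = 1 / (72 * N ^ 2)) {A A₁ A₂ : Mat} {k : ℤ} (hk : k ≠ 0)
    (hA₂ : 0 < A₂.det) (hA₁ : 0 < A₁.det) (hmul : A₂ * A₁ = k • A)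
    (hN : ∀ i j, |(A₁ i j : ℝ)| ≤ N) (hc : ClsM ρ α β γ A) (hc₁ : ClsM ρ α β γ A₁) :
    ¬ ClsM ρ α β γ A₂ := by
  intro hc₂
  obtain ⟨w1, w2, w3⟩ := W_mul (α := α) (β := β) (γ := γ) hk hA₂ hA₁ hmul
  obtain ⟨x1, x2, x3⟩ := hc
  obtain ⟨y1, y2, y3⟩ := hc₁
  obtain ⟨z1, z2, z3⟩ := hc₂
  have hρ0 : 0 ≤ ρ := (abs_nonneg _).trans x1
  obtain ⟨s1, s2, s3⟩ := W_small hA₁ hN z1 z2 z3
  have l1 : W1 (W1 α β γ A₂) (W2 α β γ A₂) (W3 α β γ A₂) A₁ =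
      W1 (W1 α β γ A₂ + α) (W2 α β γ A₂ + β) (W3 α β γ A₂ + γ) A₁ - W1 α β γ A₁ := by
    unfold W1 c₁; ring
  have l2 : W2 (W1 α β γ A₂) (W2 α β γ A₂) (W3 α β γ A₂) A₁ =
      W2 (W1 α β γ A₂ + α) (W2 α β γ A₂ + β) (W3 α β γ A₂ + γ) A₁ - W2 α β γ A₁ := by
    unfold W2 c₂; ring
  have l3 : W3 (W1 α β γ A₂) (W2 α β γ A₂) (W3 α β γ A₂) A₁ =
      W3 (W1 α β γ A₂ + α) (W2 α β γ A₂ + β) (W3 α β γ A₂ + γ) A₁ - W3 α β γ A₁ := by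
    unfold W3 c₁; ring
  have small : 2 * ρ + 6 * N ^ 2 * ρ ≤ 1 / 9 := by
    have h1 : N ^ 2 * ρ = 1 / 72 := by rw [hρ]; field_simp
    have h2 : ρ ≤ N ^ 2 * ρ := le_mul_of_one_le_left hρ0 (one_le_pow₀ hN1)
    have h3 : 6 * N ^ 2 * ρ = 6 * (N ^ 2 * ρ) := by ring
    rw [h3]
    linarith
  have fin : ∀ V V₁ a E : ℝ, V = E - V₁ → |V + a| ≤ ρ → |V₁ + a| ≤ ρ → |E| ≤ 6 * N ^ 2 * ρ →
      |a| < 1 / 3 := by
    intro V V₁ a E h1 h2 h3 h4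
    have h5 : 2 * a = (V + a) + (V₁ + a) - E := by rw [h1]; ring
    have k1 := abs_le.1 h2
    have k2 := abs_le.1 h3
    have k3 := abs_le.1 h4
    rw [abs_lt]
    constructor <;> linarith [k1.1, k1.2, k2.1, k2.2, k3.1, k3.2]
  have b1 := fin _ _ _ _ (w1.trans l1) x1 y1 s1
  have b2 := fin _ _ _ _ (w2.trans l2) x2 y2 s2
  have b3 := fin _ _ _ _ (w3.trans l3) x3 y3 s3
  rcases disc_big hd with h | h | h <;> linarith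

end Pool.Agent.Run7.h176.NC
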