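import Pool.Agent.Run7.h176.NC.Tube6
import Pool.Agent.Run7.h176.NC.Tube5
import Pool.Agent.Run7.h176.NC.Dim

/-!
# Neighbourhoods of geodesics, one step
-/

set_option autoImplicit false

open UpperHalfPlane Matrix MeasureTheory
open scoped MatrixGroups ENNReal Modular

namespace Pool.Agent.Run7.h176.NC

/-- the matrices with entries bounded by `n₀` -/
noncomputable def box (n₀ : ℕ) : Finset (Fin 2 → Fin 2 → ℤ) :=
  Fintype.piFinset fun _ => Fintype.piFinset fun _ => Finset.Icc (-(n₀ : ℤ)) n₀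

lemma mem_box {n₀ : ℕ} {A : Fin 2 → Fin 2 → ℤ} (h : ∀ i j, |A i j| ≤ (n₀ : ℤ)) : A ∈ box n₀ := by
  unfold box
  rw [Fintype.mem_piFinset]
  intro i
  rw [Fintype.mem_piFinset]
  intro j
  rw [Finset.mem_Icc]
  exact abs_le.1 (h i j)

lemma card_box (n₀ : ℕ) : (box n₀).card = (2 * n₀ + 1) ^ 4 := by
  unfold box
  rw [Fintype.card_piFinset]
  simp only [Fintype.card_piFinset, Int.card_Icc, Finset.prod_const, Finset.card_univ,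
    Fintype.card_fin]
  have : ((n₀ : ℤ) + 1 - -(n₀ : ℤ)).toNat = 2 * n₀ + 1 := by omega
  rw [this]; ring

lemma Fv_cont (α β γ : ℝ) : Continuous (Fv α β γ) := by
  unfold Fv
  have h1 : Continuous fun z : ℍ => Complex.normSq (z : ℂ) :=
    Complex.continuous_normSq.comp UpperHalfPlane.continuous_coe
  exact (((continuous_const.mul h1).add (continuous_const.mul UpperHalfPlane.continuous_re)).add
    continuous_const).div UpperHalfPlane.continuous_im (fun z => z.im_pos.ne')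

theorem strip_step {K : Set ℍ} (hK : IsCompact K) {y₀ Y R : ℝ} (hy₀ : 0 < y₀) (hY : 1 ≤ Y)
    (hR : 1 ≤ R) (hKb : ∀ z ∈ K, y₀ ≤ z.im ∧ z.im ≤ Y ∧ |z.re| ≤ R ∧
      Complex.normSq (z : ℂ) ≤ R ^ 2) {B : ℝ} (hB : 1 ≤ B) (hB1 : 3 / y₀ ≤ B)
    (hB2 : 3 + 6 / y₀ * R ≤ B) (hB3 : Y + 3 / y₀ * R ^ 2 + (3 + 6 / y₀ * R) * R ≤ B)
    {Cn : ℕ} (hCn1 : 1 ≤ Cn) (hCn : R * √(Y / y₀) * (1 + R / y₀) ≤ Cn)
    {C₀ θ q s Cb η : ℝ} (hC₀ : 1 ≤ C₀) (hq : 1 ≤ q) (hq3 : q ≤ 3) (hs1 : s ≤ 3 - q)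
    (hs2 : s ≤ 2 - (1 / 2 + θ) * q)
    {f : ℍ → ℂ} {l : ℕ → ℂ} (H : HeckeForm f l)
    (hl : ∀ p : ℕ, p.Prime → ‖l p‖ ≤ C₀ * (p : ℝ) ^ θ)
    (hball : ∀ z₀ ∈ K, ∀ δ : ℝ, 0 < δ → δ ≤ 1 → ∫⁻ z in Metric.ball z₀ δ, ‖f z‖ₑ ^ q ≤
        ENNReal.ofReal (Cb * δ ^ η) * ∫⁻ z in 𝒟, ‖f z‖ₑ ^ q)
    {α β γ : ℝ} (hd : β ^ 2 - 4 * α * γ = 1) {δ : ℝ} (hδ : 0 < δ) (hδ1 : δ ≤ 1) {X : ℕ}
    (hX1 : 1 ≤ X) {r : ℝ} (hr0 : 0 < r) (hr1 : r ≤ 1)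
    (hr : 60 * B * Y * R ^ 3 * (1 + 1 / y₀) / y₀ * δ * (14400 * B ^ 3 * ((Cn : ℝ) * X ^ 2) ^ 2) < r) :
    ∫⁻ z in {z | z ∈ K ∧ |Fv α β γ z| ≤ δ}, ‖f z‖ₑ ^ q ≤
      ENNReal.ofReal (((Nat.card {γ : SL(2, ℤ) // ∃ x ∈ K, γ • x ∈ K} : ℝ) + 1) /
        (1 + ∑ p ∈ PX X, (p : ℝ) ^ (s - 1) / (12 * C₀ ^ q))) * (∫⁻ z in 𝒟, ‖f z‖ₑ ^ q) +
      (((2 * (Cn * X ^ 2) + 1) ^ 4 : ℕ) : ℝ≥0∞) *
        (ENNReal.ofReal (Cb * r ^ η) * ∫⁻ z in 𝒟, ‖f z‖ₑ ^ q) := by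
  classical
  set J := ∫⁻ z in 𝒟, ‖f z‖ₑ ^ q with hJ
  set n : ℕ := Nat.card {γ : SL(2, ℤ) // ∃ x ∈ K, γ • x ∈ K} with hn
  set E : Set ℍ := {z | z ∈ K ∧ |Fv α β γ z| ≤ δ} with hE
  rcases E.eq_empty_or_nonempty with hem | ⟨z₁, hz₁⟩
  · rw [hem]; simp
  have hEm : MeasurableSet E :=
    (hK.isClosed.inter (isClosed_le (Fv_cont α β γ).abs continuous_const)).measurableSet
  have hEK : E ⊆ K := fun z hz => hz.1
  have hbd : ∀ z ∈ K, ∀ a b c : ℝ, b ^ 2 - 4 * a * c = 1 → |Fv a b c z| ≤ δ →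
      |a| ≤ B ∧ |b| ≤ B ∧ |c| ≤ B := by
    intro z hz a b c hdd hF
    obtain ⟨k1, k2, k3, k4⟩ := hKb z hz
    obtain ⟨g1, g2, g3⟩ := bdd hy₀ hR k1 k2 k3 k4 hdd (hF.trans hδ1)
    exact ⟨g1.trans hB1, g2.trans hB2, g3.trans hB3⟩
  obtain ⟨v1, v2, v3⟩ := hbd z₁ hz₁.1 α β γ hd hz₁.2
  set N : ℝ := (Cn : ℝ) * X ^ 2 with hNdef
  have hXr : (1 : ℝ) ≤ X := by exact_mod_cast hX1
  have hCnr : (1 : ℝ) ≤ Cn := by exact_mod_cast hCn1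
  have hN1 : 1 ≤ N := by
    rw [hNdef]
    have : (1 : ℝ) ≤ (X : ℝ) ^ 2 := one_le_pow₀ hXr
    nlinarith
  have hN0 : 0 < N := by linarith
  have hB0 : 0 < B := by linarith
  set ρ : ℝ := 1 / (72 * N ^ 2) with hρ
  have hρ0 : 0 < ρ := by positivity
  set τ : ℝ := ρ / (200 * B ^ 3) with hτ
  have hτ0 : 0 < τ := by positivity
  have hBτ : 200 * B ^ 3 * τ = ρ := by rw [hτ]; field_simp
  have hτ1 : τ ≤ 1 := by
    have h4 : ρ ≤ 1 := by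
      rw [hρ, div_le_one (by positivity)]
      nlinarith
    have h5 : 1 ≤ 200 * B ^ 3 := by
      have : 1 ≤ B ^ 3 := one_le_pow₀ hB
      linarith
    rw [hτ, div_le_one (by positivity)]
    linarith
  -- facts about returns
  have ret : ∀ A : Mat, 0 < A.det → A.det ≤ ((X ^ 4 : ℕ) : ℤ) → ∀ x ∈ E, GM A • x ∈ E →
      (∀ i j, |(A i j : ℝ)| ≤ N) ∧ |W1 α β γ A| ≤ B ∧ |W2 α β γ A| ≤ B ∧ |W3 α β γ A| ≤ B ∧
        |Fv (W1 α β γ A) (W2 α β γ A) (W3 α β γ A) x| ≤ δ := by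
    intro A hA hAX x hx hAx
    obtain ⟨k1, k2, k3, k4⟩ := hKb x hx.1
    obtain ⟨m1, m2, m3, m4⟩ := hKb _ hAx.1
    have hAr : (A.det : ℝ) ≤ (X : ℝ) ^ 4 := by exact_mod_cast hAX
    have hent := entries_Q hy₀ hR (Real.sqrt_nonneg (Y / y₀))
      (by rw [Real.sq_sqrt (by positivity)]) hA (by linarith : (0 : ℝ) ≤ X) hAr k1 k2 k4 m1 m4
    have hF : |Fv (W1 α β γ A) (W2 α β γ A) (W3 α β γ A) x| ≤ δ := by
      have h4 := Fv_GM hA α β γ x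
      unfold W1 W2 W3
      rw [← h4]; exact hAx.2
    obtain ⟨g1, g2, g3⟩ := hbd x hx.1 _ _ _ (W_disc hd hA) hF
    refine ⟨fun i j => (hent i j).trans ?_, g1, g2, g3, hF⟩
    rw [hNdef]
    exact mul_le_mul_of_nonneg_right hCn (by positivity)
  set small : Mat → Prop := fun A => |β * W3 α β γ A - γ * W2 α β γ A| ≤ τ ∧
    |γ * W1 α β γ A - α * W3 α β γ A| ≤ τ ∧ |α * W2 α β γ A - β * W1 α β γ A| ≤ τ with hsmall
  have alt : ∀ A : Mat, 0 < A.det → A.det ≤ ((X ^ 4 : ℕ) : ℤ) → ∀ x ∈ E, GM A • x ∈ E →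
      small A → Cls ρ α β γ A ∨ ClsM ρ α β γ A := by
    intro A hA hAX x hx hAx hs
    obtain ⟨_, g1, g2, g3, _⟩ := ret A hA hAX x hx hAx
    have := pm hd (W_disc hd hA) hB hτ0.le hτ1 v1 v2 v3 g1 g2 g3 hs.1 hs.2.1 hs.2.2
    rw [hBτ] at this
    exact this
  -- the crossings
  set bad : Mat → Prop := fun A => 0 < A.det ∧ A.det ≤ ((X ^ 4 : ℕ) : ℤ) ∧
    (∃ x ∈ E, GM A • x ∈ E) ∧ ¬ small A with hbad
  set cc : Mat → Set ℍ := fun A => if h : bad A then Metric.ball (Classical.choose h.2.2.1) r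
    else ∅ with hcc
  have hcc_open : ∀ A, IsOpen (cc A) := by
    intro A
    simp only [hcc]
    split_ifs
    · exact Metric.isOpen_ball
    · exact isOpen_empty
  have hcc_int : ∀ A, ∫⁻ z in cc A, ‖f z‖ₑ ^ q ≤ ENNReal.ofReal (Cb * r ^ η) * J := by
    intro A
    simp only [hcc]
    split_ifs with h
    · exact hball _ (Classical.choose_spec h.2.2.1).1.1 r hr0 hr1
    · simp
  set U : Set ℍ := ⋃ A : box (Cn * X ^ 2), cc (Matrix.of A.1) with hU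
  have hUo : IsOpen U := isOpen_iUnion fun A => hcc_open _
  have hUint : ∫⁻ z in U, ‖f z‖ₑ ^ q ≤ (((2 * (Cn * X ^ 2) + 1) ^ 4 : ℕ) : ℝ≥0∞) *
      (ENNReal.ofReal (Cb * r ^ η) * J) := by
    calc ∫⁻ z in U, ‖f z‖ₑ ^ q ≤ ∑' A : box (Cn * X ^ 2), ∫⁻ z in cc (Matrix.of A.1), ‖f z‖ₑ ^ q :=
          lintegral_iUnion_le _ _
      _ ≤ ∑' _ : box (Cn * X ^ 2), ENNReal.ofReal (Cb * r ^ η) * J :=
          ENNReal.tsum_le_tsum fun A => hcc_int _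
      _ = _ := by
          rw [tsum_fintype, Finset.sum_const, Finset.card_univ, Fintype.card_coe, card_box,
            nsmul_eq_mul]
  have hsm : ∀ A : Mat, 0 < A.det → A.det ≤ ((X ^ 4 : ℕ) : ℤ) → ∀ x ∈ E \ U, GM A • x ∈ E \ U →
      small A := by
    intro A hA hAX x hx hAx
    by_contra hns
    have hb : bad A := ⟨hA, hAX, ⟨x, hx.1, hAx.1⟩, hns⟩
    obtain ⟨hent, g1, g2, g3, g4⟩ := ret A hA hAX x hx.1 hAx.1
    have hAbox : (fun i j => A i j) ∈ box (Cn * X ^ 2) := by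
      apply mem_box
      intro i j
      have h4 := hent i j
      rw [hNdef] at h4
      exact_mod_cast h4
    apply hx.2
    rw [hU, Set.mem_iUnion]
    refine ⟨⟨_, hAbox⟩, ?_⟩
    change x ∈ cc A
    simp only [hcc]
    rw [dif_pos hb]
    set x' := Classical.choose hb.2.2.1 with hx'
    have hx's : x' ∈ E ∧ GM A • x' ∈ E := Classical.choose_spec hb.2.2.1
    obtain ⟨_, _, _, _, g4'⟩ := ret A hA hAX x' hx's.1 hx's.2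
    obtain ⟨k1, k2, k3, k4⟩ := hKb x hx.1.1
    obtain ⟨m1, m2, m3, m4⟩ := hKb x' hx's.1.1
    obtain ⟨t1, t2, t3⟩ := two_point hy₀ hY hR hB k1 k2 k3 k4 m1 m2 m3 m4 hδ.le v1 v2 g1 g2
      hx.1.2 hx's.1.2 g4 g4'
    rw [Metric.mem_ball]
    have hfin : ∀ m : ℝ, ¬ |m| ≤ τ →
        dist x x' * |m| ≤ 60 * B * Y * R ^ 3 * (1 + 1 / y₀) / y₀ * δ → dist x x' < r := by
      intro m hm hm2
      push Not at hm
      have h4 : dist x x' * τ ≤ 60 * B * Y * R ^ 3 * (1 + 1 / y₀) / y₀ * δ :=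
        (mul_le_mul_of_nonneg_left hm.le dist_nonneg).trans hm2
      have h5 : τ * (14400 * B ^ 3 * N ^ 2) = 1 := by
        rw [hτ, hρ]; field_simp; norm_num
      have h6 : 0 < 14400 * B ^ 3 * N ^ 2 := by positivity
      calc dist x x' = (dist x x' * τ) * (14400 * B ^ 3 * N ^ 2) := by rw [mul_assoc, h5, mul_one]
        _ ≤ 60 * B * Y * R ^ 3 * (1 + 1 / y₀) / y₀ * δ * (14400 * B ^ 3 * N ^ 2) :=
            mul_le_mul_of_nonneg_right h4 h6.le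
        _ < r := hr
    simp only [hsmall] at hns
    by_cases c1 : |β * W3 α β γ A - γ * W2 α β γ A| ≤ τ
    · by_cases c2 : |γ * W1 α β γ A - α * W3 α β γ A| ≤ τ
      · exact hfin _ (fun c3 => hns ⟨c1, c2, c3⟩) t3
      · exact hfin _ c2 t2
    · exact hfin _ c1 t1
  -- the algebra
  obtain ⟨u, v, w, x, y, t, hbez, halg⟩ := alg_class hd hN1 hρ
    (fun A => 0 < A.det ∧ A.det ≤ ((X ^ 4 : ℕ) : ℤ) ∧ (∃ x ∈ E \ U, GM A • x ∈ E \ U) ∧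
      Cls ρ α β γ A) (by
      rintro A ⟨hA, hAX, ⟨x, hx, hAx⟩, hc⟩
      exact ⟨hA, (ret A hA hAX x hx.1 hAx.1).1, hc⟩)
  have hE'm : MeasurableSet (E \ U) := hEm.diff hUo.measurableSet
  have hE'K : E \ U ⊆ K := fun z hz => hEK hz.1
  have hdd : ∀ N N₀ : Mat, (N.adjugate * N₀).det = N.det * N₀.det := by
    intro N N₀
    rw [Matrix.det_mul, Matrix.det_adjugate]; simp
  have hle4 : ∀ N N₀ : Mat, 0 < N.det → N.det ≤ ((X ^ 2 : ℕ) : ℤ) → 0 < N₀.det →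
      N₀.det ≤ ((X ^ 2 : ℕ) : ℤ) → 0 < (N.adjugate * N₀).det ∧
        (N.adjugate * N₀).det ≤ ((X ^ 4 : ℕ) : ℤ) := by
    intro N N₀ h1 h2 h3 h4
    rw [hdd]
    refine ⟨mul_pos h1 h3, ?_⟩
    calc N.det * N₀.det ≤ ((X ^ 2 : ℕ) : ℤ) * ((X ^ 2 : ℕ) : ℤ) :=
          mul_le_mul h2 h4 h3.le (by positivity)
      _ = ((X ^ 4 : ℕ) : ℤ) := by push_cast; ring
  have hmain := main_off2 hK hE'K hE'm hbez (P := PX X) (X := X)
    (fun p hp => ⟨(mem_PX.1 hp).2.1, (mem_PX.1 hp).2.2⟩) hX1 (fun p hp => (mem_PX.1 hp).1)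
    (fun N N₀ => Cls ρ α β γ (N.adjugate * N₀))
    (fun N N₀ hT h0 hle hx => halg _ ⟨h0, hle, hx, hT⟩)
    (by
      rintro N N₁ N₀ a1 a2 b1 b2 c1 c2 ⟨x1, hx1, hx1'⟩ ⟨x2, hx2, hx2'⟩ ⟨x3, hx3, hx3'⟩ nt1 nt2
      obtain ⟨p1, p2⟩ := hle4 N N₀ a1 a2 c1 c2
      obtain ⟨q1, q2⟩ := hle4 N₁ N₀ b1 b2 c1 c2
      obtain ⟨s1, s2⟩ := hle4 N N₁ a1 a2 b1 b2
      have k1 := (alt _ p1 p2 x1 hx1.1 hx1'.1 (hsm _ p1 p2 x1 hx1 hx1')).resolve_left nt1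
      have k2 := (alt _ q1 q2 x2 hx2.1 hx2'.1 (hsm _ q1 q2 x2 hx2 hx2')).resolve_left nt2
      refine (alt _ s1 s2 x3 hx3.1 hx3'.1 (hsm _ s1 s2 x3 hx3 hx3')).resolve_right ?_
      have hmul : (N.adjugate * N₁) * (N₁.adjugate * N₀) = N₁.det • (N.adjugate * N₀) := by
        rw [Matrix.mul_assoc, ← Matrix.mul_assoc N₁, Matrix.mul_adjugate, Matrix.smul_mul,
          Matrix.one_mul, Matrix.mul_smul]
      exact cls_trans hd hN1 hρ b1.ne' s1 q1 hmul (ret _ q1 q2 x2 hx2.1 hx2'.1).1 k1 k2)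
    H hC₀ hq hq3 hs1 hs2 hl
  set W : ℝ := 1 + ∑ p ∈ PX X, (p : ℝ) ^ (s - 1) / (12 * C₀ ^ q) with hW
  have hW0 : 0 < W := by
    have : 0 ≤ ∑ p ∈ PX X, (p : ℝ) ^ (s - 1) / (12 * C₀ ^ q) := by
      apply Finset.sum_nonneg
      intro p _
      have : (0 : ℝ) < C₀ ^ q := Real.rpow_pos_of_pos (by linarith) _
      positivity
    linarith
  have hE' : ∫⁻ z in E \ U, ‖f z‖ₑ ^ q ≤ ENNReal.ofReal (((n : ℝ) + 1) / W) * J := by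
    refine cancel_ineq hW0 (by positivity) ?_ hmain
    have h4 : 2 * W * (((n : ℝ) + 1) / W) = 2 * (n + 1) := by field_simp
    rw [h4]
    push_cast
    linarith
  calc ∫⁻ z in E, ‖f z‖ₑ ^ q ≤ ∫⁻ z in (E \ U) ∪ U, ‖f z‖ₑ ^ q := by
        apply lintegral_mono_set
        intro z hz
        by_cases hzU : z ∈ U
        · exact Or.inr hzU
        · exact Or.inl ⟨hz, hzU⟩
    _ ≤ (∫⁻ z in E \ U, ‖f z‖ₑ ^ q) + ∫⁻ z in U, ‖f z‖ₑ ^ q := lintegral_union_le _ _ _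
    _ ≤ _ := add_le_add hE' hUint

end Pool.Agent.Run7.h176.NC
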