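import Pool.Agent.Run7.h176.NC.Tube7

/-!
# Uniform power saving near geodesics
-/

set_option autoImplicit false

open UpperHalfPlane Matrix MeasureTheory
open scoped MatrixGroups ENNReal Modular

namespace Pool.Agent.Run7.h176.NC

theorem strip_bound {K : Set ℍ} (hK : IsCompact K) {C₀ θ q η : ℝ} (hC₀ : 1 ≤ C₀) (hq : 1 ≤ q)
    (hη : 0 < η) (h1 : 4 * η < 1) (h2 : 4 * η < 3 - q) (h3 : 4 * η < 2 - (1 / 2 + θ) * q) :
    ∃ C : ℝ, 0 < C ∧ ∀ (f : ℍ → ℂ) (l : ℕ → ℂ), HeckeForm f l →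
      (∀ p : ℕ, p.Prime → ‖l p‖ ≤ C₀ * (p : ℝ) ^ θ) →
      ∀ α β γ : ℝ, β ^ 2 - 4 * α * γ = 1 → ∀ δ : ℝ, 0 < δ → δ ≤ 1 →
      ∫⁻ z in {z | z ∈ K ∧ |Fv α β γ z| ≤ δ}, ‖f z‖ₑ ^ q ≤
        ENNReal.ofReal (C * δ ^ (η ^ 2 / 5)) * ∫⁻ z in 𝒟, ‖f z‖ₑ ^ q := by
  classical
  obtain ⟨y₀, Y, R, hy₀, hY, hR, hKb⟩ := Kbd hK
  obtain ⟨Cb, hCb, hball⟩ := ball_bound hK hC₀ hq hη h1 h2 h3
  set n : ℕ := Nat.card {γ : SL(2, ℤ) // ∃ x ∈ K, γ • x ∈ K} with hn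
  set B : ℝ := 1 + 3 / y₀ + (3 + 6 / y₀ * R) + (Y + 3 / y₀ * R ^ 2 + (3 + 6 / y₀ * R) * R) with hBd
  have t1 : 0 ≤ 3 / y₀ := by positivity
  have t2 : 0 ≤ 3 + 6 / y₀ * R := by positivity
  have t3 : 0 ≤ Y + 3 / y₀ * R ^ 2 + (3 + 6 / y₀ * R) * R := by positivity
  have hB : 1 ≤ B := by rw [hBd]; linarith
  have hB0 : 0 < B := by linarith
  obtain ⟨C', hC'⟩ := exists_nat_ge (R * √(Y / y₀) * (1 + R / y₀))
  set Cn : ℕ := C' + 1 with hCn
  have hCn1 : 1 ≤ Cn := by omega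
  have hCn2 : R * √(Y / y₀) * (1 + R / y₀) ≤ Cn := by
    rw [hCn]; push_cast; linarith
  have hCnr : (1 : ℝ) ≤ Cn := by exact_mod_cast hCn1
  set C₂ : ℝ := 60 * B * Y * R ^ 3 * (1 + 1 / y₀) / y₀ with hC₂
  have hC₂0 : 0 < C₂ := by positivity
  set C₃ : ℝ := 1 + 2 * C₂ * (14400 * B ^ 3 * (Cn : ℝ) ^ 2) with hC₃
  have hC₃1 : 1 ≤ C₃ := by
    rw [hC₃]
    have : 0 ≤ 2 * C₂ * (14400 * B ^ 3 * (Cn : ℝ) ^ 2) := by positivity
    linarith
  have hC₃0 : 0 < C₃ := by linarith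
  set s : ℝ := min 1 (min (3 - q) (2 - (1 / 2 + θ) * q)) with hs
  have hs1 : s ≤ 1 := min_le_left _ _
  have hs2 : s ≤ 3 - q := (min_le_right _ _).trans (min_le_left _ _)
  have hs3 : s ≤ 2 - (1 / 2 + θ) * q := (min_le_right _ _).trans (min_le_right _ _)
  have hs4 : 4 * η < s := lt_min h1 (lt_min h2 h3)
  have hCq : (0 : ℝ) < C₀ ^ q := Real.rpow_pos_of_pos (by linarith) _
  obtain ⟨c₁, hc₁, hsum⟩ := sum_lower (s := s) (ε := s - 4 * η) (κ := 12 * C₀ ^ q) hs1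
    (by linarith) (by linarith) (by positivity) (by linarith)
  rw [show s - (s - 4 * η) = 4 * η by ring] at hsum
  set η' : ℝ := η ^ 2 / 5 with hη'
  have hη'0 : 0 < η' := by positivity
  set δ₀ : ℝ := 1 / C₃ ^ 2 with hδ₀
  have hδ₀0 : 0 < δ₀ := by positivity
  set K₁ : ℝ := (n + 1) * 2 ^ (4 * η) / c₁ with hK₁
  set K₂ : ℝ := 81 * (Cn : ℝ) ^ 4 * (Cb * C₃ ^ η) with hK₂
  set K₃ : ℝ := (n + 1) / (2 * δ₀ ^ η') with hK₃
  have hK₁0 : 0 < K₁ := by positivity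
  have hK₂0 : 0 < K₂ := by positivity
  have hK₃0 : 0 < K₃ := by positivity
  refine ⟨K₁ + K₂ + K₃, by positivity, fun f l H hl α β γ hd δ hδ hδ1 => ?_⟩
  have hδη : 0 < δ ^ η' := Real.rpow_pos_of_pos hδ _
  by_cases hδc : δ ≤ δ₀
  · set g : ℝ := δ ^ (-(η / 20)) with hg
    have hg1 : 1 ≤ g := Real.one_le_rpow_of_pos_of_le_one_of_nonpos hδ hδ1 (by linarith)
    have hg0 : 0 < g := by linarith
    set X : ℕ := ⌊g⌋₊ with hX
    have hX1 : 1 ≤ X := by rw [hX, Nat.one_le_floor_iff]; exact hg1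
    have hXg : (X : ℝ) ≤ g := Nat.floor_le hg0.le
    have hXr : (1 : ℝ) ≤ X := by exact_mod_cast hX1
    have hX2 : g ≤ 2 * X := by
      have h5 := Nat.lt_floor_add_one g
      rw [← hX] at h5
      linarith
    set r : ℝ := C₃ * (X : ℝ) ^ 4 * δ with hr
    have hr0 : 0 < r := by positivity
    have hgpow : ∀ a : ℝ, g ^ a = δ ^ (-(η / 20) * a) := by
      intro a; rw [hg, ← Real.rpow_mul hδ.le]
    have hr1 : r ≤ 1 := by
      have h5 : (X : ℝ) ^ 4 ≤ g ^ (4 : ℝ) := by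
        have : g ^ (4 : ℝ) = g ^ 4 := by rw [← Real.rpow_natCast]; norm_num
        rw [this]
        exact pow_le_pow_left₀ (by linarith) hXg 4
      have h6 : g ^ (4 : ℝ) * δ ≤ δ ^ (1 / 2 : ℝ) := by
        rw [hgpow]
        calc δ ^ (-(η / 20) * 4) * δ = δ ^ (-(η / 20) * 4) * δ ^ (1 : ℝ) := by rw [Real.rpow_one]
          _ = δ ^ (-(η / 20) * 4 + 1) := (Real.rpow_add hδ _ _).symm
          _ ≤ δ ^ (1 / 2 : ℝ) :=
              Real.rpow_le_rpow_of_exponent_ge hδ hδ1 (by linarith)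
      have h7 : δ ^ (1 / 2 : ℝ) ≤ 1 / C₃ := by
        calc δ ^ (1 / 2 : ℝ) ≤ (1 / C₃ ^ 2) ^ (1 / 2 : ℝ) :=
              Real.rpow_le_rpow hδ.le hδc (by norm_num)
          _ = 1 / C₃ := by
              rw [← Real.sqrt_eq_rpow, Real.sqrt_eq_iff_mul_self_eq (by positivity) (by positivity)]
              field_simp
      calc r = C₃ * ((X : ℝ) ^ 4 * δ) := by rw [hr]; ring
        _ ≤ C₃ * (g ^ (4 : ℝ) * δ) :=
            mul_le_mul_of_nonneg_left (mul_le_mul_of_nonneg_right h5 hδ.le) hC₃0.le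
        _ ≤ C₃ * (1 / C₃) := mul_le_mul_of_nonneg_left (h6.trans h7) hC₃0.le
        _ = 1 := by field_simp
    have hr2 : 60 * B * Y * R ^ 3 * (1 + 1 / y₀) / y₀ * δ *
        (14400 * B ^ 3 * ((Cn : ℝ) * X ^ 2) ^ 2) < r := by
      rw [← hC₂]
      have h5 : C₂ * δ * (14400 * B ^ 3 * ((Cn : ℝ) * X ^ 2) ^ 2) =
          C₂ * (14400 * B ^ 3 * (Cn : ℝ) ^ 2) * ((X : ℝ) ^ 4 * δ) := by ring
      rw [h5]
      have h6 : r = C₃ * ((X : ℝ) ^ 4 * δ) := by rw [hr]; ring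
      rw [h6]
      apply mul_lt_mul_of_pos_right _ (by positivity)
      rw [hC₃]
      have : 0 ≤ C₂ * (14400 * B ^ 3 * (Cn : ℝ) ^ 2) := by positivity
      linarith
    have hstep := strip_step hK hy₀ hY hR hKb hB (by rw [hBd]; linarith) (by rw [hBd]; linarith)
      (by rw [hBd]; linarith) hCn1 hCn2 (Cb := Cb) (η := η) hC₀ hq (by linarith) hs2 hs3 H hl
      (fun z₀ hz₀ δ hδ hδ1 => hball f l H hl z₀ hz₀ δ hδ hδ1) hd hδ hδ1 hX1 hr0 hr1 hr2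
    have hlow := hsum X hX1
    set W : ℝ := 1 + ∑ p ∈ PX X, (p : ℝ) ^ (s - 1) / (12 * C₀ ^ q) with hW
    set J := ∫⁻ z in 𝒟, ‖f z‖ₑ ^ q with hJ
    have hXη : g ^ (4 * η) ≤ 2 ^ (4 * η) * (X : ℝ) ^ (4 * η) := by
      rw [← Real.mul_rpow (by norm_num) (by positivity)]
      exact Real.rpow_le_rpow hg0.le hX2 (by linarith)
    have hgη : g ^ (4 * η) * δ ^ η' = 1 := by
      rw [hgpow, ← Real.rpow_add hδ]
      have : -(η / 20) * (4 * η) + η' = 0 := by rw [hη']; ring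
      rw [this, Real.rpow_zero]
    have hpX : 0 < (X : ℝ) ^ (4 * η) := Real.rpow_pos_of_pos (by linarith) _
    have hW0 : 0 < W := lt_of_lt_of_le (by positivity) hlow
    have hfirst : ((n : ℝ) + 1) / W ≤ K₁ * δ ^ η' := by
      rw [div_le_iff₀ hW0, hK₁]
      have h5 : 1 ≤ 2 ^ (4 * η) / c₁ * δ ^ η' * W := by
        calc (1 : ℝ) = g ^ (4 * η) * δ ^ η' := hgη.symm
          _ ≤ (2 ^ (4 * η) * (X : ℝ) ^ (4 * η)) * δ ^ η' :=
              mul_le_mul_of_nonneg_right hXη hδη.le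
          _ = 2 ^ (4 * η) / c₁ * δ ^ η' * (c₁ * (X : ℝ) ^ (4 * η)) := by field_simp
          _ ≤ 2 ^ (4 * η) / c₁ * δ ^ η' * W := mul_le_mul_of_nonneg_left hlow (by positivity)
      calc ((n : ℝ) + 1) = (n + 1) * 1 := by ring
        _ ≤ (n + 1) * (2 ^ (4 * η) / c₁ * δ ^ η' * W) :=
            mul_le_mul_of_nonneg_left h5 (by positivity)
        _ = (n + 1) * 2 ^ (4 * η) / c₁ * δ ^ η' * W := by ring
    have hsecond : (((2 * (Cn * X ^ 2) + 1) ^ 4 : ℕ) : ℝ) * (Cb * r ^ η) ≤ K₂ * δ ^ η' := by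
      have h5 : (((2 * (Cn * X ^ 2) + 1) ^ 4 : ℕ) : ℝ) ≤ 81 * (Cn : ℝ) ^ 4 * (X : ℝ) ^ 8 := by
        push_cast
        have h6 : (1 : ℝ) ≤ Cn * (X : ℝ) ^ 2 :=
          one_le_mul_of_one_le_of_one_le hCnr (one_le_pow₀ hXr)
        calc (2 * ((Cn : ℝ) * (X : ℝ) ^ 2) + 1) ^ 4 ≤ (3 * ((Cn : ℝ) * (X : ℝ) ^ 2)) ^ 4 :=
              pow_le_pow_left₀ (by positivity) (by linarith) 4
          _ = 81 * (Cn : ℝ) ^ 4 * (X : ℝ) ^ 8 := by ring
      have h7 : (X : ℝ) ^ 8 ≤ g ^ (8 : ℝ) := by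
        have : g ^ (8 : ℝ) = g ^ 8 := by rw [← Real.rpow_natCast]; norm_num
        rw [this]
        exact pow_le_pow_left₀ (by linarith) hXg 8
      have h8 : r ^ η ≤ C₃ ^ η * (g ^ (4 * η) * δ ^ η) := by
        have h9 : r ≤ C₃ * (g ^ (4 : ℝ) * δ) := by
          have h10 : (X : ℝ) ^ 4 ≤ g ^ (4 : ℝ) := by
            have : g ^ (4 : ℝ) = g ^ 4 := by rw [← Real.rpow_natCast]; norm_num
            rw [this]
            exact pow_le_pow_left₀ (by linarith) hXg 4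
          rw [hr, mul_assoc]
          exact mul_le_mul_of_nonneg_left (mul_le_mul_of_nonneg_right h10 hδ.le) hC₃0.le
        calc r ^ η ≤ (C₃ * (g ^ (4 : ℝ) * δ)) ^ η := Real.rpow_le_rpow hr0.le h9 hη.le
          _ = C₃ ^ η * (g ^ (4 * η) * δ ^ η) := by
              rw [Real.mul_rpow hC₃0.le (by positivity), Real.mul_rpow (by positivity) hδ.le,
                ← Real.rpow_mul hg0.le]
      have h11 : g ^ (8 : ℝ) * (g ^ (4 * η) * δ ^ η) ≤ δ ^ η' := by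
        rw [hgpow, hgpow, ← Real.rpow_add hδ, ← Real.rpow_add hδ]
        apply Real.rpow_le_rpow_of_exponent_ge hδ hδ1
        have e1 : η ^ 2 ≤ η := by
          rw [sq]; exact mul_le_of_le_one_left hη.le (by linarith)
        have e2 : -(η / 20) * 8 + (-(η / 20) * (4 * η) + η) = 3 / 5 * η - η ^ 2 / 5 := by ring
        rw [e2, hη']
        linarith
      calc (((2 * (Cn * X ^ 2) + 1) ^ 4 : ℕ) : ℝ) * (Cb * r ^ η)
          ≤ (81 * (Cn : ℝ) ^ 4 * g ^ (8 : ℝ)) * (Cb * (C₃ ^ η * (g ^ (4 * η) * δ ^ η))) := by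
            apply mul_le_mul _ (mul_le_mul_of_nonneg_left h8 hCb.le) (by positivity) (by positivity)
            exact h5.trans (mul_le_mul_of_nonneg_left h7 (by positivity))
        _ = K₂ * (g ^ (8 : ℝ) * (g ^ (4 * η) * δ ^ η)) := by rw [hK₂]; ring
        _ ≤ K₂ * δ ^ η' := mul_le_mul_of_nonneg_left h11 hK₂0.le
    calc ∫⁻ z in {z | z ∈ K ∧ |Fv α β γ z| ≤ δ}, ‖f z‖ₑ ^ q
        ≤ ENNReal.ofReal (((n : ℝ) + 1) / W) * J +
          (((2 * (Cn * X ^ 2) + 1) ^ 4 : ℕ) : ℝ≥0∞) * (ENNReal.ofReal (Cb * r ^ η) * J) := hstep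
      _ = ENNReal.ofReal (((n : ℝ) + 1) / W) * J +
          ENNReal.ofReal ((((2 * (Cn * X ^ 2) + 1) ^ 4 : ℕ) : ℝ) * (Cb * r ^ η)) * J := by
          rw [ENNReal.ofReal_mul (Nat.cast_nonneg _), ENNReal.ofReal_natCast, mul_assoc]
      _ ≤ ENNReal.ofReal (K₁ * δ ^ η') * J + ENNReal.ofReal (K₂ * δ ^ η') * J :=
          add_le_add (mul_le_mul_left (ENNReal.ofReal_le_ofReal hfirst) _)
            (mul_le_mul_left (ENNReal.ofReal_le_ofReal hsecond) _)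
      _ = ENNReal.ofReal (K₁ * δ ^ η' + K₂ * δ ^ η') * J := by
          rw [← add_mul, ← ENNReal.ofReal_add (by positivity) (by positivity)]
      _ ≤ ENNReal.ofReal ((K₁ + K₂ + K₃) * δ ^ η') * J := by
          apply mul_le_mul_left
          apply ENNReal.ofReal_le_ofReal
          have e1 : 0 ≤ K₃ * δ ^ η' := by positivity
          have e2 : (K₁ + K₂ + K₃) * δ ^ η' = K₁ * δ ^ η' + K₂ * δ ^ η' + K₃ * δ ^ η' := by ring
          rw [e2]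
          exact le_add_of_nonneg_right e1
  · push Not at hδc
    have hEm : MeasurableSet {z : ℍ | z ∈ K ∧ |Fv α β γ z| ≤ δ} :=
      (hK.isClosed.inter (isClosed_le (Fv_cont α β γ).abs continuous_const)).measurableSet
    have htriv := triv_bound hK (fun z hz => hz.1) hEm H q
    have hcd : δ₀ ^ η' ≤ δ ^ η' := Real.rpow_le_rpow hδ₀0.le hδc.le hη'0.le
    have hδ₀η : 0 < δ₀ ^ η' := Real.rpow_pos_of_pos hδ₀0 _
    refine cancel_ineq one_pos (by positivity) ?_ (by rw [ENNReal.ofReal_one, one_mul]; exact htriv)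
    have hn0 : (0 : ℝ) ≤ n := Nat.cast_nonneg n
    calc (n : ℝ) ≤ n + 1 := by linarith
      _ = 2 * K₃ * δ₀ ^ η' := by rw [hK₃]; field_simp
      _ ≤ 2 * (K₁ + K₂ + K₃) * δ ^ η' := by
          apply mul_le_mul _ hcd hδ₀η.le (by positivity)
          linarith
      _ = 2 * 1 * ((K₁ + K₂ + K₃) * δ ^ η') := by ring

end Pool.Agent.Run7.h176.NC
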